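import Pool.Agent.BBP.Stmts

/-! Module CONJ. -/

set_option autoImplicit false

open scoped BigOperators Polynomial Topology
open Metric Filter Finset

namespace Pool.Agent.BBP

namespace CONJX

/-- Extension of automorphisms of the base field to an algebraically closed field. -/
theorem ext_aut {F K ι : Type} [Field F] [Field K] [Algebra F K] [IsAlgClosed K] (v : ι → K)
    (hv : IsTranscendenceBasis F v) (τ : F ≃+* F) :
    ∃ σ : K ≃+* K, ∀ a : F, σ (algebraMap F K a) = algebraMap F K (τ a) := by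
  let _ := IsAlgClosed.isAlgClosure_of_transcendence_basis v hv
  let R := Algebra.adjoin F (Set.range v)
  let a1 : MvPolynomial ι F ≃+* R := hv.1.aevalEquiv.toRingEquiv
  let a2 : MvPolynomial ι F ≃+* MvPolynomial ι F := MvPolynomial.mapEquiv ι τ
  let e : R ≃+* R := a1.symm.trans (a2.trans a1)
  let σ : K ≃+* K := IsAlgClosure.equivOfEquiv K K e
  have key : ∀ p : MvPolynomial ι F, σ (MvPolynomial.aeval v p) = MvPolynomial.aeval v (a2 p) := by
    intro p
    have h1 : algebraMap R K (a1 p) = MvPolynomial.aeval v p := hv.1.algebraMap_aevalEquiv p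
    have h2 : algebraMap R K (a1 (a2 p)) = MvPolynomial.aeval v (a2 p) :=
      hv.1.algebraMap_aevalEquiv (a2 p)
    have h3 : σ (algebraMap R K (a1 p)) = algebraMap R K (e (a1 p)) :=
      IsAlgClosure.equivOfEquiv_algebraMap K K e (a1 p)
    have h4 : e (a1 p) = a1 (a2 p) := by
      show a1 (a2 (a1.symm (a1 p))) = a1 (a2 p)
      rw [RingEquiv.symm_apply_apply]
    rw [← h1, h3, h4, h2]
  refine ⟨σ, fun a => ?_⟩
  have h := key (MvPolynomial.C a)
  have h5 : a2 (MvPolynomial.C a) = MvPolynomial.C (τ a) := by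
    show (MvPolynomial.mapEquiv ι τ) (MvPolynomial.C a) = _
    simp
  rw [h5, MvPolynomial.aeval_C, MvPolynomial.aeval_C] at h
  exact h

/-- A ring automorphism of `ℂ` as an algebra automorphism. -/
theorem to_alg (σ : ℂ ≃+* ℂ) : ∃ σ' : ℂ ≃ₐ[ℚ] ℂ, ∀ z, σ' z = σ z :=
  ⟨AlgEquiv.ofRingEquiv (f := σ) (fun q => by simp), fun _ => rfl⟩

end CONJX

open CONJX in
theorem conj_proof : Stmt_Conj := by
  intro x y hx hxy
  have hy : IsAlgebraic ℚ y := by
    have h1 : minpoly ℚ x ≠ 0 := minpoly.ne_zero hx.isIntegral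
    rw [hxy] at h1
    exact (minpoly.ne_zero_iff.mp h1).isAlgebraic
  let F := algebraicClosure ℚ ℂ
  have hxF : x ∈ F := mem_algebraicClosure_iff.2 hx
  have hyF : y ∈ F := mem_algebraicClosure_iff.2 hy
  have hcl : IsAlgClosure ℚ F := algebraicClosure.isAlgClosure ℚ ℂ
  have hN : Normal ℚ F := (IsAlgClosure.isGalois ℚ F).to_normal
  have hc : IsConjRoot ℚ (⟨x, hxF⟩ : F) (⟨y, hyF⟩ : F) := by
    show minpoly ℚ (⟨x, hxF⟩ : F) = minpoly ℚ (⟨y, hyF⟩ : F)
    have h2 := minpoly.algebraMap_eq (A := ℚ) (B := F) (B' := ℂ)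
      (algebraMap F ℂ).injective ⟨x, hxF⟩
    have h3 := minpoly.algebraMap_eq (A := ℚ) (B := F) (B' := ℂ)
      (algebraMap F ℂ).injective ⟨y, hyF⟩
    rw [← h2, ← h3]
    exact hxy
  obtain ⟨τ, hτ⟩ := isConjRoot_iff_exists_algEquiv.mp hc.symm
  obtain ⟨ι, v, hv⟩ := exists_isTranscendenceBasis' F ℂ
  obtain ⟨σ, hσ⟩ := ext_aut v hv τ.toRingEquiv
  obtain ⟨σ', hσ'⟩ := to_alg σ
  refine ⟨σ', ?_⟩
  rw [hσ']
  have h4 := hσ ⟨x, hxF⟩
  have h5 : (τ.toRingEquiv ⟨x, hxF⟩ : F) = ⟨y, hyF⟩ := hτ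
  rw [h5] at h4
  exact h4

end Pool.Agent.BBP
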