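import Pool.Agent.BBP.Stmts

/-!
# BBP module CYCA: automorphisms acting on roots of unity
-/

namespace Pool.Agent.BBP

noncomputable section

namespace CYCAX

theorem prim (n : ℕ) (hn : 0 < n) : IsPrimitiveRoot (zt n) n := by
  unfold zt
  exact Complex.isPrimitiveRoot_exp n hn.ne'

end CYCAX

theorem cyca_proof (hC : Stmt_Conj) : Stmt_Cyca := by
  intro n a hn ha
  have h1 := CYCAX.prim n hn
  have h2 : IsPrimitiveRoot (zt n ^ a) n := h1.pow_of_coprime a ha
  refine hC (zt n) (zt n ^ a) ?_ ?_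
  · have : IsIntegral ℤ (zt n) := h1.isIntegral hn
    exact (this.tower_top (A := ℚ)).isAlgebraic
  · rw [← Polynomial.cyclotomic_eq_minpoly_rat h1 hn, ← Polynomial.cyclotomic_eq_minpoly_rat h2 hn]

end

end Pool.Agent.BBP
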