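import Pool.Agent.BBP.Stmts

open Polynomial Finset

namespace Pool.Agent.BBP

namespace CYCPX

/-- the value of the cyclotomic polynomial at ten -/
noncomputable def N (e : ℕ) : ℕ := ((Polynomial.cyclotomic e ℤ).eval 10).natAbs

theorem N_cast (e : ℕ) : ((N e : ℕ) : ℤ) = (Polynomial.cyclotomic e ℤ).eval 10 := by
  unfold N
  exact Int.natAbs_of_nonneg (le_of_lt (Polynomial.cyclotomic_pos' e (by norm_num)))

theorem N_pos (e : ℕ) : 0 < N e := by
  have h : (0 : ℤ) < (Polynomial.cyclotomic e ℤ).eval 10 :=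
    Polynomial.cyclotomic_pos' e (by norm_num)
  rw [← N_cast] at h
  exact_mod_cast h

theorem prod_N {e : ℕ} (he : 0 < e) : ∏ d ∈ e.divisors, N d = 10 ^ e - 1 := by
  have h := congrArg (Polynomial.eval (10 : ℤ)) (Polynomial.prod_cyclotomic_eq_X_pow_sub_one he ℤ)
  rw [Polynomial.eval_prod] at h
  simp only [← N_cast] at h
  simp at h
  have h1 : (1 : ℕ) ≤ 10 ^ e := Nat.one_le_pow _ _ (by norm_num)
  have : ((∏ d ∈ e.divisors, N d : ℕ) : ℤ) = ((10 ^ e - 1 : ℕ) : ℤ) := by
    push_cast [h1]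
    exact h
  exact_mod_cast this

theorem dvd_N_iff (P d : ℕ) [hP : Fact P.Prime] :
    P ∣ N d ↔ (Polynomial.cyclotomic d (ZMod P)).IsRoot 10 := by
  rw [Polynomial.IsRoot.def, ← Polynomial.map_cyclotomic_int d (ZMod P),
    Polynomial.eval_map]
  have h : (Polynomial.eval₂ (Int.castRingHom (ZMod P)) (10 : ZMod P)
      (Polynomial.cyclotomic d ℤ)) = (((Polynomial.cyclotomic d ℤ).eval 10 : ℤ) : ZMod P) := by
    have h2 := Polynomial.eval₂_at_intCast (Int.castRingHom (ZMod P)) 10 (p := Polynomial.cyclotomic d ℤ)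
    simpa using h2
  rw [h, ← N_cast]
  rw [Int.cast_natCast, ZMod.natCast_eq_zero_iff]

theorem orderOf_of_isPrimitiveRoot {P m : ℕ} (h : IsPrimitiveRoot (10 : ZMod P) m) :
    orderOf (10 : ZMod P) = m := h.eq_orderOf.symm

/-- divisibility by primes not dividing the index -/
theorem dvd_N_iff_of_not_dvd {P d : ℕ} [hP : Fact P.Prime] (hd : ¬ P ∣ d) :
    P ∣ N d ↔ orderOf (10 : ZMod P) = d := by
  have : NeZero (d : ZMod P) := ⟨by rwa [Ne, ZMod.natCast_eq_zero_iff]⟩
  rw [dvd_N_iff, Polynomial.isRoot_cyclotomic_iff]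
  constructor
  · intro h; exact h.eq_orderOf.symm
  · intro h; rw [← h]; exact IsPrimitiveRoot.orderOf _

theorem dvd_N_iff_of_pow {P k m : ℕ} [hP : Fact P.Prime] (hm : ¬ P ∣ m) :
    P ∣ N (P ^ k * m) ↔ orderOf (10 : ZMod P) = m := by
  have : NeZero (m : ZMod P) := ⟨by rwa [Ne, ZMod.natCast_eq_zero_iff]⟩
  rw [dvd_N_iff, Polynomial.isRoot_cyclotomic_prime_pow_mul_iff_of_charP (p := P)]
  constructor
  · intro h; exact h.eq_orderOf.symm
  · intro h; rw [← h]; exact IsPrimitiveRoot.orderOf _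

theorem orderOf_dvd_sub_one {P : ℕ} [hP : Fact P.Prime] (h : 0 < orderOf (10 : ZMod P)) :
    orderOf (10 : ZMod P) ∣ P - 1 := by
  apply ZMod.orderOf_dvd_card_sub_one
  intro h0
  rw [h0] at h
  simp [orderOf_zero] at h

theorem not_dvd_of_order {P e : ℕ} [hP : Fact P.Prime] (he : 0 < e)
    (h : orderOf (10 : ZMod P) = e) : ¬ P ∣ e := by
  intro hd
  have h1 : e ∣ P - 1 := by
    have := orderOf_dvd_sub_one (P := P) (by omega)
    rwa [h] at this
  have h2 := Nat.le_of_dvd (by have := hP.out.two_le; omega) (hd.trans h1)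
  have := hP.out.two_le
  omega

theorem N_dvd {e : ℕ} (he : 0 < e) : N e ∣ 10 ^ e - 1 := by
  rw [← prod_N he]
  exact Finset.dvd_prod_of_mem _ (by simp; omega)

/-- the second part -/
theorem val_of_order {P e : ℕ} [hP : Fact P.Prime] (he : 0 < e)
    (h : orderOf (10 : ZMod P) = e) :
    padicValNat P (N e) = padicValNat P (10 ^ e - 1) := by
  rw [← prod_N he]
  have hself : e ∈ e.divisors := by simp; omega
  rw [← Finset.mul_prod_erase _ _ hself]
  rw [padicValNat.mul (N_pos e).ne' (Finset.prod_ne_zero_iff.mpr fun d _ => (N_pos d).ne')]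
  have h0 : padicValNat P (∏ d ∈ e.divisors.erase e, N d) = 0 := by
    apply padicValNat.eq_zero_of_not_dvd
    intro hd
    rw [hP.out.prime.dvd_finsetProd_iff] at hd
    obtain ⟨d, hd1, hd2⟩ := hd
    rw [Finset.mem_erase, Nat.mem_divisors] at hd1
    have hPd : ¬ P ∣ d := fun h3 => not_dvd_of_order he h (h3.trans hd1.2.1)
    rw [dvd_N_iff_of_not_dvd hPd] at hd2
    exact hd1.1 (by omega)
  omega

theorem not_dvd_ten {P e : ℕ} (hP : P.Prime) (he : 0 < e) (h : P ∣ 10 ^ e - 1) : ¬ P ∣ 10 := by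
  intro h10
  have h1 : P ∣ 10 ^ e := h10.trans (dvd_pow_self _ (by omega))
  have h2 : (1 : ℕ) ≤ 10 ^ e := Nat.one_le_pow _ _ (by norm_num)
  have h3 : P ∣ 1 := by
    have := (Nat.dvd_sub h1 h)
    have h4 : 10 ^ e - (10 ^ e - 1) = 1 := by omega
    rwa [h4] at this
  exact hP.one_lt.ne' (Nat.dvd_one.mp h3)

/-- a prime dividing both the index and the value -/
theorem val_eq_one {P e : ℕ} [hP : Fact P.Prime] (he : 0 < e) (h1 : P ∣ e) (h2 : P ∣ N e) :
    padicValNat P (N e) = 1 ∧ ∀ Q, Q.Prime → Q ∣ e → Q ≤ P := by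
  obtain ⟨k, m, hm, rfl⟩ := Nat.exists_eq_pow_mul_and_not_dvd (n := e) (by omega) P hP.out.ne_one
  have hk : 0 < k := by
    rcases Nat.eq_zero_or_pos k with rfl | hk
    · simp at h1; exact absurd h1 hm
    · exact hk
  have hord := (dvd_N_iff_of_pow (k := k) hm).mp h2
  have hm0 : 0 < m := by
    rcases Nat.eq_zero_or_pos m with rfl | h
    · simp at he
    · exact h
  have hmP : m ∣ P - 1 := by
    have := orderOf_dvd_sub_one (P := P) (by omega)
    rwa [hord] at this
  have hP2 := hP.out.two_le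
  have hmlt : m ≤ P - 1 := Nat.le_of_dvd (by omega) hmP
  have h10 : ¬ P ∣ 10 := not_dvd_ten hP.out he (h2.trans (N_dvd he))
  have hodd : Odd P := by
    apply hP.out.odd_of_ne_two
    rintro rfl
    exact h10 (by norm_num)
  constructor
  · -- valuation one
    set Z := 10 ^ (P ^ (k - 1) * m) with hZ
    have hZP : Z ^ P = 10 ^ (P ^ k * m) := by
      rw [hZ, ← pow_mul]
      congr 1
      obtain ⟨k', rfl⟩ : ∃ k', k = k' + 1 := ⟨k - 1, by omega⟩
      simp [pow_succ]
      ring
    have hpos : 0 < P ^ (k - 1) * m := Nat.mul_pos (pow_pos hP.out.pos _) hm0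
    have hZ1 : 1 < Z := Nat.one_lt_pow (by omega) (by norm_num)
    have hZc : P ∣ Z - 1 := by
      rw [← Nat.modEq_iff_dvd' (by omega)]
      rw [← ZMod.natCast_eq_natCast_iff]
      rw [hZ]
      push_cast
      rw [mul_comm, pow_mul, ← hord, pow_orderOf_eq_one, one_pow]
    have hPZ : ¬ P ∣ Z := fun h => h10 (hP.out.dvd_of_dvd_pow h)
    have hlte := padicValNat.pow_sub_pow (p := P) hodd (x := Z) (y := 1) hZ1 hZc hPZ
      (n := P) hP.out.ne_zero
    rw [one_pow, hZP, padicValNat_self] at hlte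
    have hdiv : P ^ (k - 1) * m ∈ (P ^ k * m).properDivisors := by
      rw [Nat.mem_properDivisors]
      constructor
      · exact Nat.mul_dvd_mul_right (pow_dvd_pow _ (by omega)) _
      · exact Nat.mul_lt_mul_of_pos_right (Nat.pow_lt_pow_right (by omega) (by omega)) hm0
    have hmul := Polynomial.X_pow_sub_one_mul_cyclotomic_dvd_X_pow_sub_one_of_dvd ℤ hdiv
    obtain ⟨c, hc⟩ := hmul
    have hc2 := congrArg (Polynomial.eval (10 : ℤ)) hc
    simp only [Polynomial.eval_mul, Polynomial.eval_sub, Polynomial.eval_pow, Polynomial.eval_X,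
      Polynomial.eval_one] at hc2
    have hdvd : (Z - 1) * N (P ^ k * m) ∣ 10 ^ (P ^ k * m) - 1 := by
      have : (((Z - 1) * N (P ^ k * m) : ℕ) : ℤ) ∣ ((10 ^ (P ^ k * m) - 1 : ℕ) : ℤ) := by
        refine ⟨c.eval 10, ?_⟩
        have hA : (1 : ℕ) ≤ Z := by omega
        have hB : (1 : ℕ) ≤ 10 ^ (P ^ k * m) := Nat.one_le_pow _ _ (by norm_num)
        rw [Nat.cast_mul, N_cast, Nat.cast_sub hA, Nat.cast_sub hB, hZ]
        push_cast
        exact hc2
      exact_mod_cast this
    have hne : 10 ^ (P ^ k * m) - 1 ≠ 0 := by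
      have : 1 < 10 ^ (P ^ k * m) := Nat.one_lt_pow (by omega) (by norm_num)
      omega
    have hle := padicValNat_dvd_iff_le (p := P) hne (n := padicValNat P ((Z - 1) * N (P ^ k * m)))
    have hle2 : padicValNat P ((Z - 1) * N (P ^ k * m)) ≤ padicValNat P (10 ^ (P ^ k * m) - 1) :=
      hle.mp (pow_padicValNat_dvd.trans hdvd)
    rw [padicValNat.mul (by omega) (N_pos _).ne'] at hle2
    have hge : 1 ≤ padicValNat P (N (P ^ k * m)) :=
      one_le_padicValNat_of_dvd (N_pos _).ne' h2
    omega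
  · intro Q hQ hQe
    rcases (hQ.dvd_mul).mp hQe with h | h
    · have := hQ.dvd_of_dvd_pow h
      exact Nat.le_of_dvd hP.out.pos this
    · have := Nat.le_of_dvd hm0 h
      omega

end CYCPX

open CYCPX in
theorem cycp_proof : Stmt_Cycp := by
  intro e he
  constructor
  · classical
    have hN := N_pos e
    have hfac : N e = ∏ P ∈ (N e).primeFactors, P ^ padicValNat P (N e) := by
      conv_lhs => rw [← Nat.prod_factorization_pow_eq_self hN.ne']
      rw [Nat.prod_factorization_eq_prod_primeFactors]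
      apply Finset.prod_congr rfl
      intro P hP
      rw [Nat.factorization_def _ (Nat.prime_of_mem_primeFactors hP)]
    rw [← Finset.prod_filter_mul_prod_filter_not _ (fun P => ¬ P ∣ e)] at hfac
    have h1 : ∏ P ∈ (N e).primeFactors with ¬ P ∣ e, P ^ padicValNat P (N e) = Ae e := by
      unfold Ae
      apply Finset.prod_congr
      · ext P
        simp only [Finset.mem_filter, Nat.mem_primeFactors]
        constructor
        · rintro ⟨⟨hP, hPN, -⟩, hPe⟩
          have := Fact.mk hP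
          refine ⟨⟨hP, hPN.trans (N_dvd he), ?_⟩, (dvd_N_iff_of_not_dvd hPe).mp hPN⟩
          have : 1 < 10 ^ e := Nat.one_lt_pow (by omega) (by norm_num)
          omega
        · rintro ⟨⟨hP, -, -⟩, hord⟩
          have := Fact.mk hP
          have hPe := not_dvd_of_order he hord
          exact ⟨⟨hP, (dvd_N_iff_of_not_dvd hPe).mpr hord, hN.ne'⟩, hPe⟩
      · intro P hP
        simp only [Finset.mem_filter, Nat.mem_primeFactors] at hP
        have := Fact.mk hP.1.1
        rw [val_of_order he hP.2]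
    rw [h1] at hfac
    simp only [not_not] at hfac
    rcases Finset.eq_empty_or_nonempty ((N e).primeFactors.filter (fun P => P ∣ e)) with h | h
    · refine ⟨1, Or.inl rfl, ?_⟩
      rw [h, Finset.prod_empty] at hfac
      rw [← N_cast, hfac]
    · obtain ⟨P, hP⟩ := h
      have hP' := hP
      simp only [Finset.mem_filter, Nat.mem_primeFactors] at hP'
      obtain ⟨⟨hPp, hPN, -⟩, hPe⟩ := hP'
      have := Fact.mk hPp
      have hv := val_eq_one he hPe hPN
      have hs : (N e).primeFactors.filter (fun P => P ∣ e) = {P} := by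
        ext Q
        rw [Finset.mem_singleton]
        constructor
        · intro hQ
          simp only [Finset.mem_filter, Nat.mem_primeFactors] at hQ
          obtain ⟨⟨hQp, hQN, -⟩, hQe⟩ := hQ
          have := Fact.mk hQp
          have hv2 := val_eq_one he hQe hQN
          exact le_antisymm (hv.2 Q hQp hQe) (hv2.2 P hPp hPe)
        · rintro rfl; exact hP
      rw [hs, Finset.prod_singleton, hv.1, pow_one] at hfac
      refine ⟨P, Or.inr ⟨hPp, hPe, not_dvd_ten hPp he (hPN.trans (N_dvd he))⟩, ?_⟩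
      rw [← N_cast, ← hfac]
  · intro P hP hord
    have := Fact.mk hP
    exact val_of_order he hord

end Pool.Agent.BBP
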