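import Pool.Agent.BBP.Stmts

/-!
# BBP, module DNUM: the numerical inequality
-/

open scoped BigOperators Polynomial Topology
open Finset

namespace Pool.Agent.BBP

namespace DNUMX

/-- `10 ^ (2/5) < 2.52` -/
theorem ten_two_fifth : (10 : ℝ) ^ ((2 : ℝ) / 5) < 2.52 := by
  have h0 : (0 : ℝ) ≤ (10 : ℝ) ^ ((2 : ℝ) / 5) := by positivity
  have h : ((10 : ℝ) ^ ((2 : ℝ) / 5)) ^ 5 = 100 := by
    rw [← Real.rpow_natCast, ← Real.rpow_mul (by norm_num)]
    norm_num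
  by_contra hc
  push Not at hc
  have : (2.52 : ℝ) ^ 5 ≤ ((10 : ℝ) ^ ((2 : ℝ) / 5)) ^ 5 := pow_le_pow_left₀ (by norm_num) hc 5
  rw [h] at this
  norm_num at this

theorem rho_bound (ρ : ℝ) (h0 : 0 ≤ ρ) (h : ρ ^ 2 = 1 / 10) : ρ < 0.3163 := by
  nlinarith

end DNUMX

open DNUMX

theorem dnum_proof : Stmt_Dnum := by
  intro N c β hc hcN hβ
  have hN : 0 < N := by omega
  have hNr : (0 : ℝ) < N := by exact_mod_cast hN
  have hcr : (0 : ℝ) < c := by exact_mod_cast hc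
  have hcNr : 5 * (c : ℝ) ≤ 2 * N := by exact_mod_cast hcN
  have hβ0 : 0 < β := by rw [hβ]; positivity
  have hρ : (β ^ N) ^ 2 = 1 / 10 := by
    rw [hβ, ← pow_mul, ← Real.rpow_natCast, ← Real.rpow_mul (by norm_num)]
    push_cast
    rw [show -1 / (2 * (N : ℝ)) * (N * 2) = -1 by field_simp, Real.rpow_neg_one]
    norm_num
  set ρ := β ^ N with hρd
  have hρ0 : 0 < ρ := pow_pos hβ0 N
  have hρ1 : ρ < 0.3163 := rho_bound ρ hρ0.le hρ
  have hβc : (β ^ (2 * c))⁻¹ ≤ 2.52 := by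
    have e1 : (β ^ (2 * c))⁻¹ = (10 : ℝ) ^ ((c : ℝ) / N) := by
      rw [hβ, ← Real.rpow_natCast, ← Real.rpow_mul (by norm_num), ← Real.rpow_neg (by norm_num)]
      congr 1
      push_cast
      field_simp
    rw [e1]
    have h2 : (c : ℝ) / N ≤ 2 / 5 := by rw [div_le_div_iff₀ hNr (by norm_num)]; linarith
    exact (Real.rpow_le_rpow_of_exponent_le (by norm_num) h2).trans ten_two_fifth.le
  -- the bound of the terms
  have hterm : ∀ j : ℕ, β ^ (c + N * (j + 1)) / (c + N * (j + 1) : ℕ) +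
      β ^ (N * (j + 1) - c) / (N * (j + 1) - c : ℕ) ≤ (β ^ c / c * 1.966) * ρ ^ (j + 1) := by
    intro j
    have hj : (1 : ℝ) ≤ (j : ℝ) + 1 := by
      have : (0 : ℝ) ≤ j := Nat.cast_nonneg j
      linarith
    have hle : c ≤ N * (j + 1) := by nlinarith
    have hNj : (N : ℝ) ≤ N * ((j : ℝ) + 1) := by nlinarith
    have a1 : β ^ (c + N * (j + 1)) = β ^ c * ρ ^ (j + 1) := by
      rw [pow_add, pow_mul]
    have a2 : β ^ (N * (j + 1) - c) = β ^ c * ρ ^ (j + 1) * (β ^ (2 * c))⁻¹ := by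
      have h3 : β ^ (N * (j + 1) - c) * β ^ c = ρ ^ (j + 1) := by
        rw [← pow_add, Nat.sub_add_cancel hle, pow_mul]
      have h4 : β ^ c ≠ 0 := (pow_pos hβ0 c).ne'
      have h5 : β ^ (2 * c) = β ^ c * β ^ c := by rw [two_mul, pow_add]
      rw [h5, ← h3]
      field_simp
    have b1 : (c : ℝ) / ((c + N * (j + 1) : ℕ) : ℝ) ≤ 2 / 7 := by
      push_cast
      rw [div_le_div_iff₀ (by positivity) (by norm_num)]
      nlinarith
    have b2 : (c : ℝ) / ((N * (j + 1) - c : ℕ) : ℝ) ≤ 2 / 3 := by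
      rw [Nat.cast_sub hle]
      push_cast
      have : 0 < (N : ℝ) * ((j : ℝ) + 1) - c := by nlinarith
      rw [div_le_div_iff₀ this (by norm_num)]
      nlinarith
    have hpos : 0 < β ^ c / c * ρ ^ (j + 1) := by positivity
    have c1 : β ^ (c + N * (j + 1)) / ((c + N * (j + 1) : ℕ) : ℝ)
        = β ^ c / c * ρ ^ (j + 1) * (c / ((c + N * (j + 1) : ℕ) : ℝ)) := by
      rw [a1]; field_simp
    have c2 : β ^ (N * (j + 1) - c) / ((N * (j + 1) - c : ℕ) : ℝ)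
        = β ^ c / c * ρ ^ (j + 1) * ((β ^ (2 * c))⁻¹ * (c / ((N * (j + 1) - c : ℕ) : ℝ))) := by
      rw [a2]; field_simp
    rw [c1, c2, ← mul_add]
    have d1 : (β ^ (2 * c))⁻¹ * (c / ((N * (j + 1) - c : ℕ) : ℝ)) ≤ 2.52 * (2 / 3) :=
      mul_le_mul hβc b2 (by positivity) (by norm_num)
    calc β ^ c / c * ρ ^ (j + 1) * (c / ((c + N * (j + 1) : ℕ) : ℝ)
          + (β ^ (2 * c))⁻¹ * (c / ((N * (j + 1) - c : ℕ) : ℝ)))
        ≤ β ^ c / c * ρ ^ (j + 1) * (2 / 7 + 2.52 * (2 / 3)) :=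
          mul_le_mul_of_nonneg_left (add_le_add b1 d1) hpos.le
      _ ≤ β ^ c / c * ρ ^ (j + 1) * 1.966 :=
          mul_le_mul_of_nonneg_left (by norm_num) hpos.le
      _ = (β ^ c / c * 1.966) * ρ ^ (j + 1) := by ring
  have hnn : ∀ j : ℕ, 0 ≤ β ^ (c + N * (j + 1)) / ((c + N * (j + 1) : ℕ) : ℝ) +
      β ^ (N * (j + 1) - c) / ((N * (j + 1) - c : ℕ) : ℝ) := fun j => by positivity
  have hgeo : HasSum (fun j : ℕ => (β ^ c / c * 1.966) * ρ ^ (j + 1))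
      ((β ^ c / c * 1.966) * (ρ * (1 - ρ)⁻¹)) := by
    have h6 := ((hasSum_geometric_of_lt_one hρ0.le (by linarith : ρ < 1)).mul_left ρ).mul_left
      (β ^ c / c * 1.966)
    have e : (fun j : ℕ => (β ^ c / c * 1.966) * ρ ^ (j + 1))
        = fun j : ℕ => β ^ c / c * 1.966 * (ρ * ρ ^ j) := by
      funext j; rw [pow_succ]; ring
    rw [e]; exact h6
  have hs : Summable (fun j : ℕ => β ^ (c + N * (j + 1)) / ((c + N * (j + 1) : ℕ) : ℝ) +
      β ^ (N * (j + 1) - c) / ((N * (j + 1) - c : ℕ) : ℝ)) :=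
    Summable.of_nonneg_of_le hnn hterm hgeo.summable
  have hle := hs.tsum_le_tsum hterm hgeo.summable
  rw [hgeo.tsum_eq] at hle
  refine lt_of_le_of_lt hle ?_
  have hbc : 0 < β ^ c / c := by positivity
  have h7 : 1.966 * (ρ * (1 - ρ)⁻¹) < 1 := by
    have h8 : 0 < 1 - ρ := by linarith
    rw [← div_eq_mul_inv, ← mul_div_assoc, div_lt_one h8]
    linarith
  calc β ^ c / c * 1.966 * (ρ * (1 - ρ)⁻¹) = β ^ c / c * (1.966 * (ρ * (1 - ρ)⁻¹)) := by ring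
    _ < β ^ c / c * 1 := mul_lt_mul_of_pos_left h7 hbc
    _ = β ^ c / c := mul_one _

end Pool.Agent.BBP
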