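import Pool.Agent.BBP.Stmts

/-!
# BBP, module EAUX: the auxiliary polynomial for several points, with sharp constants
(adapted from Pool/Agent/FDR/SL/SLAUX.lean of helper94)
-/

open scoped BigOperators Polynomial Topology
open Metric Filter
open Pool.Agent.FDR

namespace Pool.Agent.BBP

noncomputable section

namespace EAUXX

/-! ## Words with given counts -/

/-- The word with `b i` letters `i`. -/
def lb {d : ℕ} (b : Fin d → ℕ) : List (Fin d) :=
  (List.ofFn (fun i : Fin d => List.replicate (b i) i)).flatten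

theorem lb_length {d : ℕ} (b : Fin d → ℕ) : (lb b).length = ∑ i, b i := by
  unfold lb
  rw [List.length_flatten, List.map_ofFn, List.sum_ofFn]
  simp

theorem lb_count {d : ℕ} (b : Fin d → ℕ) (a : Fin d) : (lb b).count a = b a := by
  unfold lb
  rw [List.count_flatten, List.map_ofFn, List.sum_ofFn]
  simp [List.count_replicate]

theorem perm_lb {d : ℕ} (l : List (Fin d)) : l.Perm (lb (fun i => l.count i)) := by
  rw [List.perm_iff_count]
  intro a
  rw [lb_count]

/-! ## Elementary inequalities -/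

theorem pow_eq_exp {x : ℝ} (hx : 0 < x) (n : ℕ) : x ^ n = Real.exp (n * Real.log x) := by
  rw [Real.exp_nat_mul, Real.exp_log hx]

theorem log_le_self {c : ℝ} (hc : 1 ≤ c) : Real.log c ≤ c :=
  (Real.log_le_sub_one_of_pos (by linarith)).trans (by linarith)

/-- `c ^ S ≤ exp (c s X)` if `S ≤ s X`. -/
theorem const_pow_le {c s X : ℝ} (hc : 1 ≤ c) {S : ℕ} (hS : (S : ℝ) ≤ s * X) :
    c ^ S ≤ Real.exp (c * s * X) := by
  have hc0 : 0 < c := by linarith
  rw [pow_eq_exp hc0]
  refine Real.exp_le_exp.2 ?_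
  have h0 : (0 : ℝ) ≤ S := Nat.cast_nonneg S
  have h2 : (S : ℝ) * Real.log c ≤ (s * X) * c :=
    mul_le_mul hS (log_le_self hc) (Real.log_nonneg hc) (h0.trans hS)
  calc (S : ℝ) * Real.log c ≤ (s * X) * c := h2
    _ = c * s * X := by ring

theorem fin_sum_le {m L : ℕ} (e : Fin m → Fin L) : ∑ i, (e i : ℕ) ≤ m * L := by
  calc ∑ i, (e i : ℕ) ≤ ∑ _i : Fin m, L := Finset.sum_le_sum (fun i _ => (e i).2.le)
    _ = m * L := by simp

theorem norm_sigma_natpow {K : IntermediateField ℚ ℂ} (σ : K →+* ℂ) (D S : ℕ) (x : K) :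
    ‖σ ((D : K) ^ S * x)‖ = (D : ℝ) ^ S * ‖σ x‖ := by
  rw [map_mul, map_pow, map_natCast, norm_mul, norm_pow, Complex.norm_natCast]

/-- Uniform bounds for finitely many points. -/
theorem bound_all (hBound : Stmt_Bound) (d n m : ℕ) (K : IntermediateField ℚ ℂ)
    (hK : FiniteDimensional ℚ K) (P : Fin d → Fin n → MvPolynomial (Fin n) K)
    (Q : Fin m → MvPolynomial (Fin n) K) (ι : Type) [Fintype ι] [Nonempty ι]
    (a : ι → Fin n → K) : ∃ (C : ℝ) (D : ℕ), 1 ≤ C ∧ 0 < D ∧
  ∀ x, ∀ (l : List (Fin d)) (e : Fin m → ℕ) (S : ℕ), ∑ i, e i ≤ S → l.length ≤ S → 1 ≤ S →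
    (∀ σ : K →+* ℂ, ‖σ (MvPolynomial.eval (a x) (dops P l (∏ i, Q i ^ e i)))‖ ≤
      C ^ S * (S : ℝ) ^ l.length) ∧
    IsIntegral ℤ ((D : K) ^ S * MvPolynomial.eval (a x) (dops P l (∏ i, Q i ^ e i))) := by
  classical
  choose C D hC hD hB using fun x => hBound d n m K hK P Q (a x)
  have hCle : ∀ x, C x ≤ ∑ y, C y := fun x =>
    Finset.single_le_sum (f := C) (fun y _ => by linarith [hC y]) (Finset.mem_univ x)
  refine ⟨∑ y, C y, ∏ y, D y, ?_, Finset.prod_pos fun y _ => hD y, ?_⟩
  · obtain ⟨x⟩ := (inferInstance : Nonempty ι)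
    exact (hC x).trans (hCle x)
  · intro x l e S h1 h2 h3
    obtain ⟨h4, h5⟩ := hB x l e S h1 h2 h3
    refine ⟨fun σ => (h4 σ).trans ?_, ?_⟩
    · refine mul_le_mul_of_nonneg_right ?_ (by positivity)
      exact pow_le_pow_left₀ (by linarith [hC x]) (hCle x) S
    · have h6 : ((∏ y, D y : ℕ) : K) = (D x : K) * ((∏ y ∈ Finset.univ.erase x, D y : ℕ) : K) := by
        rw [← Finset.mul_prod_erase Finset.univ D (Finset.mem_univ x)]
        push_cast
        ring
      have h7 : ((∏ y, D y : ℕ) : K) ^ S *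
          MvPolynomial.eval (a x) (dops P l (∏ i, Q i ^ e i)) =
          (((∏ y ∈ Finset.univ.erase x, D y) ^ S : ℕ) : K) *
            ((D x : K) ^ S * MvPolynomial.eval (a x) (dops P l (∏ i, Q i ^ e i))) := by
        rw [h6]
        push_cast
        ring
      rw [h7]
      refine IsIntegral.mul ?_ h5
      generalize (∏ y ∈ Finset.univ.erase x, D y) ^ S = N
      have h8 : ((N : ℕ) : K) = algebraMap ℤ K (N : ℤ) := by simp
      rw [h8]
      exact isIntegral_algebraMap

end EAUXX

open EAUXX in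
theorem eaux_proof (hBound : Stmt_Bound) (hSieg : Stmt_Sieg) (hLiou : Stmt_Liou) :
    Stmt_Eaux := by
  classical
  intro d n hd K hK P Q ι _ _ a hcomm
  obtain ⟨C1, D, hC1, hD, hB⟩ := bound_all hBound d n (d + 1) K hK P Q ι a
  obtain ⟨C2, hC2, hS⟩ := hSieg K hK
  have hDr : (1 : ℝ) ≤ D := by exact_mod_cast hD
  set c : ℝ := D * C1 with hc
  have hc1 : 1 ≤ c := by nlinarith
  set q : ℕ := Fintype.card ι with hq
  have hq1 : 1 ≤ q := Fintype.card_pos
  have hq1r : (1 : ℝ) ≤ q := by exact_mod_cast hq1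
  set k : ℕ := Module.finrank ℚ K with hk
  set s : ℝ := 1 + (d + 1) * q with hs
  have hs1 : 1 ≤ s := by
    have : (0 : ℝ) ≤ (d + 1) * q := by positivity
    linarith
  set Ca : ℝ := c * s + s with hCa
  set Cp : ℝ := C2 + (d + 1) * q + Ca with hCp
  set Ce : ℝ := (d + 1) * q + Cp + C1 * s + s with hCe
  have hCa0 : 0 ≤ Ca := by positivity
  have hCp0 : 0 ≤ Cp := by positivity
  have hCe0 : 0 ≤ Ce := by positivity
  have hDs : (0 : ℝ) ≤ D * s := by positivity
  refine ⟨1 + Cp + (Ce + D * s), by linarith, ?_⟩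
  intro U hU
  set L : ℕ := 2 * q * U ^ d with hL
  set T : ℕ := U ^ (d + 1) with hT
  have hT1 : 1 ≤ T := Nat.one_le_pow _ _ (by omega)
  have hUd : 1 ≤ U ^ d := Nat.one_le_pow _ _ (by omega)
  have hL1 : 1 ≤ L := Nat.mul_pos (Nat.mul_pos (by norm_num) hq1) hUd
  have hLT : L ≤ q * T := by
    rw [hL, hT, pow_succ]
    calc 2 * q * U ^ d = q * (U ^ d * 2) := by ring
      _ ≤ q * (U ^ d * U) := Nat.mul_le_mul_left _ (Nat.mul_le_mul_left _ hU)
  have hT1r : (1 : ℝ) ≤ T := by exact_mod_cast hT1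
  have hlogT : 0 ≤ Real.log T := Real.log_nonneg hT1r
  have hLTr : (L : ℝ) ≤ q * T := by exact_mod_cast hLT
  have hL1r : (1 : ℝ) ≤ L := by exact_mod_cast hL1
  -- bound for powers of `L`
  have hLpow : ∀ X : ℝ, (T : ℝ) ≤ X → (L : ℝ) ^ (d + 1) ≤ Real.exp ((d + 1) * q * X) := by
    intro X hX
    rw [pow_eq_exp (by linarith)]
    refine Real.exp_le_exp.2 ?_
    have h1 : Real.log L ≤ q * X := (log_le_self hL1r).trans (hLTr.trans
      (mul_le_mul_of_nonneg_left hX (by linarith)))
    push_cast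
    calc ((d : ℝ) + 1) * Real.log L ≤ (d + 1) * (q * X) :=
          mul_le_mul_of_nonneg_left h1 (by positivity)
      _ = (d + 1) * q * X := by ring
  set S : ℕ := T + (d + 1) * L with hSdef
  have hS1 : 1 ≤ S := by omega
  have hSr : (S : ℝ) ≤ s * T := by
    rw [hSdef, hs]
    push_cast
    have : ((d : ℝ) + 1) * L ≤ (d + 1) * (q * T) := mul_le_mul_of_nonneg_left hLTr (by positivity)
    linarith
  have hSpos : (0 : ℝ) < S := by exact_mod_cast hS1
  have hS1r : (1 : ℝ) ≤ S := by exact_mod_cast hS1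
  have hlogS : Real.log S ≤ Real.log T + s := by
    have h1 := Real.log_le_log hSpos hSr
    rw [Real.log_mul (by linarith) (by linarith)] at h1
    have h2 := log_le_self hs1
    linarith
  -- the Siegel system
  set A : ℝ := Real.exp (T * Real.log T + Ca * T) with hA
  have hA1 : 1 ≤ A := Real.one_le_exp (by positivity)
  have hrow : ∀ (x : ι) (b : Fin d → Fin T) (e : Fin (d + 1) → Fin L), ∑ i, (b i : ℕ) < T →
      (∀ σ : K →+* ℂ, ‖σ ((D : K) ^ S * MvPolynomial.eval (a x)
        (dops P (lb (fun i => (b i : ℕ))) (∏ i, Q i ^ (e i : ℕ))))‖ ≤ A) ∧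
      IsIntegral ℤ ((D : K) ^ S * MvPolynomial.eval (a x)
        (dops P (lb (fun i => (b i : ℕ))) (∏ i, Q i ^ (e i : ℕ)))) := by
    intro x b e hb
    have hlen : (lb (fun i => (b i : ℕ))).length ≤ T := by
      rw [lb_length]
      exact hb.le
    have he := fin_sum_le e
    obtain ⟨h1, h2⟩ := hB x (lb (fun i => (b i : ℕ))) (fun i => (e i : ℕ)) S
      (he.trans (by omega)) (hlen.trans (by omega)) hS1
    refine ⟨fun σ => ?_, h2⟩
    rw [norm_sigma_natpow]
    have h3 : (S : ℝ) ^ (lb (fun i => (b i : ℕ))).length ≤ (S : ℝ) ^ T :=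
      pow_le_pow_right₀ hS1r hlen
    have h4 : (S : ℝ) ^ T ≤ Real.exp (T * Real.log T + s * T) := by
      rw [pow_eq_exp hSpos]
      refine Real.exp_le_exp.2 ?_
      calc (T : ℝ) * Real.log S ≤ T * (Real.log T + s) :=
            mul_le_mul_of_nonneg_left hlogS (by positivity)
        _ = T * Real.log T + s * T := by ring
    have h5 : c ^ S ≤ Real.exp (c * s * T) := const_pow_le hc1 hSr
    calc (D : ℝ) ^ S * ‖σ (MvPolynomial.eval (a x)
          (dops P (lb (fun i => (b i : ℕ))) (∏ i, Q i ^ (e i : ℕ))))‖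
        ≤ (D : ℝ) ^ S * (C1 ^ S * (S : ℝ) ^ (lb (fun i => (b i : ℕ))).length) :=
          mul_le_mul_of_nonneg_left (h1 σ) (by positivity)
      _ = c ^ S * (S : ℝ) ^ (lb (fun i => (b i : ℕ))).length := by rw [hc, mul_pow]; ring
      _ ≤ Real.exp (c * s * T) * Real.exp (T * Real.log T + s * T) :=
          mul_le_mul h5 (h3.trans h4) (by positivity) (by positivity)
      _ = A := by rw [← Real.exp_add, hA, hCa]; congr 1; ring
  obtain ⟨p, hp0, hpint, hpz, hpσ⟩ := hS (ι × (Fin d → Fin T)) (Fin (d + 1) → Fin L)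
    (fun b e => if ∑ i, (b.2 i : ℕ) < T then (D : K) ^ S * MvPolynomial.eval (a b.1)
      (dops P (lb (fun i => (b.2 i : ℕ))) (∏ i, Q i ^ (e i : ℕ))) else 0) A hA1
    (by simp only [Fintype.card_fun, Fintype.card_fin]; exact Nat.pow_pos hL1)
    (by
      simp only [Fintype.card_prod, Fintype.card_fun, Fintype.card_fin]
      rw [← hq, hT, hL, mul_pow, ← pow_mul, ← pow_mul, mul_comm (d + 1) d, ← mul_assoc]
      refine Nat.mul_le_mul_right _ ?_
      calc 2 * q = (2 * q) ^ 1 := (pow_one _).symm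
        _ ≤ (2 * q) ^ (d + 1) := Nat.pow_le_pow_right (by omega) (by omega))
    (fun b e => by
      split_ifs with h
      · exact (hrow b.1 b.2 e h).2
      · exact isIntegral_zero)
    (fun b e σ => by
      split_ifs with h
      · exact (hrow b.1 b.2 e h).1 σ
      · rw [map_zero, norm_zero]
        linarith)
  have hcardβ : ((Fintype.card (Fin (d + 1) → Fin L) : ℕ) : ℝ) = (L : ℝ) ^ (d + 1) := by
    simp [Fintype.card_fin]
  have hpB : ∀ e, ∀ σ : K →+* ℂ, ‖σ (p e)‖ ≤ Real.exp (T * Real.log T + Cp * T) := by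
    intro e σ
    refine (hpσ e σ).trans ?_
    rw [hcardβ]
    have h1 : C2 ≤ Real.exp (C2 * T) := by
      have h2 : C2 ≤ Real.exp C2 := by linarith [Real.add_one_le_exp C2]
      refine h2.trans (Real.exp_le_exp.2 ?_)
      exact le_mul_of_one_le_right (by linarith) hT1r
    calc C2 * (L : ℝ) ^ (d + 1) * A
        ≤ Real.exp (C2 * T) * Real.exp ((d + 1) * q * T) * A := by
          refine mul_le_mul_of_nonneg_right ?_ (by positivity)
          exact mul_le_mul h1 (hLpow T le_rfl) (by positivity) (by positivity)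
      _ = Real.exp (T * Real.log T + Cp * T) := by
          rw [hA, ← Real.exp_add, ← Real.exp_add, hCp]
          congr 1
          ring
  refine ⟨p, hp0, ?_, ?_, ?_⟩
  · intro e
    have h1 := hpB e (algebraMap K ℂ)
    refine h1.trans (Real.exp_le_exp.2 ?_)
    have h2 : Cp * T ≤ (1 + Cp + (Ce + D * s)) * T :=
      mul_le_mul_of_nonneg_right (by linarith) (by linarith)
    linarith
  · intro x l hl
    have hDK : (D : K) ≠ 0 := by exact_mod_cast (by omega : D ≠ 0)
    have h1 := hpz (x, fun i => ⟨l.count i, lt_of_le_of_lt List.count_le_length hl⟩)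
    have h0 : ∑ i, l.count i < T := by
      have h3 := lb_length (fun i => l.count i)
      rw [← (perm_lb l).length_eq] at h3
      rw [← h3]
      exact hl
    have h2 : (D : K) ^ S * ∑ e, p e * MvPolynomial.eval (a x)
        (dops P l (∏ i, Q i ^ ((e i : ℕ)))) = 0 := by
      rw [← h1, Finset.mul_sum]
      refine Finset.sum_congr rfl (fun e _ => ?_)
      rw [if_pos h0, hcomm x l (lb (fun i => l.count i)) (perm_lb l)]
      ring
    exact (mul_eq_zero.1 h2).resolve_left (pow_ne_zero _ hDK)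
  · intro x l hl hne
    set m : ℕ := l.length with hm
    have hmT : T ≤ m := hl
    have hmTr : (T : ℝ) ≤ m := by exact_mod_cast hmT
    have hm1 : (1 : ℝ) ≤ m := hT1r.trans hmTr
    have hlogm : 0 ≤ Real.log m := Real.log_nonneg hm1
    have hTm : (T : ℝ) * Real.log T ≤ m * Real.log m :=
      mul_le_mul hmTr (Real.log_le_log (by linarith) hmTr) hlogT (by linarith)
    set S' : ℕ := m + (d + 1) * L with hS'
    have hS'1 : 1 ≤ S' := by omega
    have hS'r : (S' : ℝ) ≤ s * m := by
      rw [hS', hs]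
      push_cast
      have h1 : ((d : ℝ) + 1) * L ≤ (d + 1) * (q * m) :=
        mul_le_mul_of_nonneg_left (hLTr.trans (mul_le_mul_of_nonneg_left hmTr (by linarith)))
          (by positivity)
      linarith
    have hS'pos : (0 : ℝ) < S' := by exact_mod_cast hS'1
    have hlogS' : Real.log S' ≤ Real.log m + s := by
      have h1 := Real.log_le_log hS'pos hS'r
      rw [Real.log_mul (by linarith) (by linarith)] at h1
      have h2 := log_le_self hs1
      linarith
    have hbnd : ∀ e : Fin (d + 1) → Fin L, (∀ σ : K →+* ℂ, ‖σ (MvPolynomial.eval (a x)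
        (dops P l (∏ i, Q i ^ (e i : ℕ))))‖ ≤ C1 ^ S' * (S' : ℝ) ^ m) ∧
        IsIntegral ℤ ((D : K) ^ S' * MvPolynomial.eval (a x)
          (dops P l (∏ i, Q i ^ (e i : ℕ)))) := by
      intro e
      exact hB x l (fun i => (e i : ℕ)) S' ((fin_sum_le e).trans (by omega)) (by omega) hS'1
    set y : K := ∑ e, p e * MvPolynomial.eval (a x) (dops P l (∏ i, Q i ^ (e i : ℕ))) with hy
    have hyint : IsIntegral ℤ (((D ^ S' : ℕ) : K) * y) := by
      rw [hy, Finset.mul_sum]
      refine IsIntegral.sum _ (fun e _ => ?_)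
      have h1 := (hpint e).mul (hbnd e).2
      have h2 : ((D ^ S' : ℕ) : K) * (p e * MvPolynomial.eval (a x)
          (dops P l (∏ i, Q i ^ (e i : ℕ)))) = p e * ((D : K) ^ S' * MvPolynomial.eval (a x)
          (dops P l (∏ i, Q i ^ (e i : ℕ)))) := by
        push_cast
        ring
      rw [h2]
      exact h1
    have hyσ : ∀ σ : K →+* ℂ, ‖σ y‖ ≤ Real.exp (2 * (m * Real.log m) + Ce * m) := by
      intro σ
      rw [hy, map_sum]
      have h1 : ∀ e ∈ (Finset.univ : Finset (Fin (d + 1) → Fin L)),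
          ‖σ (p e * MvPolynomial.eval (a x) (dops P l (∏ i, Q i ^ (e i : ℕ))))‖ ≤
          Real.exp (m * Real.log m + Cp * m) * (C1 ^ S' * (S' : ℝ) ^ m) := by
        intro e _
        rw [map_mul, norm_mul]
        refine mul_le_mul ((hpB e σ).trans (Real.exp_le_exp.2 ?_)) ((hbnd e).1 σ)
          (norm_nonneg _) (by positivity)
        exact add_le_add hTm (mul_le_mul_of_nonneg_left hmTr hCp0)
      refine (norm_sum_le_of_le _ h1).trans ?_
      rw [Finset.sum_const, Finset.card_univ, nsmul_eq_mul, hcardβ]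
      have h2 := hLpow m hmTr
      have h4 : C1 ^ S' ≤ Real.exp (C1 * s * m) := const_pow_le hC1 hS'r
      have h5 : (S' : ℝ) ^ m ≤ Real.exp (m * Real.log m + s * m) := by
        rw [pow_eq_exp hS'pos]
        refine Real.exp_le_exp.2 ?_
        calc (m : ℝ) * Real.log S' ≤ m * (Real.log m + s) :=
              mul_le_mul_of_nonneg_left hlogS' (by positivity)
          _ = m * Real.log m + s * m := by ring
      calc (L : ℝ) ^ (d + 1) * (Real.exp (m * Real.log m + Cp * m) *
            (C1 ^ S' * (S' : ℝ) ^ m))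
          ≤ Real.exp ((d + 1) * q * m) * (Real.exp (m * Real.log m + Cp * m) *
            (Real.exp (C1 * s * m) * Real.exp (m * Real.log m + s * m))) := by
            refine mul_le_mul h2 ?_ (by positivity) (by positivity)
            refine mul_le_mul_of_nonneg_left ?_ (by positivity)
            exact mul_le_mul h4 h5 (by positivity) (by positivity)
        _ = Real.exp (2 * (m * Real.log m) + Ce * m) := by
            rw [← Real.exp_add, ← Real.exp_add, ← Real.exp_add, hCe]
            congr 1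
            ring
    have hLi := hLiou K hK y hne (Real.exp (2 * (m * Real.log m) + Ce * m)) (D ^ S')
      (Real.one_le_exp (by positivity)) (Nat.pow_pos hD) hyint hyσ
    rw [← hk] at hLi
    have h6 : (((D ^ S' : ℕ) : ℝ) * Real.exp (2 * (m * Real.log m) + Ce * m)) ^ k ≤
        Real.exp (k * (2 * m * Real.log m + (Ce + D * s) * m)) := by
      have h7 : ((D ^ S' : ℕ) : ℝ) ≤ Real.exp (D * s * m) := by
        push_cast
        exact const_pow_le hDr hS'r
      calc (((D ^ S' : ℕ) : ℝ) * Real.exp (2 * (m * Real.log m) + Ce * m)) ^ k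
          ≤ (Real.exp (D * s * m) * Real.exp (2 * (m * Real.log m) + Ce * m)) ^ k := by
            refine pow_le_pow_left₀ (by positivity) ?_ _
            exact mul_le_mul_of_nonneg_right h7 (by positivity)
        _ = Real.exp (k * (2 * m * Real.log m + (Ce + D * s) * m)) := by
            rw [← Real.exp_add, ← Real.exp_nat_mul]
            congr 1
            ring
    have h8 : 1 ≤ Real.exp (k * (2 * m * Real.log m + (Ce + D * s) * m)) * ‖(y : ℂ)‖ :=
      hLi.trans (mul_le_mul_of_nonneg_right h6 (norm_nonneg _))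
    have h9 : Real.exp (-(k * (2 * m * Real.log m + (Ce + D * s) * m))) ≤ ‖(y : ℂ)‖ := by
      rw [Real.exp_neg, inv_le_iff_one_le_mul₀' (Real.exp_pos _)]
      exact h8
    refine le_trans (Real.exp_le_exp.2 (neg_le_neg ?_)) h9
    refine mul_le_mul_of_nonneg_left ?_ (Nat.cast_nonneg k)
    have h10 : (Ce + D * s) * m ≤ (1 + Cp + (Ce + D * s)) * m :=
      mul_le_mul_of_nonneg_right (by linarith) (by linarith)
    linarith

end

end Pool.Agent.BBP
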