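import Pool.Agent.BBP.Stmts

/-!
# BBP, module ENUM: the numerical contradiction
-/

open scoped BigOperators Polynomial Topology
open Metric Filter Finset

namespace Pool.Agent.BBP

namespace ENUMX

/-- the numerical inequality with logarithms -/
theorem main (d D S U M k : ℕ) (C R K : ℝ) (hd : 0 < d) (hS : S = d * (d + 1) * (2 * D + 4))
    (hC : 1 ≤ C) (hU : 2 ≤ U) (hM : U ^ (d + 1) ≤ M) (hMk : M ≤ d * k)
    (hR : R = (M : ℝ) ^ ((1 : ℝ) / (d + 1)))
    (hK : K = C + S * S + (d + 1) * (2 * S ^ d) + C + C * (2 * S ^ d) * (S + 3) + D * C)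
    (hUK : Real.exp K < U) :
    C ^ M * ((M : ℝ) ^ M * ((S : ℝ) ^ S) ^ M * ((M : ℝ) ^ M *
      ((2 * S ^ d * U ^ d : ℕ) : ℝ) ^ (d + 1) *
      Real.exp (((U ^ (d + 1) : ℕ) : ℝ) * Real.log ((U ^ (d + 1) : ℕ) : ℝ) +
        C * ((U ^ (d + 1) : ℕ) : ℝ)) *
      Real.exp (C * ((2 * S ^ d * U ^ d : ℕ) : ℝ) * (R + S + 2))) * (R ^ (S * k))⁻¹) <
    Real.exp (-(D * (2 * M * Real.log M + C * M))) := by
  have hSpos : 0 < S := by rw [hS]; positivity
  have hSr : (0 : ℝ) < S := by exact_mod_cast hSpos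
  have hS1 : (1 : ℝ) ≤ S := by exact_mod_cast hSpos
  have hUr : (2 : ℝ) ≤ U := by exact_mod_cast hU
  have hT1 : 1 ≤ U ^ (d + 1) := Nat.one_le_pow _ _ (by omega)
  have hM1 : 1 ≤ M := hT1.trans hM
  have hMr : (1 : ℝ) ≤ M := by exact_mod_cast hM1
  have hM0 : (0 : ℝ) < M := by linarith
  have hC0 : 0 < C := by linarith
  have hR0 : 0 < R := by rw [hR]; positivity
  have hRpow : R ^ (d + 1) = M := by
    rw [hR, ← Real.rpow_natCast, ← Real.rpow_mul hM0.le]
    have : (1 : ℝ) / (d + 1) * ((d + 1 : ℕ) : ℝ) = 1 := by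
      push_cast
      field_simp
    rw [this, Real.rpow_one]
  have hUR : (U : ℝ) ≤ R := by
    have h1 : ((U : ℝ)) ^ (d + 1) ≤ R ^ (d + 1) := by
      rw [hRpow]
      exact_mod_cast hM
    exact le_of_pow_le_pow_left₀ (by omega) hR0.le h1
  have hR1 : 1 ≤ R := by linarith
  have hlogR : Real.log R = Real.log M / (d + 1) := by
    rw [hR, Real.log_rpow hM0]
    ring
  have hlM : 0 ≤ Real.log M := Real.log_nonneg hMr
  have hlMK : K < Real.log M := by
    have h1 : K < Real.log U := by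
      rw [Real.lt_log_iff_exp_lt (by linarith)]
      exact hUK
    have h2 : (U : ℝ) ≤ M := by
      have : U ≤ U ^ (d + 1) := Nat.le_self_pow (by omega) U
      exact_mod_cast this.trans hM
    exact h1.trans_le (Real.log_le_log (by linarith) h2)
  -- the pieces
  set T : ℝ := ((U ^ (d + 1) : ℕ) : ℝ) with hT
  have hTM : T ≤ M := by rw [hT]; exact_mod_cast hM
  have hT1' : 1 ≤ T := by rw [hT]; exact_mod_cast hT1
  set L : ℝ := ((2 * S ^ d * U ^ d : ℕ) : ℝ) with hL
  have hL0 : 0 < L := by rw [hL]; push_cast; positivity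
  have hLe : L = 2 * S ^ d * U ^ d := by rw [hL]; push_cast; ring
  have hUd : (U : ℝ) ^ d ≤ R ^ d := pow_le_pow_left₀ (by linarith) hUR d
  have hUdM : (U : ℝ) ^ d ≤ M := by
    refine hUd.trans ?_
    rw [← hRpow]
    exact pow_le_pow_right₀ hR1 (by omega)
  have hUdR : (U : ℝ) ^ d * R ≤ M := by
    calc (U : ℝ) ^ d * R ≤ R ^ d * R := mul_le_mul_of_nonneg_right hUd hR0.le
      _ = M := by rw [← pow_succ, hRpow]
  have hSd : (0 : ℝ) < 2 * S ^ d := by positivity
  have hLM : L ≤ 2 * S ^ d * M := by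
    rw [hLe]
    exact mul_le_mul_of_nonneg_left hUdM hSd.le
  have hLR : L * (R + S + 2) ≤ 2 * S ^ d * ((S + 3) * M) := by
    rw [hLe, mul_assoc]
    apply mul_le_mul_of_nonneg_left _ hSd.le
    calc (U : ℝ) ^ d * (R + S + 2) = (U : ℝ) ^ d * R + (S + 2) * (U : ℝ) ^ d := by ring
      _ ≤ M + (S + 2) * M := add_le_add hUdR (mul_le_mul_of_nonneg_left hUdM (by positivity))
      _ = (S + 3) * M := by ring
  have hlogL : Real.log L ≤ 2 * S ^ d * M := by
    have := Real.log_le_sub_one_of_pos hL0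
    linarith
  have hlogC : Real.log C ≤ C := by
    have := Real.log_le_sub_one_of_pos hC0
    linarith
  have hlogS : Real.log S ≤ S := by
    have := Real.log_le_sub_one_of_pos hSr
    linarith
  have hTlog : T * Real.log T ≤ M * Real.log M :=
    mul_le_mul hTM (Real.log_le_log (by linarith) hTM) (Real.log_nonneg hT1') hM0.le
  have hSk : (d + 1) * (2 * D + 4) * M ≤ (S : ℝ) * k := by
    have h1 : ((d + 1) * (2 * D + 4) * M : ℕ) ≤ S * k := by
      rw [hS]
      calc (d + 1) * (2 * D + 4) * M ≤ (d + 1) * (2 * D + 4) * (d * k) :=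
            Nat.mul_le_mul_left _ hMk
        _ = d * (d + 1) * (2 * D + 4) * k := by ring
    exact_mod_cast h1
  have hSklog : (2 * D + 4) * M * Real.log M ≤ S * k * Real.log R := by
    rw [hlogR]
    have hd1 : (0 : ℝ) < (d : ℝ) + 1 := by positivity
    rw [← mul_div_assoc, le_div_iff₀ hd1]
    have := mul_le_mul_of_nonneg_right hSk hlM
    linarith
  -- take logarithms
  rw [← Real.log_lt_iff_lt_exp (by positivity)]
  rw [Real.log_mul (by positivity) (by positivity), Real.log_mul (by positivity) (by positivity),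
    Real.log_mul (by positivity) (by positivity), Real.log_mul (by positivity) (by positivity),
    Real.log_mul (by positivity) (by positivity), Real.log_mul (by positivity) (by positivity),
    Real.log_mul (by positivity) (by positivity), Real.log_exp, Real.log_exp, Real.log_inv,
    Real.log_pow, Real.log_pow, Real.log_pow, Real.log_pow, Real.log_pow, Real.log_pow]
  push_cast
  have e1 : (M : ℝ) * Real.log C ≤ M * C := mul_le_mul_of_nonneg_left hlogC hM0.le
  have e2 : (M : ℝ) * (S * Real.log S) ≤ M * (S * S) :=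
    mul_le_mul_of_nonneg_left (mul_le_mul_of_nonneg_left hlogS hSr.le) hM0.le
  have e3 : ((d : ℝ) + 1) * Real.log L ≤ (d + 1) * (2 * S ^ d * M) :=
    mul_le_mul_of_nonneg_left hlogL (by positivity)
  have e4 : C * T ≤ C * M := mul_le_mul_of_nonneg_left hTM hC0.le
  have e5 : C * L * (R + S + 2) ≤ C * (2 * S ^ d * ((S + 3) * M)) := by
    rw [mul_assoc]
    exact mul_le_mul_of_nonneg_left hLR hC0.le
  have e6 : K * M < Real.log M * M := mul_lt_mul_of_pos_right hlMK hM0
  rw [hK] at e6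
  linarith

end ENUMX

theorem enum_proof : Stmt_Enum := by
  intro d D S hd hS C hC
  set K : ℝ := C + S * S + (d + 1) * (2 * S ^ d) + C + C * (2 * S ^ d) * (S + 3) + D * C with hK
  obtain ⟨U, hU⟩ := exists_nat_gt (max 2 (Real.exp K))
  refine ⟨U, ?_, ?_⟩
  · have : (2 : ℝ) < U := (le_max_left _ _).trans_lt hU
    exact_mod_cast this.le
  · intro M k hM hMk _ R hR
    have h2 : (2 : ℝ) < U := (le_max_left _ _).trans_lt hU
    exact ENUMX.main d D S U M k C R K hd hS hC (by exact_mod_cast h2.le) hM hMk hR hK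
      ((le_max_right _ _).trans_lt hU)

end Pool.Agent.BBP
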