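import Pool.Agent.BBP.Stmts

/-!
# BBP: module ENZ, algebraic independence of the functions `fE lin A`
-/

open scoped BigOperators Polynomial Topology
open Metric Filter Finset

namespace Pool.Agent.BBP

noncomputable section

namespace ENZX

/-- a point where finitely many non zero linear forms do not vanish -/
theorem exists_u {d : ℕ} {J : Type} [Fintype J] (a : J → Fin d → ℂ) (h : ∀ j, ∃ s, a j s ≠ 0) :
    ∃ u : Fin d → ℂ, ∀ j, ∑ s, a j s * u s ≠ 0 := by
  classical
  let Q : J → ℂ[X] := fun j => ∑ s : Fin d, Polynomial.C (a j s) * Polynomial.X ^ (s : ℕ)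
  have hQ : ∀ j, Q j ≠ 0 := by
    intro j hj
    obtain ⟨s, hs⟩ := h j
    apply hs
    have h1 : (Q j).coeff (s : ℕ) = a j s := by
      simp only [Q, Polynomial.finsetSum_coeff, Polynomial.coeff_C_mul, Polynomial.coeff_X_pow]
      rw [Finset.sum_eq_single s]
      · simp
      · intro b _ hb
        have : (s : ℕ) ≠ (b : ℕ) := fun h => hb (Fin.ext h.symm)
        simp [this]
      · simp
    rw [← h1, hj, Polynomial.coeff_zero]
  have hR : (∏ j, Q j) ≠ 0 := Finset.prod_ne_zero_iff.2 fun j _ => hQ j
  obtain ⟨x, hx⟩ : ∃ x : ℂ, (∏ j, Q j).eval x ≠ 0 := by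
    by_contra hn
    push Not at hn
    exact hR (Polynomial.funext fun r => by simpa using hn r)
  refine ⟨fun s => x ^ (s : ℕ), fun j hj => hx ?_⟩
  rw [Polynomial.eval_prod]
  apply Finset.prod_eq_zero (Finset.mem_univ j)
  simp only [Q, Polynomial.eval_finsetSum, Polynomial.eval_mul, Polynomial.eval_C,
    Polynomial.eval_pow, Polynomial.eval_X]
  exact hj

theorem prod_exp_pow {κ : Type} [Fintype κ] (x : κ → ℂ) (e : κ → ℕ) :
    ∏ i, Complex.exp (x i) ^ (e i) = Complex.exp (∑ i, (e i : ℂ) * x i) := by
  rw [Complex.exp_sum]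
  exact Finset.prod_congr rfl fun i _ => by rw [← Complex.exp_nat_mul]

end ENZX

theorem enz_proof (hE : Stmt_Expp) : Stmt_Enz := by
  intro d L lin A hA p hp
  obtain ⟨hA1, hA2⟩ := hA
  cases lin with
  | false =>
    -- all functions are exponentials
    obtain ⟨u, hu⟩ := ENZX.exists_u
      (J := {q : (Fin (d + 1) → Fin L) × (Fin (d + 1) → Fin L) // q.1 ≠ q.2})
      (fun q s => ∑ i, (((q.1.1 i : ℕ) : ℤ) - ((q.1.2 i : ℕ) : ℤ) : ℤ) * A i s) (by
        intro q
        by_contra hn
        push Not at hn
        have h1 := hA1 (fun i => ((q.1.1 i : ℕ) : ℤ) - ((q.1.2 i : ℕ) : ℤ))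
          (by intro h; simp at h) hn
        apply q.2
        funext i
        have h2 := congrFun h1 i
        simp only [Pi.zero_apply] at h2
        apply Fin.ext
        omega)
    let lam : (Fin (d + 1) → Fin L) → ℂ := fun e => ∑ i, ((e i : ℕ) : ℂ) * ∑ s, A i s * u s
    have hinj : Function.Injective lam := by
      intro e e' h
      by_contra hne
      apply hu ⟨(e, e'), hne⟩
      have h1 : lam e - lam e' = 0 := sub_eq_zero.2 h
      rw [← h1]
      simp only [lam, Finset.sum_mul, Finset.mul_sum]
      rw [Finset.sum_comm, ← Finset.sum_sub_distrib]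
      refine Finset.sum_congr rfl fun i _ => ?_
      rw [← Finset.sum_sub_distrib]
      refine Finset.sum_congr rfl fun s _ => ?_
      push_cast
      ring
    have h2 := hE (Fin (d + 1) → Fin L) lam hinj (fun e => Polynomial.C (p e)) (by
      intro t
      have h3 := hp (fun s => t * u s)
      rw [← h3]
      refine Finset.sum_congr rfl fun e _ => ?_
      rw [Polynomial.eval_C]
      congr 1
      have h4 : ∀ i, fE false A (fun s => t * u s) i =
          Complex.exp ((∑ s, A i s * u s) * t) := by
        intro i
        simp only [fE, Bool.false_eq_true, false_and, if_false]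
        congr 1
        rw [Finset.sum_mul]
        exact Finset.sum_congr rfl fun s _ => by ring
      simp only [h4]
      rw [ENZX.prod_exp_pow]
      congr 1
      simp only [lam]
      rw [Finset.sum_mul]
      exact Finset.sum_congr rfl fun i _ => by ring)
    funext e
    simpa using h2 e
  | true =>
    have hA2' := hA2 rfl
    obtain ⟨u, hu⟩ := ENZX.exists_u
      (J := Option {q : (Fin d → Fin L) × (Fin d → Fin L) // q.1 ≠ q.2})
      (fun q s => q.elim (A 0 s)
        (fun q => ∑ i : Fin d, (((q.1.1 i : ℕ) : ℤ) - ((q.1.2 i : ℕ) : ℤ) : ℤ) * A i.succ s)) (by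
        intro q
        cases q with
        | none => exact hA2'
        | some q =>
          by_contra hn
          push Not at hn
          have h1 := hA1 (Fin.cons 0 (fun i => ((q.1.1 i : ℕ) : ℤ) - ((q.1.2 i : ℕ) : ℤ)))
            (fun _ => by simp) (by
              intro s
              rw [Fin.sum_univ_succ]
              simpa using hn s)
          apply q.2
          funext i
          have h2 := congrFun h1 i.succ
          simp only [Pi.zero_apply, Fin.cons_succ] at h2
          apply Fin.ext
          omega)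
    have hu0 : ∑ s, A 0 s * u s ≠ 0 := hu none
    set a₀ : ℂ := ∑ s, A 0 s * u s with ha₀
    let lam : (Fin d → Fin L) → ℂ := fun e => ∑ i : Fin d, ((e i : ℕ) : ℂ) * ∑ s, A i.succ s * u s
    have hinj : Function.Injective lam := by
      intro e e' h
      by_contra hne
      apply hu (some ⟨(e, e'), hne⟩)
      have h1 : lam e - lam e' = 0 := sub_eq_zero.2 h
      rw [← h1]
      simp only [lam, Finset.sum_mul, Finset.mul_sum, Option.elim]
      rw [Finset.sum_comm, ← Finset.sum_sub_distrib]
      refine Finset.sum_congr rfl fun i _ => ?_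
      rw [← Finset.sum_sub_distrib]
      refine Finset.sum_congr rfl fun s _ => ?_
      push_cast
      ring
    have h2 := hE (Fin d → Fin L) lam hinj
      (fun e => ∑ e₀ : Fin L, Polynomial.C (p (Fin.cons e₀ e) * a₀ ^ (e₀ : ℕ)) *
        Polynomial.X ^ (e₀ : ℕ)) (by
      intro t
      have h3 := hp (fun s => t * u s)
      rw [← h3, ← Equiv.sum_comp (Fin.consEquiv (fun _ : Fin (d + 1) => Fin L)),
        Fintype.sum_prod_type_right]
      refine Finset.sum_congr rfl fun e _ => ?_
      rw [Polynomial.eval_finsetSum, Finset.sum_mul]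
      refine Finset.sum_congr rfl fun e₀ _ => ?_
      have h5 : fE true A (fun s => t * u s) 0 = a₀ * t := by
        simp only [fE, true_and, if_true]
        rw [ha₀, Finset.sum_mul]
        exact Finset.sum_congr rfl fun s _ => by ring
      have h4 : ∀ i : Fin d, fE true A (fun s => t * u s) i.succ =
          Complex.exp ((∑ s, A i.succ s * u s) * t) := by
        intro i
        simp only [fE, true_and, Fin.succ_ne_zero, if_false]
        congr 1
        rw [Finset.sum_mul]
        exact Finset.sum_congr rfl fun s _ => by ring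
      have h6 : (Fin.consEquiv (fun _ : Fin (d + 1) => Fin L)) (e₀, e) = Fin.cons e₀ e := rfl
      rw [h6, Fin.prod_univ_succ]
      simp only [Fin.cons_zero, Fin.cons_succ, h5, h4]
      rw [ENZX.prod_exp_pow]
      simp only [Polynomial.eval_mul, Polynomial.eval_C, Polynomial.eval_pow, Polynomial.eval_X]
      have h7 : ∑ i : Fin d, (((e i : ℕ) : ℂ)) * ((∑ s, A i.succ s * u s) * t) = lam e * t := by
        simp only [lam]
        rw [Finset.sum_mul]
        exact Finset.sum_congr rfl fun i _ => by ring
      rw [h7, mul_pow]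
      ring)
    funext e
    have h3 := h2 (Fin.tail e)
    have h4 : (∑ e₀ : Fin L, Polynomial.C (p (Fin.cons e₀ (Fin.tail e)) * a₀ ^ (e₀ : ℕ)) *
        Polynomial.X ^ (e₀ : ℕ)).coeff (e 0 : ℕ) = p e * a₀ ^ (e 0 : ℕ) := by
      simp only [Polynomial.finsetSum_coeff, Polynomial.coeff_C_mul, Polynomial.coeff_X_pow]
      rw [Finset.sum_eq_single (e 0)]
      · have h5 : (Fin.cons (e 0) (Fin.tail e) : Fin (d + 1) → Fin L) = e := Fin.cons_self_tail e
        rw [h5]
        simp
      · intro b _ hb
        have : (e 0 : ℕ) ≠ (b : ℕ) := fun h => hb (Fin.ext h.symm)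
        simp [this]
      · simp
    rw [h3, Polynomial.coeff_zero] at h4
    have h5 := h4.symm
    rcases mul_eq_zero.1 h5 with h6 | h6
    · exact h6
    · exact absurd h6 (pow_ne_zero _ hu0)

end

end Pool.Agent.BBP
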