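import Pool.Agent.BBP.Stmts

/-!
Module ESL: Schneider-Lang theorem for exponential functions on a cartesian product.
-/

set_option autoImplicit false

namespace Pool.Agent.BBP

theorem esl_proof (h : Stmt_Eslk) : Stmt_Esl := by
  intro d hd lin A v hv hA h1 h2
  set S : Set ℂ := Set.range (fun p : Fin (d + 1) × Fin d => ∑ s, A p.1 s * v p.2 s) ∪
    Set.range (fun p : Fin (d + 1) × Fin d => fE lin A (Pool.Agent.FDR.stdv p.2) p.1) with hS
  have hfin : Finite S := (Set.finite_range _).union (Set.finite_range _)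
  have hint : ∀ x ∈ S, IsIntegral ℚ x := by
    intro x hx
    rcases hx with ⟨p, rfl⟩ | ⟨p, rfl⟩
    · exact (h1 p.1 p.2).isIntegral
    · exact (h2 p.1 p.2).isIntegral
  have hK : FiniteDimensional ℚ (IntermediateField.adjoin ℚ S) :=
    IntermediateField.finiteDimensional_adjoin hint
  refine h d hd (IntermediateField.adjoin ℚ S) hK lin A v hv hA ?_ ?_
  · intro i j
    exact IntermediateField.subset_adjoin ℚ S (Or.inl ⟨(i, j), rfl⟩)
  · intro i s
    exact IntermediateField.subset_adjoin ℚ S (Or.inr ⟨(i, s), rfl⟩)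

end Pool.Agent.BBP
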