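import Pool.Agent.BBP.Stmts

/-!
# BBP / ESLK: Schneider-Lang theorem for exponential functions on a cartesian product
-/

open scoped BigOperators Polynomial Topology
open Metric Filter

namespace Pool.Agent.BBP

open Pool.Agent.FDR

namespace ESLKX

theorem sum_count {d : ℕ} (l : List (Fin d)) : ∑ i : Fin d, l.count i = l.length := by
  induction l with
  | nil => simp
  | cons a l ih =>
    simp only [List.count_cons, Finset.sum_add_distrib, ih, List.length_cons]
    simp

theorem pigeon {d : ℕ} (hd : 0 < d) (l : List (Fin d)) : ∃ i, l.length ≤ d * l.count i := by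
  by_contra h
  push Not at h
  have h1 := sum_count l
  have : Nonempty (Fin d) := ⟨⟨0, hd⟩⟩
  have h2 : ∑ i : Fin d, d * l.count i < ∑ _i : Fin d, l.length :=
    Finset.sum_lt_sum_of_nonempty Finset.univ_nonempty (fun i _ => h i)
  rw [← Finset.mul_sum, h1] at h2
  simp at h2

theorem split_perm {d : ℕ} (i : Fin d) (l : List (Fin d)) :
    l.Perm (List.replicate (l.count i) i ++ l.filter (fun j => !(j == i))) := by
  have h := List.filter_append_perm (fun j => j == i) l
  rw [List.filter_beq] at h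
  exact h.symm

theorem dir_trans {E : Type} [NormedAddCommGroup E] [NormedSpace ℂ E] (l : List E) (Φ : E → ℂ)
    (c : E) : dir l (fun w => Φ (c + w)) = fun w => dir l Φ (c + w) := by
  induction l with
  | nil => rfl
  | cons u l ih =>
    funext w
    simp only [dir_cons, ih]
    rw [fderiv_comp_add_left]

theorem fE_analytic {d : ℕ} (lin : Bool) (A : Fin (d + 1) → Fin d → ℂ) (i : Fin (d + 1))
    (w : Fin d → ℂ) : AnalyticAt ℂ (fun w => fE lin A w i) w := by
  have h1 : AnalyticAt ℂ (fun w : Fin d → ℂ => ∑ s, A i s * w s) w := by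
    refine Finset.analyticAt_fun_sum _ fun s _ => analyticAt_const.mul ?_
    exact (ContinuousLinearMap.proj (R := ℂ) (φ := fun _ : Fin d => ℂ) s).analyticAt w
  unfold fE
  split_ifs
  · exact h1
  · exact h1.cexp

theorem fE_fderiv {d : ℕ} (lin : Bool) (A : Fin (d + 1) → Fin d → ℂ) (i : Fin (d + 1))
    (c w u : Fin d → ℂ) : fderiv ℂ (fun w => fE lin A (c + w) i) w u =
      if lin = true ∧ i = 0 then ∑ s, A i s * u s else (∑ s, A i s * u s) * fE lin A (c + w) i := by
  have h0 : ∀ w, HasFDerivAt (fun w : Fin d → ℂ => ∑ s, A i s * w s)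
      (∑ s, A i s • ContinuousLinearMap.proj (R := ℂ) (φ := fun _ : Fin d => ℂ) s) w := by
    intro w
    refine HasFDerivAt.fun_sum fun s _ => ?_
    exact (ContinuousLinearMap.proj (R := ℂ) (φ := fun _ : Fin d => ℂ) s).hasFDerivAt.const_mul (A i s)
  have h1 : ∀ w, HasFDerivAt (fun w : Fin d → ℂ => ∑ s, A i s * (c + w) s)
      (∑ s, A i s • ContinuousLinearMap.proj (R := ℂ) (φ := fun _ : Fin d => ℂ) s) w := by
    intro w
    have h2 := (h0 (c + w)).comp w ((hasFDerivAt_id w).const_add c)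
    rw [ContinuousLinearMap.comp_id] at h2
    exact h2
  unfold fE
  split_ifs
  · rw [(h1 w).fderiv]
    simp
  · rw [(h1 w).cexp.fderiv]
    simp [mul_comm]

theorem fE_norm {d : ℕ} (lin : Bool) (A : Fin (d + 1) → Fin d → ℂ) (i : Fin (d + 1))
    (w : Fin d → ℂ) (C ρ : ℝ) (hC : ∀ i, ∑ s, ‖A i s‖ ≤ C) (hw : ‖w‖ ≤ ρ) :
    ‖fE lin A w i‖ ≤ Real.exp (C * ρ) := by
  have hρ : 0 ≤ ρ := (norm_nonneg _).trans hw
  have h1 : ‖∑ s, A i s * w s‖ ≤ C * ρ := by
    refine (norm_sum_le _ _).trans ?_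
    refine le_trans (Finset.sum_le_sum (g := fun s => ‖A i s‖ * ρ) fun s _ => ?_) ?_
    · rw [norm_mul]
      exact mul_le_mul_of_nonneg_left ((norm_le_pi_norm w s).trans hw) (norm_nonneg _)
    · rw [← Finset.sum_mul]
      exact mul_le_mul_of_nonneg_right (hC i) hρ
  unfold fE
  split_ifs
  · refine h1.trans ?_
    linarith [Real.add_one_le_exp (C * ρ)]
  · refine (Complex.norm_exp_le_exp_norm _).trans (Real.exp_le_exp.2 h1)

theorem growth {d L : ℕ} (lin : Bool) (A : Fin (d + 1) → Fin d → ℂ) (C : ℝ)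
    (hC : ∀ i, ∑ s, ‖A i s‖ ≤ C) (p : (Fin (d + 1) → Fin L) → ℂ) (B : ℝ) (hB : 0 ≤ B)
    (hp : ∀ e, ‖p e‖ ≤ B) (w : Fin d → ℂ) (ρ : ℝ) (hw : ‖w‖ ≤ ρ) :
    ‖∑ e, p e * ∏ i, fE lin A w i ^ (e i : ℕ)‖ ≤
      (L : ℝ) ^ (d + 1) * B * Real.exp ((d + 1) * C * L * ρ) := by
  have hρ : 0 ≤ ρ := (norm_nonneg _).trans hw
  have hC0 : 0 ≤ C := (Finset.sum_nonneg fun s _ => norm_nonneg _).trans (hC 0)
  have hone : 1 ≤ Real.exp (C * ρ) := Real.one_le_exp (by positivity)
  have h1 : ∀ e ∈ (Finset.univ : Finset (Fin (d + 1) → Fin L)),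
      ‖p e * ∏ i, fE lin A w i ^ (e i : ℕ)‖ ≤ B * Real.exp ((d + 1) * C * L * ρ) := by
    intro e _
    rw [norm_mul, norm_prod]
    refine mul_le_mul (hp e) ?_ (Finset.prod_nonneg fun i _ => norm_nonneg _) hB
    have h2 : ∀ i ∈ (Finset.univ : Finset (Fin (d + 1))),
        ‖fE lin A w i ^ (e i : ℕ)‖ ≤ Real.exp (C * ρ) ^ L := by
      intro i _
      rw [norm_pow]
      refine (pow_le_pow_left₀ (norm_nonneg _) (fE_norm lin A i w C ρ hC hw) _).trans ?_
      exact pow_le_pow_right₀ hone (e i).2.le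
    refine (Finset.prod_le_prod (fun i _ => norm_nonneg _) h2).trans (le_of_eq ?_)
    rw [Finset.prod_const, Finset.card_univ, Fintype.card_fin, ← pow_mul, ← Real.exp_nat_mul]
    congr 1
    push_cast
    ring
  refine (norm_sum_le_of_le _ h1).trans (le_of_eq ?_)
  rw [Finset.sum_const, Finset.card_univ, nsmul_eq_mul]
  simp only [Fintype.card_fun, Fintype.card_fin]
  push_cast
  ring

/-- the point of the box -/
def mv {d S : ℕ} (x : Fin d → Fin S) (s : Fin d) : ℂ := ((x s : ℕ) : ℂ)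

theorem fE_mem {d S : ℕ} (K : IntermediateField ℚ ℂ) (lin : Bool) (A : Fin (d + 1) → Fin d → ℂ)
    (h : ∀ i s, fE lin A (stdv s) i ∈ K) (x : Fin d → Fin S) (i : Fin (d + 1)) :
    fE lin A (mv x) i ∈ K := by
  have h0 : ∀ i s, ∑ r, A i r * stdv s r = A i s := by
    intro i s
    unfold stdv
    rw [Finset.sum_eq_single s]
    · simp
    · intro b _ hb
      simp [hb]
    · intro hs
      exact absurd (Finset.mem_univ s) hs
  have h' := h i
  unfold fE at h' ⊢
  simp only [h0] at h'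
  split_ifs with hc
  · simp only [hc, and_self, if_true] at h'
    refine sum_mem fun s _ => mul_mem ?_ ?_
    · rw [hc.2]
      exact h' s
    · exact natCast_mem K _
  · simp only [hc, if_false] at h'
    rw [Complex.exp_sum]
    refine prod_mem fun s _ => ?_
    have h1 : Complex.exp (A i s * mv x s) = Complex.exp (A i s) ^ (x s : ℕ) := by
      rw [← Complex.exp_nat_mul, mul_comm]
      rfl
    rw [h1]
    exact pow_mem (h' s) _

end ESLKX

open ESLKX in
theorem eslk_proof (hPerm : Stmt_DPerm) (hAev : Stmt_DAev) (hLine : Stmt_DLine)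
    (hBas : Stmt_DBasis) (hOA : Stmt_DOrdA) (hOB : Stmt_DOrdB) (hOC : Stmt_DOrdC)
    (hCau : Stmt_DCau) (hSchw : Stmt_Schwb) (hAux : Stmt_Eaux) (hNum : Stmt_Enum)
    (hEnz : Stmt_Enz) : Stmt_Eslk := by
  intro d hd K hK lin A v hv hind hAv hval
  classical
  set D : ℕ := Module.finrank ℚ K with hD
  obtain ⟨S, hS⟩ : ∃ S : ℕ, S = d * (d + 1) * (2 * D + 4) := ⟨_, rfl⟩
  have hSpos : 0 < S := by
    rw [hS]
    positivity
  -- the differential system
  set P : Fin d → Fin (d + 1) → MvPolynomial (Fin (d + 1)) K := fun j i =>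
    if lin = true ∧ i = 0 then MvPolynomial.C ⟨∑ s, A i s * v j s, hAv i j⟩
    else MvPolynomial.C ⟨∑ s, A i s * v j s, hAv i j⟩ * MvPolynomial.X i with hP
  set Q : Fin (d + 1) → MvPolynomial (Fin (d + 1)) K := fun i => MvPolynomial.X i with hQ
  set a : (Fin d → Fin S) → Fin (d + 1) → K := fun x i =>
    ⟨fE lin A (mv x) i, fE_mem K lin A hval x i⟩ with ha
  set H : (Fin d → Fin S) → (Fin d → ℂ) → Fin (d + 1) → ℂ := fun x w i =>
    fE lin A (mv x + w) i with hH
  have hHan : ∀ x, AnalyticAt ℂ (H x) 0 := by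
    intro x
    rw [analyticAt_pi_iff]
    intro i
    have h1 := fE_analytic lin A i (mv x + 0)
    have h2 : AnalyticAt ℂ (fun w : Fin d → ℂ => mv x + w) 0 := analyticAt_const.add analyticAt_id
    exact AnalyticAt.fun_comp h1 h2
  have hHP : ∀ x j i, ∀ᶠ w in 𝓝 (0 : Fin d → ℂ),
      fderiv ℂ (fun w => H x w i) w (v j) = MvPolynomial.aeval (H x w) (P j i) := by
    intro x j i
    refine Eventually.of_forall fun w => ?_
    simp only [hH, hP]
    rw [fE_fderiv]
    split_ifs with hc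
    · simp only [MvPolynomial.aeval_C]
      rfl
    · simp only [map_mul, MvPolynomial.aeval_C, MvPolynomial.aeval_X]
      rfl
  have haev : ∀ x (R : MvPolynomial (Fin (d + 1)) K),
      MvPolynomial.aeval (H x 0) R = ((MvPolynomial.eval (a x) R : K) : ℂ) := by
    intro x R
    have h1 : H x 0 = fun i => algebraMap K ℂ (a x i) := by
      funext i
      simp only [hH, add_zero]
      rfl
    rw [h1]
    exact MvPolynomial.aeval_algebraMap_apply (B := ℂ) (a x) R
  have hAevAn : ∀ x (R : MvPolynomial (Fin (d + 1)) K),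
      AnalyticAt ℂ (fun w => MvPolynomial.aeval (H x w) R) 0 := by
    intro x R
    induction R using MvPolynomial.induction_on with
    | C c =>
      simp only [MvPolynomial.aeval_C]
      exact analyticAt_const
    | add p q hp hq =>
      simp only [map_add]
      exact hp.add hq
    | mul_X p i hp =>
      simp only [map_mul, MvPolynomial.aeval_X]
      exact hp.mul ((analyticAt_pi_iff.1 (hHan x)) i)
  have hdirval : ∀ x (R : MvPolynomial (Fin (d + 1)) K) (l : List (Fin d)),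
      dir (l.map v) (fun w => MvPolynomial.aeval (H x w) R) 0 =
        ((MvPolynomial.eval (a x) (dops P l R) : K) : ℂ) := by
    intro x R l
    rw [← haev]
    exact (hAev d (d + 1) K v (H x) P (hHan x) (hHP x) R l).self_of_nhds
  have hcomm : ∀ x (l l' : List (Fin d)), l.Perm l' → ∀ R : MvPolynomial (Fin (d + 1)) K,
      MvPolynomial.eval (a x) (dops P l R) = MvPolynomial.eval (a x) (dops P l' R) := by
    intro x l l' hl R
    have h1 := hPerm _ _ _ (hAevAn x R) _ _ (hl.map v)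
    rw [hdirval, hdirval] at h1
    exact_mod_cast h1
  have hne0 : Nonempty (Fin d → Fin S) := ⟨fun _ => ⟨0, hSpos⟩⟩
  obtain ⟨C1, hC1, hAux⟩ := hAux d (d + 1) hd K hK P Q (Fin d → Fin S) a hcomm
  obtain ⟨C2, hC2, hBas⟩ := hBas d hd v
  set CA : ℝ := ∑ i, ∑ s, ‖A i s‖ with hCA
  have hCAi : ∀ i, ∑ s, ‖A i s‖ ≤ CA := fun i =>
    Finset.single_le_sum (f := fun i => ∑ s, ‖A i s‖)
      (fun i _ => Finset.sum_nonneg fun s _ => norm_nonneg _) (Finset.mem_univ i)
  have hCA0 : 0 ≤ CA := Finset.sum_nonneg fun i _ => Finset.sum_nonneg fun s _ => norm_nonneg _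
  set C : ℝ := max C1 (max C2 ((d + 1) * CA)) with hC
  have hC1C : C1 ≤ C := le_max_left _ _
  have hC2C : C2 ≤ C := (le_max_left _ _).trans (le_max_right _ _)
  have hC3C : (d + 1) * CA ≤ C := (le_max_right _ _).trans (le_max_right _ _)
  have hCone : 1 ≤ C := hC1.trans hC1C
  obtain ⟨U, hU2, hNum⟩ := hNum d D S hd hS C hCone
  have hAuxU := hAux U hU2
  have hcard : 2 * Fintype.card (Fin d → Fin S) * U ^ d = 2 * S ^ d * U ^ d := by
    simp only [Fintype.card_fun, Fintype.card_fin]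
  rw [hcard] at hAuxU
  generalize hL : 2 * S ^ d * U ^ d = L at hAuxU hNum
  obtain ⟨p, hp0, hpb, hvan, hliou⟩ := hAuxU
  have hLpos : 0 < L := by
    rw [← hL]
    positivity
  set Φ : (Fin d → ℂ) → ℂ := fun w => ∑ e, (p e : ℂ) * ∏ i, fE lin A w i ^ (e i : ℕ) with hΦ
  have hΦan : ∀ w, AnalyticAt ℂ Φ w := by
    intro w
    refine Finset.analyticAt_fun_sum _ fun e _ => analyticAt_const.mul ?_
    exact Finset.analyticAt_fun_prod _ fun i _ => (fE_analytic lin A i w).pow _
  have hΦxan : ∀ x : Fin d → Fin S, AnalyticAt ℂ (fun w => Φ (mv x + w)) 0 := by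
    intro x
    have h2 : AnalyticAt ℂ (fun w : Fin d → ℂ => mv x + w) 0 := analyticAt_const.add analyticAt_id
    exact AnalyticAt.fun_comp (hΦan _) h2
  have hΦH : ∀ x w, Φ (mv x + w) =
      ∑ e, (p e : ℂ) * MvPolynomial.aeval (H x w) (∏ i, Q i ^ (e i : ℕ)) := by
    intro x w
    simp only [hΦ, hQ, hH, map_prod, map_pow, MvPolynomial.aeval_X]
  have hdir : ∀ (x : Fin d → Fin S) (l : List (Fin d)), dir (l.map v) (fun w => Φ (mv x + w)) 0 =
      ((∑ e, p e * MvPolynomial.eval (a x) (dops P l (∏ i, Q i ^ (e i : ℕ))) : K) : ℂ) := by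
    intro x l
    have h1 : (fun w => Φ (mv x + w)) =ᶠ[𝓝 0] fun w =>
        ∑ e, (p e : ℂ) * MvPolynomial.aeval (H x w) (∏ i, Q i ^ (e i : ℕ)) :=
      Eventually.of_forall fun w => hΦH x w
    rw [(dir_congr h1 (l.map v)).self_of_nhds]
    rw [(dir_sum Finset.univ (Φ := fun (e : Fin (d + 1) → Fin L) w =>
      (p e : ℂ) * MvPolynomial.aeval (H x w) (∏ i, Q i ^ (e i : ℕ)))
      (fun e _ => analyticAt_const.mul (hAevAn x (∏ i, Q i ^ (e i : ℕ))))
      (l.map v)).self_of_nhds]
    push_cast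
    refine Finset.sum_congr rfl fun e _ => ?_
    rw [(dir_const_mul (hAevAn x (∏ i, Q i ^ (e i : ℕ))) (p e : ℂ) (l.map v)).self_of_nhds]
    simp only [hdirval]
  have hdir0 : ∀ (x : Fin d → Fin S) (l : List (Fin d)), dir (l.map v) (fun w => Φ (mv x + w)) 0 =
      dir (l.map v) Φ (mv x) := by
    intro x l
    rw [dir_trans]
    simp
  -- not all derivatives vanish
  have hne : ∃ (x : Fin d → Fin S) (l : List (Fin d)), dir (l.map v) Φ (mv x) ≠ 0 := by
    by_contra hcon
    push Not at hcon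
    set x0 : Fin d → Fin S := fun _ => ⟨0, hSpos⟩
    have h1 := hOB d v hv Φ (mv x0) (hΦan _) (hcon x0)
    have h2 : Φ = fun _ => (0 : ℂ) := by
      refine AnalyticOnNhd.eq_of_eventuallyEq (𝕜 := ℂ) (f := Φ) (g := fun _ => (0 : ℂ))
        (fun w _ => hΦan w) (fun w _ => analyticAt_const) h1
    have h3 := hEnz d L lin A hind (fun e => (p e : ℂ)) (fun w => congrFun h2 w)
    apply hp0
    funext e
    have h4 : ((p e : K) : ℂ) = 0 := congrFun h3 e
    have h5 : p e = 0 := by exact_mod_cast h4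
    exact h5
  have hex : ∃ M : ℕ, ∃ (x : Fin d → Fin S) (l : List (Fin d)), l.length = M ∧
      dir (l.map v) Φ (mv x) ≠ 0 := by
    obtain ⟨x, l, hl⟩ := hne
    exact ⟨l.length, x, l, rfl, hl⟩
  set M := Nat.find hex with hM
  obtain ⟨x0, l, hlM, hl0⟩ := Nat.find_spec hex
  have hmin : ∀ (x : Fin d → Fin S) (l' : List (Fin d)), l'.length < M →
      dir (l'.map v) Φ (mv x) = 0 := by
    intro x l' hl'
    by_contra hcon
    exact Nat.find_min hex hl' ⟨x, l', rfl, hcon⟩
  have hTM : U ^ (d + 1) ≤ M := by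
    by_contra hcon
    push Not at hcon
    apply hl0
    rw [← hdir0, hdir, hvan x0 l (by rw [hlM]; exact hcon)]
    rfl
  have hMpos : 0 < M := lt_of_lt_of_le (by positivity) hTM
  have hord : ∀ x : Fin d → Fin S,
      (fun w => Φ (mv x + w)) =O[𝓝 0] (fun w : Fin d → ℂ => ‖w‖ ^ M) := fun x =>
    hOA d v hv Φ (mv x) (hΦan _) M (hmin x)
  -- Liouville
  have hlow : Real.exp (-(D * (2 * M * Real.log M + C * M))) ≤ ‖dir (l.map v) Φ (mv x0)‖ := by
    have h1 : ∑ e, p e * MvPolynomial.eval (a x0) (dops P l (∏ i, Q i ^ (e i : ℕ))) ≠ 0 := by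
      intro h
      apply hl0
      rw [← hdir0, hdir, h]
      rfl
    have h2 := hliou x0 l (by rw [hlM]; exact hTM) h1
    rw [← hdir0, hdir]
    refine le_trans (Real.exp_le_exp.2 ?_) h2
    rw [hlM, ← hM, ← hD]
    have h4 : C1 * M ≤ C * M := mul_le_mul_of_nonneg_right hC1C (Nat.cast_nonneg _)
    have h5 : (D : ℝ) * (2 * M * Real.log M + C1 * M) ≤ D * (2 * M * Real.log M + C * M) :=
      mul_le_mul_of_nonneg_left (by linarith) (Nat.cast_nonneg _)
    linarith
  -- change of basis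
  obtain ⟨l', hl'len, hl'⟩ := hBas (fun w => Φ (mv x0 + w)) (hΦxan x0) l
  rw [hdir0, dir_trans] at hl'
  simp only [add_zero] at hl'
  obtain ⟨i, hi⟩ := pigeon hd l'
  set k := l'.count i with hk
  set l2 := l'.filter (fun j => !(j == i)) with hl2
  have hperm := split_perm i l'
  rw [← hk, ← hl2] at hperm
  have hlen : k + l2.length = M := by
    have h1 := hperm.length_eq
    rw [List.length_append, List.length_replicate, hl'len, hlM] at h1
    exact h1.symm
  have hMdk : M ≤ d * k := by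
    rw [hl'len, hlM] at hi
    exact hi
  have hkM' : k ≤ M := by omega
  obtain ⟨R, hR⟩ : ∃ R : ℝ, R = (M : ℝ) ^ ((1 : ℝ) / (d + 1)) := ⟨_, rfl⟩
  have hM1 : (1 : ℝ) ≤ M := by exact_mod_cast hMpos
  have hR1 : 1 ≤ R := by
    rw [hR]
    exact Real.one_le_rpow hM1 (by positivity)
  have hNumM := hNum M k hTM hMdk hkM' R hR
  set B : ℝ := Real.exp (((U ^ (d + 1) : ℕ) : ℝ) * Real.log ((U ^ (d + 1) : ℕ) : ℝ) +
      C * ((U ^ (d + 1) : ℕ) : ℝ)) with hB
  have hBpos : 0 < B := Real.exp_pos _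
  have hpB : ∀ e, ‖((p e : K) : ℂ)‖ ≤ B := by
    intro e
    refine (hpb e).trans (Real.exp_le_exp.2 ?_)
    have h2 : C1 * ((U ^ (d + 1) : ℕ) : ℝ) ≤ C * ((U ^ (d + 1) : ℕ) : ℝ) :=
      mul_le_mul_of_nonneg_right hC1C (Nat.cast_nonneg _)
    linarith
  -- the function on the line
  set base : Fin d → ℂ := Function.update (mv x0) i 0 with hbase
  have hbase_add : ∀ t : ℂ, base + t • (stdv i : Fin d → ℂ) = Function.update (mv x0) i t := by
    intro t
    funext s
    simp only [hbase, Pi.add_apply, Pi.smul_apply, smul_eq_mul, stdv]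
    by_cases hs : s = i
    · subst hs
      simp
    · simp [hs]
  have hS1 : ((S - 1 : ℕ) : ℝ) + 1 = S := by
    have : S - 1 + 1 = S := by omega
    exact_mod_cast this
  have hRS : (S : ℝ) < R + S + 1 := by linarith
  have hball : ∀ t : ℂ, t ∈ ball (0 : ℂ) (R + S + 1) →
      base + t • (stdv i : Fin d → ℂ) ∈ ball (0 : Fin d → ℂ) (R + S + 1) := by
    intro t ht
    rw [hbase_add, mem_ball_zero_iff, pi_norm_lt_iff (by positivity)]
    intro s
    by_cases hs : s = i
    · subst hs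
      rw [Function.update_self]
      rwa [mem_ball_zero_iff] at ht
    · rw [Function.update_of_ne hs]
      unfold mv
      rw [Complex.norm_natCast]
      have : ((x0 s : ℕ) : ℝ) < S := by exact_mod_cast (x0 s).2
      linarith
  set g : ℂ → ℂ := fun t => dir (l2.map stdv) Φ (base + t • (stdv i : Fin d → ℂ)) with hg
  have hgan : AnalyticOnNhd ℂ g (ball 0 (R + S + 1)) := by
    intro t _
    have h2 := dir_analyticAt (hΦan (base + t • (stdv i : Fin d → ℂ))) (l2.map stdv)
    have h3 : AnalyticAt ℂ (fun t : ℂ => base + t • (stdv i : Fin d → ℂ)) t := by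
      fun_prop
    exact AnalyticAt.fun_comp h2 h3
  set E1 : ℝ := Real.exp (C * L * (R + S + 2)) with hE1
  have hE1pos : 0 < E1 := Real.exp_pos _
  have hΦb : ∀ z ∈ ball (0 : Fin d → ℂ) (R + S + 2), ‖Φ z‖ ≤ (L : ℝ) ^ (d + 1) * B * E1 := by
    intro z hz
    rw [mem_ball_zero_iff] at hz
    refine (growth lin A CA hCAi (fun e => (p e : ℂ)) B hBpos.le hpB z (R + S + 2) hz.le).trans ?_
    refine mul_le_mul_of_nonneg_left (Real.exp_le_exp.2 ?_) (by positivity)
    have h1 : (0 : ℝ) ≤ L * (R + S + 2) := by positivity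
    have h2 := mul_le_mul_of_nonneg_right hC3C h1
    calc (d + 1) * CA * L * (R + S + 2) = (d + 1) * CA * (L * (R + S + 2)) := by ring
      _ ≤ C * (L * (R + S + 2)) := h2
      _ = C * L * (R + S + 2) := by ring
  have hgb : ∀ t ∈ ball (0 : ℂ) (R + S + 1), ‖g t‖ ≤
      (l2.length : ℝ) ^ l2.length * ((L : ℝ) ^ (d + 1) * B * E1) := by
    intro t ht
    exact hCau d (R + S + 2) _ Φ (fun w _ => hΦan w) hΦb l2 (R + S + 1) (by linarith) _
      (hball t ht)
  have hgz : ∀ m : ℕ, m < S → (fun t : ℂ => g (m + t)) =O[𝓝 0] (fun t => ‖t‖ ^ k) := by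
    intro m hm
    set x : Fin d → Fin S := Function.update x0 i ⟨m, hm⟩ with hx
    have hmx : mv x = base + (m : ℂ) • (stdv i : Fin d → ℂ) := by
      rw [hbase_add]
      funext s
      simp only [mv, hx]
      by_cases hs : s = i
      · subst hs
        simp
      · rw [Function.update_of_ne hs, Function.update_of_ne hs]
        rfl
    have h3 := hOC _ Φ (mv x) (hΦan _) M (hord x) (l2.map stdv)
    have h4 : M - (l2.map (stdv : Fin d → (Fin d → ℂ))).length = k := by
      rw [List.length_map]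
      omega
    rw [h4] at h3
    have h5 : Tendsto (fun t : ℂ => t • (stdv i : Fin d → ℂ)) (𝓝 0) (𝓝 0) := by
      have : Continuous (fun t : ℂ => t • (stdv i : Fin d → ℂ)) := by fun_prop
      have h6 := this.tendsto 0
      simpa using h6
    have h6 := h3.comp_tendsto h5
    refine h6.congr ?_ ?_
    · intro t
      simp only [Function.comp, hg]
      rw [hmx, add_smul, add_assoc]
    · intro t
      simp only [Function.comp]
      rw [norm_smul]
      have : ‖(stdv i : Fin d → ℂ)‖ = 1 := by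
        unfold stdv
        rw [Pi.norm_single, norm_one]
      rw [this, mul_one]
  have hS' := hSchw g S k (x0 i) R _ (x0 i).2 hR1 hgan hgb hgz
  have hx0 : base + ((x0 i : ℕ) : ℂ) • (stdv i : Fin d → ℂ) = mv x0 := by
    rw [hbase_add]
    funext s
    by_cases hs : s = i
    · subst hs
      rw [Function.update_self]
      rfl
    · rw [Function.update_of_ne hs]
  have hgder : iteratedDeriv k g ((x0 i : ℕ) : ℂ) = dir (l'.map stdv) Φ (mv x0) := by
    have h1 := hLine _ (dir (l2.map stdv) Φ) (mv x0) (stdv i) (dir_analyticAt (hΦan _) _) k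
    rw [← dir_append] at h1
    have h2 := hPerm _ Φ (mv x0) (hΦan _) _ _ (hperm.map stdv)
    rw [List.map_append, List.map_replicate] at h2
    rw [h2, ← h1]
    have h3 : (fun t : ℂ => dir (l2.map stdv) Φ (mv x0 + t • stdv i)) =
        fun t => g (((x0 i : ℕ) : ℂ) + t) := by
      funext t
      simp only [hg]
      rw [add_smul, ← add_assoc, hx0]
    rw [h3, iteratedDeriv_comp_const_add]
    simp
  rw [hgder] at hS'
  -- final computation
  have hkM : (k : ℝ) ≤ M := by exact_mod_cast hkM'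
  have hl2M : (l2.length : ℝ) ≤ M := by exact_mod_cast (by omega : l2.length ≤ M)
  have hk1 : ((k.factorial : ℕ) : ℝ) ≤ (M : ℝ) ^ M := by
    have h1 : k.factorial ≤ k ^ k := Nat.factorial_le_pow k
    have h2 : ((k.factorial : ℕ) : ℝ) ≤ (k : ℝ) ^ k := by exact_mod_cast h1
    refine h2.trans ?_
    refine (pow_le_pow_left₀ (Nat.cast_nonneg _) hkM k).trans ?_
    exact pow_le_pow_right₀ hM1 (by omega)
  have hk2 : (l2.length : ℝ) ^ l2.length ≤ (M : ℝ) ^ M := by
    refine (pow_le_pow_left₀ (Nat.cast_nonneg _) hl2M _).trans ?_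
    exact pow_le_pow_right₀ hM1 (by omega)
  have hSr1 : (1 : ℝ) ≤ S := by exact_mod_cast hSpos
  have hk3 : ((S : ℝ) ^ S) ^ k ≤ ((S : ℝ) ^ S) ^ M :=
    pow_le_pow_right₀ (one_le_pow₀ hSr1) hkM'
  have hRpos : 0 < R := by linarith
  have hC2M : C2 ^ M ≤ C ^ M := pow_le_pow_left₀ (by linarith) hC2C M
  have hfin : ‖dir (l.map v) Φ (mv x0)‖ ≤ C ^ M * ((M : ℝ) ^ M * ((S : ℝ) ^ S) ^ M *
      ((M : ℝ) ^ M * (L : ℝ) ^ (d + 1) * B * E1) * (R ^ (S * k))⁻¹) := by
    refine hl'.trans ?_
    rw [hlM, ← hM]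
    refine mul_le_mul hC2M (hS'.trans ?_) (norm_nonneg _) (by positivity)
    have h1 : (l2.length : ℝ) ^ l2.length * ((L : ℝ) ^ (d + 1) * B * E1) ≤
        (M : ℝ) ^ M * (L : ℝ) ^ (d + 1) * B * E1 := by
      have h2 : (M : ℝ) ^ M * (L : ℝ) ^ (d + 1) * B * E1 =
          (M : ℝ) ^ M * ((L : ℝ) ^ (d + 1) * B * E1) := by ring
      rw [h2]
      exact mul_le_mul_of_nonneg_right hk2 (by positivity)
    refine mul_le_mul_of_nonneg_right ?_ (by positivity)
    refine mul_le_mul ?_ h1 (by positivity) (by positivity)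
    exact mul_le_mul hk1 hk3 (by positivity) (by positivity)
  exact absurd hNumM (not_lt.2 (hlow.trans hfin))

end Pool.Agent.BBP
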