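import Pool.Agent.BBP.Stmts

/-!
# BBP, module EXPP: exponentials with different exponents are linearly independent over the
polynomials
-/

open scoped BigOperators Polynomial Topology
open Metric Filter Finset

namespace Pool.Agent.BBP

noncomputable section

namespace EXPPX

variable {ι : Type} (lam : ι → ℂ)

/-- the transformed coefficient -/
def tr (a : ι) (P : ι → ℂ[X]) (i : ι) : ℂ[X] :=
  Polynomial.derivative (P i) + Polynomial.C (lam i - lam a) * P i

theorem deriv_zero (S : Finset ι) (a : ι) (P : ι → ℂ[X])
    (h : ∀ t : ℂ, ∑ i ∈ S, (P i).eval t * Complex.exp (lam i * t) = 0) (t : ℂ) :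
    ∑ i ∈ S, (tr lam a P i).eval t * Complex.exp (lam i * t) = 0 := by
  have h1 : HasDerivAt (fun t : ℂ => ∑ i ∈ S, (P i).eval t * Complex.exp (lam i * t))
      (∑ i ∈ S, ((Polynomial.derivative (P i)).eval t * Complex.exp (lam i * t) +
        (P i).eval t * (Complex.exp (lam i * t) * lam i))) t := by
    apply HasDerivAt.fun_sum
    intro i _
    have h2 : HasDerivAt (fun t : ℂ => lam i * t) (lam i) t := by
      simpa using (hasDerivAt_id t).const_mul (lam i)
    exact ((P i).hasDerivAt t).mul h2.cexp
  have h3 : (fun t : ℂ => ∑ i ∈ S, (P i).eval t * Complex.exp (lam i * t)) = fun _ => 0 :=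
    funext h
  rw [h3] at h1
  have h4 := h1.unique (hasDerivAt_const t (0 : ℂ))
  have h5 : ∑ i ∈ S, (tr lam a P i).eval t * Complex.exp (lam i * t) =
      (∑ i ∈ S, ((Polynomial.derivative (P i)).eval t * Complex.exp (lam i * t) +
        (P i).eval t * (Complex.exp (lam i * t) * lam i))) -
      lam a * ∑ i ∈ S, (P i).eval t * Complex.exp (lam i * t) := by
    rw [Finset.mul_sum, ← Finset.sum_sub_distrib]
    apply Finset.sum_congr rfl
    intro i _
    simp only [tr, Polynomial.eval_add, Polynomial.eval_mul, Polynomial.eval_C]
    ring
  rw [h5, h4, h t]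
  ring

theorem eq_zero_of_tr (a i : ι) (P : ι → ℂ[X]) (hne : lam i - lam a ≠ 0)
    (h : tr lam a P i = 0) : P i = 0 := by
  by_contra hP
  have h1 : Polynomial.derivative (P i) = - (Polynomial.C (lam i - lam a) * P i) :=
    eq_neg_of_add_eq_zero_left h
  have h2 : (Polynomial.derivative (P i)).degree < (P i).degree :=
    Polynomial.degree_derivative_lt hP
  rw [h1, Polynomial.degree_neg, Polynomial.degree_C_mul hne] at h2
  exact lt_irrefl _ h2

theorem main (hlam : Function.Injective lam) (S : Finset ι) : ∀ P : ι → ℂ[X],
    (∀ t : ℂ, ∑ i ∈ S, (P i).eval t * Complex.exp (lam i * t) = 0) → ∀ i ∈ S, P i = 0 := by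
  classical
  induction S using Finset.induction_on with
  | empty => intro P _ i hi; simp at hi
  | insert a S ha ih =>
    have key : ∀ n : ℕ, ∀ P : ι → ℂ[X], (P a).degree < n →
        (∀ t : ℂ, ∑ i ∈ insert a S, (P i).eval t * Complex.exp (lam i * t) = 0) →
        ∀ i ∈ insert a S, P i = 0 := by
      intro n
      induction n with
      | zero =>
        intro P hd h i hi
        have h0 : P a = 0 := by
          rw [← Polynomial.degree_eq_bot]
          exact Nat.WithBot.lt_zero_iff.1 (by simpa using hd)
        have h1 : ∀ t : ℂ, ∑ i ∈ S, (P i).eval t * Complex.exp (lam i * t) = 0 := by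
          intro t
          have := h t
          rw [Finset.sum_insert ha, h0] at this
          simpa using this
        rcases Finset.mem_insert.1 hi with rfl | hi
        · exact h0
        · exact ih P h1 i hi
      | succ n ihn =>
        intro P hd h
        have hQ : (tr lam a P a).degree < n := by
          have e1 : tr lam a P a = Polynomial.derivative (P a) := by simp [tr]
          rw [e1]
          by_cases hP : P a = 0
          · rw [hP]; simp
          · have h2 : (Polynomial.derivative (P a)).degree < (P a).degree :=
              Polynomial.degree_derivative_lt hP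
            have h3 : (P a).degree ≤ n := by
              have : (P a).degree < ((n + 1 : ℕ) : WithBot ℕ) := hd
              rw [Polynomial.degree_eq_natDegree hP] at this ⊢
              exact_mod_cast Nat.lt_succ_iff.1 (by exact_mod_cast this)
            exact lt_of_lt_of_le h2 h3
        have h0 := ihn (tr lam a P) hQ (deriv_zero lam _ a P h)
        have h1 : ∀ i ∈ S, P i = 0 := by
          intro i hi
          refine eq_zero_of_tr lam a i P ?_ (h0 i (Finset.mem_insert_of_mem hi))
          rw [sub_ne_zero]
          intro he
          exact ha (hlam he ▸ hi)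
        have h2 : P a = 0 := by
          apply Polynomial.funext
          intro t
          have h3 := h t
          rw [Finset.sum_insert ha, Finset.sum_eq_zero (fun i hi => by rw [h1 i hi]; simp),
            add_zero] at h3
          rcases mul_eq_zero.1 h3 with h4 | h4
          · simpa using h4
          · exact absurd h4 (Complex.exp_ne_zero _)
        intro i hi
        rcases Finset.mem_insert.1 hi with rfl | hi
        · exact h2
        · exact h1 i hi
    intro P h
    exact key ((P a).natDegree + 1) P
      (lt_of_le_of_lt Polynomial.degree_le_natDegree (by exact_mod_cast Nat.lt_succ_self _)) h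

end EXPPX

theorem expp_proof : Stmt_Expp := by
  intro ι _ lam hlam P h i
  exact EXPPX.main lam hlam Finset.univ P h i (Finset.mem_univ i)

end

end Pool.Agent.BBP
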