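import Pool.Agent.BBP.Stmts

/-!
# BBP / EXT: linear combinations of several series
-/

open scoped BigOperators Polynomial Topology
open Metric Filter Finset

namespace Pool.Agent.BBP

noncomputable section

/-- LINC: LIN with free parameters. -/
def Stmt_Linc : Prop := ∀ (k : ℕ) (p q : ℂ[X]), 0 < k → (∀ i, IsAlgebraic ℚ (p.coeff i)) →
  (∀ i, IsAlgebraic ℚ (q.coeff i)) → q ≠ 0 → q.roots.Nodup →
  (∀ z ∈ q.roots, ∃ r : ℚ, z = r ∧ ∀ m : ℕ, r ≠ m) →
  ∃ n₀ : ℕ, 0 < n₀ ∧ ∀ L n : ℕ, 0 < L → 0 < n → n₀ * L ∣ n →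
    ∃ (μ : ℂ) (c : ℕ → ℂ), IsAlgebraic ℚ μ ∧ (∀ t, IsAlgebraic ℚ (c t)) ∧
    HasSum (fun m : ℕ => p.eval (m : ℂ) / (q.eval (m : ℂ) * 10 ^ (k * m)))
      (μ + ∑ t ∈ range n, c t * Complex.log (1 - zt n ^ t * bt n (k * L)))

namespace EXTX

/-- sums over the residue classes modulo `L` -/
theorem hasSum_residues {f : ℕ → ℂ} {L : ℕ} (hL : 0 < L) {a : ℕ → ℂ}
    (h : ∀ i ∈ range L, HasSum (fun M : ℕ => f (L * M + i)) (a i)) :
    HasSum f (∑ i ∈ range L, a i) := by
  classical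
  have h1 : ∀ i ∈ range L, HasSum (fun m : ℕ => if m % L = i then f m else 0) (a i) := by
    intro i hi
    have hi' := Finset.mem_range.1 hi
    have hinj : Function.Injective (fun M : ℕ => L * M + i) := by
      intro x y hxy
      simp only [add_left_inj] at hxy
      exact Nat.eq_of_mul_eq_mul_left hL hxy
    rw [← hinj.hasSum_iff]
    · have h3 : ((fun m : ℕ => if m % L = i then f m else 0) ∘ fun M : ℕ => L * M + i) =
          fun M : ℕ => f (L * M + i) := by
        funext M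
        simp only [Function.comp]
        rw [if_pos]
        rw [Nat.mul_add_mod, Nat.mod_eq_of_lt hi']
      rw [h3]
      exact h i hi
    · intro m hm
      rw [if_neg]
      intro hmi
      apply hm
      refine ⟨m / L, ?_⟩
      have := Nat.div_add_mod m L
      simp only
      rw [← hmi]
      exact this
  have h2 := hasSum_sum h1
  have h4 : (fun m : ℕ => ∑ i ∈ range L, if m % L = i then f m else 0) = f := by
    funext m
    rw [Finset.sum_ite_eq, if_pos (Finset.mem_range.2 (Nat.mod_lt _ hL))]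
  rw [h4] at h2
  exact h2

theorem alg_mul {x y : ℂ} (hx : IsAlgebraic ℚ x) (hy : IsAlgebraic ℚ y) : IsAlgebraic ℚ (x * y) :=
  hx.mul hy

theorem alg_sum {κ : Type} (s : Finset κ) (f : κ → ℂ) (h : ∀ k ∈ s, IsAlgebraic ℚ (f k)) :
    IsAlgebraic ℚ (∑ k ∈ s, f k) := by
  have : (∑ k ∈ s, f k) ∈ algebraicClosure ℚ ℂ :=
    sum_mem fun k hk => mem_algebraicClosure_iff.2 (h k hk)
  exact mem_algebraicClosure_iff.1 this

theorem alg_rat (r : ℚ) : IsAlgebraic ℚ (r : ℂ) := isAlgebraic_algebraMap (A := ℂ) r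

theorem alg_nat (r : ℕ) : IsAlgebraic ℚ (r : ℂ) := by
  have := alg_rat (r : ℚ)
  simpa using this

/-- one simple pole, all parameters -/
theorem serq_all (hS : Stmt_Serq) (k L n : ℕ) (r : ℚ) (hk : 0 < k) (hL : 0 < L) (hn : 0 < n)
    (hr : ∀ m : ℕ, r ≠ m) (hd : r.den * L ∣ n) :
    ∃ (μ : ℂ) (c : ℕ → ℂ), IsAlgebraic ℚ μ ∧ (∀ t, IsAlgebraic ℚ (c t)) ∧
      HasSum (fun m : ℕ => 1 / (((m : ℂ) - (r : ℂ)) * 10 ^ (k * m)))
        (μ + ∑ t ∈ range n, c t * Complex.log (1 - zt n ^ t * bt n (k * L))) := by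
  classical
  have hLQ : (L : ℚ) ≠ 0 := by exact_mod_cast hL.ne'
  have hLC : (L : ℂ) ≠ 0 := by exact_mod_cast hL.ne'
  have key : ∀ i : ℕ, ∃ (μ : ℂ) (c : ℕ → ℂ), IsAlgebraic ℚ μ ∧ (∀ t, IsAlgebraic ℚ (c t)) ∧
      HasSum (fun M : ℕ => 1 / ((((L * M + i : ℕ) : ℂ) - (r : ℂ)) * 10 ^ (k * (L * M + i))))
        (μ + ∑ t ∈ range n, c t * Complex.log (1 - zt n ^ t * bt n (k * L))) := by
    intro i
    have h1 : ∀ M : ℕ, (r - i) / L ≠ (M : ℚ) := by
      intro M hM
      rw [div_eq_iff hLQ] at hM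
      apply hr (M * L + i)
      push_cast
      linarith
    have h2 : ((r - i) / L).den ∣ n := by
      refine dvd_trans ?_ hd
      have h3 : ((r - i) / L : ℚ) = (r + (-(i : ℤ) : ℤ)) * (Rat.divInt 1 L) := by
        rw [Rat.divInt_eq_div]
        push_cast
        ring
      rw [h3]
      refine (Rat.mul_den_dvd _ _).trans (Nat.mul_dvd_mul ?_ ?_)
      · refine (Rat.add_den_dvd _ _).trans ?_
        simp
      · have := Rat.den_dvd 1 (L : ℤ)
        exact_mod_cast this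
    obtain ⟨μ, c, hμ, hc, hsum⟩ := hS n (k * L) ((r - i) / L) hn (Nat.mul_pos hk hL) h1 h2
    set x : ℂ := 1 / (L * 10 ^ (k * i)) with hx
    have hxalg : IsAlgebraic ℚ x := by
      have : x = (((1 : ℚ) / (L * 10 ^ (k * i)) : ℚ) : ℂ) := by
        rw [hx]
        push_cast
        rfl
      rw [this]
      exact alg_rat _
    refine ⟨x * μ, fun t => x * c t, alg_mul hxalg hμ, fun t => alg_mul hxalg (hc t), ?_⟩
    have h4 := hsum.mul_left x
    have h5 : x * (μ + ∑ t ∈ range n, c t * Complex.log (1 - zt n ^ t * bt n (k * L))) =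
        x * μ + ∑ t ∈ range n, x * c t * Complex.log (1 - zt n ^ t * bt n (k * L)) := by
      rw [mul_add, Finset.mul_sum]
      congr 1
      refine Finset.sum_congr rfl fun t _ => ?_
      ring
    rw [h5] at h4
    have h6 : (fun M : ℕ => x * (1 / (((M : ℂ) - (((r - i) / L : ℚ) : ℂ)) * 10 ^ (k * L * M)))) =
        fun M : ℕ => 1 / ((((L * M + i : ℕ) : ℂ) - (r : ℂ)) * 10 ^ (k * (L * M + i))) := by
      funext M
      have h7 : (10 : ℂ) ^ (k * (L * M + i)) = 10 ^ (k * L * M) * 10 ^ (k * i) := by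
        rw [← pow_add]
        congr 1
        ring
      have h8 : (((L * M + i : ℕ) : ℂ) - (r : ℂ)) = L * ((M : ℂ) - (((r - i) / L : ℚ) : ℂ)) := by
        push_cast
        field_simp
        ring
      rw [h7, h8, hx, one_div_mul_one_div]
      congr 1
      ring
    rw [h6] at h4
    exact h4
  choose μ c hμ hc hsum using key
  refine ⟨∑ i ∈ range L, μ i, fun t => ∑ i ∈ range L, c i t, alg_sum _ _ fun i _ => hμ i,
    fun t => alg_sum _ _ fun i _ => hc i t, ?_⟩
  have h1 := hasSum_residues (f := fun m : ℕ => 1 / (((m : ℂ) - (r : ℂ)) * 10 ^ (k * m))) hL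
    (fun i _ => hsum i)
  have h2 : ∑ i ∈ range L, (μ i + ∑ t ∈ range n, c i t *
      Complex.log (1 - zt n ^ t * bt n (k * L))) = ∑ i ∈ range L, μ i +
      ∑ t ∈ range n, (∑ i ∈ range L, c i t) * Complex.log (1 - zt n ^ t * bt n (k * L)) := by
    rw [Finset.sum_add_distrib, Finset.sum_comm]
    congr 1
    refine Finset.sum_congr rfl fun t _ => ?_
    rw [Finset.sum_mul]
  rw [h2] at h1
  exact h1

end EXTX

open EXTX in
theorem linc_proof (hS : Stmt_Serq) (hP : Stmt_Pols) (hF : Stmt_Pfr) : Stmt_Linc := by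
  classical
  intro k p q hk hp hq hq0 hsimple hrat
  obtain ⟨P, S, c, hPa, hca, hSr, hpq⟩ := hF p q hp hq hq0 hsimple hrat
  obtain ⟨μ₀, hμ₀, hsum₀⟩ := hP k P hk hPa
  refine ⟨∏ r ∈ S, r.den, Finset.prod_pos fun r _ => r.den_pos, ?_⟩
  intro L n hL hn hdvd
  have key : ∀ r : ℚ, ∃ (μ : ℂ) (e : ℕ → ℂ), r ∈ S → IsAlgebraic ℚ μ ∧
      (∀ t, IsAlgebraic ℚ (e t)) ∧
      HasSum (fun m : ℕ => 1 / (((m : ℂ) - (r : ℂ)) * 10 ^ (k * m)))
        (μ + ∑ t ∈ range n, e t * Complex.log (1 - zt n ^ t * bt n (k * L))) := by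
    intro r
    by_cases hr : r ∈ S
    · obtain ⟨μ, e, h⟩ := serq_all hS k L n r hk hL hn (hSr r hr)
        ((Nat.mul_dvd_mul_right (Finset.dvd_prod_of_mem _ hr) L).trans hdvd)
      exact ⟨μ, e, fun _ => h⟩
    · exact ⟨0, fun _ => 0, fun h => absurd h hr⟩
  choose μ e he using key
  refine ⟨μ₀ + ∑ r ∈ S, c r * μ r, fun t => ∑ r ∈ S, c r * e r t, ?_, ?_, ?_⟩
  · exact hμ₀.add (alg_sum _ _ fun r hr => alg_mul (hca r) (he r hr).1)
  · exact fun t => alg_sum _ _ fun r hr => alg_mul (hca r) ((he r hr).2.1 t)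
  · have h1 : ∀ r ∈ S, HasSum (fun m : ℕ => c r * (1 / (((m : ℂ) - (r : ℂ)) * 10 ^ (k * m))))
        (c r * (μ r + ∑ t ∈ range n, e r t * Complex.log (1 - zt n ^ t * bt n (k * L)))) :=
      fun r hr => (he r hr).2.2.mul_left _
    have h2 := hsum₀.add (hasSum_sum h1)
    have h3 : (fun m : ℕ => P.eval (m : ℂ) / 10 ^ (k * m) +
        ∑ r ∈ S, c r * (1 / (((m : ℂ) - (r : ℂ)) * 10 ^ (k * m)))) =
        fun m : ℕ => p.eval (m : ℂ) / (q.eval (m : ℂ) * 10 ^ (k * m)) := by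
      funext m
      rw [← div_div, hpq m, add_div, Finset.sum_div]
      congr 1
      refine Finset.sum_congr rfl fun r _ => ?_
      rw [div_div, mul_one_div]
    rw [h3] at h2
    have h4 : μ₀ + ∑ r ∈ S, c r * (μ r + ∑ t ∈ range n, e r t *
        Complex.log (1 - zt n ^ t * bt n (k * L))) = μ₀ + ∑ r ∈ S, c r * μ r +
        ∑ t ∈ range n, (∑ r ∈ S, c r * e r t) * Complex.log (1 - zt n ^ t * bt n (k * L)) := by
      rw [add_assoc]
      congr 1
      simp only [mul_add, Finset.sum_add_distrib, Finset.mul_sum, Finset.sum_mul]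
      congr 1
      rw [Finset.sum_comm]
      refine Finset.sum_congr rfl fun t _ => Finset.sum_congr rfl fun r _ => ?_
      ring
    rw [h4] at h2
    exact h2

/-- The values of the BBP-type series with simple poles in the bases `10 ^ k`, `k ≥ 1`. -/
def BBPValues : Set ℂ :=
  {s | ∃ (k : ℕ) (p q : ℂ[X]), 0 < k ∧ (∀ i, IsAlgebraic ℚ (p.coeff i)) ∧
    (∀ i, IsAlgebraic ℚ (q.coeff i)) ∧ q ≠ 0 ∧ q.roots.Nodup ∧
    (∀ z ∈ q.roots, ∃ r : ℚ, z = r ∧ ∀ m : ℕ, r ≠ m) ∧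
    HasSum (fun m : ℕ => p.eval (m : ℂ) / (q.eval (m : ℂ) * 10 ^ (k * m))) s}

/-- The final theorem: `π` is not in the vector space generated over the algebraic numbers by `1` and
the values of all these series. -/
def Stmt_Span : Prop :=
  (Real.pi : ℂ) ∉ Submodule.span (algebraicClosure ℚ ℂ) ({1} ∪ BBPValues)

namespace EXTX

/-- the space of the algebraic combinations of `1` and the logarithms -/
def W (n K : ℕ) : Submodule (algebraicClosure ℚ ℂ) ℂ where
  carrier := {s | ∃ (μ : ℂ) (c : ℕ → ℂ), IsAlgebraic ℚ μ ∧ (∀ t, IsAlgebraic ℚ (c t)) ∧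
    s = μ + ∑ t ∈ range n, c t * Complex.log (1 - zt n ^ t * bt n K)}
  add_mem' := by
    rintro x y ⟨μ, c, h1, h2, rfl⟩ ⟨μ', c', h1', h2', rfl⟩
    refine ⟨μ + μ', fun t => c t + c' t, h1.add h1', fun t => (h2 t).add (h2' t), ?_⟩
    simp only [add_mul, Finset.sum_add_distrib]
    ring
  zero_mem' := ⟨0, fun _ => 0, isAlgebraic_zero, fun _ => isAlgebraic_zero, by simp⟩
  smul_mem' := by
    rintro ⟨a, ha⟩ x ⟨μ, c, h1, h2, rfl⟩
    have ha' : IsAlgebraic ℚ a := mem_algebraicClosure_iff.1 ha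
    refine ⟨a * μ, fun t => a * c t, ha'.mul h1, fun t => ha'.mul (h2 t), ?_⟩
    have : (⟨a, ha⟩ : algebraicClosure ℚ ℂ) • (μ + ∑ t ∈ range n, c t *
        Complex.log (1 - zt n ^ t * bt n K)) = a * (μ + ∑ t ∈ range n, c t *
        Complex.log (1 - zt n ^ t * bt n K)) := rfl
    rw [this, mul_add, Finset.mul_sum]
    congr 1
    refine Finset.sum_congr rfl fun t _ => ?_
    ring

/-- finitely many values lie in a common space `W n K` -/
theorem common (hL : Stmt_Linc) {ι : Type} (I : Finset ι) (g : ι → ℂ)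
    (hg : ∀ i ∈ I, g i ∈ BBPValues) : ∃ n K : ℕ, 0 < n ∧ 0 < K ∧ ∀ i ∈ I, g i ∈ W n K := by
  classical
  have key : ∀ i, ∃ (k n₀ : ℕ), 0 < k ∧ 0 < n₀ ∧ (i ∈ I → ∀ L n : ℕ, 0 < L → 0 < n →
      n₀ * L ∣ n → g i ∈ W n (k * L)) := by
    intro i
    by_cases hi : i ∈ I
    · obtain ⟨k, p, q, hk, hp, hq, hq0, hs, hr, hsum⟩ := hg i hi
      obtain ⟨n₀, hn₀, h⟩ := hL k p q hk hp hq hq0 hs hr
      refine ⟨k, n₀, hk, hn₀, fun _ L n hL hn hd => ?_⟩
      obtain ⟨μ, c, h1, h2, h3⟩ := h L n hL hn hd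
      exact ⟨μ, c, h1, h2, hsum.unique h3⟩
    · exact ⟨1, 1, one_pos, one_pos, fun h => absurd h hi⟩
  choose k n₀ hk hn₀ h using key
  set K := ∏ i ∈ I, k i with hK
  have hKpos : 0 < K := Finset.prod_pos fun i _ => hk i
  set n := (∏ i ∈ I, n₀ i) * K with hn
  have hnpos : 0 < n := Nat.mul_pos (Finset.prod_pos fun i _ => hn₀ i) hKpos
  refine ⟨n, K, hnpos, hKpos, fun i hi => ?_⟩
  obtain ⟨L, hLK⟩ : k i ∣ K := Finset.dvd_prod_of_mem _ hi
  have hLpos : 0 < L := by
    rcases Nat.eq_zero_or_pos L with h0 | h0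
    · rw [h0, mul_zero] at hLK
      omega
    · exact h0
  rw [hLK]
  refine h i hi L n hLpos hnpos ?_
  rw [hn]
  refine Nat.mul_dvd_mul (Finset.dvd_prod_of_mem _ hi) ?_
  exact ⟨k i, by rw [hLK, mul_comm]⟩

/-- `π` is not in `W n K` -/
theorem pi_notMem (hB : Stmt_Baker) (hI : Stmt_Indk) (n K : ℕ) (hn : 0 < n) (hK : 0 < K) :
    (Real.pi : ℂ) ∉ W n K := by
  rintro ⟨μ, c, hμ, hc, h⟩
  set F : Option (Fin n) → ℂ := fun o => Option.elim o ((Real.pi : ℂ) * Complex.I)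
      (fun t => Complex.log (1 - zt n ^ (t : ℕ) * bt n K)) with hF
  have hli : LinearIndependent ℚ (F ∘ finSuccEquiv n) :=
    (hI n K hn hK).comp _ (finSuccEquiv n).injective
  have hzt : IsAlgebraic ℚ (zt n) := by
    have h1 : zt n ^ n = 1 := by
      unfold zt
      rw [← Complex.exp_nat_mul, mul_div_cancel₀ _ (by exact_mod_cast hn.ne')]
      exact Complex.exp_two_pi_mul_I
    refine ⟨Polynomial.X ^ n - 1, ?_, ?_⟩
    · have h2 := Polynomial.X_pow_sub_C_ne_zero hn (1 : ℚ)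
      rwa [map_one] at h2
    · simp [h1]
  have hbt : IsAlgebraic ℚ (bt n K) := by
    have h1 : bt n K ^ n = ((((10 : ℚ) ^ K)⁻¹ : ℚ) : ℂ) := by
      unfold bt
      have h2 : ((10 : ℝ) ^ (-(K : ℝ) / n)) ^ n = ((10 : ℝ) ^ K)⁻¹ := by
        rw [← Real.rpow_natCast, ← Real.rpow_mul (by norm_num),
          div_mul_cancel₀ _ (by exact_mod_cast hn.ne'), Real.rpow_neg (by norm_num),
          Real.rpow_natCast]
      rw [← Complex.ofReal_pow, h2]
      push_cast
      rfl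
    have h3 : IsAlgebraic ℚ (bt n K ^ n) := by
      rw [h1]
      exact alg_rat _
    exact IsAlgebraic.of_pow hn h3
  have hexp : ∀ i, IsAlgebraic ℚ (Complex.exp ((F ∘ finSuccEquiv n) i)) := by
    intro i
    simp only [Function.comp]
    generalize finSuccEquiv n i = o
    rcases o with _ | t
    · simp only [hF, Option.elim]
      rw [Complex.exp_pi_mul_I]
      exact (isAlgebraic_one).neg
    · simp only [hF, Option.elim]
      by_cases h0 : 1 - zt n ^ (t : ℕ) * bt n K = 0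
      · rw [h0, Complex.log_zero, Complex.exp_zero]
        exact isAlgebraic_one
      · rw [Complex.exp_log h0]
        exact isAlgebraic_one.sub ((hzt.pow _).mul hbt)
  set b : Option (Fin n) → ℂ := fun o => Option.elim o Complex.I (fun t => c t) with hb
  have hbalg : ∀ i, IsAlgebraic ℚ ((b ∘ finSuccEquiv n) i) := by
    intro i
    simp only [Function.comp]
    generalize finSuccEquiv n i = o
    rcases o with _ | t
    · simp only [hb, Option.elim]
      exact Complex.isIntegral_rat_I.isAlgebraic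
    · exact hc t
  have hrel : μ + ∑ i, (b ∘ finSuccEquiv n) i * (F ∘ finSuccEquiv n) i = 0 := by
    have h1 : ∑ i, (b ∘ finSuccEquiv n) i * (F ∘ finSuccEquiv n) i = ∑ o, b o * F o :=
      (finSuccEquiv n).sum_comp (fun o => b o * F o)
    rw [h1, Fintype.sum_option]
    simp only [hb, hF, Option.elim]
    have h2 : ∑ i : Fin n, c i * Complex.log (1 - zt n ^ (i : ℕ) * bt n K) =
        ∑ t ∈ range n, c t * Complex.log (1 - zt n ^ t * bt n K) :=
      (Finset.sum_range (fun t => c t * Complex.log (1 - zt n ^ t * bt n K))).symm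
    rw [h2]
    have h3 : Complex.I * ((Real.pi : ℂ) * Complex.I) = -(Real.pi : ℂ) := by
      linear_combination (Real.pi : ℂ) * Complex.I_mul_I
    rw [h3]
    linear_combination -h
  have hfin := (hB (n + 1) (F ∘ finSuccEquiv n) hexp hli μ (b ∘ finSuccEquiv n) hμ hbalg hrel).2
  have h1 := hfin ((finSuccEquiv n).symm none)
  simp only [Function.comp, Equiv.apply_symm_apply, hb, Option.elim] at h1
  exact Complex.I_ne_zero h1

end EXTX

open EXTX in
theorem span_proof (hB : Stmt_Baker) (hI : Stmt_Indk) (hL : Stmt_Linc) : Stmt_Span := by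
  classical
  intro hmem
  rw [Submodule.mem_span_set'] at hmem
  obtain ⟨N, f, g, hfg⟩ := hmem
  obtain ⟨n, K, hn, hK, hcom⟩ := common hL (Finset.univ.filter fun i : Fin N =>
    ((g i : ℂ)) ∈ BBPValues) (fun i => (g i : ℂ)) (fun i hi => (Finset.mem_filter.1 hi).2)
  have h1 : (1 : ℂ) ∈ W n K :=
    ⟨1, fun _ => 0, isAlgebraic_one, fun _ => isAlgebraic_zero, by simp⟩
  have h2 : ∀ i, (g i : ℂ) ∈ W n K := by
    intro i
    by_cases hi : (g i : ℂ) ∈ BBPValues
    · exact hcom i (Finset.mem_filter.2 ⟨Finset.mem_univ i, hi⟩)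
    · have h3 := (g i).2
      rcases h3 with h3 | h3
      · have h4 : (g i : ℂ) = 1 := h3
        rw [h4]
        exact h1
      · exact absurd h3 hi
  apply pi_notMem hB hI n K hn hK
  rw [← hfg]
  exact Submodule.sum_mem _ fun i _ => Submodule.smul_mem _ _ (h2 i)

end

end Pool.Agent.BBP
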