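import Pool.Agent.BBP.Stmts

/-!
# BBP: module FOU (Fourier coefficients of a relation)
-/

open scoped BigOperators Polynomial Topology ComplexConjugate
open Metric Filter Finset

namespace Pool.Agent.BBP

namespace FOUX

theorem zt_prim (N : ℕ) (hN : 0 < N) : IsPrimitiveRoot (zt N) N :=
  Complex.isPrimitiveRoot_exp N hN.ne'

theorem zt_norm (N : ℕ) : ‖zt N‖ = 1 := by
  unfold zt
  have : (2 * Real.pi * Complex.I / N : ℂ) = ((2 * Real.pi / N : ℝ) : ℂ) * Complex.I := by
    push_cast
    ring
  rw [this, Complex.norm_exp_ofReal_mul_I]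

theorem zt_ne (N : ℕ) : zt N ≠ 0 := Complex.exp_ne_zero _

theorem conj_zt_zpow (N : ℕ) (k : ℤ) : conj (zt N ^ k) = zt N ^ (-k) := by
  rw [map_zpow₀, ← Complex.inv_eq_conj (zt_norm N), inv_zpow, zpow_neg]

theorem sum_zt (N : ℕ) (hN : 0 < N) (K : ℤ) :
    ∑ s ∈ range N, zt N ^ ((s : ℤ) * K) = if (N : ℤ) ∣ K then (N : ℂ) else 0 := by
  have hp := zt_prim N hN
  have h1 : ∀ s : ℕ, zt N ^ ((s : ℤ) * K) = (zt N ^ K) ^ s := by
    intro s
    rw [mul_comm, zpow_mul, zpow_natCast]
  simp_rw [h1]
  split_ifs with h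
  · rw [(hp.zpow_eq_one_iff_dvd K).2 h]
    simp
  · have hne : zt N ^ K ≠ 1 := fun h' => h ((hp.zpow_eq_one_iff_dvd K).1 h')
    rw [geom_sum_eq hne]
    have : (zt N ^ K) ^ N = 1 := by
      rw [← zpow_natCast, ← zpow_mul, mul_comm, zpow_mul, zpow_natCast, hp.pow_eq_one, one_zpow]
    rw [this]
    simp

end FOUX

open FOUX

theorem fou_proof : Stmt_Fou := by
  intro N n hN hn hNn m a ω β hω hβ0 hβ1 hrel B hB c hc0 hcN
  have hB0 : 0 ≤ B := (norm_nonneg _).trans (hB 0)
  -- the terms
  set u : ℕ → ℂ := fun v => ((β ^ v / v : ℝ) : ℂ) * (ω ^ v * Mh n m (a * v)) with hu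
  have hunorm : ∀ v, ‖u v‖ ≤ B * (β ^ v / v) := by
    intro v
    simp only [hu]
    have h0 : (0 : ℝ) ≤ β ^ v / v := by positivity
    rw [norm_mul, norm_mul, norm_pow, hω, one_pow, one_mul, Complex.norm_real,
      Real.norm_of_nonneg h0, mul_comm]
    exact mul_le_mul_of_nonneg_right (hB _) h0
  have hubd : ∀ v : ℕ, B * (β ^ v / v) ≤ B * β ^ v := by
    intro v
    apply mul_le_mul_of_nonneg_left _ hB0
    rcases Nat.eq_zero_or_pos v with h | h
    · subst h; simp
    · apply div_le_self (by positivity)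
      exact_mod_cast h
  have hgeo : Summable (fun v : ℕ => B * β ^ v) :=
    (summable_geometric_of_lt_one hβ0.le hβ1).mul_left B
  have hsumB : Summable (fun v : ℕ => B * (β ^ v / v)) :=
    Summable.of_nonneg_of_le (fun v => by positivity) hubd hgeo
  have hsumu : Summable (fun v => ‖u v‖) :=
    Summable.of_nonneg_of_le (fun v => norm_nonneg _) hunorm hsumB
  -- the logarithm of the relation
  have hS : ∀ s : ℕ, HasSum (fun v : ℕ => zt N ^ ((s : ℤ) * v) * u v +
      conj (zt N ^ ((s : ℤ) * v) * u v)) 0 := by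
    intro s
    set w : ℕ → ℂ := fun t => zt n ^ (a * t) * (ω * zt N ^ s) * β with hw
    have hwn : ∀ t, ‖w t‖ = β := by
      intro t
      simp only [hw]
      rw [norm_mul, norm_mul, norm_mul, norm_pow, norm_pow, zt_norm, zt_norm, hω, one_pow,
        one_pow, Complex.norm_real, Real.norm_of_nonneg hβ0.le]
      ring
    have hwne : ∀ t, ‖1 - w t‖ ≠ 0 := by
      intro t h
      have h1 : 1 - w t = 0 := norm_eq_zero.1 h
      have h2 : w t = 1 := (sub_eq_zero.1 h1).symm
      have h3 := hwn t
      rw [h2, norm_one] at h3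
      linarith
    have hlog : ∀ t, HasSum (fun v : ℕ => w t ^ v / v) (-Complex.log (1 - w t)) := fun t =>
      Complex.hasSum_taylorSeries_neg_log (by rw [hwn t]; exact hβ1)
    have h1 : HasSum (fun v : ℕ => ∑ t ∈ range n, (m t : ℂ) * (w t ^ v / v))
        (∑ t ∈ range n, (m t : ℂ) * (-Complex.log (1 - w t))) :=
      hasSum_sum (fun t _ => (hlog t).mul_left _)
    have h2 : (fun v : ℕ => ∑ t ∈ range n, (m t : ℂ) * (w t ^ v / v)) =
        fun v : ℕ => zt N ^ ((s : ℤ) * v) * u v := by
      funext v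
      simp only [hu, hw, Mh]
      rw [Finset.mul_sum, Finset.mul_sum, Finset.mul_sum]
      refine Finset.sum_congr rfl (fun t _ => ?_)
      have e1 : zt N ^ ((s : ℤ) * v) = (zt N ^ s) ^ v := by
        rw [zpow_mul, zpow_natCast, zpow_natCast]
      have e2 : zt n ^ ((t : ℤ) * (a * v)) = (zt n ^ (a * t)) ^ v := by
        rw [← pow_mul, ← zpow_natCast]
        congr 1
        push_cast
        ring
      rw [e1, e2]
      push_cast
      rw [mul_pow, mul_pow, mul_pow]
      ring
    rw [h2] at h1
    have hre : (∑ t ∈ range n, (m t : ℂ) * (-Complex.log (1 - w t))).re = 0 := by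
      have h3 := congrArg Real.log (hrel s)
      rw [Real.log_one, Real.log_prod (fun t _ => zpow_ne_zero _ (hwne t))] at h3
      rw [Complex.re_sum]
      have h4 : ∀ t ∈ range n, ((m t : ℂ) * (-Complex.log (1 - w t))).re =
          -Real.log (‖1 - w t‖ ^ (m t)) := by
        intro t _
        rw [Real.log_zpow, ← Complex.log_re]
        have : ((m t : ℂ)) = ((m t : ℝ) : ℂ) := by push_cast; rfl
        rw [this, Complex.re_ofReal_mul, Complex.neg_re]
        ring
      rw [Finset.sum_congr rfl h4, Finset.sum_neg_distrib, h3, neg_zero]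
    have h5 := h1.add ((Complex.hasSum_conj').2 h1)
    rw [Complex.add_conj, hre] at h5
    simpa using h5
  -- average
  have hav : HasSum (fun v : ℕ => ∑ s ∈ range N, zt N ^ (-((s : ℤ) * c)) *
      (zt N ^ ((s : ℤ) * v) * u v + conj (zt N ^ ((s : ℤ) * v) * u v))) 0 := by
    have := hasSum_sum (s := range N) (fun s _ => (hS s).mul_left (zt N ^ (-((s : ℤ) * c))))
    simpa using this
  set F : ℕ → ℂ := fun v => if (N : ℤ) ∣ (v : ℤ) - c then u v else 0 with hF
  set G : ℕ → ℂ := fun v => if (N : ℤ) ∣ (-c : ℤ) - v then conj (u v) else 0 with hG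
  have hN0 : (N : ℂ) ≠ 0 := by exact_mod_cast hN.ne'
  have hFG : HasSum (fun v => F v + G v) 0 := by
    have h1 : (fun v : ℕ => ∑ s ∈ range N, zt N ^ (-((s : ℤ) * c)) *
      (zt N ^ ((s : ℤ) * v) * u v + conj (zt N ^ ((s : ℤ) * v) * u v))) =
        fun v : ℕ => (N : ℂ) * (F v + G v) := by
      funext v
      have e1 : ∀ s : ℕ, zt N ^ (-((s : ℤ) * c)) *
          (zt N ^ ((s : ℤ) * v) * u v + conj (zt N ^ ((s : ℤ) * v) * u v)) =
          zt N ^ ((s : ℤ) * ((v : ℤ) - c)) * u v + zt N ^ ((s : ℤ) * ((-c : ℤ) - v)) *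
            conj (u v) := by
        intro s
        have e2 : zt N ^ ((s : ℤ) * ((v : ℤ) - c)) =
            zt N ^ (-((s : ℤ) * c)) * zt N ^ ((s : ℤ) * v) := by
          rw [← zpow_add₀ (zt_ne N)]
          congr 1
          ring
        have e3 : zt N ^ ((s : ℤ) * ((-c : ℤ) - v)) =
            zt N ^ (-((s : ℤ) * c)) * zt N ^ (-((s : ℤ) * v)) := by
          rw [← zpow_add₀ (zt_ne N)]
          congr 1
          ring
        rw [e2, e3, map_mul, conj_zt_zpow]
        ring
      rw [Finset.sum_congr rfl (fun s _ => e1 s), Finset.sum_add_distrib, ← Finset.sum_mul,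
        ← Finset.sum_mul, sum_zt N hN, sum_zt N hN, mul_add]
      simp only [hF, hG]
      congr 1
      · split_ifs <;> simp
      · split_ifs <;> simp
    rw [h1] at hav
    have h2 := hav.mul_left ((N : ℂ)⁻¹)
    simpa [← mul_assoc, inv_mul_cancel₀ hN0] using h2
  have hFs : Summable F := by
    apply Summable.of_norm
    refine Summable.of_nonneg_of_le (fun v => norm_nonneg _) (fun v => ?_) hsumu
    simp only [hF]
    split_ifs
    · exact le_rfl
    · simp
  have hGs : Summable G := by
    apply Summable.of_norm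
    refine Summable.of_nonneg_of_le (fun v => norm_nonneg _) (fun v => ?_) hsumu
    simp only [hG]
    split_ifs
    · simp
    · simp
  have htot : ∑' v, F v + ∑' v, G v = 0 := by
    rw [← Summable.tsum_add hFs hGs]
    exact hFG.tsum_eq
  -- the two progressions
  have hFt : ∑' j : ℕ, u (c + N * j) = ∑' v, F v := by
    have hinj : Function.Injective (fun j : ℕ => c + N * j) := by
      intro i j h
      have h' : N * i = N * j := by simpa using h
      exact Nat.eq_of_mul_eq_mul_left hN h'
    rw [← hinj.tsum_eq (f := F)]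
    · refine tsum_congr (fun j => ?_)
      simp only [hF]
      rw [if_pos]
      exact ⟨j, by push_cast; ring⟩
    · intro v hv
      simp only [hF, Function.mem_support, ne_eq, ite_eq_right_iff, Classical.not_imp] at hv
      obtain ⟨k, hk⟩ := hv.1
      have hk0 : 0 ≤ k := by
        by_contra h
        push Not at h
        have : (N : ℤ) * k ≤ -N := by nlinarith
        omega
      obtain ⟨j, rfl⟩ := Int.eq_ofNat_of_zero_le hk0
      refine ⟨j, ?_⟩
      simp only
      have : (v : ℤ) = ((c + N * j : ℕ) : ℤ) := by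
        push_cast
        linarith
      exact_mod_cast this.symm
  have hGt : ∑' j : ℕ, conj (u (N * (j + 1) - c)) = ∑' v, G v := by
    have hle : ∀ j : ℕ, c ≤ N * (j + 1) := fun j =>
      hcN.le.trans (Nat.le_mul_of_pos_right N (Nat.succ_pos j))
    have hinj : Function.Injective (fun j : ℕ => N * (j + 1) - c) := by
      intro i j h
      simp only at h
      have h1 := hle i
      have h2 := hle j
      have h' : N * (i + 1) = N * (j + 1) := by omega
      exact Nat.succ_injective (Nat.eq_of_mul_eq_mul_left hN h')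
    rw [← hinj.tsum_eq (f := G)]
    · refine tsum_congr (fun j => ?_)
      simp only [hG]
      rw [if_pos]
      refine ⟨-((j : ℤ) + 1), ?_⟩
      rw [Nat.cast_sub (hle j)]
      push_cast
      ring
    · intro v hv
      simp only [hG, Function.mem_support, ne_eq, ite_eq_right_iff, Classical.not_imp] at hv
      obtain ⟨k, hk⟩ := hv.1
      have hk0 : k < 0 := by
        by_contra h
        push Not at h
        have : 0 ≤ (N : ℤ) * k := by positivity
        omega
      obtain ⟨j, hj⟩ := Int.eq_ofNat_of_zero_le (show 0 ≤ -k - 1 by omega)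
      refine ⟨j, ?_⟩
      simp only
      have h1 : (v : ℤ) + c = N * ((j : ℤ) + 1) := by
        have : (j : ℤ) + 1 = -k := by omega
        rw [this]
        linarith
      have h2 : v + c = N * (j + 1) := by exact_mod_cast h1
      omega
  -- conclusion
  have hs1 : Summable (fun j : ℕ => u (c + N * j)) := by
    have hinj : Function.Injective (fun j : ℕ => c + N * j) := by
      intro i j h
      have h' : N * i = N * j := by simpa using h
      exact Nat.eq_of_mul_eq_mul_left hN h'
    exact (hsumu.of_norm).comp_injective hinj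
  have hinj1 : Function.Injective (fun j : ℕ => c + N * (j + 1)) := by
    intro i j h
    have h' : N * (i + 1) = N * (j + 1) := by simpa using h
    exact Nat.succ_injective (Nat.eq_of_mul_eq_mul_left hN h')
  have hinj2 : Function.Injective (fun j : ℕ => N * (j + 1) - c) := by
    intro i j h
    simp only at h
    have h1 : c ≤ N * (i + 1) := hcN.le.trans (Nat.le_mul_of_pos_right N (Nat.succ_pos i))
    have h2 : c ≤ N * (j + 1) := hcN.le.trans (Nat.le_mul_of_pos_right N (Nat.succ_pos j))
    have h' : N * (i + 1) = N * (j + 1) := by omega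
    exact Nat.succ_injective (Nat.eq_of_mul_eq_mul_left hN h')
  have hn1 : Summable (fun j : ℕ => ‖u (c + N * (j + 1))‖) := hsumu.comp_injective hinj1
  have hn2 : Summable (fun j : ℕ => ‖u (N * (j + 1) - c)‖) := hsumu.comp_injective hinj2
  have hb1 : Summable (fun j : ℕ => B * (β ^ (c + N * (j + 1)) / (c + N * (j + 1) : ℕ))) :=
    hsumB.comp_injective hinj1
  have hb2 : Summable (fun j : ℕ => B * (β ^ (N * (j + 1) - c) / (N * (j + 1) - c : ℕ))) :=
    hsumB.comp_injective hinj2
  have hmain : u c = -(∑' j : ℕ, u (c + N * (j + 1)) +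
      ∑' j : ℕ, conj (u (N * (j + 1) - c))) := by
    rw [← hFt, ← hGt, hs1.tsum_eq_zero_add] at htot
    simp only [mul_zero, add_zero] at htot
    linear_combination htot
  have hcn : ‖u c‖ = ‖Mh n m (a * c)‖ * (β ^ c / c) := by
    simp only [hu]
    have h0 : (0 : ℝ) ≤ β ^ c / c := by positivity
    rw [norm_mul, norm_mul, norm_pow, hω, one_pow, one_mul, Complex.norm_real,
      Real.norm_of_nonneg h0, mul_comm]
  rw [← hcn, hmain, norm_neg]
  calc ‖∑' j : ℕ, u (c + N * (j + 1)) + ∑' j : ℕ, conj (u (N * (j + 1) - c))‖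
      ≤ ‖∑' j : ℕ, u (c + N * (j + 1))‖ + ‖∑' j : ℕ, conj (u (N * (j + 1) - c))‖ :=
        norm_add_le _ _
    _ ≤ ∑' j : ℕ, ‖u (c + N * (j + 1))‖ + ∑' j : ℕ, ‖u (N * (j + 1) - c)‖ := by
        apply add_le_add
        · exact norm_tsum_le_tsum_norm hn1
        · have h := norm_tsum_le_tsum_norm (f := fun j : ℕ => conj (u (N * (j + 1) - c)))
            (by simpa using hn2)
          simpa using h
    _ ≤ ∑' j : ℕ, B * (β ^ (c + N * (j + 1)) / (c + N * (j + 1) : ℕ)) +
          ∑' j : ℕ, B * (β ^ (N * (j + 1) - c) / (N * (j + 1) - c : ℕ)) := by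
        apply add_le_add
        · exact hn1.tsum_le_tsum (fun j => hunorm _) hb1
        · exact hn2.tsum_le_tsum (fun j => hunorm _) hb2
    _ = B * ∑' j : ℕ, (β ^ (c + N * (j + 1)) / (c + N * (j + 1) : ℕ) +
          β ^ (N * (j + 1) - c) / (N * (j + 1) - c : ℕ)) := by
        rw [← Summable.tsum_add hb1 hb2, ← tsum_mul_left]
        refine tsum_congr (fun j => ?_)
        ring

end Pool.Agent.BBP
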