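import Pool.Agent.BBP.Stmts

/-!
# BBP, module GSS: Gauss sums

The square root of `10` is not in the field of the `ε`-th roots of unity unless `40` divides `ε`.
-/

open scoped BigOperators

namespace Pool.Agent.BBP

namespace GSSX

theorem zt_pow_self (n : ℕ) (hn : 0 < n) : zt n ^ n = 1 := by
  unfold zt
  rw [← Complex.exp_nat_mul]
  have h : (n : ℂ) ≠ 0 := by exact_mod_cast hn.ne'
  have : (n : ℂ) * (2 * Real.pi * Complex.I / n) = 2 * Real.pi * Complex.I := by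
    field_simp
  rw [this]
  exact Complex.exp_two_pi_mul_I

theorem zt_mul_pow (n k : ℕ) (hk : 0 < k) : zt (n * k) ^ k = zt n := by
  unfold zt
  rw [← Complex.exp_nat_mul]
  congr 1
  have h : (k : ℂ) ≠ 0 := by exact_mod_cast hk.ne'
  rcases Nat.eq_zero_or_pos n with h0 | h0
  · subst h0; simp
  have h' : (n : ℂ) ≠ 0 := by exact_mod_cast h0.ne'
  push_cast
  field_simp

theorem zt_dvd (n M : ℕ) (hM : 0 < M) (h : n ∣ M) : ∃ k, zt M ^ k = zt n := by
  obtain ⟨k, rfl⟩ := h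
  exact ⟨k, zt_mul_pow n k (Nat.pos_of_mul_pos_left hM)⟩

theorem map_zt (n M a : ℕ) (hM : 0 < M) (h : n ∣ M) (σ : ℂ ≃ₐ[ℚ] ℂ) (hσ : σ (zt M) = zt M ^ a) :
    σ (zt n) = zt n ^ a := by
  obtain ⟨k, hk⟩ := zt_dvd n M hM h
  rw [← hk, map_pow, hσ, ← pow_mul, ← pow_mul, mul_comm]

theorem pow_modEq (n a b : ℕ) (hn : 0 < n) (h : a ≡ b [MOD n]) : zt n ^ a = zt n ^ b := by
  rw [← Nat.mod_add_div a n, ← Nat.mod_add_div b n, pow_add, pow_add, pow_mul, pow_mul,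
    zt_pow_self n hn, one_pow, one_pow, h]

theorem zt8 : zt 8 ^ 4 = -1 := by
  unfold zt
  rw [← Complex.exp_nat_mul]
  have : ((4 : ℕ) : ℂ) * (2 * Real.pi * Complex.I / (8 : ℕ)) = Real.pi * Complex.I := by
    push_cast; ring
  rw [this, Complex.exp_pi_mul_I]

theorem zt5 : 1 + zt 5 + zt 5 ^ 2 + zt 5 ^ 3 + zt 5 ^ 4 = 0 := by
  have h : IsPrimitiveRoot (zt 5) 5 := Complex.isPrimitiveRoot_exp 5 (by norm_num)
  have h1 := h.geom_sum_eq_zero (by norm_num)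
  simp only [Finset.sum_range_succ, Finset.sum_range_zero, pow_zero, zero_add, pow_one] at h1
  exact h1

/-- the square root of `2`, up to sign -/
noncomputable def s2 : ℂ := zt 8 + zt 8 ^ 7

/-- the square root of `5`, up to sign -/
noncomputable def s5 : ℂ := 1 + 2 * (zt 5 + zt 5 ^ 4)

theorem s2_sq : s2 ^ 2 = 2 := by
  have h := zt8
  unfold s2
  linear_combination (zt 8 ^ 2 + 2 * zt 8 ^ 4 - 2 + (zt 8 ^ 4 - 1) * zt 8 ^ 6) * h

theorem s5_sq : s5 ^ 2 = 5 := by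
  have h := zt5
  have h5 := zt_pow_self 5 (by norm_num)
  unfold s5
  linear_combination (4 : ℂ) * h + (4 * zt 5 ^ 3 + 8) * h5

theorem y_sq : (yN 1) ^ 2 = 10 := by
  unfold yN
  rw [← Complex.ofReal_pow, ← Real.rpow_natCast, ← Real.rpow_mul (by norm_num)]
  norm_num

theorem fin (τ : ℂ ≃ₐ[ℚ] ℂ) (h : τ (s2 * s5) = -(s2 * s5)) : τ (yN 1) = -yN 1 := by
  have h1 : (yN 1) ^ 2 = (s2 * s5) ^ 2 := by
    rw [y_sq, mul_pow, s2_sq, s5_sq]; norm_num
  rcases sq_eq_sq_iff_eq_or_eq_neg.mp h1 with h2 | h2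
  · rw [h2, h]
  · rw [h2, map_neg, h]

end GSSX

open GSSX

theorem gss_proof (hC : Stmt_Cyca) : Stmt_Gss := by
  intro ε hε h40
  by_cases h5 : 5 ∣ ε
  · -- then `8` does not divide `ε`
    have h8 : ¬ 8 ∣ ε := by
      intro h8
      apply h40
      exact Nat.Coprime.mul_dvd_of_dvd_of_dvd (by norm_num : Nat.Coprime 8 5) h8 h5
    have hg : Nat.gcd 8 ε ∣ 4 := by
      have h1 : Nat.gcd 8 ε ∣ 8 := Nat.gcd_dvd_left _ _
      have h2 : Nat.gcd 8 ε ≤ 8 := Nat.le_of_dvd (by norm_num) h1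
      have h3 : Nat.gcd 8 ε ≠ 8 := by
        intro h
        apply h8
        rw [← h]
        exact Nat.gcd_dvd_right _ _
      have h4 : 0 < Nat.gcd 8 ε := Nat.gcd_pos_of_pos_left _ (by norm_num)
      revert h1 h2 h3 h4
      generalize Nat.gcd 8 ε = g
      intro h1 h2 h3 h4
      interval_cases g <;> revert h1 <;> revert h3 <;> decide
    have hcomp : 5 ≡ 1 [MOD Nat.gcd 8 ε] := by
      have : 1 ≡ 5 [MOD Nat.gcd 8 ε] := (Nat.modEq_iff_dvd' (by norm_num)).mpr (by simpa using hg)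
      exact this.symm
    obtain ⟨a, ha8, haε⟩ := Nat.chineseRemainder' hcomp
    have ha : a.Coprime (8 * ε) := by
      apply Nat.Coprime.mul_right
      · have h1 : Nat.gcd a 8 = Nat.gcd 5 8 := Nat.ModEq.gcd_eq ha8
        rw [Nat.Coprime, h1]; norm_num
      · have h1 : Nat.gcd a ε = Nat.gcd 1 ε := Nat.ModEq.gcd_eq haε
        rw [Nat.Coprime, h1, Nat.gcd_one_left]
    have hM : 0 < 8 * ε := by positivity
    obtain ⟨τ, hτ⟩ := hC (8 * ε) a hM ha
    have e1 : τ (zt ε) = zt ε := by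
      rw [map_zt ε (8 * ε) a hM (Dvd.intro_left _ rfl) τ hτ, pow_modEq ε a 1 hε haε, pow_one]
    have e2 : τ (zt 8) = - zt 8 := by
      rw [map_zt 8 (8 * ε) a hM (Dvd.intro _ rfl) τ hτ, pow_modEq 8 a 5 (by norm_num) ha8]
      linear_combination (zt 8) * zt8
    have e3 : τ (zt 5) = zt 5 := by
      have h1 : a ≡ 1 [MOD 5] := haε.of_dvd h5
      rw [map_zt 5 (8 * ε) a hM (Dvd.dvd.mul_left h5 _) τ hτ, pow_modEq 5 a 1 (by norm_num) h1,
        pow_one]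
    refine ⟨τ, e1, fin τ ?_⟩
    unfold s2 s5
    simp only [map_mul, map_add, map_pow, map_one, map_ofNat, e2, e3]
    ring
  · have hco : Nat.Coprime 5 (8 * ε) := by
      apply Nat.Coprime.mul_right (by norm_num)
      exact (Nat.Prime.coprime_iff_not_dvd (by norm_num)).mpr h5
    obtain ⟨a, ha5, haε⟩ := Nat.chineseRemainder hco 2 1
    have ha : a.Coprime (5 * (8 * ε)) := by
      apply Nat.Coprime.mul_right
      · have h1 : Nat.gcd a 5 = Nat.gcd 2 5 := Nat.ModEq.gcd_eq ha5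
        rw [Nat.Coprime, h1]; norm_num
      · have h1 : Nat.gcd a (8 * ε) = Nat.gcd 1 (8 * ε) := Nat.ModEq.gcd_eq haε
        rw [Nat.Coprime, h1, Nat.gcd_one_left]
    have hM : 0 < 5 * (8 * ε) := by positivity
    obtain ⟨τ, hτ⟩ := hC (5 * (8 * ε)) a hM ha
    have e1 : τ (zt ε) = zt ε := by
      have h1 : a ≡ 1 [MOD ε] := haε.of_dvd (Dvd.intro_left _ rfl)
      rw [map_zt ε (5 * (8 * ε)) a hM (Dvd.dvd.mul_left (Dvd.intro_left _ rfl) _) τ hτ,
        pow_modEq ε a 1 hε h1, pow_one]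
    have e2 : τ (zt 8) = zt 8 := by
      have h1 : a ≡ 1 [MOD 8] := haε.of_dvd (Dvd.intro _ rfl)
      rw [map_zt 8 (5 * (8 * ε)) a hM (Dvd.dvd.mul_left (Dvd.intro _ rfl) _) τ hτ,
        pow_modEq 8 a 1 (by norm_num) h1, pow_one]
    have e3 : τ (zt 5) = zt 5 ^ 2 := by
      rw [map_zt 5 (5 * (8 * ε)) a hM (Dvd.intro _ rfl) τ hτ, pow_modEq 5 a 2 (by norm_num) ha5]
    refine ⟨τ, e1, fin τ ?_⟩
    unfold s2 s5
    simp only [map_mul, map_add, map_pow, map_one, map_ofNat, e2, e3]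
    have h := zt5
    have h5 := zt_pow_self 5 (by norm_num)
    linear_combination (zt 8 + zt 8 ^ 7) * 2 * h + (zt 8 + zt 8 ^ 7) * 2 * (zt 5 ^ 3) * h5

end Pool.Agent.BBP
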