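import Pool.Agent.BBP.Stmts

/-!
# BBP module IND: all relations are trivial
-/

open Finset

namespace Pool.Agent.BBP

noncomputable section

theorem ind_proof (hNorm : Stmt_Norm) (hIndn : Stmt_Indn) : Stmt_Ind := by
  intro N
  induction N using Nat.strong_induction_on with
  | _ N ih =>
    intro n hN hn hNn m hRel
    refine hIndn N n hN hn hNn m hRel ?_
    intro q hq hqN
    have hq0 : 0 < q := hq.pos
    obtain ⟨N', rfl⟩ := hqN
    have hqn : q ∣ n := by
      refine Dvd.dvd.trans ?_ hNn
      exact ⟨2 * N', by ring⟩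
    obtain ⟨n', rfl⟩ := hqn
    have hN' : 0 < N' := Nat.pos_of_mul_pos_left hN
    have hn' : 0 < n' := Nat.pos_of_mul_pos_left hn
    have e1 : q * N' / q = N' := Nat.mul_div_cancel_left N' hq0
    have e2 : q * n' / q = n' := Nat.mul_div_cancel_left n' hq0
    have hdvd : 2 * N' ∣ n' := by
      have : q * (2 * N') ∣ q * n' := by
        have h3 : q * (2 * N') = 2 * (q * N') := by ring
        rw [h3]; exact hNn
      exact Nat.dvd_of_mul_dvd_mul_left hq0 this
    have hlt : N' < q * N' := by
      have := hq.two_le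
      nlinarith
    have h := hNorm (q * N') (q * n') hN hn hNn m hRel q hq ⟨N', rfl⟩
    rw [e1, e2] at h
    rw [e2]
    exact ih N' hlt n' hN' hn' hdvd _ h

end

end Pool.Agent.BBP
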