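import Pool.Agent.BBP.Stmts

/-!
BBP/INDK (helper92): pi i and the logarithms are linearly independent.
-/

open scoped BigOperators
open Finset

namespace Pool.Agent.BBP

namespace INDKX

theorem zt_prim (n : ℕ) (hn : 0 < n) : IsPrimitiveRoot (zt n) n :=
  Complex.isPrimitiveRoot_exp n hn.ne'

theorem zt_norm (n : ℕ) (hn : 0 < n) : ‖zt n‖ = 1 :=
  (zt_prim n hn).norm'_eq_one hn.ne'

theorem zt_mul (n k : ℕ) (hk : 0 < k) : zt (k * n) ^ k = zt n := by
  unfold zt
  rw [← Complex.exp_nat_mul]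
  congr 1
  have : (k : ℂ) ≠ 0 := by exact_mod_cast hk.ne'
  push_cast
  by_cases hn : (n : ℂ) = 0
  · simp [hn]
  · field_simp

theorem prod_one_sub (M : ℕ) (hM : 0 < M) (a w : ℂ) (hw : IsPrimitiveRoot w M) :
    ∏ i ∈ range M, (1 - a * w ^ i) = 1 - a ^ M := by
  have h := hw.pow_sub_pow_eq_prod_sub_mul 1 a hM
  rw [one_pow] at h
  rw [h]
  refine Finset.prod_nbij (fun i => w ^ i) ?_ ?_ ?_ ?_
  · intro i _
    rw [Polynomial.mem_nthRootsFinset hM]
    rw [← pow_mul, mul_comm, pow_mul, hw.pow_eq_one, one_pow]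
  · intro i hi j hj hij
    exact hw.pow_inj (Finset.mem_range.1 hi) (Finset.mem_range.1 hj) hij
  · intro x hx
    rw [Finset.mem_coe, Polynomial.mem_nthRootsFinset hM] at hx
    have : NeZero M := ⟨hM.ne'⟩
    obtain ⟨i, hi, rfl⟩ := hw.eq_pow_of_pow_eq_one hx
    exact ⟨i, by simpa using hi, rfl⟩
  · intro i _
    ring

theorem prod_blocks {α : Type} [CommMonoid α] (f : ℕ → α) (n K : ℕ) :
    ∏ t ∈ range (K * n), f t = ∏ i ∈ range K, ∏ t ∈ range n, f (t + i * n) := by
  induction K with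
  | zero => simp
  | succ K ih =>
    rw [Nat.succ_mul, Finset.prod_range_add, Finset.prod_range_succ, ih]
    congr 1
    refine Finset.prod_congr rfl fun t _ => ?_
    rw [add_comm]

theorem bt_pos (n k : ℕ) : 0 < (10 : ℝ) ^ (-(k : ℝ) / n) := Real.rpow_pos_of_pos (by norm_num) _

theorem bt_lt (n k : ℕ) (hn : 0 < n) (hk : 0 < k) : (10 : ℝ) ^ (-(k : ℝ) / n) < 1 := by
  apply Real.rpow_lt_one_of_one_lt_of_neg (by norm_num)
  have : (0 : ℝ) < (k : ℝ) / n := by positivity
  rw [neg_div]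
  linarith

theorem yN_pow (n k : ℕ) (hn : 0 < n) : (yN n ^ (2 * k))⁻¹ = bt n k := by
  unfold yN bt
  rw [← Complex.ofReal_pow, ← Complex.ofReal_inv]
  congr 1
  rw [← Real.rpow_natCast, ← Real.rpow_mul (by norm_num), ← Real.rpow_neg (by norm_num)]
  congr 1
  have : (n : ℝ) ≠ 0 := by exact_mod_cast hn.ne'
  push_cast
  field_simp

theorem w_ne (n k t : ℕ) (hn : 0 < n) (hk : 0 < k) : 1 - zt n ^ t * bt n k ≠ 0 := by
  intro h
  have h1 : ‖zt n ^ t * bt n k‖ < 1 := by
    rw [norm_mul, norm_pow, zt_norm n hn, one_pow, one_mul]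
    unfold bt
    rw [Complex.norm_real, Real.norm_of_nonneg (bt_pos n k).le]
    exact bt_lt n k hn hk
  have h2 : zt n ^ t * bt n k = 1 := (sub_eq_zero.1 h).symm
  rw [h2] at h1
  simp at h1

theorem w_prod (n k t : ℕ) (hn : 0 < n) (hk : 0 < k) :
    ∏ i ∈ range (2 * k), (1 - zt (2 * k * n) ^ (t + i * n) / yN n) = 1 - zt n ^ t * bt n k := by
  have hprim : IsPrimitiveRoot (zt (2 * k * n) ^ n) (2 * k) :=
    (zt_prim (2 * k * n) (by positivity)).pow (by positivity) (by ring)
  have h := prod_one_sub (2 * k) (by positivity) (zt (2 * k * n) ^ t / yN n)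
    (zt (2 * k * n) ^ n) hprim
  have h2 : (zt (2 * k * n) ^ t / yN n) ^ (2 * k) = zt n ^ t * bt n k := by
    rw [div_pow, ← pow_mul, mul_comm t, pow_mul, zt_mul n (2 * k) (by positivity), div_eq_mul_inv,
      yN_pow n k hn]
  rw [h2] at h
  rw [← h]
  refine Finset.prod_congr rfl fun i _ => ?_
  rw [pow_add, mul_comm i n, pow_mul]
  ring

end INDKX

open INDKX in
theorem indk_proof (hI : Stmt_Ind) : Stmt_Indk := by
  intro n k hn hk
  rw [← LinearIndependent.iff_fractionRing ℤ ℚ, Fintype.linearIndependent_iff]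
  intro g hg
  rw [Fintype.sum_option] at hg
  simp only [Option.elim_none, Option.elim_some, zsmul_eq_mul] at hg
  have h1 : ∏ t : Fin n, (1 - zt n ^ (t : ℕ) * bt n k) ^ (2 * g (some t)) = 1 := by
    have h2 : Complex.exp (2 * (g none * ((Real.pi : ℂ) * Complex.I) +
        ∑ t : Fin n, g (some t) * Complex.log (1 - zt n ^ (t : ℕ) * bt n k))) = 1 := by
      rw [hg, mul_zero, Complex.exp_zero]
    rw [mul_add, Complex.exp_add, Finset.mul_sum, Complex.exp_sum] at h2
    have h3 : Complex.exp (2 * (g none * ((Real.pi : ℂ) * Complex.I))) = 1 := by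
      rw [Complex.exp_eq_one_iff]
      exact ⟨g none, by ring⟩
    rw [h3, one_mul] at h2
    refine Eq.trans ?_ h2
    refine Finset.prod_congr rfl fun t _ => ?_
    have h4 : (2 : ℂ) * (g (some t) * Complex.log (1 - zt n ^ (t : ℕ) * bt n k)) =
        ((2 * g (some t) : ℤ) : ℂ) * Complex.log (1 - zt n ^ (t : ℕ) * bt n k) := by
      push_cast; ring
    rw [h4, Complex.exp_int_mul, Complex.exp_log (w_ne n k t hn hk)]
  -- extend to all indices
  set m : ℕ → ℤ := fun t => 2 * (if h : t % n < n then g (some ⟨t % n, h⟩) else 0) with hm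
  have hmt : ∀ t : Fin n, ∀ i : ℕ, m (t + i * n) = 2 * g (some t) := by
    intro t i
    have h5 : ((t : ℕ) + i * n) % n = t := by
      rw [Nat.add_mul_mod_self_right, Nat.mod_eq_of_lt t.2]
    simp only [hm]
    rw [dif_pos (by rw [h5]; exact t.2)]
    congr 3
    exact Fin.ext h5
  have hRel : Rel n (2 * k * n) m := by
    unfold Rel
    rw [prod_blocks]
    rw [Finset.prod_comm]
    refine Eq.trans ?_ h1
    rw [← Fin.prod_univ_eq_prod_range (fun t => ∏ i ∈ range (2 * k),
      (1 - zt (2 * k * n) ^ (t + i * n) / yN n) ^ m (t + i * n)) n]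
    refine Finset.prod_congr rfl fun t _ => ?_
    simp_rw [hmt t]
    rw [Finset.prod_zpow, w_prod n k t hn hk]
  have h6 := hI n (2 * k * n) hn (by positivity) (by exact ⟨k, by ring⟩) m hRel
  have h7 : ∀ t : Fin n, g (some t) = 0 := by
    intro t
    have h8 := h6 t (lt_of_lt_of_le t.2 (Nat.le_mul_of_pos_left n (by positivity)))
    have h9 := hmt t 0
    rw [Nat.zero_mul, Nat.add_zero] at h9
    omega
  have h10 : g none = 0 := by
    have h11 : (g none : ℂ) * ((Real.pi : ℂ) * Complex.I) = 0 := by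
      rw [← hg]
      simp [h7]
    rcases mul_eq_zero.1 h11 with h12 | h12
    · exact_mod_cast h12
    · exfalso
      rcases mul_eq_zero.1 h12 with h13 | h13
      · exact Real.pi_ne_zero (by exact_mod_cast h13)
      · exact Complex.I_ne_zero h13
  intro o
  cases o with
  | none => exact h10
  | some t => exact h7 t

end Pool.Agent.BBP
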