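import Pool.Agent.BBP.Stmts

/-!
# BBP, module INDN: a new relation is trivial
-/

open scoped BigOperators Polynomial Topology
open Metric Filter Finset

namespace Pool.Agent.BBP

noncomputable section

namespace INDNX

lemma zt_prim {n : ℕ} (hn : 0 < n) : IsPrimitiveRoot (zt n) n :=
  Complex.isPrimitiveRoot_exp n hn.ne'

lemma zt_ne {n : ℕ} : zt n ≠ 0 := Complex.exp_ne_zero _

lemma Mh_add {n : ℕ} {m : ℕ → ℤ} {D : ℤ} (h : ∀ t < n, m t ≠ 0 → zt n ^ ((t : ℤ) * D) = 1)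
    (K j : ℤ) : Mh n m (K + j * D) = Mh n m K := by
  unfold Mh
  refine Finset.sum_congr rfl fun t ht => ?_
  by_cases hm : m t = 0
  · rw [hm]; simp
  · have h1 := h t (Finset.mem_range.mp ht) hm
    have h2 : (t : ℤ) * (K + j * D) = t * K + (t * D) * j := by ring
    rw [h2, zpow_add₀ zt_ne, zpow_mul (zt n) ((t : ℤ) * D) j, h1, one_zpow, mul_one]

lemma Mh_per {n : ℕ} (hn : 0 < n) (m : ℕ → ℤ) (K j : ℤ) : Mh n m (K + j * n) = Mh n m K := by
  refine Mh_add (fun t _ _ => ?_) K j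
  rw [mul_comm, zpow_mul, zpow_natCast (zt n) n, (zt_prim hn).pow_eq_one, one_zpow]

lemma Mh_zero {n : ℕ} (hn : 0 < n) (m : ℕ → ℤ) (h : ∀ K < n, Mh n m (K : ℕ) = 0) :
    ∀ t < n, m t = 0 := by
  have hinj : Function.Injective (fun j : Fin n => zt n ^ (j : ℕ)) := by
    intro i j hij
    exact Fin.ext ((zt_prim hn).pow_inj i.2 j.2 hij)
  have h1 := Matrix.eq_zero_of_forall_pow_sum_mul_pow_eq_zero
    (v := fun j : Fin n => (m j : ℂ)) hinj (fun i => by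
      have h2 := h i i.2
      rw [Mh, Finset.sum_range] at h2
      rw [← h2]
      refine Finset.sum_congr rfl fun j _ => ?_
      rw [← pow_mul, ← zpow_natCast]
      push_cast
      rfl)
  intro t ht
  have h3 := congrFun h1 ⟨t, ht⟩
  simpa using h3

lemma sum_range_mul (g : ℕ → ℂ) (n' q : ℕ) : ∑ t ∈ range (q * n'), g t =
    ∑ i ∈ range q, ∑ t ∈ range n', g (t + i * n') := by
  induction q with
  | zero => simp
  | succ q ih =>
    rw [Nat.succ_mul, Finset.sum_range_add, ih, Finset.sum_range_succ]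
    congr 1
    refine Finset.sum_congr rfl fun t _ => ?_
    rw [add_comm]

lemma Mh_new {N n : ℕ} (hn : 0 < n) (hd : 2 * N ∣ n) {m : ℕ → ℤ} (hnew : New N n m)
    {K q : ℕ} (hq : q.Prime) (hqK : q ∣ K) (hqN : q ∣ N) : Mh n m (K : ℕ) = 0 := by
  have hqn : q ∣ n := hqN.trans ((Dvd.intro_left 2 rfl).trans hd)
  obtain ⟨n', rfl⟩ := hqn
  obtain ⟨K', rfl⟩ := hqK
  have h1 := hnew q hq hqN
  rw [Nat.mul_div_cancel_left _ hq.pos] at h1
  rw [Mh, sum_range_mul, Finset.sum_comm]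
  refine Finset.sum_eq_zero fun t ht => ?_
  have h2 : ∀ i ∈ range q, (m (t + i * n') : ℂ) * zt (q * n') ^
      (((t + i * n' : ℕ) : ℤ) * ((q * K' : ℕ) : ℤ)) =
      (m (t + i * n') : ℂ) * zt (q * n') ^ ((t : ℤ) * ((q * K' : ℕ) : ℤ)) := by
    intro i _
    have h3 : (((t + i * n' : ℕ) : ℤ) * ((q * K' : ℕ) : ℤ)) =
        (t : ℤ) * ((q * K' : ℕ) : ℤ) + ((q * n' : ℕ) : ℤ) * (i * K') := by
      push_cast; ring
    rw [h3, zpow_add₀ zt_ne, zpow_mul (zt (q * n')) ((q * n' : ℕ) : ℤ), zpow_natCast,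
      (zt_prim hn).pow_eq_one, one_zpow, mul_one]
  rw [Finset.sum_congr rfl h2, ← Finset.sum_mul]
  have h4 := h1 t (Finset.mem_range.mp ht)
  have h5 : ∑ i ∈ range q, (m (t + i * n') : ℂ) = 0 := by
    have h6 : ((∑ i ∈ range q, m (t + i * n') : ℤ) : ℂ) = 0 := by rw [h4]; simp
    push_cast at h6
    exact h6
  rw [h5, zero_mul]

lemma exists_lift {n M K : ℕ} (hn : 0 < n) (hM : 0 < M) (h : K.Coprime M) :
    ∃ a : ℕ, a.Coprime n ∧ ∃ j : ℤ, (a : ℤ) = K + j * M := by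
  have : NeZero (n * M) := ⟨(Nat.mul_pos hn hM).ne'⟩
  have : NeZero M := ⟨hM.ne'⟩
  obtain ⟨w, hw⟩ := ZMod.unitsMap_surjective (Dvd.intro_left n rfl : M ∣ n * M)
    (ZMod.unitOfCoprime K h)
  refine ⟨(w : ZMod (n * M)).val, Nat.Coprime.coprime_mul_right_right
    (ZMod.val_coe_unit_coprime w), ?_⟩
  have h1 : (((w : ZMod (n * M)).val : ℕ) : ZMod M) = (K : ZMod M) := by
    have h2 := congrArg Units.val hw
    rw [ZMod.unitsMap_def, Units.coe_map] at h2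
    simp only [ZMod.coe_unitOfCoprime] at h2
    rw [← h2]
    simp
  have h3 : (((w : ZMod (n * M)).val : ℤ) : ZMod M) = ((K : ℤ) : ZMod M) := by
    exact_mod_cast h1
  rw [ZMod.intCast_eq_intCast_iff_dvd_sub] at h3
  obtain ⟨j, hj⟩ := h3
  refine ⟨-j, ?_⟩
  linarith

lemma yN_ne (N : ℕ) : yN N ≠ 0 := by
  unfold yN
  exact_mod_cast (Real.rpow_pos_of_pos (by norm_num) _).ne'

lemma yN_pow {N : ℕ} (hN : 0 < N) : yN N ^ (2 * N) = 10 := by
  unfold yN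
  rw [← Complex.ofReal_pow, ← Real.rpow_natCast, ← Real.rpow_mul (by norm_num)]
  have hN' : (N : ℝ) ≠ 0 := by exact_mod_cast hN.ne'
  have h1 : (1 : ℝ) / (2 * N) * ((2 * N : ℕ) : ℝ) = 1 := by
    push_cast
    field_simp
  rw [h1, Real.rpow_one]
  norm_num

lemma yN_inv (N : ℕ) : (yN N)⁻¹ = (((10 : ℝ) ^ (-(1 : ℝ) / (2 * N)) : ℝ) : ℂ) := by
  unfold yN
  rw [← Complex.ofReal_inv, ← Real.rpow_neg (by norm_num), neg_div]

lemma rel_shift (hcyc : Stmt_Cyca) (hsh : Stmt_Shift) {N n : ℕ} (hN : 0 < N) (hn : 0 < n)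
    (hd : 2 * N ∣ n) {m : ℕ → ℤ} (hrel : Rel N n m) {a : ℕ} (ha : a.Coprime n) :
    ∃ ω : ℂ, ‖ω‖ = 1 ∧ ∀ s : ℕ,
      ∏ t ∈ range n, (1 - zt n ^ (a * t) * (ω * zt N ^ s) * (yN N)⁻¹) ^ (m t) = 1 := by
  obtain ⟨σ, hσ⟩ := hcyc n a hn ha
  obtain ⟨om, hom⟩ : ∃ om : ℂ, om = σ (yN N) / yN N := ⟨_, rfl⟩
  have hσy : σ (yN N) = om * yN N := by rw [hom, div_mul_cancel₀ _ (yN_ne N)]
  have hom2 : om ^ (2 * N) = 1 := by
    rw [hom, div_pow, ← map_pow, yN_pow hN, map_ofNat, div_self]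
    norm_num
  have hom1 : ‖om‖ = 1 := Complex.norm_eq_one_of_pow_eq_one hom2 (by omega)
  have homn : om ^ n = 1 := by
    obtain ⟨k, rfl⟩ := hd
    rw [pow_mul, hom2, one_pow]
  have : NeZero n := ⟨hn.ne'⟩
  obtain ⟨i, hi, hzi⟩ := (zt_prim hn).eq_pow_of_pow_eq_one homn
  refine ⟨om⁻¹, by rw [norm_inv, hom1, inv_one], fun s => ?_⟩
  obtain ⟨τ, hτz, hτy⟩ := hsh N n hN hn hd ((N - 1) * s)
  have hτo : τ om = om := by rw [← hzi, map_pow, hτz]
  have hz : zt N ^ ((N - 1) * s) * zt N ^ s = 1 := by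
    rw [← pow_add]
    have h2 : (N - 1) * s + s = N * s := by
      obtain ⟨N', rfl⟩ := Nat.exists_eq_succ_of_ne_zero hN.ne'
      simp only [Nat.succ_eq_add_one, Nat.add_sub_cancel]
      ring
    rw [h2, pow_mul, (zt_prim hN).pow_eq_one, one_pow]
  have hz' : (zt N ^ ((N - 1) * s))⁻¹ = zt N ^ s := inv_eq_of_mul_eq_one_right hz
  have h1 := congrArg (fun x => τ (σ x)) hrel
  simp only [map_prod, map_zpow₀, map_sub, map_one, map_div₀, map_pow, hσ, hσy,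
    map_mul, hτo, hτz, hτy] at h1
  rw [← h1]
  refine Finset.prod_congr rfl fun t _ => ?_
  congr 2
  rw [pow_mul, div_eq_mul_inv, mul_inv, mul_inv, hz']
  ring

end INDNX

open INDNX in
/-- INDN -/
theorem indn_proof (hmodl : Stmt_Modl) (hcyc : Stmt_Cyca) (hsh : Stmt_Shift) (hfou : Stmt_Fou)
    (hdnum : Stmt_Dnum) : Stmt_Indn := by
  intro N n hN hn hd m hrel hnew
  by_contra hcon
  push Not at hcon
  obtain ⟨t0, ht0, hmt0⟩ := hcon
  obtain ⟨G, hG, hGN, hsupp⟩ := hmodl N n hN hn hd m hrel hnew ⟨t0, ht0, hmt0⟩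
  obtain ⟨K, hK, hmax⟩ := Finset.exists_max_image (range n) (fun K : ℕ => ‖Mh n m (K : ℕ)‖)
    ⟨0, Finset.mem_range.mpr hn⟩
  obtain ⟨B, hB⟩ : ∃ B : ℝ, B = ‖Mh n m (K : ℕ)‖ := ⟨_, rfl⟩
  have hall : ∀ L : ℤ, ‖Mh n m L‖ ≤ B := by
    intro L
    have hn' : (0 : ℤ) < n := by exact_mod_cast hn
    have h1 := Mh_per hn m (L % n) (L / n)
    have h1' : L % n + L / n * n = L := by
      rw [mul_comm]
      exact Int.emod_add_mul_ediv L n
    rw [h1'] at h1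
    obtain ⟨k, hk⟩ := Int.eq_ofNat_of_zero_le (Int.emod_nonneg L hn'.ne')
    have hk2 : k < n := by
      have := Int.emod_lt_of_pos L hn'
      rw [hk] at this
      exact_mod_cast this
    rw [h1, hk, hB]
    exact hmax k (Finset.mem_range.mpr hk2)
  have hBpos : 0 < B := by
    rw [hB, norm_pos_iff]
    intro h0
    refine hmt0 (Mh_zero hn m (fun L _ => ?_) t0 ht0)
    have h1 := hall L
    rw [hB, h0, norm_zero] at h1
    exact norm_le_zero_iff.mp h1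
  have hKN : K.Coprime N := by
    by_contra hnc
    obtain ⟨q, hq, hqK, hqN⟩ := Nat.Prime.not_coprime_iff_dvd.mp hnc
    rw [hB, Mh_new hn hd hnew hq hqK hqN, norm_zero] at hBpos
    exact lt_irrefl _ hBpos
  obtain ⟨c, hc⟩ : ∃ c : ℕ, c = K.gcd G := ⟨_, rfl⟩
  have hc2 : c = K.gcd (N * G) := by
    rw [hc, Nat.Coprime.gcd_mul_left_cancel_right]
    exact hKN.symm
  have hcpos : 0 < c := hc ▸ Nat.gcd_pos_of_pos_right _ hG
  have hcG : c ≤ G := hc ▸ Nat.gcd_le_right _ hG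
  have h5 : 5 * c ≤ 2 * N := by omega
  have hcN : c < N := by omega
  obtain ⟨K', hK'⟩ : c ∣ K := hc ▸ Nat.gcd_dvd_left _ _
  obtain ⟨M', hM'⟩ : c ∣ N * G := hc2 ▸ Nat.gcd_dvd_right _ _
  have hM'pos : 0 < M' := Nat.pos_of_ne_zero (by
    rintro rfl
    rw [mul_zero] at hM'
    exact (Nat.mul_pos hN hG).ne' hM')
  have hcop : K'.Coprime M' := by
    have h1 := Nat.coprime_div_gcd_div_gcd (m := K) (n := N * G) (by rw [← hc2]; exact hcpos)
    rw [← hc2, hM'] at h1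
    rw [hK'] at h1
    rwa [Nat.mul_div_cancel_left _ hcpos, Nat.mul_div_cancel_left _ hcpos] at h1
  obtain ⟨a, ha, j, haj⟩ := exists_lift hn hM'pos hcop
  have hMac : Mh n m ((a : ℤ) * c) = Mh n m (K : ℕ) := by
    have h1 : (a : ℤ) * c = (K : ℕ) + j * ((N * G : ℕ) : ℤ) := by
      rw [haj, hM', hK']
      push_cast
      ring
    rw [h1]
    refine Mh_add (fun t ht hmt => ?_) _ _
    have h2 := hsupp t ht hmt
    have h3 : (t : ℤ) * ((N * G : ℕ) : ℤ) = ((N * t * G : ℕ) : ℤ) := by push_cast; ring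
    rw [h3, zpow_natCast, h2]
  obtain ⟨ω, hω, hprod⟩ := rel_shift hcyc hsh hN hn hd hrel ha
  have hNn : N ∣ n := (Dvd.intro_left 2 rfl).trans hd
  have hNR : (0 : ℝ) < N := by exact_mod_cast hN
  have hβ0 : (0 : ℝ) < (10 : ℝ) ^ (-(1 : ℝ) / (2 * N)) := Real.rpow_pos_of_pos (by norm_num) _
  have hβ1 : (10 : ℝ) ^ (-(1 : ℝ) / (2 * N)) < 1 := by
    apply Real.rpow_lt_one_of_one_lt_of_neg (by norm_num)
    rw [neg_div]
    have : (0 : ℝ) < 1 / (2 * N) := by positivity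
    linarith
  have hF := hfou N n hN hn hNn m a ω _ hω hβ0 hβ1 (fun s => by
    have h1 := congrArg norm (hprod s)
    rw [norm_one, norm_prod] at h1
    refine Eq.trans (Finset.prod_congr rfl fun t _ => ?_) h1
    rw [norm_zpow, yN_inv]) B hall c hcpos hcN
  have hD := hdnum N c _ hcpos h5 rfl
  rw [hMac, ← hB] at hF
  have hfin := mul_lt_mul_of_pos_left hD hBpos
  exact absurd hfin (not_lt.mpr hF)

end

end Pool.Agent.BBP
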