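import Pool.Agent.BBP.Stmts

/-!
# BBP: the norm of a relation
-/

open scoped BigOperators Polynomial Topology
open Metric Filter Finset

namespace Pool.Agent.BBP

noncomputable section

namespace NORMX

lemma zt_prim {n : ℕ} (hn : 0 < n) : IsPrimitiveRoot (zt n) n :=
  Complex.isPrimitiveRoot_exp n hn.ne'

lemma prod_range_root {ζ : ℂ} {n : ℕ} (hn : 0 < n) (h : IsPrimitiveRoot ζ n) (w : ℂ) :
    ∏ i ∈ range n, (1 - ζ ^ i * w) = 1 - w ^ n := by
  have h1 := h.pow_sub_pow_eq_prod_sub_mul (1 : ℂ) w hn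
  rw [one_pow] at h1
  rw [h1]
  have : NeZero n := ⟨hn.ne'⟩
  have h2 : Polynomial.nthRootsFinset n (1 : ℂ) = (range n).image (fun i => ζ ^ i) := by
    ext x
    rw [Polynomial.mem_nthRootsFinset hn, mem_image]
    constructor
    · intro hx
      obtain ⟨i, hi, h⟩ := h.eq_pow_of_pow_eq_one hx
      exact ⟨i, mem_range.2 hi, h⟩
    · rintro ⟨i, -, rfl⟩
      rw [← pow_mul, mul_comm, pow_mul, h.pow_eq_one, one_pow]
  rw [h2, prod_image]
  intro i hi j hj hij
  exact h.pow_inj (mem_range.1 hi) (mem_range.1 hj) hij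

lemma zt_pow_mul {q r : ℕ} (hr : 0 < r) : zt (q * r) ^ r = zt q := by
  unfold zt
  rw [← Complex.exp_nat_mul]
  congr 1
  have hr' : (r : ℂ) ≠ 0 := by exact_mod_cast hr.ne'
  push_cast
  by_cases hq : (q : ℂ) = 0
  · simp [hq]
  · field_simp

lemma zt_norm (n : ℕ) : ‖zt n‖ = 1 := by
  unfold zt
  have : (2 * (Real.pi : ℂ) * Complex.I / n) = ((2 * Real.pi / n : ℝ) : ℂ) * Complex.I := by
    push_cast; ring
  rw [this, Complex.norm_exp_ofReal_mul_I]

lemma yN_norm (N : ℕ) (hN : 0 < N) : 1 < ‖yN N‖ := by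
  unfold yN
  rw [Complex.norm_real, Real.norm_eq_abs]
  refine lt_of_lt_of_le ?_ (le_abs_self _)
  apply Real.one_lt_rpow (by norm_num)
  have : (0 : ℝ) < N := by exact_mod_cast hN
  positivity

lemma ne_zero (l t r : ℕ) (hr : 0 < r) : (1 - zt l ^ t / yN r : ℂ) ≠ 0 := by
  intro h
  have h1 : zt l ^ t / yN r = 1 := (sub_eq_zero.1 h).symm
  have h2 := congrArg norm h1
  rw [norm_div, norm_pow, zt_norm, one_pow, norm_one] at h2
  have h3 := yN_norm r hr
  rw [div_eq_one_iff_eq (by linarith)] at h2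
  linarith

lemma yN_pow {q r : ℕ} (hq : 0 < q) : yN (q * r) ^ q = yN r := by
  unfold yN
  rw [← Complex.ofReal_pow, ← Real.rpow_natCast, ← Real.rpow_mul (by norm_num)]
  congr 2
  have hq' : (q : ℝ) ≠ 0 := by exact_mod_cast hq.ne'
  push_cast
  by_cases hr : (r : ℝ) = 0
  · simp [hr]
  · field_simp

lemma grp (l : ℕ) (x : ℕ → ℂ) (hx : ∀ t, x t ≠ 0) (hper : ∀ t, x (t + l) = x t) (m : ℕ → ℤ)
    (q : ℕ) : ∏ t ∈ range (q * l), x t ^ m t =
      ∏ t ∈ range l, x t ^ (∑ i ∈ range q, m (t + i * l)) := by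
  have hper' : ∀ k t, x (t + k * l) = x t := by
    intro k
    induction k with
    | zero => intro t; simp
    | succ k ih => intro t; rw [add_mul, one_mul, ← add_assoc, hper, ih]
  induction q with
  | zero => simp
  | succ q ih =>
    rw [add_mul, one_mul, prod_range_add, ih, ← prod_mul_distrib]
    refine prod_congr rfl fun t _ => ?_
    rw [sum_range_succ, zpow_add₀ (hx t), add_comm (q * l) t, hper']

end NORMX

open NORMX in
theorem norm_proof (hS : Stmt_Shift) : Stmt_Norm := by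
  intro N n hN hn hNn m hR q hq hqN
  have hq0 := hq.pos
  obtain ⟨r, rfl⟩ := hqN
  have hr0 : 0 < r := Nat.pos_of_ne_zero (by rintro rfl; simp at hN)
  obtain ⟨l, rfl⟩ : q ∣ n := (Dvd.intro (2 * r) (by ring) : q ∣ 2 * (q * r)).trans hNn
  have hl0 : 0 < l := Nat.pos_of_ne_zero (by rintro rfl; simp at hn)
  rw [Nat.mul_div_cancel_left _ hq0, Nat.mul_div_cancel_left _ hq0]
  choose σ hσ using fun i : ℕ => hS (q * r) (q * l) hN hn hNn (r * i)
  have hy0 : yN (q * r) ≠ 0 := by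
    intro h
    have := yN_norm (q * r) hN
    rw [h, norm_zero] at this
    linarith
  have h1 : ∀ i, ∏ t ∈ range (q * l),
      (1 - (zt q)⁻¹ ^ i * (zt (q * l) ^ t / yN (q * r))) ^ (m t) = 1 := by
    intro i
    have h := congrArg (σ i) hR
    rw [map_one, map_prod] at h
    rw [← h]
    refine prod_congr rfl fun t _ => ?_
    rw [map_zpow₀, map_sub, map_one, map_div₀, map_pow, (hσ i).1, (hσ i).2, pow_mul,
      zt_pow_mul hr0]
    congr 2
    rw [inv_pow]
    have : zt q ^ i ≠ 0 := pow_ne_zero _ (by unfold zt; exact Complex.exp_ne_zero _)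
    field_simp
  have h2 : ∏ t ∈ range (q * l), (1 - zt l ^ t / yN r) ^ (m t) = 1 := by
    have h3 : ∏ i ∈ range q, ∏ t ∈ range (q * l),
      (1 - (zt q)⁻¹ ^ i * (zt (q * l) ^ t / yN (q * r))) ^ (m t) = 1 :=
      prod_eq_one fun i _ => h1 i
    rw [Finset.prod_comm] at h3
    refine Eq.trans ?_ h3
    refine prod_congr rfl fun t _ => ?_
    rw [prod_zpow, prod_range_root hq0 (zt_prim hq0).inv, div_pow, yN_pow hq0, ← pow_mul,
      mul_comm t q, pow_mul, mul_comm q l, zt_pow_mul hq0]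
  have h4 := grp l (fun t => 1 - zt l ^ t / yN r) (fun t => ne_zero l t r hr0) (fun t => by
    show 1 - zt l ^ (t + l) / yN r = _
    rw [pow_add, (zt_prim hl0).pow_eq_one, mul_one]) m q
  exact h4.symm.trans h2

end

end Pool.Agent.BBP
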