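import Pool.Agent.BBP.Stmts

open scoped BigOperators Polynomial Topology
open Metric Filter Finset

namespace Pool.Agent.BBP

namespace NRMAX

lemma yN1_sq : (yN 1) ^ 2 = 10 := by
  unfold yN
  rw [← Complex.ofReal_pow, ← Real.rpow_natCast, ← Real.rpow_mul (by norm_num)]
  norm_num

lemma exists_ext (hconj : Stmt_Conj) (K : IntermediateField ℚ ℂ) [FiniteDimensional ℚ K]
    (f : K →ₐ[ℚ] ℂ) : ∃ σ : ℂ ≃ₐ[ℚ] ℂ, ∀ x : K, σ (x : ℂ) = f x := by
  obtain ⟨α, hα⟩ := Field.exists_primitive_element ℚ K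
  have hint : IsIntegral ℚ α := IsIntegral.of_finite ℚ α
  have hmin1 : minpoly ℚ ((α : K) : ℂ) = minpoly ℚ α :=
    minpoly.algebraMap_eq (algebraMap K ℂ).injective α
  have hmin2 : minpoly ℚ (f α) = minpoly ℚ α :=
    minpoly.algHom_eq f f.toRingHom.injective α
  have halg : IsAlgebraic ℚ ((α : K) : ℂ) := by
    have := hint.isAlgebraic
    exact this.algebraMap
  obtain ⟨σ, hσ⟩ := hconj (α : ℂ) (f α) halg (by rw [hmin1, hmin2])
  refine ⟨σ, fun x => ?_⟩
  have h1 : (σ.toAlgHom.comp K.val) = f := by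
    have h2 : ∀ x ∈ (IntermediateField.adjoin ℚ {α} : IntermediateField ℚ K),
        (σ.toAlgHom.comp K.val) x = f x := by
      intro x hx
      induction hx using IntermediateField.adjoin_induction with
      | mem y hy =>
        rw [Set.mem_singleton_iff] at hy
        subst hy
        exact hσ
      | algebraMap q => simp
      | add a b _ _ ha hb => rw [map_add, map_add, ha, hb]
      | inv a _ ha => rw [map_inv₀, map_inv₀, ha]
      | mul a b _ _ ha hb => rw [map_mul, map_mul, ha, hb]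
    ext x
    exact h2 x (by rw [hα]; trivial)
  exact DFunLike.congr_fun h1 x

open IntermediateField Module in
lemma norm_eq (F : Type*) {L : Type*} [Field F] [Field L] [Algebra F L] [FiniteDimensional F L]
    (Θ : L) : Algebra.norm F Θ = ((-1) ^ (minpoly F Θ).natDegree * (minpoly F Θ).coeff 0) ^
      finrank F⟮Θ⟯ L := by
  have hΘint : IsIntegral F Θ := IsIntegral.of_finite F Θ
  have h1 := Algebra.PowerBasis.norm_gen_eq_coeff_zero_minpoly (adjoin.powerBasis hΘint)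
  rw [adjoin.powerBasis_gen, adjoin.powerBasis_dim, IntermediateField.minpoly_gen] at h1
  rw [Algebra.norm_eq_norm_adjoin, h1]

open IntermediateField Module in
lemma core (hconj : Stmt_Conj) (η y : ℂ) (e : ℕ) (he : 0 < e) (hη : orderOf η = 2 * e)
    (hy : y ^ 2 = 10) :
    ∃ (r : ℕ) (z : ℤ), 0 < r ∧ (Real.sqrt 10 - 1) ^ (Nat.totient e * r) ≤ |(z : ℝ)| ∧
      z ∣ ((Polynomial.cyclotomic e ℤ).eval 10) ^ r ∧
      ∀ (P : ℕ) (v : AbsoluteValue ℂ ℝ), P.Prime → IsPV P v → (∀ k : ℤ, v k ≤ 1) → (P : ℤ) ∣ z →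
        ∃ σ : ℂ ≃ₐ[ℚ] ℂ, v (σ (η - y)) < 1 := by
  have hηp : η ^ (2 * e) = 1 := by rw [← hη]; exact pow_orderOf_eq_one η
  have hηint : IsIntegral ℤ η :=
    IsIntegral.of_pow (n := 2 * e) (by omega) (by rw [hηp]; exact isIntegral_one)
  have hyint : IsIntegral ℤ y :=
    IsIntegral.of_pow (n := 2) (by omega) (by
      rw [hy]
      have : (10 : ℂ) = algebraMap ℤ ℂ 10 := by simp
      rw [this]
      exact isIntegral_algebraMap)
  let K : IntermediateField ℚ ℂ := IntermediateField.adjoin ℚ ({η, y} : Set ℂ)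
  have hfd : FiniteDimensional ℚ K := by
    refine IntermediateField.finiteDimensional_adjoin ?_
    intro x hx
    rcases hx with rfl | hx
    · exact hηint.tower_top
    · rw [Set.mem_singleton_iff] at hx
      subst hx
      exact hyint.tower_top
  have hmη : η ∈ K := IntermediateField.subset_adjoin ℚ _ (by simp)
  have hmy : y ∈ K := IntermediateField.subset_adjoin ℚ _ (by simp)
  let gη : K := ⟨η, hmη⟩
  let gy : K := ⟨y, hmy⟩
  have hinj : Function.Injective (algebraMap K ℂ) := (algebraMap K ℂ).injective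
  have hgηint : IsIntegral ℤ gη := (isIntegral_algebraMap_iff hinj).mp hηint
  have hgyint : IsIntegral ℤ gy := (isIntegral_algebraMap_iff hinj).mp hyint
  obtain ⟨z, hz⟩ := IsIntegrallyClosed.isIntegral_iff.mp
    (Algebra.isIntegral_norm ℚ (hgηint.sub hgyint))
  obtain ⟨z', hz'⟩ := IsIntegrallyClosed.isIntegral_iff.mp
    (Algebra.isIntegral_norm ℚ (hgηint.add hgyint))
  have hord : orderOf gη = 2 * e := by
    rw [← hη]
    exact (orderOf_injective (algebraMap K ℂ).toMonoidHom hinj gη).symm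
  have hprim : IsPrimitiveRoot (gη ^ 2) e := by
    refine IsPrimitiveRoot.pow (n := 2 * e) (by omega) ?_ rfl
    rw [← hord]
    exact IsPrimitiveRoot.orderOf gη
  have hgy2 : gy ^ 2 = algebraMap ℚ K 10 := by
    apply Subtype.ext
    change y ^ 2 = algebraMap K ℂ (algebraMap ℚ K 10)
    rw [hy, ← IsScalarTower.algebraMap_apply]
    simp
  let Θ : K := gη ^ 2 - algebraMap ℚ K 10
  have hΘ : (gη - gy) * (gη + gy) = Θ := by
    change _ = gη ^ 2 - algebraMap ℚ K 10
    rw [← hgy2]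
    ring
  have hmin : minpoly ℚ Θ = (Polynomial.cyclotomic e ℚ).comp (Polynomial.X + Polynomial.C 10) := by
    change minpoly ℚ (gη ^ 2 - algebraMap ℚ K 10) = _
    rw [minpoly.sub_algebraMap, Polynomial.cyclotomic_eq_minpoly_rat hprim he]
  have hΘint : IsIntegral ℚ Θ := IsIntegral.of_finite ℚ Θ
  have hdeg : (minpoly ℚ Θ).natDegree = Nat.totient e := by
    rw [hmin, Polynomial.natDegree_comp, Polynomial.natDegree_X_add_C, mul_one,
      Polynomial.natDegree_cyclotomic]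
  have hfin1 : finrank ℚ ℚ⟮Θ⟯ = Nat.totient e := by
    rw [adjoin.finrank hΘint, hdeg]
  have hfinm : finrank ℚ K = Nat.totient e * finrank ℚ⟮Θ⟯ K := by
    rw [← hfin1]
    exact (Module.finrank_mul_finrank ℚ ℚ⟮Θ⟯ K).symm
  have hrpos : 0 < finrank ℚ⟮Θ⟯ K := Module.finrank_pos
  have hcoeff : (minpoly ℚ Θ).coeff 0 = (Polynomial.cyclotomic e ℚ).eval 10 := by
    rw [hmin, Polynomial.coeff_zero_eq_eval_zero, Polynomial.eval_comp]
    simp
  have hprod : (z : ℚ) * z' = ((-1) ^ Nat.totient e * (Polynomial.cyclotomic e ℚ).eval 10) ^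
      finrank ℚ⟮Θ⟯ K := by
    have h1 : Algebra.norm ℚ Θ = Algebra.norm ℚ (gη - gy) * Algebra.norm ℚ (gη + gy) := by
      rw [← hΘ, map_mul]
    rw [← hz, ← hz', norm_eq, hdeg, hcoeff] at h1
    simpa using h1.symm
  have hcast : (Polynomial.cyclotomic e ℚ).eval 10 =
      (((Polynomial.cyclotomic e ℤ).eval 10 : ℤ) : ℚ) := by
    rw [← Polynomial.map_cyclotomic_int e ℚ]
    have := Polynomial.eval_intCast_map (Int.castRingHom ℚ) (Polynomial.cyclotomic e ℤ) 10
    simpa using this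
  have hprodZ : z * z' = ((-1) ^ Nat.totient e * (Polynomial.cyclotomic e ℤ).eval 10) ^
      finrank ℚ⟮Θ⟯ K := by
    rw [hcast] at hprod
    exact_mod_cast hprod
  have hemb := Algebra.norm_eq_prod_embeddings ℚ ℂ (gη - gy)
  rw [← hz] at hemb
  have hemb' : (z : ℂ) = ∏ σ : K →ₐ[ℚ] ℂ, σ (gη - gy) := by
    rw [← hemb]
    simp
  refine ⟨finrank ℚ⟮Θ⟯ K, z, hrpos, ?_, ?_, ?_⟩
  · have h1 : |(z : ℝ)| = ‖(z : ℂ)‖ := by
      rw [Complex.norm_intCast]
    rw [h1, hemb', norm_prod, ← hfinm, ← AlgHom.card ℚ K ℂ, Fintype.card]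
    rw [← Finset.prod_const]
    refine Finset.prod_le_prod (fun σ _ => ?_) (fun σ _ => ?_)
    · have : (1 : ℝ) ≤ Real.sqrt 10 := by
        rw [Real.one_le_sqrt]; norm_num
      linarith
    · rw [map_sub]
      have h2 : ‖σ gη‖ = 1 := by
        have h3 : (σ gη) ^ (2 * e) = 1 := by
          rw [← map_pow, ← hord, pow_orderOf_eq_one, map_one]
        exact Complex.norm_eq_one_of_pow_eq_one h3 (by omega)
      have h4 : ‖σ gy‖ = Real.sqrt 10 := by
        have h5 : (σ gy) ^ 2 = 10 := by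
          rw [← map_pow, hgy2, AlgHom.commutes]
          simp
        have h6 : ‖σ gy‖ ^ 2 = 10 := by
          rw [← norm_pow, h5]
          simp
        rw [← h6, Real.sqrt_sq (norm_nonneg _)]
      have h7 := norm_sub_norm_le (σ gy) (σ gη)
      rw [norm_sub_rev, h2, h4] at h7
      exact h7
  · have hu : IsUnit (((-1 : ℤ) ^ Nat.totient e) ^ finrank ℚ⟮Θ⟯ K) :=
      ((isUnit_one.neg).pow _).pow _
    exact (hu.dvd_mul_left).mp (Dvd.intro z' (hprodZ.trans (mul_pow _ _ _)))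
  · intro P v hP hv hv1 hdvd
    obtain ⟨k, hk⟩ := hdvd
    have h1 : v (z : ℂ) < 1 := by
      rw [hk]
      push_cast
      rw [map_mul, hv.2]
      have h2 : ((P : ℝ))⁻¹ < 1 := by
        apply inv_lt_one_of_one_lt₀
        exact_mod_cast hP.one_lt
      have h3 : (0 : ℝ) < (P : ℝ)⁻¹ := by
        have : (0 : ℝ) < P := by exact_mod_cast hP.pos
        positivity
      nlinarith [hv1 k, v.nonneg (k : ℂ)]
    rw [hemb', map_prod] at h1
    have h2 : ∃ σ : K →ₐ[ℚ] ℂ, v (σ (gη - gy)) < 1 := by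
      by_contra hcon
      push Not at hcon
      have h3 : (1 : ℝ) ≤ ∏ σ : K →ₐ[ℚ] ℂ, v (σ (gη - gy)) := by
        have := Finset.prod_le_prod (s := (Finset.univ : Finset (K →ₐ[ℚ] ℂ)))
          (f := fun _ => (1 : ℝ)) (g := fun σ => v (σ (gη - gy)))
          (fun _ _ => zero_le_one) (fun σ _ => hcon σ)
        simpa using this
      linarith
    obtain ⟨f, hf⟩ := h2
    obtain ⟨σ, hσ⟩ := exists_ext hconj K f
    refine ⟨σ, ?_⟩
    have h4 := hσ (gη - gy)
    have h5 : ((gη - gy : K) : ℂ) = η - y := rfl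
    rw [h5] at h4
    rw [h4]
    exact hf

lemma zt_pow_self (n : ℕ) (hn : 0 < n) : zt n ^ n = 1 := by
  unfold zt
  rw [← Complex.exp_nat_mul]
  have hn0 : (n : ℂ) ≠ 0 := by exact_mod_cast hn.ne'
  have h : (n : ℂ) * (2 * Real.pi * Complex.I / n) = 2 * Real.pi * Complex.I := by
    field_simp
  rw [h, Complex.exp_two_pi_mul_I]

lemma num_pow (m : ℕ) : ((m + 16 : ℕ) : ℝ) ^ 4 ≤ (54 / 25 : ℝ) ^ (m + 16) := by
  induction m with
  | zero => norm_num
  | succ m ih =>
    have h1 : ((m + 1 + 16 : ℕ) : ℝ) ≤ (17 / 16) * ((m + 16 : ℕ) : ℝ) := by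
      push_cast
      have : (0 : ℝ) ≤ m := Nat.cast_nonneg m
      linarith
    have h2 : ((m + 1 + 16 : ℕ) : ℝ) ^ 4 ≤ ((17 / 16) * ((m + 16 : ℕ) : ℝ)) ^ 4 :=
      pow_le_pow_left₀ (by positivity) h1 4
    have h3 : ((17 / 16 : ℝ) * ((m + 16 : ℕ) : ℝ)) ^ 4 = (17 / 16) ^ 4 * ((m + 16 : ℕ) : ℝ) ^ 4 := by
      rw [mul_pow]
    have h4 : (54 / 25 : ℝ) ^ (m + 1 + 16) = (54 / 25) * (54 / 25 : ℝ) ^ (m + 16) := by
      rw [show m + 1 + 16 = (m + 16) + 1 by ring, pow_succ, mul_comm]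
    have h5 : (0 : ℝ) ≤ ((m + 16 : ℕ) : ℝ) ^ 4 := by positivity
    rw [h4]
    rw [h3] at h2
    nlinarith

lemma num (htot : Stmt_Tot) (e : ℕ) (he : 0 < e) (h20 : 20 ∣ e) :
    (e : ℝ) ^ 2 / 4 ≤ (Real.sqrt 10 - 1) ^ Nat.totient e := by
  have hs : (54 / 25 : ℝ) ≤ Real.sqrt 10 - 1 := by
    have : (79 / 25 : ℝ) ≤ Real.sqrt 10 := by
      apply Real.le_sqrt_of_sq_le
      norm_num
    linarith
  refine le_trans ?_ (pow_le_pow_left₀ (by norm_num) hs _)
  have h8 : 8 ∣ Nat.totient e := by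
    have := Nat.totient_dvd_of_dvd h20
    have h : Nat.totient 20 = 8 := by decide +kernel
    rwa [h] at this
  have hpos : 0 < Nat.totient e := Nat.totient_pos.mpr he
  have ht := htot e
  obtain ⟨q, hq⟩ := h8
  by_cases hq1 : q = 1
  · have h8' : Nat.totient e = 8 := by rw [hq, hq1]
    rw [h8'] at ht
    obtain ⟨k, hk⟩ := h20
    have hk6 : k < 7 := by omega
    have hk1 : k = 1 := by
      have hall : ∀ k < 7, Nat.totient (20 * k) = 8 → k = 1 := by decide +kernel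
      exact hall k hk6 (by rw [← hk]; exact h8')
    rw [h8', hk, hk1]
    norm_num
  · have hge : 16 ≤ Nat.totient e := by omega
    obtain ⟨m, hm⟩ := Nat.exists_eq_add_of_le hge
    have h1 := num_pow m
    rw [show m + 16 = Nat.totient e by omega] at h1
    refine le_trans ?_ h1
    have h2 : (e : ℝ) ≤ 2 * (Nat.totient e : ℝ) ^ 2 := by exact_mod_cast ht
    have h3 : (0 : ℝ) ≤ e := Nat.cast_nonneg e
    nlinarith

end NRMAX

open NRMAX in
theorem nrma_proof (hpav : Stmt_Pav) (hrou : Stmt_Rou) (hconj : Stmt_Conj) (_hcyca : Stmt_Cyca)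
    (hstep : Stmt_Step) (htot : Stmt_Tot) (hcycp : Stmt_Cycp) : Stmt_Nrma := by
  intro N n hN hn h2N t h20
  have hz2 : zt n ^ (2 * N * t) = (zt n ^ (N * t)) ^ 2 := by
    rw [← pow_mul]
    congr 1
    ring
  rw [hz2] at h20 ⊢
  set η := zt n ^ (N * t) with hη
  have hηn : η ^ n = 1 := by
    rw [hη, ← pow_mul, mul_comm, pow_mul, zt_pow_self n hn, one_pow]
  have hfin : IsOfFinOrder η := isOfFinOrder_iff_pow_eq_one.mpr ⟨n, hn, hηn⟩
  have hopos : 0 < orderOf η := hfin.orderOf_pos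
  set e := orderOf (η ^ 2) with he
  have he2 : orderOf η = 2 * e ∧ 0 < e := by
    have h1 : e = orderOf η / Nat.gcd (orderOf η) 2 := orderOf_pow' η (by norm_num)
    rcases Nat.even_or_odd (orderOf η) with h2 | h2
    · have h3 : Nat.gcd (orderOf η) 2 = 2 := Nat.gcd_eq_right h2.two_dvd
      rw [h3] at h1
      have := h2.two_dvd
      omega
    · have h3 : Nat.gcd (orderOf η) 2 = 1 := Nat.Coprime.symm (Nat.coprime_two_left.mpr h2)
      rw [h3, Nat.div_one] at h1
      rw [h1] at h20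
      obtain ⟨a, ha⟩ := h2
      omega
  obtain ⟨hord, hepos⟩ := he2
  obtain ⟨r, z, hr, hzlow, hzdvd, hzP⟩ := core hconj η (yN 1) e hepos hord yN1_sq
  obtain ⟨⟨P₀, hP₀, heval⟩, -⟩ := hcycp e hepos
  let T : Finset ℕ := {P ∈ (10 ^ e - 1).primeFactors | orderOf (10 : ZMod P) = e}
  let f : ℕ → ℕ := fun P => P ^ padicValNat P (10 ^ e - 1)
  let S : Finset ℕ := {P ∈ T | (P : ℤ) ∣ z}
  let S' : Finset ℕ := {P ∈ T | ¬ (P : ℤ) ∣ z}
  have hAe : Ae e = (∏ P ∈ S, f P) * ∏ P ∈ S', f P := by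
    change ∏ P ∈ T, f P = _
    exact (Finset.prod_filter_mul_prod_filter_not T _ f).symm
  have hTp : ∀ P ∈ T, P.Prime := by
    intro P hP
    exact Nat.prime_of_mem_primeFactors (Finset.mem_filter.mp hP).1
  have hTo : ∀ P ∈ T, orderOf (10 : ZMod P) = e := by
    intro P hP
    exact (Finset.mem_filter.mp hP).2
  have hfpos : ∀ P ∈ T, 0 < f P := fun P hP => pow_pos (hTp P hP).pos _
  set A := ∏ P ∈ S, f P with hA
  set B := ∏ P ∈ S', f P with hB
  have hApos : 0 < A := Finset.prod_pos fun P hP => hfpos P (Finset.mem_filter.mp hP).1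
  have hP₀pos : 0 < P₀ := by
    rcases hP₀ with h | h
    · omega
    · exact h.1.pos
  have hcop : Nat.Coprime z.natAbs B := by
    refine Nat.Coprime.prod_right fun P hP => ?_
    refine Nat.Coprime.pow_right _ ?_
    have hP' := Finset.mem_filter.mp hP
    refine ((Nat.Prime.coprime_iff_not_dvd (hTp P hP'.1)).mpr ?_).symm
    intro h
    exact hP'.2 (Int.natCast_dvd.mpr h)
  have hdv : z.natAbs ∣ (A * P₀) ^ r := by
    have h1 : z.natAbs ∣ (Ae e * P₀) ^ r := by
      rw [heval] at hzdvd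
      have h2 := Int.natAbs_dvd_natAbs.mpr hzdvd
      rwa [Int.natAbs_pow, Int.natAbs_natCast] at h2
    rw [hAe, show A * B * P₀ = B * (A * P₀) by ring, mul_pow] at h1
    exact Nat.Coprime.dvd_of_dvd_mul_left (Nat.Coprime.pow_right r hcop) h1
  have hle : z.natAbs ≤ (A * P₀) ^ r :=
    Nat.le_of_dvd (pow_pos (Nat.mul_pos hApos hP₀pos) r) hdv
  have hs1 : (1 : ℝ) ≤ Real.sqrt 10 := by
    rw [Real.one_le_sqrt]; norm_num
  have hreal : (Real.sqrt 10 - 1) ^ Nat.totient e ≤ (A : ℝ) * P₀ := by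
    have h1 : ((Real.sqrt 10 - 1) ^ Nat.totient e) ^ r ≤ ((A : ℝ) * P₀) ^ r := by
      rw [← pow_mul]
      refine hzlow.trans ?_
      have h2 : |(z : ℝ)| = (z.natAbs : ℝ) := by
        rw [Nat.cast_natAbs, Int.cast_abs]
      rw [h2]
      exact_mod_cast hle
    exact (pow_le_pow_iff_left₀ (pow_nonneg (by linarith) _) (by positivity) (by omega)).mp h1
  have hP20 : 20 * P₀ ≤ e := by
    rcases hP₀ with h | ⟨hp, hpe, hp10⟩
    · rw [h]
      exact Nat.le_of_dvd hepos h20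
    · have hc : Nat.Coprime 20 P₀ := by
        refine ((Nat.Prime.coprime_iff_not_dvd hp).mpr ?_).symm
        intro h
        have h2 : P₀ ∣ 2 * 10 := by simpa using h
        rcases (Nat.Prime.dvd_mul hp).mp h2 with h3 | h3
        · exact hp10 (h3.trans (by norm_num))
        · exact hp10 h3
      exact Nat.le_of_dvd hepos (Nat.Coprime.mul_dvd_of_dvd_of_dvd hc h20 hpe)
  refine ⟨S, ?_, ?_⟩
  · intro P hP
    have hPT := (Finset.mem_filter.mp hP).1
    have hPz := (Finset.mem_filter.mp hP).2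
    refine ⟨hTp P hPT, hTo P hPT, ?_⟩
    obtain ⟨v₀, hv₀⟩ := hpav P (hTp P hPT)
    have hint : ∀ k : ℤ, v₀ k ≤ 1 := by
      intro k
      refine (hrou P v₀ (hTp P hPT) hv₀).2.1 _ ?_
      have : (k : ℂ) = algebraMap ℤ ℂ k := by simp
      rw [this]
      exact isIntegral_algebraMap
    obtain ⟨σ, hσ⟩ := hzP P v₀ (hTp P hPT) hv₀ hint hPz
    refine hstep N n hN hn h2N t P (v₀.comp (f := (σ : ℂ →+* ℂ)) σ.injective) (hTp P hPT) ?_ ?_
    · refine ⟨fun x y => ?_, ?_⟩
      · change v₀ (σ (x + y)) ≤ max (v₀ (σ x)) (v₀ (σ y))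
        rw [map_add]
        exact hv₀.1 _ _
      · change v₀ (σ (P : ℂ)) = _
        rw [map_natCast]
        exact hv₀.2
    · change v₀ (σ (yN 1 - zt n ^ (N * t))) < 1
      rw [← hη, ← neg_sub, map_neg, AbsoluteValue.map_neg]
      exact hσ
  · change 5 * e ≤ A
    have h1 := (num htot e hepos h20).trans hreal
    have h2 : (20 : ℝ) * P₀ ≤ e := by exact_mod_cast hP20
    have h3 : (0 : ℝ) < e := by exact_mod_cast hepos
    have h4 : (0 : ℝ) < A := by exact_mod_cast hApos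
    have h5 : (5 : ℝ) * e ≤ A := by
      have h6 : (5 : ℝ) * e * e ≤ A * e := by nlinarith
      exact le_of_mul_le_mul_right h6 h3
    exact_mod_cast h5

end Pool.Agent.BBP
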