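import Pool.Agent.BBP.Stmts

open scoped BigOperators Polynomial Topology
open Metric Filter Finset

namespace Pool.Agent.BBP

namespace PADTX

noncomputable section

lemma ult_eq {v : AbsoluteValue ℂ ℝ} (hult : ∀ x y, v (x + y) ≤ max (v x) (v y)) {a b : ℂ}
    (h : v a < v b) : v (a + b) = v b := by
  apply le_antisymm
  · exact (hult a b).trans (max_le h.le le_rfl)
  · by_contra hlt
    push Not at hlt
    have h1 := hult (a + b) (-a)
    rw [show a + b + -a = b by ring, v.map_neg] at h1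
    exact absurd h1 (not_le.mpr (max_lt hlt h))

lemma ult_sub {v : AbsoluteValue ℂ ℝ} (hult : ∀ x y, v (x + y) ≤ max (v x) (v y)) (a b : ℂ) :
    v (a - b) ≤ max (v a) (v b) := by
  have := hult a (-b)
  rwa [v.map_neg, ← sub_eq_add_neg] at this

lemma zt_prim {n : ℕ} (hn : 0 < n) : IsPrimitiveRoot (zt n) n :=
  Complex.isPrimitiveRoot_exp n hn.ne'

lemma yN_ne {N : ℕ} : yN N ≠ 0 := by
  unfold yN
  exact_mod_cast (Real.rpow_pos_of_pos (by norm_num) _).ne'

lemma yN_pow {N : ℕ} (hN : 0 < N) : yN N ^ (2 * N) = 10 := by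
  unfold yN
  have h2 : (0 : ℝ) < 2 * N := by positivity
  have : (((10 : ℝ) ^ ((1 : ℝ) / (2 * N))) ^ (2 * N) : ℝ) = 10 := by
    rw [← Real.rpow_natCast, ← Real.rpow_mul (by norm_num)]
    push_cast
    rw [one_div, inv_mul_cancel₀ h2.ne', Real.rpow_one]
  exact_mod_cast this

lemma zt_pow_div {n N : ℕ} (hn : 0 < n) (hN : 0 < N) (h : N ∣ n) : zt n ^ (n / N) = zt N := by
  obtain ⟨k, rfl⟩ := h
  have hk : k ≠ 0 := by rintro rfl; simp at hn
  rw [Nat.mul_div_cancel_left k hN]
  unfold zt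
  rw [← Complex.exp_nat_mul]
  congr 1
  have h1 : (N : ℂ) ≠ 0 := by exact_mod_cast hN.ne'
  have h2 : (k : ℂ) ≠ 0 := by exact_mod_cast hk
  push_cast
  field_simp

lemma zpow_sum' {a : ℝ} (ha : a ≠ 0) (f : ℕ → ℤ) (s : Finset ℕ) :
    ∏ i ∈ s, a ^ (f i) = a ^ (∑ i ∈ s, f i) := by
  classical
  induction s using Finset.induction_on with
  | empty => simp
  | insert i s hi ih => rw [prod_insert hi, sum_insert hi, zpow_add₀ ha, ih]

lemma prod_blocks {M : Type*} [CommMonoid M] (f : ℕ → M) (k L : ℕ) :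
    ∏ x ∈ range (k * L), f x = ∏ i ∈ range k, ∏ r ∈ range L, f (r + i * L) := by
  induction k with
  | zero => simp
  | succ k ih =>
    rw [Nat.succ_mul, prod_range_add, ih, prod_range_succ]
    congr 1
    exact prod_congr rfl fun r _ => by rw [add_comm]

lemma prod_erase_one {M : ℕ} (hM : 0 < M) :
    ∏ ξ ∈ (Polynomial.nthRootsFinset M (1 : ℂ)).erase 1, (1 - ξ) = (M : ℂ) := by
  obtain ⟨M', rfl⟩ : ∃ M', M = M' + 1 := ⟨M - 1, by omega⟩
  have hμ := zt_prim hM
  push_cast
  rw [← hμ.prod_one_sub_pow_eq_order]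
  symm
  refine prod_bij (fun k _ => zt (M' + 1) ^ (k + 1)) ?_ ?_ ?_ ?_
  · intro k hk
    rw [mem_range] at hk
    rw [mem_erase, Polynomial.mem_nthRootsFinset hM]
    refine ⟨?_, by rw [← pow_mul, mul_comm, pow_mul, hμ.pow_eq_one, one_pow]⟩
    exact hμ.pow_ne_one_of_pos_of_lt (by omega) (by omega)
  · intro i hi j hj hij
    rw [mem_range] at hi hj
    have := hμ.pow_inj (by omega) (by omega) hij
    omega
  · intro ξ hξ
    rw [mem_erase, Polynomial.mem_nthRootsFinset hM] at hξ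
    obtain ⟨i, hi, rfl⟩ := hμ.eq_pow_of_pow_eq_one hξ.2
    have hi0 : i ≠ 0 := by rintro rfl; simp at hξ
    exact ⟨i - 1, by rw [mem_range]; omega, by rw [Nat.sub_add_cancel (by omega)]⟩
  · intro k _; rfl

/-- The case where `v (y - z ^ t)` is minimal. -/
theorem core (hR : Stmt_Rou) (N n : ℕ) (hN : 0 < N) (hn : 0 < n) (hd : 2 * N ∣ n) (m : ℕ → ℤ)
    (hrel : Rel N n m) (hnew : New N n m) (P : ℕ) (v : AbsoluteValue ℂ ℝ) (hP : P.Prime)
    (hv : IsPV P v) (t : ℕ) (ht : t < n) (hmt : m t ≠ 0) (hlt : v (yN N - zt n ^ t) < 1)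
    (hmin : ∀ i : ℕ, v (yN N - zt n ^ t) ≤ v (yN N - zt N ^ i * zt n ^ t))
    (hPe : ¬ P ∣ orderOf (zt n ^ (N * t)))
    (hV : ¬ P ^ padicValNat P (10 ^ orderOf (zt n ^ (2 * N * t)) - 1) ∣ N) :
    ∃ t' < n, m t' ≠ 0 ∧ ∃ j : ℕ, 0 < j ∧
      orderOf (zt n ^ (N * t')) = orderOf (zt n ^ (N * t)) * P ^ j := by
  classical
  have : Fact P.Prime := ⟨hP⟩
  obtain ⟨r1, r2, r3, r4, r5⟩ := hR P v hP hv
  obtain ⟨hult, hvP⟩ := hv
  have hNn : N ∣ n := dvd_trans (dvd_mul_left N 2) hd
  have hzp := zt_prim hn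
  set z := zt n with hzdef
  set y := yN N with hydef
  have hz : z ^ n = 1 := hzp.pow_eq_one
  have hz0 : z ≠ 0 := hzp.ne_zero hn.ne'
  have vz : v z = 1 := r1 z n hn hz
  have vzt : ∀ k : ℕ, v (z ^ k) = 1 := fun k => by rw [map_pow, vz, one_pow]
  have vy : v y = 1 := by
    have := ult_eq hult (a := y - z ^ t) (b := z ^ t) (by rw [vzt]; exact hlt)
    rwa [sub_add_cancel, vzt] at this
  have y2 : y ^ (2 * N) = 10 := yN_pow hN
  have v10 : v 10 = 1 := by rw [← y2, map_pow, vy, one_pow]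
  have hPpos : (0 : ℝ) < P := by exact_mod_cast hP.pos
  have hPinv : (0 : ℝ) < (P : ℝ)⁻¹ := inv_pos.mpr hPpos
  have hPinv1 : (P : ℝ)⁻¹ < 1 := inv_lt_one_of_one_lt₀ (by exact_mod_cast hP.one_lt)
  have hP2 : P ≠ 2 := by
    rintro rfl
    have h5 : v 5 ≤ 1 := by
      have := r3 5 (by norm_num)
      push_cast at this
      rw [this]
      exact pow_le_one₀ (by positivity) (by norm_num)
    have h2 : v 2 = (2 : ℝ)⁻¹ := by exact_mod_cast hvP
    have : v 10 = v 2 * v 5 := by rw [← map_mul]; norm_num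
    rw [this, h2] at v10
    linarith
  have v2 : v 2 = 1 := by
    have := r3 2 (by norm_num)
    rw [padicValNat.eq_zero_of_not_dvd, pow_zero] at this
    · exact_mod_cast this
    · intro h
      exact hP2 ((Nat.prime_dvd_prime_iff_eq hP Nat.prime_two).mp h)
  have hvne : ∀ {x : ℂ}, x ≠ 0 → 0 < v x := fun h => v.pos_iff.mpr h
  -- the element `η`
  set η := z ^ (N * t) with hη
  set θ := z ^ (2 * N * t) with hθ
  have hθη : θ = η ^ 2 := by rw [hθ, hη, ← pow_mul]; ring_nf
  have hθn : θ ^ n = 1 := by rw [hθ, ← pow_mul, mul_comm, pow_mul, hz, one_pow]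
  have hηn : η ^ n = 1 := by rw [hη, ← pow_mul, mul_comm, pow_mul, hz, one_pow]
  set e := orderOf θ with he
  have he0 : 0 < e := orderOf_pos_iff.mpr (isOfFinOrder_iff_pow_eq_one.mpr ⟨n, hn, hθn⟩)
  have hPθ : ¬ P ∣ e := by
    intro h
    apply hPe
    refine h.trans ?_
    rw [he, hθη]
    exact orderOf_pow_dvd 2
  have hθ1 : v θ = 1 := r1 θ n hn hθn
  -- roots of unity of order prime to `P`
  have hroot1 : ∀ (ξ : ℂ) (k : ℕ), 0 < k → ξ ^ k = 1 → ξ ≠ 1 → ¬ P ∣ k → v (1 - ξ) = 1 := by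
    intro ξ k hk hξ hξ1 hPk
    by_contra hne
    have hle : v (1 - ξ) ≤ 1 := by
      have := ult_sub hult 1 ξ
      rwa [map_one, r1 ξ k hk hξ, max_self] at this
    obtain ⟨j, hj, hord⟩ := r4 ξ k hk hξ hξ1 (lt_of_le_of_ne hle hne)
    apply hPk
    have h1 := orderOf_dvd_of_pow_eq_one hξ
    rw [hord] at h1
    exact (dvd_pow_self P hj.ne').trans h1
  have hle1 : ∀ (ξ : ℂ) (k : ℕ), 0 < k → ξ ^ k = 1 → v (1 - ξ) ≤ 1 := by
    intro ξ k hk hξ
    have := ult_sub hult 1 ξ
    rwa [map_one, r1 ξ k hk hξ, max_self] at this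
  -- the value of `10 - θ`
  set V := padicValNat P (10 ^ e - 1) with hVdef
  have hv10θ : v (10 - θ) = ((P : ℝ)⁻¹) ^ V := by
    have h1 : (10 : ℂ) ^ e - 1 ^ e = ∏ ξ ∈ Polynomial.nthRootsFinset e (1 : ℂ), (10 - ξ * 1) :=
      (IsPrimitiveRoot.orderOf θ).pow_sub_pow_eq_prod_sub_mul 10 1 he0
    have h2 : v ((10 : ℂ) ^ e - 1) = ((P : ℝ)⁻¹) ^ V := by
      have h3 := r3 (10 ^ e - 1) (Nat.sub_pos_of_lt (Nat.one_lt_pow he0.ne' (by norm_num)))
      rw [Nat.cast_sub (Nat.one_le_pow _ _ (by norm_num))] at h3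
      push_cast at h3
      rw [h3, hVdef]
    rw [← h2]
    rw [one_pow] at h1
    rw [h1, map_prod, prod_eq_single θ]
    · rw [mul_one]
    · intro ξ hξ hξθ
      rw [Polynomial.mem_nthRootsFinset he0] at hξ
      rw [mul_one]
      have hθe : θ ^ e = 1 := pow_orderOf_eq_one θ
      have hθ0 : θ ≠ 0 := pow_ne_zero _ hz0
      have h4 : v (θ - ξ) = 1 := by
        have h5 : θ - ξ = θ * (1 - ξ / θ) := by field_simp
        rw [h5, map_mul, hθ1, one_mul]
        refine hroot1 _ e he0 (by rw [div_pow, hξ, hθe, div_one]) ?_ hPθ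
        intro h6
        rw [div_eq_one_iff_eq hθ0] at h6
        exact hξθ h6
      have h7 : v (10 - θ) < 1 := by
        -- `10 - θ = (y ^ N - η) (y ^ N + η)`
        have h8 : (10 : ℂ) - θ = (y - z ^ t) * ∑ i ∈ range (2 * N), y ^ i * (z ^ t) ^ (2 * N - 1 - i) := by
          rw [mul_comm, (Commute.all y (z ^ t)).geom_sum₂_mul, y2, ← pow_mul, hθ]
          ring_nf
        rw [h8, map_mul]
        have h9 : v (∑ i ∈ range (2 * N), y ^ i * (z ^ t) ^ (2 * N - 1 - i)) ≤ 1 := by
          have h10 : ∀ s : Finset ℕ, v (∑ i ∈ s, y ^ i * (z ^ t) ^ (2 * N - 1 - i)) ≤ 1 := by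
            intro s
            induction s using Finset.induction_on with
            | empty => simp
            | insert i s hi ih =>
              rw [sum_insert hi]
              refine (hult _ _).trans (max_le ?_ ih)
              rw [map_mul, map_pow, map_pow, vy, vzt, one_pow, one_pow, one_mul]
          exact h10 _
        calc v (y - z ^ t) * v (∑ i ∈ range (2 * N), y ^ i * (z ^ t) ^ (2 * N - 1 - i))
            ≤ v (y - z ^ t) * 1 := mul_le_mul_of_nonneg_left h9 (v.nonneg _)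
          _ < 1 := by rw [mul_one]; exact hlt
      have := ult_eq hult (a := 10 - θ) (b := θ - ξ) (by rw [h4]; exact h7)
      rw [sub_add_sub_cancel, h4] at this
      exact this
    · intro h
      exact absurd ((Polynomial.mem_nthRootsFinset he0 _).mpr (pow_orderOf_eq_one θ)) h
  -- `y ^ N - η`
  have hprodN : y ^ N - η = ∏ ξ ∈ Polynomial.nthRootsFinset N (1 : ℂ), (y - ξ * z ^ t) := by
    rw [← (zt_prim hN).pow_sub_pow_eq_prod_sub_mul y (z ^ t) hN, hη, ← pow_mul, mul_comm t N]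
  have hvη : v η = 1 := vzt _
  have hρle : ∀ ξ : ℂ, ξ ^ N = 1 → v (y - ξ * z ^ t) ≤ 1 := by
    intro ξ hξ
    have := ult_sub hult y (ξ * z ^ t)
    rwa [vy, map_mul, r1 ξ N hN hξ, vzt, one_mul, max_self] at this
  have hmem1 : (1 : ℂ) ∈ Polynomial.nthRootsFinset N (1 : ℂ) :=
    (Polynomial.mem_nthRootsFinset hN _).mpr (one_pow N)
  have hylt : v (y ^ N - η) < 1 := by
    rw [hprodN, map_prod, ← mul_prod_erase _ _ hmem1, one_mul]
    calc v (y - z ^ t) * ∏ ξ ∈ (Polynomial.nthRootsFinset N (1 : ℂ)).erase 1, v (y - ξ * z ^ t)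
        ≤ v (y - z ^ t) * 1 := by
          refine mul_le_mul_of_nonneg_left ?_ (v.nonneg _)
          refine prod_le_one (fun _ _ => v.nonneg _) fun ξ hξ => ?_
          exact hρle ξ ((Polynomial.mem_nthRootsFinset hN _).mp (mem_of_mem_erase hξ))
      _ < 1 := by rw [mul_one]; exact hlt
  have hyV : v (y ^ N - η) = ((P : ℝ)⁻¹) ^ V := by
    have h1 : (10 : ℂ) - θ = (y ^ N - η) * (y ^ N + η) := by
      rw [← y2, hθη]; ring
    have h2 : v (y ^ N + η) = 1 := by
      have h3 := ult_eq hult (a := y ^ N - η) (b := 2 * η) (by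
        rw [map_mul, v2, hvη, one_mul]; exact hylt)
      rw [show y ^ N - η + 2 * η = y ^ N + η by ring, map_mul, v2, hvη, one_mul] at h3
      exact h3
    rw [← hv10θ, h1, map_mul, h2, mul_one]
  have hδ0 : 0 < v (y - z ^ t) := by
    refine hvne ?_
    intro h0
    have : v (y ^ N - η) = 0 := by
      rw [hprodN, map_prod]
      exact prod_eq_zero hmem1 (by rw [one_mul, h0, map_zero])
    rw [hyV] at this
    exact (pow_pos hPinv V).ne' this
  set δ := v (y - z ^ t) with hδ
  -- the relation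
  have hrel' : ∏ t' ∈ range n, v (y - z ^ t') ^ (m t') = 1 := by
    have h1 : v (∏ t' ∈ range n, (1 - z ^ t' / y) ^ (m t')) = 1 := by
      have h2 : ∏ t' ∈ range n, (1 - z ^ t' / y) ^ (m t') = 1 := hrel
      rw [h2, map_one]
    rw [map_prod] at h1
    rw [← h1]
    refine prod_congr rfl fun t' _ => ?_
    rw [map_zpow₀]
    congr 1
    have h3 : 1 - z ^ t' / y = (y - z ^ t') / y := by
      rw [sub_div, div_self yN_ne]
    rw [h3, map_div₀, vy, div_one]
  -- quotients
  have hquot : ∀ t' : ℕ, z ^ t - z ^ t' = z ^ t * (1 - z ^ t' / z ^ t) := by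
    intro t'
    have := pow_ne_zero t hz0
    field_simp
  have hqn : ∀ t' : ℕ, (z ^ t' / z ^ t) ^ n = 1 := by
    intro t'
    rw [div_pow, ← pow_mul, ← pow_mul, mul_comm t', mul_comm t, pow_mul, pow_mul, hz, one_pow,
      one_pow, div_one]
  have hq1 : ∀ t' < n, t' ≠ t → z ^ t' / z ^ t ≠ 1 := by
    intro t' ht' hne h
    rw [div_eq_one_iff_eq (pow_ne_zero t hz0)] at h
    exact hne (hzp.pow_inj ht' ht h)
  have hvq : ∀ t' : ℕ, v (z ^ t - z ^ t') = v (1 - z ^ t' / z ^ t) := by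
    intro t'
    rw [hquot, map_mul, vzt, one_mul]
  set s := padicValNat P N with hs
  have hsV : s < V := by
    by_contra h
    push Not at h
    exact hV ((pow_dvd_pow P h).trans pow_padicValNat_dvd)
  rcases Nat.eq_zero_or_pos s with hs0 | hs1
  · -- `P` does not divide `N`
    have hPN : ¬ P ∣ N := by
      intro h
      have := (padicValNat_dvd_iff_le (p := P) (n := 1) hN.ne').mp (by rwa [pow_one])
      omega
    by_contra hcon
    push Not at hcon
    have hone : ∀ t' ∈ range n, t' ≠ t → v (y - z ^ t') ^ (m t') = 1 := by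
      intro t' ht' hne
      rw [mem_range] at ht'
      by_cases hm : m t' = 0
      · rw [hm, zpow_zero]
      have hle : v (y - z ^ t') ≤ 1 := by
        have := ult_sub hult y (z ^ t')
        rwa [vy, vzt, max_self] at this
      by_cases h1 : v (y - z ^ t') = 1
      · rw [h1, one_zpow]
      exfalso
      have h2 : v (y - z ^ t') < 1 := lt_of_le_of_ne hle h1
      have h3 : v (1 - z ^ t' / z ^ t) < 1 := by
        rw [← hvq, show z ^ t - z ^ t' = (y - z ^ t') - (y - z ^ t) by ring]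
        exact (ult_sub hult _ _).trans_lt (max_lt h2 hlt)
      obtain ⟨j, hj, hord⟩ := r4 _ n hn (hqn t') (hq1 t' ht' hne) h3
      refine hcon t' ht' hm j hj ?_
      have h4 : z ^ (N * t') = η * (z ^ t' / z ^ t) ^ N := by
        rw [hη, div_pow, ← pow_mul, ← pow_mul, mul_comm t' N, mul_comm t N]
        have := pow_ne_zero (N * t) hz0
        field_simp
      have h5 : orderOf ((z ^ t' / z ^ t) ^ N) = P ^ j := by
        rw [Nat.Coprime.orderOf_pow, hord]
        rw [hord]
        exact Nat.Coprime.pow_left j ((Nat.Prime.coprime_iff_not_dvd hP).mpr hPN)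
      rw [h4, (Commute.all _ _).orderOf_mul_eq_mul_orderOf_of_coprime, h5]
      rw [h5]
      exact (Nat.Coprime.pow_left j ((Nat.Prime.coprime_iff_not_dvd hP).mpr hPe)).symm
    rw [prod_eq_single t hone (by intro h; exact absurd (mem_range.mpr ht) h)] at hrel'
    exact hmt ((zpow_eq_one_iff_right₀ hδ0.le hlt.ne).mp hrel')
  · -- `P` divides `N`
    exfalso
    have hPN : P ∣ N := by
      have := (padicValNat_dvd_iff_le (p := P) (n := 1) hN.ne').mpr (by omega)
      rwa [pow_one] at this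
    have hPn : P ∣ n := hPN.trans hNn
    have hP3 : 2 < P := lt_of_le_of_ne hP.two_le (Ne.symm hP2)
    have hζ := zt_prim hP.pos
    have hζ1 : zt P ≠ 1 := hζ.ne_one hP.one_lt
    set w := v (1 - zt P) with hw
    have hw0 : 0 < w := hvne (sub_ne_zero.mpr hζ1.symm)
    have hwpow : w ^ (P - 1) = (P : ℝ)⁻¹ := by
      have := r5 (zt P) 1 one_pos (by rw [pow_one]; exact hζ.eq_orderOf.symm)
      rwa [pow_one, Nat.totient_prime hP] at this
    have hw1 : w < 1 := by
      by_contra h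
      push Not at h
      have := one_le_pow₀ h (n := P - 1)
      rw [hwpow] at this
      linarith
    -- all orders `P ^ j`
    have hbig : ∀ (ξ : ℂ) (j : ℕ), 0 < j → orderOf ξ = P ^ j → w ≤ v (1 - ξ) := by
      intro ξ j hj hord
      have h1 := r5 ξ j hj hord
      rw [Nat.totient_prime_pow hP hj] at h1
      by_contra h
      push Not at h
      have h2 : v (1 - ξ) ^ (P ^ (j - 1) * (P - 1)) ≤ v (1 - ξ) ^ (P - 1) := by
        refine pow_le_pow_of_le_one (v.nonneg _) (h.le.trans hw1.le) ?_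
        exact Nat.le_mul_of_pos_left _ (pow_pos hP.pos _)
      have h3 : v (1 - ξ) ^ (P - 1) < w ^ (P - 1) :=
        pow_lt_pow_left₀ h (v.nonneg _) (by omega)
      rw [h1] at h2
      rw [hwpow] at h3
      linarith
    -- `δ < w`
    have hδw : δ < w := by
      by_contra hcon
      push Not at hcon
      have hPs : 0 < P ^ s := pow_pos hP.pos s
      have hsub : Polynomial.nthRootsFinset (P ^ s) (1 : ℂ) ⊆
          Polynomial.nthRootsFinset N (1 : ℂ) := by
        intro ξ hξ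
        rw [Polynomial.mem_nthRootsFinset hPs] at hξ
        rw [Polynomial.mem_nthRootsFinset hN]
        obtain ⟨c, hc⟩ : P ^ s ∣ N := pow_padicValNat_dvd
        rw [hc, pow_mul, hξ, one_pow]
      have h1 : ((P : ℝ)⁻¹) ^ V =
          ∏ ξ ∈ Polynomial.nthRootsFinset (P ^ s) (1 : ℂ), v (y - ξ * z ^ t) := by
        rw [← hyV, hprodN, map_prod]
        symm
        refine prod_subset hsub fun ξ hξ hξ' => ?_
        rw [Polynomial.mem_nthRootsFinset hN] at hξ
        rw [Polynomial.mem_nthRootsFinset hPs] at hξ'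
        have h2 : v (1 - ξ) = 1 := by
          by_contra hne
          have hξ1 : ξ ≠ 1 := by rintro rfl; exact hξ' (one_pow _)
          obtain ⟨j, hj, hord⟩ := r4 ξ N hN hξ hξ1 (lt_of_le_of_ne (hle1 ξ N hN hξ) hne)
          apply hξ'
          have h3 := orderOf_dvd_of_pow_eq_one hξ
          rw [hord, padicValNat_dvd_iff_le hN.ne'] at h3
          have h4 : ξ ^ (P ^ j) = 1 := by rw [← hord]; exact pow_orderOf_eq_one ξ
          obtain ⟨c, hc⟩ := pow_dvd_pow P h3
          rw [← hs] at hc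
          rw [hc, pow_mul, h4, one_pow]
        have h3 := ult_eq hult (a := y - z ^ t) (b := (1 - ξ) * z ^ t) (by
          rw [map_mul, h2, vzt, one_mul]; exact hlt)
        rw [show y - z ^ t + (1 - ξ) * z ^ t = y - ξ * z ^ t by ring, map_mul, h2, vzt,
          one_mul] at h3
        exact h3
      have hmemP : (1 : ℂ) ∈ Polynomial.nthRootsFinset (P ^ s) (1 : ℂ) :=
        (Polynomial.mem_nthRootsFinset hPs _).mpr (one_pow _)
      rw [← mul_prod_erase _ _ hmemP, one_mul] at h1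
      have h2 : ∏ ξ ∈ (Polynomial.nthRootsFinset (P ^ s) (1 : ℂ)).erase 1, v (1 - ξ) ≤
          ∏ ξ ∈ (Polynomial.nthRootsFinset (P ^ s) (1 : ℂ)).erase 1, v (y - ξ * z ^ t) := by
        refine prod_le_prod (fun _ _ => v.nonneg _) fun ξ hξ => ?_
        have hξN := hsub (mem_of_mem_erase hξ)
        rw [Polynomial.mem_nthRootsFinset hN] at hξN
        have : NeZero N := ⟨hN.ne'⟩
        obtain ⟨i, hi, rfl⟩ := (zt_prim hN).eq_pow_of_pow_eq_one hξN
        have h3 := hmin i
        have h4 : v ((1 - zt N ^ i) * z ^ t) ≤ max (v (y - zt N ^ i * z ^ t)) (v (y - z ^ t)) := by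
          rw [show (1 - zt N ^ i) * z ^ t = (y - zt N ^ i * z ^ t) - (y - z ^ t) by ring]
          exact ult_sub hult _ _
        rw [map_mul, vzt, mul_one, max_eq_left h3] at h4
        exact h4
      have h3 : ∏ ξ ∈ (Polynomial.nthRootsFinset (P ^ s) (1 : ℂ)).erase 1, v (1 - ξ) =
          ((P : ℝ)⁻¹) ^ s := by
        rw [← map_prod, prod_erase_one hPs]
        push_cast
        rw [map_pow, hvP]
      have h4 : w * ((P : ℝ)⁻¹) ^ s ≤ ((P : ℝ)⁻¹) ^ V := by
        rw [h1, ← h3]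
        exact mul_le_mul hcon h2 (prod_nonneg fun _ _ => v.nonneg _) hδ0.le
      have h5 : ((P : ℝ)⁻¹) ^ V ≤ ((P : ℝ)⁻¹) ^ (s + 1) :=
        pow_le_pow_of_le_one hPinv.le hPinv1.le hsV
      have h6 : w ≤ (P : ℝ)⁻¹ := by
        have h7 := h4.trans h5
        rw [pow_succ', ] at h7
        exact le_of_mul_le_mul_right h7 (pow_pos hPinv s)
      have h7 : w ^ (P - 1) ≤ w ^ 2 := pow_le_pow_of_le_one hw0.le hw1.le (by omega)
      rw [hwpow] at h7
      nlinarith
    -- the function `U`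
    let U : ℂ → ℝ := fun ξ => if ξ = 1 then w else v (1 - ξ)
    have hU0 : ∀ ξ, U ξ ≠ 0 := by
      intro ξ
      simp only [U]
      split_ifs with h
      · exact hw0.ne'
      · exact (hvne (sub_ne_zero.mpr (Ne.symm h))).ne'
    have hPow1 : ∀ ζ : ℂ, ζ ^ P = 1 → ζ ≠ 1 → v (1 - ζ) = w := by
      intro ζ hζP hζ1'
      have hord : orderOf ζ = P := orderOf_eq_prime hζP hζ1'
      have h1 := r5 ζ 1 one_pos (by rw [pow_one]; exact hord)
      rw [pow_one, Nat.totient_prime hP, ← hwpow] at h1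
      exact (pow_left_inj₀ (v.nonneg _) hw0.le (by omega)).mp h1
    have hordpow : ∀ (x : ℂ) (j : ℕ), 0 < j → orderOf x = P ^ j → orderOf (x ^ P) = P ^ (j - 1) := by
      intro x j hj hx
      have hdvd : P ∣ orderOf x := by rw [hx]; exact dvd_pow_self P hj.ne'
      rw [orderOf_pow_of_dvd hP.ne_zero hdvd, hx]
      exact Nat.div_eq_of_eq_mul_left hP.pos (by rw [← pow_succ, Nat.sub_add_cancel hj])
    have hUc : ∀ ξ ζ : ℂ, ξ ^ n = 1 → ζ ^ P = 1 → U (ξ * ζ) = U ξ := by
      intro ξ ζ hξ hζP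
      by_cases hζ1' : ζ = 1
      · rw [hζ1', mul_one]
      by_cases hξ1 : ξ = 1
      · rw [hξ1, one_mul]
        simp only [U, if_neg hζ1', if_true]
        exact hPow1 ζ hζP hζ1'
      by_cases hprod : ξ * ζ = 1
      · rw [hprod]
        simp only [U, if_neg hξ1, if_true]
        symm
        refine hPow1 ξ ?_ hξ1
        have h1 : (ξ * ζ) ^ P = 1 := by rw [hprod, one_pow]
        rwa [mul_pow, hζP, mul_one] at h1
      simp only [U, if_neg hξ1, if_neg hprod]
      have hζn : ζ ^ n = 1 := by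
        obtain ⟨c, hc⟩ := hPn
        rw [hc, pow_mul, hζP, one_pow]
      have hpn : (ξ * ζ) ^ n = 1 := by rw [mul_pow, hξ, hζn, one_mul]
      have vξ : v ξ = 1 := r1 ξ n hn hξ
      have hζlt : v (ξ * (1 - ζ)) < 1 := by
        rw [map_mul, vξ, one_mul, hPow1 ζ hζP hζ1']
        exact hw1
      have hiff : v (1 - ξ) < 1 ↔ v (1 - ξ * ζ) < 1 := by
        constructor
        · intro h
          rw [show 1 - ξ * ζ = (1 - ξ) + ξ * (1 - ζ) by ring]
          exact (hult _ _).trans_lt (max_lt h hζlt)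
        · intro h
          rw [show 1 - ξ = (1 - ξ * ζ) - ξ * (1 - ζ) by ring]
          exact (ult_sub hult _ _).trans_lt (max_lt h hζlt)
      by_cases hl : v (1 - ξ) < 1
      · have hl' := hiff.mp hl
        obtain ⟨j, hj, hjo⟩ := r4 ξ n hn hξ hξ1 hl
        obtain ⟨j', hj', hjo'⟩ := r4 (ξ * ζ) n hn hpn hprod hl'
        have h1 := hordpow ξ j hj hjo
        have h2 := hordpow (ξ * ζ) j' hj' hjo'
        rw [mul_pow, hζP, mul_one, h1] at h2
        have h3 : j - 1 = j' - 1 := Nat.pow_right_injective hP.two_le h2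
        have h4 : j = j' := by omega
        subst h4
        have h5 := r5 ξ j hj hjo
        have h6 := r5 (ξ * ζ) j hj hjo'
        rw [← h5] at h6
        exact (pow_left_inj₀ (v.nonneg _) (v.nonneg _)
          (Nat.totient_pos.mpr (pow_pos hP.pos j)).ne').mp h6
      · have hl' : ¬ v (1 - ξ * ζ) < 1 := fun h => hl (hiff.mpr h)
        have h1 := le_antisymm (hle1 ξ n hn hξ) (not_lt.mp hl)
        have h2 := le_antisymm (hle1 (ξ * ζ) n hn hpn) (not_lt.mp hl')
        rw [h1, h2]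
    -- values
    have hval : ∀ t' < n, t' ≠ t → v (y - z ^ t') = U (z ^ t' / z ^ t) := by
      intro t' ht' hne
      have hq := hq1 t' ht' hne
      simp only [U, if_neg hq]
      have h1 : δ < v (1 - z ^ t' / z ^ t) := by
        by_cases hl : v (1 - z ^ t' / z ^ t) < 1
        · obtain ⟨j, hj, hjo⟩ := r4 _ n hn (hqn t') hq hl
          exact hδw.trans_le (hbig _ j hj hjo)
        · exact (hδw.trans hw1).trans_le (not_lt.mp hl)
      rw [← hvq] at h1 ⊢
      have h2 := ult_eq hult (a := y - z ^ t) (b := z ^ t - z ^ t') h1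
      rwa [sub_add_sub_cancel] at h2
    -- the product of the `U`
    have hUprod : ∏ t' ∈ range n, U (z ^ t' / z ^ t) ^ (m t') = 1 := by
      have hnP : n = P * (n / P) := (Nat.mul_div_cancel' hPn).symm
      have hL : z ^ (n / P) = zt P := zt_pow_div hn hP.pos hPn
      rw [show range n = range (P * (n / P)) by rw [← hnP], prod_blocks, Finset.prod_comm]
      refine prod_eq_one fun r hr => ?_
      rw [mem_range] at hr
      have h1 : ∀ i ∈ range P, U (z ^ (r + i * (n / P)) / z ^ t) ^ m (r + i * (n / P)) =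
          U (z ^ r / z ^ t) ^ m (r + i * (n / P)) := by
        intro i _
        congr 1
        have h2 : z ^ (r + i * (n / P)) / z ^ t = (z ^ r / z ^ t) * (zt P) ^ i := by
          rw [pow_add, mul_comm i, pow_mul, hL]
          ring
        rw [h2]
        refine hUc _ _ (hqn r) ?_
        rw [← pow_mul, mul_comm, pow_mul, hζ.pow_eq_one, one_pow]
      rw [prod_congr rfl h1, zpow_sum' (hU0 _), hnew P hP hPN r hr, zpow_zero]
    have hmem : t ∈ range n := mem_range.mpr ht
    rw [← mul_prod_erase _ _ hmem] at hUprod hrel'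
    have h1 : ∏ x ∈ (range n).erase t, v (y - z ^ x) ^ m x =
        ∏ x ∈ (range n).erase t, U (z ^ x / z ^ t) ^ m x := by
      refine prod_congr rfl fun x hx => ?_
      rw [mem_erase, mem_range] at hx
      rw [hval x hx.2 hx.1]
    rw [h1] at hrel'
    have h2 : U (z ^ t / z ^ t) = w := by
      rw [div_self (pow_ne_zero t hz0)]
      simp only [U, if_true]
    rw [h2] at hUprod
    have h3 : (∏ x ∈ (range n).erase t, U (z ^ x / z ^ t) ^ m x) ≠ 0 :=
      right_ne_zero_of_mul_eq_one hUprod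
    have h4 : δ ^ (m t) = w ^ (m t) := mul_right_cancel₀ h3 (hrel'.trans hUprod.symm)
    have h5 : (δ / w) ^ (m t) = 1 := by
      rw [div_zpow, h4, div_self (zpow_ne_zero _ hw0.ne')]
    exact hmt ((zpow_eq_one_iff_right₀ (div_pos hδ0 hw0).le
      ((div_lt_one hw0).mpr hδw).ne).mp h5)

end

end PADTX

open PADTX in
theorem padt_proof (hS : Stmt_Shift) (hR : Stmt_Rou) : Stmt_Padt := by
  intro N n hN hn hd m hrel hnew P v hP hv t ht hmt hlt hPe hV
  have hNn : N ∣ n := dvd_trans (dvd_mul_left N 2) hd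
  obtain ⟨i0, hi0, hmin⟩ := exists_min_image (range N)
    (fun i => v (yN N - zt N ^ i * zt n ^ t)) ⟨0, mem_range.mpr hN⟩
  rw [mem_range] at hi0
  obtain ⟨σ, hσz, hσy⟩ := hS N n hN hn hd (N - i0)
  have hζN := zt_prim hN
  have hmin' : ∀ i : ℕ, v (yN N - zt N ^ i0 * zt n ^ t) ≤ v (yN N - zt N ^ i * zt n ^ t) := by
    intro i
    have h1 := hmin (i % N) (mem_range.mpr (Nat.mod_lt i hN))
    have h2 : zt N ^ (i % N) = zt N ^ i := by
      conv_rhs => rw [← Nat.div_add_mod i N, pow_add, pow_mul, hζN.pow_eq_one, one_pow, one_mul]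
    simpa only [h2] using h1
  have hσinj : Function.Injective (σ : ℂ →+* ℂ) := σ.injective
  let v' : AbsoluteValue ℂ ℝ := v.comp hσinj
  have hv'app : ∀ x, v' x = v (σ x) := fun x => rfl
  have hv' : IsPV P v' := by
    refine ⟨fun x y => ?_, ?_⟩
    · rw [hv'app, hv'app, hv'app, map_add]
      exact hv.1 _ _
    · rw [hv'app, map_natCast]
      exact hv.2
  have hvzN : v (zt N) = 1 := (hR P v hP hv).1 (zt N) N hN hζN.pow_eq_one
  have hσN : σ (zt N) = zt N := by
    rw [← zt_pow_div hn hN hNn, map_pow, hσz]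
  have key : ∀ i : ℕ, v' (yN N - zt N ^ i * zt n ^ t) = v (yN N - zt N ^ (i0 + i) * zt n ^ t) := by
    intro i
    rw [hv'app, map_sub, map_mul, map_pow, map_pow, hσN, hσz, hσy]
    have h1 : zt N ^ (N - i0) * zt N ^ i0 = 1 := by
      rw [← pow_add, Nat.sub_add_cancel hi0.le, hζN.pow_eq_one]
    have h2 : zt N ^ (N - i0) * yN N - zt N ^ i * zt n ^ t =
        zt N ^ (N - i0) * (yN N - zt N ^ (i0 + i) * zt n ^ t) := by
      rw [mul_sub, pow_add, ← mul_assoc, ← mul_assoc, h1, one_mul]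
    rw [h2, map_mul, map_pow, hvzN, one_pow, one_mul]
  have key0 : v' (yN N - zt n ^ t) = v (yN N - zt N ^ i0 * zt n ^ t) := by
    have := key 0
    rwa [pow_zero, one_mul, add_zero] at this
  refine core hR N n hN hn hd m hrel hnew P v' hP hv' t ht hmt ?_ ?_ hPe hV
  · rw [key0]
    have := hmin' 0
    rw [pow_zero, one_mul] at this
    exact this.trans_lt hlt
  · intro i
    rw [key0, key]
    exact hmin' _

end Pool.Agent.BBP
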