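import Pool.Agent.BBP.Stmts

/-!
BBP/PAV (helper92): extension of the P-adic absolute value to the complex numbers.
-/

open Cardinal

namespace Pool.Agent.BBP

namespace PAVX

theorem card_padic (P : ℕ) [Fact P.Prime] : #ℚ_[P] = 𝔠 := by
  apply le_antisymm
  · have h1 : #ℚ_[P] ≤ #(CauSeq ℚ (padicNorm P)) :=
      Cardinal.mk_le_of_surjective (f := fun s : CauSeq ℚ (padicNorm P) =>
        (CauSeq.Completion.mk s : CauSeq.Completion.Cauchy (padicNorm P))) (Quot.exists_rep)
    have h2 : #(CauSeq ℚ (padicNorm P)) ≤ #(ℕ → ℚ) := Cardinal.mk_subtype_le _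
    have h3 : #(ℕ → ℚ) = 𝔠 := by
      rw [← Cardinal.power_def, Cardinal.mk_nat, Cardinal.mk_denumerable,
        Cardinal.aleph0_power_aleph0]
    exact (h1.trans h2).trans h3.le
  · exact continuum_le_cardinal_of_nontriviallyNormedField ℚ_[P]

theorem card_algcl (P : ℕ) [Fact P.Prime] : #(PadicAlgCl P) = 𝔠 := by
  apply le_antisymm
  · have h := Algebra.IsAlgebraic.cardinalMk_le_max ℚ_[P] (PadicAlgCl P)
    rw [card_padic] at h
    exact h.trans (max_le le_rfl Cardinal.aleph0_le_continuum)
  · rw [← card_padic P]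
    exact Cardinal.mk_le_of_injective (algebraMap ℚ_[P] (PadicAlgCl P)).injective

end PAVX

open PAVX in
theorem pav_proof : Stmt_Pav := by
  intro P hP
  have : Fact P.Prime := ⟨hP⟩
  obtain ⟨e⟩ : Nonempty (ℂ ≃+* PadicAlgCl P) := by
    refine IsAlgClosed.ringEquiv_of_equiv_of_charZero ?_ ?_
    · rw [Cardinal.mk_complex]; exact Cardinal.aleph0_lt_continuum
    · exact Cardinal.eq.1 (by rw [Cardinal.mk_complex, card_algcl])
  refine ⟨{ toFun := fun x => ‖e x‖
            map_mul' := fun x y => by simp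
            nonneg' := fun x => norm_nonneg _
            eq_zero' := fun x => by simp
            add_le' := fun x y => by simpa using norm_add_le (e x) (e y) }, ?_, ?_⟩
  · intro x y
    have := (PadicAlgCl.isNonarchimedean P) (e x) (e y)
    simpa using this
  · have h1 : e (P : ℂ) = ((P : ℚ_[P]) : PadicAlgCl P) := by
      rw [map_natCast, map_natCast]
    show ‖e (P : ℂ)‖ = _
    rw [h1, PadicAlgCl.norm_extends, Padic.norm_p]

end Pool.Agent.BBP
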