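import Pool.Agent.BBP.Stmts

/-!
# BBP: module PFR (partial fractions)
-/

open scoped BigOperators Polynomial
open Finset

namespace Pool.Agent.BBP

namespace PFRX

theorem pf (F : Type) [Field F] [CharZero F] (p : F[X]) (S : Finset ℚ) :
    ∃ (P : F[X]) (c : ℚ → F), ∀ x : F, (∀ r ∈ S, x ≠ (r : F)) →
      p.eval x / ∏ r ∈ S, (x - (r : F)) = P.eval x + ∑ r ∈ S, c r / (x - (r : F)) := by
  classical
  induction S using Finset.induction_on with
  | empty => exact ⟨p, fun _ => 0, fun x _ => by simp⟩
  | insert a S ha ih =>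
    obtain ⟨P, c, h⟩ := ih
    refine ⟨P /ₘ (Polynomial.X - Polynomial.C (a : F)),
      fun r => if r = a then P.eval (a : F) - ∑ r ∈ S, c r / ((r : F) - a)
        else c r / ((r : F) - a), fun x hx => ?_⟩
    have hxa : x - (a : F) ≠ 0 := sub_ne_zero.2 (hx a (Finset.mem_insert_self a S))
    have hxS : ∀ r ∈ S, x ≠ (r : F) := fun r hr => hx r (Finset.mem_insert_of_mem hr)
    have h1 := h x hxS
    rw [Finset.prod_insert ha, Finset.sum_insert ha]
    beta_reduce
    rw [if_pos rfl]
    have h2 : P.eval x = (P /ₘ (Polynomial.X - Polynomial.C (a : F))).eval x * (x - a)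
        + P.eval (a : F) := by
      conv_lhs => rw [← Polynomial.modByMonic_add_div P (Polynomial.X - Polynomial.C (a : F))]
      rw [Polynomial.modByMonic_X_sub_C_eq_C_eval]
      simp only [Polynomial.eval_add, Polynomial.eval_mul, Polynomial.eval_sub,
        Polynomial.eval_X, Polynomial.eval_C]
      ring
    have h3 : ∑ r ∈ S, (if r = a then P.eval (a : F) - ∑ r ∈ S, c r / ((r : F) - a)
        else c r / ((r : F) - a)) / (x - (r : F)) =
        ∑ r ∈ S, c r / ((r : F) - a) / (x - (r : F)) := by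
      refine Finset.sum_congr rfl fun r hr => ?_
      have hra : r ≠ a := fun h => ha (h ▸ hr)
      rw [if_neg hra]
    rw [h3]
    have h4 : ∀ r ∈ S, c r / (x - (r : F)) / (x - a) =
        c r / ((r : F) - a) / (x - (r : F)) - c r / ((r : F) - a) / (x - a) := by
      intro r hr
      have h5 : x - (r : F) ≠ 0 := sub_ne_zero.2 (hxS r hr)
      have h6 : (r : F) - a ≠ 0 := by
        refine sub_ne_zero.2 fun h => ha ?_
        have := (Rat.cast_injective (α := F)) h
        exact this ▸ hr
      field_simp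
      ring
    calc p.eval x / ((x - (a : F)) * ∏ r ∈ S, (x - (r : F)))
        = (p.eval x / ∏ r ∈ S, (x - (r : F))) / (x - a) := by
          rw [div_div, mul_comm]
      _ = (P.eval x + ∑ r ∈ S, c r / (x - (r : F))) / (x - a) := by rw [h1]
      _ = P.eval x / (x - a) + ∑ r ∈ S, c r / (x - (r : F)) / (x - a) := by
          rw [add_div, Finset.sum_div]
      _ = P.eval x / (x - a) + (∑ r ∈ S, c r / ((r : F) - a) / (x - (r : F))
            - (∑ r ∈ S, c r / ((r : F) - a)) / (x - a)) := by
          rw [Finset.sum_congr rfl h4, Finset.sum_sub_distrib, Finset.sum_div]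
      _ = _ := by
          rw [h2]
          field_simp
          ring

theorem lift (p : ℂ[X]) (hp : ∀ i, IsAlgebraic ℚ (p.coeff i)) :
    ∃ p0 : (algebraicClosure ℚ ℂ)[X], p0.map (algebraMap (algebraicClosure ℚ ℂ) ℂ) = p := by
  rw [← Polynomial.mem_lifts, Polynomial.lifts_iff_coeff_lifts]
  intro i
  exact ⟨⟨p.coeff i, (mem_algebraicClosure_iff).2 (hp i)⟩, rfl⟩

end PFRX

open PFRX in
theorem pfr_proof : Stmt_Pfr := by
  classical
  intro p q hp hq hq0 hnd hroots
  obtain ⟨p0, hp0⟩ := lift p hp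
  obtain ⟨q0, hq0'⟩ := lift q hq
  let A := algebraicClosure ℚ ℂ
  have hinj : Function.Injective (fun r : ℚ => (r : ℂ)) := Rat.cast_injective
  let S : Finset ℚ := q.roots.toFinset.preimage (fun r : ℚ => (r : ℂ)) hinj.injOn
  have hS : ∀ r : ℚ, r ∈ S ↔ (r : ℂ) ∈ q.roots := fun r => by
    simp only [S, Finset.mem_preimage, Multiset.mem_toFinset]
  have hSim : S.image (fun r : ℚ => (r : ℂ)) = q.roots.toFinset := by
    ext z
    rw [Finset.mem_image, Multiset.mem_toFinset]
    constructor
    · rintro ⟨r, hr, rfl⟩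
      exact (hS r).1 hr
    · intro hz
      obtain ⟨r, hr, -⟩ := hroots z hz
      exact ⟨r, (hS r).2 (hr ▸ hz), hr.symm⟩
  have hSN : ∀ r ∈ S, ∀ m : ℕ, r ≠ m := by
    intro r hr m
    obtain ⟨r', hr', h⟩ := hroots _ ((hS r).1 hr)
    have : r = r' := hinj hr'
    exact this ▸ h m
  have hqe : ∀ x : ℂ, q.eval x = q.leadingCoeff * ∏ r ∈ S, (x - (r : ℂ)) := by
    intro x
    have h1 : q = Polynomial.C q.leadingCoeff *
        (q.roots.map (fun z => Polynomial.X - Polynomial.C z)).prod :=
      (IsAlgClosed.splits q).eq_prod_roots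
    have h2 : (q.roots.map (fun z => Polynomial.X - Polynomial.C z)).prod =
        ∏ z ∈ q.roots.toFinset, (Polynomial.X - Polynomial.C z) := by
      rw [Finset.prod, Multiset.toFinset_val, Multiset.dedup_eq_self.2 hnd]
    conv_lhs => rw [h1, h2]
    rw [Polynomial.eval_mul, Polynomial.eval_C, Polynomial.eval_prod, ← hSim,
      Finset.prod_image (fun a _ b _ h => hinj h)]
    simp
  obtain ⟨P, c, hPc⟩ := pf A (Polynomial.C (q0.leadingCoeff)⁻¹ * p0) S
  have hlc : algebraMap A ℂ q0.leadingCoeff = q.leadingCoeff := by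
    rw [← hq0', Polynomial.leadingCoeff_map]
  refine ⟨P.map (algebraMap A ℂ), S, fun r => algebraMap A ℂ (c r), ?_, ?_, hSN, ?_⟩
  · intro i
    rw [Polynomial.coeff_map]
    exact (mem_algebraicClosure_iff).1 (P.coeff i).2
  · intro r
    exact (mem_algebraicClosure_iff).1 (c r).2
  · intro m
    have hx : ∀ r ∈ S, (m : A) ≠ (r : A) := by
      intro r hr h
      have h1 : ((m : ℚ) : A) = (r : A) := by rw [← h]; simp
      exact hSN r hr m (Rat.cast_injective h1).symm
    have h1 := congrArg (algebraMap A ℂ) (hPc (m : A) hx)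
    rw [map_div₀, map_prod, map_add, map_sum] at h1
    simp only [map_div₀, map_sub, map_natCast, map_ratCast] at h1
    rw [hqe, Polynomial.eval_map, ← map_natCast (algebraMap A ℂ) m, Polynomial.eval₂_hom,
      map_natCast (algebraMap A ℂ) m, ← h1, Polynomial.eval_mul, Polynomial.eval_C, map_mul,
      map_inv₀, hlc, ← hp0, Polynomial.eval_map, ← map_natCast (algebraMap A ℂ) m,
      Polynomial.eval₂_hom, map_natCast (algebraMap A ℂ) m, ← div_div]
    congr 1
    rw [div_eq_mul_inv, mul_comm]

end Pool.Agent.BBP
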