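import Pool.Agent.BBP.Stmts

/-!
# BBP, module PHI: the primitive part is large
-/

open scoped BigOperators Polynomial Topology

namespace Pool.Agent.BBP

namespace PHIX

theorem pow_bound : ∀ f : ℕ, 4 ≤ f → 20 * f ^ 4 ≤ 9 ^ f := by
  intro f hf
  induction f, hf using Nat.le_induction with
  | base => norm_num
  | succ f hf ih =>
    have h1 : (f + 1) ^ 4 ≤ 9 * f ^ 4 := by
      have h2 : 4 * (f + 1) ≤ 5 * f := by omega
      have h3 : (4 * (f + 1)) ^ 4 ≤ (5 * f) ^ 4 := Nat.pow_le_pow_left h2 4
      rw [mul_pow, mul_pow] at h3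
      have h4 : (5 ^ 4 : ℕ) * f ^ 4 ≤ 4 ^ 4 * (9 * f ^ 4) := by
        rw [← mul_assoc]; exact Nat.mul_le_mul_right _ (by norm_num)
      have h5 := h3.trans h4
      exact Nat.le_of_mul_le_mul_left h5 (by norm_num)
    calc 20 * (f + 1) ^ 4 ≤ 20 * (9 * f ^ 4) := Nat.mul_le_mul_left _ h1
      _ = 9 * (20 * f ^ 4) := by ring
      _ ≤ 9 * 9 ^ f := Nat.mul_le_mul_left _ ih
      _ = 9 ^ (f + 1) := by ring

theorem cyc_lower (e : ℕ) (he : 2 ≤ e) :
    ((9 ^ Nat.totient e : ℕ) : ℤ) < (Polynomial.cyclotomic e ℤ).eval 10 := by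
  have h := Polynomial.sub_one_pow_totient_lt_cyclotomic_eval (q := 10) he (by norm_num)
  have e1 : (Polynomial.cyclotomic e ℝ).eval 10
      = (((Polynomial.cyclotomic e ℤ).eval 10 : ℤ) : ℝ) := by
    rw [← Polynomial.map_cyclotomic_int e ℝ]
    have := Polynomial.eval_intCast_map (Int.castRingHom ℝ) (Polynomial.cyclotomic e ℤ) 10
    simpa using this
  rw [e1] at h
  have h2 : (((9 ^ Nat.totient e : ℕ) : ℤ) : ℝ) < (((Polynomial.cyclotomic e ℤ).eval 10 : ℤ) : ℝ) := by
    push_cast
    have e2 : (10 : ℝ) - 1 = 9 := by norm_num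
    rw [e2] at h
    exact h
  exact_mod_cast h2

theorem tot_le_three (e : ℕ) (he : 0 < e) (h18 : e ≤ 18) (h : Nat.totient e < 4) :
    e = 1 ∨ e = 2 ∨ e = 3 ∨ e = 4 ∨ e = 6 := by
  interval_cases e <;> first | omega | (exfalso; revert h; decide)

end PHIX

open PHIX

theorem phi_proof (hT : Stmt_Tot) (hC : Stmt_Cycp) : Stmt_Phi := by
  intro e he
  obtain ⟨⟨P, hP, hA⟩, -⟩ := hC e he
  have hPe : P ≤ e := by
    rcases hP with rfl | ⟨-, h, -⟩
    · exact he
    · exact Nat.le_of_dvd he h
  by_cases hf : 4 ≤ Nat.totient e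
  · have h2 : 2 ≤ e := by
      by_contra hc
      have : e = 1 := by omega
      subst this
      simp at hf
    have h3 := cyc_lower e h2
    rw [hA] at h3
    have h4 : 9 ^ Nat.totient e < Ae e * P := by exact_mod_cast h3
    by_contra hlt
    push Not at hlt
    have h5 : Ae e * P ≤ 5 * e * e :=
      Nat.mul_le_mul (by omega) hPe
    have h6 := hT e
    have h7 : 5 * e * e ≤ 20 * Nat.totient e ^ 4 := by
      calc 5 * e * e = 5 * (e * e) := by ring
        _ ≤ 5 * ((2 * Nat.totient e ^ 2) * (2 * Nat.totient e ^ 2)) :=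
            Nat.mul_le_mul_left _ (Nat.mul_le_mul h6 h6)
        _ = 20 * Nat.totient e ^ 4 := by ring
    have h8 := pow_bound _ hf
    omega
  · have hf' : Nat.totient e ≤ 3 := by omega
    have h6 := hT e
    have h18 : e ≤ 18 := by
      have : Nat.totient e ^ 2 ≤ 3 ^ 2 := Nat.pow_le_pow_left hf' 2
      omega
    rcases tot_le_three e he h18 (by omega) with rfl | rfl | rfl | rfl | rfl
    · -- e = 1
      have e1 : (Polynomial.cyclotomic 1 ℤ).eval 10 = 9 := by
        rw [Polynomial.cyclotomic_one]; simp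
      rw [e1] at hA
      have hP1 : P = 1 := by
        rcases hP with rfl | ⟨hp, h, -⟩
        · rfl
        · exact absurd (Nat.dvd_one.mp h) hp.one_lt.ne'
      subst hP1
      have : (9 : ℕ) = Ae 1 * 1 := by exact_mod_cast hA
      omega
    · have h3 := cyc_lower 2 le_rfl
      rw [hA] at h3
      have h4 : 9 ^ Nat.totient 2 < Ae 2 * P := by exact_mod_cast h3
      have hP1 : P = 1 := by
        rcases hP with rfl | ⟨hp, h, h'⟩
        · rfl
        · exfalso
          have : P = 2 := (Nat.prime_dvd_prime_iff_eq hp Nat.prime_two).mp h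
          subst this
          exact h' (by norm_num)
      subst hP1
      rw [show Nat.totient 2 = 1 by decide] at h4
      omega
    · have h3 := cyc_lower 3 (by norm_num)
      rw [hA] at h3
      have h4 : 9 ^ Nat.totient 3 < Ae 3 * P := by exact_mod_cast h3
      rw [show Nat.totient 3 = 2 by decide] at h4
      have : Ae 3 * P ≤ Ae 3 * 3 := Nat.mul_le_mul_left _ hPe
      omega
    · have h3 := cyc_lower 4 (by norm_num)
      rw [hA] at h3
      have h4 : 9 ^ Nat.totient 4 < Ae 4 * P := by exact_mod_cast h3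
      have hP1 : P = 1 := by
        rcases hP with rfl | ⟨hp, h, h'⟩
        · rfl
        · exfalso
          have h5 : P ∣ 2 := by
            have : P ∣ 2 * 2 := by simpa using h
            rcases (Nat.Prime.dvd_mul hp).mp this with h6 | h6 <;> exact h6
          have : P = 2 := (Nat.prime_dvd_prime_iff_eq hp Nat.prime_two).mp h5
          subst this
          exact h' (by norm_num)
      subst hP1
      rw [show Nat.totient 4 = 2 by decide] at h4
      omega
    · have e1 : (Polynomial.cyclotomic 6 ℤ).eval 10 = 91 := by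
        rw [Polynomial.cyclotomic_six]; simp
      rw [e1] at hA
      have hA' : (91 : ℕ) = Ae 6 * P := by exact_mod_cast hA
      rcases hP with rfl | ⟨hp, h, h'⟩
      · omega
      · have h5 : P ∣ 3 := by
          have h6 : P ∣ 2 * 3 := by simpa using h
          rcases (Nat.Prime.dvd_mul hp).mp h6 with h7 | h7
          · exfalso
            have : P = 2 := (Nat.prime_dvd_prime_iff_eq hp Nat.prime_two).mp h7
            subst this
            exact h' (by norm_num)
          · exact h7
        have : P = 3 := (Nat.prime_dvd_prime_iff_eq hp Nat.prime_three).mp h5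
        subst this
        omega

end Pool.Agent.BBP
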