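import Pool.Agent.BBP.Stmts

/-!
# BBP module POLS: polynomial coefficients
-/

open Finset Polynomial

namespace Pool.Agent.BBP

noncomputable section

namespace POLSX

/-- The sums `∑ m ^ i * r ^ m` are algebraic. -/
theorem mono (r : ℂ) (hr : ‖r‖ < 1) (hra : IsAlgebraic ℚ r) (i : ℕ) :
    IsAlgebraic ℚ (∑' m : ℕ, (m : ℂ) ^ i * r ^ m) := by
  induction i using Nat.strong_induction_on with
  | _ i ih =>
    have hs : ∀ j : ℕ, Summable fun m : ℕ => (m : ℂ) ^ j * r ^ m := fun j =>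
      summable_pow_mul_geometric_of_norm_lt_one j hr
    have hr1 : 1 - r ≠ 0 := by
      intro h
      have : r = 1 := by linear_combination -h
      rw [this] at hr
      simp at hr
    set s : ℕ → ℂ := fun j => ∑' m : ℕ, (m : ℂ) ^ j * r ^ m with hsdef
    have h1 : s i = (0 : ℂ) ^ i + ∑' m : ℕ, ((m + 1 : ℕ) : ℂ) ^ i * r ^ (m + 1) := by
      rw [hsdef]
      show ∑' m : ℕ, (m : ℂ) ^ i * r ^ m = _
      rw [(hs i).tsum_eq_zero_add]
      simp
    have h2 : ∀ m : ℕ, ((m + 1 : ℕ) : ℂ) ^ i * r ^ (m + 1) =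
        ∑ j ∈ range (i + 1), r * (i.choose j : ℂ) * ((m : ℂ) ^ j * r ^ m) := by
      intro m
      push_cast
      rw [add_pow, Finset.sum_mul]
      refine Finset.sum_congr rfl fun j _ => ?_
      rw [one_pow, pow_succ]
      ring
    have h3 : ∑' m : ℕ, ((m + 1 : ℕ) : ℂ) ^ i * r ^ (m + 1) =
        ∑ j ∈ range (i + 1), r * (i.choose j : ℂ) * s j := by
      rw [tsum_congr h2, Summable.tsum_finsetSum fun j _ => (hs j).mul_left _]
      refine Finset.sum_congr rfl fun j _ => ?_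
      rw [tsum_mul_left]
    have h4 : (1 - r) * s i = (0 : ℂ) ^ i + ∑ j ∈ range i, r * (i.choose j : ℂ) * s j := by
      have h5 := h1
      rw [h3, Finset.sum_range_succ] at h5
      simp only [Nat.choose_self, Nat.cast_one, mul_one] at h5
      linear_combination h5
    have h6 : s i = (1 - r)⁻¹ * ((0 : ℂ) ^ i + ∑ j ∈ range i, r * (i.choose j : ℂ) * s j) := by
      rw [← h4, ← mul_assoc, inv_mul_cancel₀ hr1, one_mul]
    have hsum : IsAlgebraic ℚ (∑ j ∈ range i, r * (i.choose j : ℂ) * s j) := by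
      refine Subalgebra.sum_mem (integralClosure ℚ ℂ) ?_ |> fun h => (IsIntegral.isAlgebraic h)
      intro j hj
      have hj' := ih j (Finset.mem_range.1 hj)
      have e : IsAlgebraic ℚ ((i.choose j : ℕ) : ℂ) := isAlgebraic_natCast _
      exact ((hra.mul e).mul hj').isIntegral
    have h0 : IsAlgebraic ℚ ((0 : ℂ) ^ i) := isAlgebraic_zero.pow i
    have h1r : IsAlgebraic ℚ ((1 - r)⁻¹) := (isAlgebraic_one.sub hra).inv
    have := h1r.mul (h0.add hsum)
    rw [← h6] at this
    exact this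

end POLSX

theorem pols_proof : Stmt_Pols := by
  intro k P hk hP
  set r : ℂ := ((10 : ℂ) ^ k)⁻¹ with hrdef
  have hr : ‖r‖ < 1 := by
    rw [hrdef, norm_inv, norm_pow]
    have h10 : ‖(10 : ℂ)‖ = 10 := by simp
    rw [h10]
    refine inv_lt_one_of_one_lt₀ ?_
    exact one_lt_pow₀ (by norm_num) hk.ne'
  have hra : IsAlgebraic ℚ r := by
    have : IsAlgebraic ℚ ((10 : ℕ) : ℂ) := isAlgebraic_natCast _
    have h := (this.pow k).inv
    simpa [hrdef] using h
  have hs : ∀ j : ℕ, Summable fun m : ℕ => (m : ℂ) ^ j * r ^ m := fun j =>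
    summable_pow_mul_geometric_of_norm_lt_one j hr
  refine ⟨∑ i ∈ range (P.natDegree + 1), P.coeff i * ∑' m : ℕ, (m : ℂ) ^ i * r ^ m, ?_, ?_⟩
  · refine Subalgebra.sum_mem (integralClosure ℚ ℂ) ?_ |> fun h => (IsIntegral.isAlgebraic h)
    intro i _
    exact ((hP i).mul (POLSX.mono r hr hra i)).isIntegral
  · have h : ∀ m : ℕ, P.eval (m : ℂ) / 10 ^ (k * m) =
        ∑ i ∈ range (P.natDegree + 1), P.coeff i * ((m : ℂ) ^ i * r ^ m) := by
      intro m
      rw [Polynomial.eval_eq_sum_range, div_eq_mul_inv, Finset.sum_mul]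
      refine Finset.sum_congr rfl fun i _ => ?_
      rw [hrdef, inv_pow, ← pow_mul]
      ring
    rw [funext h]
    exact hasSum_sum fun i _ => ((hs i).hasSum).mul_left _

end

end Pool.Agent.BBP
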