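import Pool.Agent.BBP.Stmts

set_option autoImplicit false

/-!
PRMA: the primes for which `10` has order `e`, when `20` does not divide `e`.
-/

open scoped BigOperators Polynomial Topology
open Finset

namespace Pool.Agent.BBP

namespace PRMAX

/-- Composition of an absolute value with an automorphism. -/
noncomputable def cmp (v : AbsoluteValue ℂ ℝ) (σ : ℂ ≃ₐ[ℚ] ℂ) : AbsoluteValue ℂ ℝ :=
  v.comp (f := (σ : ℂ →+* ℂ)) σ.injective

theorem cmp_apply (v : AbsoluteValue ℂ ℝ) (σ : ℂ ≃ₐ[ℚ] ℂ) (x : ℂ) : cmp v σ x = v (σ x) := rfl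

theorem cmp_pv {P : ℕ} {v : AbsoluteValue ℂ ℝ} (h : IsPV P v) (σ : ℂ ≃ₐ[ℚ] ℂ) :
    IsPV P (cmp v σ) := by
  refine ⟨fun x y => ?_, ?_⟩
  · rw [cmp_apply, cmp_apply, cmp_apply, map_add]
    exact h.1 _ _
  · rw [cmp_apply, map_natCast]
    exact h.2

theorem zt_prim (n : ℕ) (hn : 0 < n) : IsPrimitiveRoot (zt n) n :=
  Complex.isPrimitiveRoot_exp n hn.ne'

theorem zt_pow_one (n : ℕ) (hn : 0 < n) (x : ℂ) (h : x ^ n = 1) : ∃ a : ℕ, x = zt n ^ a := by
  have : NeZero n := ⟨hn.ne'⟩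
  obtain ⟨i, -, hi⟩ := (zt_prim n hn).eq_pow_of_pow_eq_one h
  exact ⟨i, hi.symm⟩

theorem yN_one_sq : yN 1 ^ 2 = 10 := by
  unfold yN
  rw [← Complex.ofReal_pow, ← Real.rpow_natCast, ← Real.rpow_mul (by norm_num)]
  norm_num

theorem prod_eval (f : ℕ) (hf : 0 < f) :
    ((10 : ℂ) ^ f - 1) = ∏ ξ ∈ Polynomial.nthRootsFinset f (1 : ℂ), (10 - ξ) := by
  have h := Polynomial.X_pow_sub_one_eq_prod hf (zt_prim f hf)
  have h2 := congrArg (Polynomial.eval (10 : ℂ)) h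
  rw [Polynomial.eval_prod] at h2
  simpa using h2

end PRMAX

open PRMAX in
theorem prma_proof (hPav : Stmt_Pav) (hRou : Stmt_Rou) (hCyca : Stmt_Cyca) (hGss : Stmt_Gss)
    (hStep : Stmt_Step) : Stmt_Prma := by
  intro N n hN hn hNn t h20 P hP hord
  classical
  set θ : ℂ := zt n ^ (2 * N * t) with hθ
  set η : ℂ := zt n ^ (N * t) with hη
  set e : ℕ := orderOf θ with he
  set ε : ℕ := orderOf η with hε
  have hηθ : η ^ 2 = θ := by
    rw [hη, hθ, ← pow_mul]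
    congr 1
    ring
  have hzn : zt n ^ n = 1 := (zt_prim n hn).pow_eq_one
  have hθn : θ ^ n = 1 := by rw [hθ, ← pow_mul, mul_comm, pow_mul, hzn, one_pow]
  have hηn : η ^ n = 1 := by rw [hη, ← pow_mul, mul_comm, pow_mul, hzn, one_pow]
  have he0 : 0 < e := orderOf_pos_iff.mpr (isOfFinOrder_iff_pow_eq_one.mpr ⟨n, hn, hθn⟩)
  have hε0 : 0 < ε := orderOf_pos_iff.mpr (isOfFinOrder_iff_pow_eq_one.mpr ⟨n, hn, hηn⟩)
  have hθe : θ ^ e = 1 := pow_orderOf_eq_one θ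
  have hεe : ε ∣ 2 * e := by
    apply orderOf_dvd_of_pow_eq_one
    rw [pow_mul, hηθ, hθe]
  have h40 : ¬ 40 ∣ ε := by
    intro h
    apply h20
    obtain ⟨c, hc⟩ := h.trans hεe
    exact ⟨c, by omega⟩
  obtain ⟨v, hv⟩ := hPav P hP
  obtain ⟨hR1, hR2, hR3, hR4, hR5⟩ := hRou P v hP hv
  have hint : ∀ (f : ℕ), 0 < f → ∀ ξ ∈ Polynomial.nthRootsFinset f (1 : ℂ), v (10 - ξ) ≤ 1 := by
    intro f hf ξ hξ
    apply hR2
    have h1 : ξ ^ f = 1 := (Polynomial.mem_nthRootsFinset hf 1).mp hξ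
    have h2 : IsIntegral ℤ ξ := by
      refine IsIntegral.of_pow hf ?_
      rw [h1]
      exact isIntegral_one
    have h3 : IsIntegral ℤ (10 : ℂ) := by
      have := isIntegral_natCast (R := ℤ) (B := ℂ) (a := 10)
      exact_mod_cast this
    exact h3.sub h2
  -- `v (10 ^ e - 1) < 1`
  have h10e : (10 : ZMod P) ^ e = 1 := by
    rw [← hord]
    exact pow_orderOf_eq_one _
  have hcast : ∀ f : ℕ, (((10 ^ f - 1 : ℕ)) : ℂ) = (10 : ℂ) ^ f - 1 := by
    intro f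
    rw [Nat.cast_sub (Nat.one_le_pow _ _ (by norm_num))]
    push_cast
    ring
  have hpos : ∀ f : ℕ, 0 < f → 0 < 10 ^ f - 1 := by
    intro f hf
    have : 10 ^ 1 ≤ 10 ^ f := Nat.pow_le_pow_right (by norm_num) hf
    omega
  have hdvd : ∀ f : ℕ, (10 : ZMod P) ^ f = 1 ↔ P ∣ 10 ^ f - 1 := by
    intro f
    rw [← (ZMod.natCast_eq_zero_iff (10 ^ f - 1) P),
      Nat.cast_sub (Nat.one_le_pow _ _ (by norm_num))]
    push_cast
    rw [sub_eq_zero]
  have hP1 : (1 : ℝ) < P := by exact_mod_cast hP.one_lt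
  have hvlt : ∀ f : ℕ, 0 < f → (v ((10 : ℂ) ^ f - 1) < 1 ↔ P ∣ 10 ^ f - 1) := by
    intro f hf
    rw [← hcast f, hR3 _ (hpos f hf)]
    constructor
    · intro h
      by_contra hnd
      rw [padicValNat.eq_zero_of_not_dvd hnd, pow_zero] at h
      exact lt_irrefl _ h
    · intro h
      have h1 : padicValNat P (10 ^ f - 1) ≠ 0 := by
        have : Fact P.Prime := ⟨hP⟩
        exact (dvd_iff_padicValNat_ne_zero (hpos f hf).ne').mp h
      exact pow_lt_one₀ (by positivity) (inv_lt_one_of_one_lt₀ hP1) h1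
  have hve : v ((10 : ℂ) ^ e - 1) < 1 := (hvlt e he0).mpr ((hdvd e).mp h10e)
  -- a root close to `10`
  have hex : ∃ ξ ∈ Polynomial.nthRootsFinset e (1 : ℂ), v (10 - ξ) < 1 := by
    by_contra hcon
    push Not at hcon
    rw [prod_eval e he0, map_prod] at hve
    have : (1 : ℝ) ≤ ∏ ξ ∈ Polynomial.nthRootsFinset e (1 : ℂ), v (10 - ξ) := by
      rw [← Finset.prod_const_one (s := Polynomial.nthRootsFinset e (1 : ℂ))]
      exact Finset.prod_le_prod (fun _ _ => zero_le_one) hcon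
    linarith
  obtain ⟨ξ, hξ, hvξ⟩ := hex
  have hξe : ξ ^ e = 1 := (Polynomial.mem_nthRootsFinset he0 1).mp hξ
  have hξord : orderOf ξ = e := by
    have h1 : orderOf ξ ∣ e := orderOf_dvd_of_pow_eq_one hξe
    have hf0 : 0 < orderOf ξ := Nat.pos_of_dvd_of_pos h1 he0
    have h2 : v ((10 : ℂ) ^ orderOf ξ - 1) < 1 := by
      rw [prod_eval _ hf0, map_prod]
      have h3 : ξ ∈ Polynomial.nthRootsFinset (orderOf ξ) (1 : ℂ) :=
        (Polynomial.mem_nthRootsFinset hf0 1).mpr (pow_orderOf_eq_one ξ)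
      rw [← Finset.mul_prod_erase _ _ h3]
      have h4 : ∏ x ∈ (Polynomial.nthRootsFinset (orderOf ξ) (1 : ℂ)).erase ξ, v (10 - x) ≤ 1 :=
        Finset.prod_le_one (fun _ _ => v.nonneg _)
          (fun x hx => hint _ hf0 x (Finset.mem_of_mem_erase hx))
      calc v (10 - ξ) * ∏ x ∈ (Polynomial.nthRootsFinset (orderOf ξ) (1 : ℂ)).erase ξ, v (10 - x)
          ≤ v (10 - ξ) * 1 := mul_le_mul_of_nonneg_left h4 (v.nonneg _)
        _ < 1 := by rw [mul_one]; exact hvξ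
    have h5 : (10 : ZMod P) ^ orderOf ξ = 1 := (hdvd _).mpr ((hvlt _ hf0).mp h2)
    have h6 : e ∣ orderOf ξ := by
      rw [← hord]
      exact orderOf_dvd_of_pow_eq_one h5
    exact Nat.dvd_antisymm h1 h6
  have hξp : IsPrimitiveRoot ξ e := by
    rw [← hξord]
    exact IsPrimitiveRoot.orderOf ξ
  have hθp : IsPrimitiveRoot θ e := IsPrimitiveRoot.orderOf θ
  have : NeZero e := ⟨he0.ne'⟩
  obtain ⟨i, -, hi, hiξ⟩ := (hθp.isPrimitiveRoot_iff).mp hξp
  obtain ⟨σ, hσ⟩ := hCyca e i he0 hi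
  have hσθ : σ θ = ξ := by
    obtain ⟨a, ha⟩ := zt_pow_one e he0 θ hθe
    rw [← hiξ, ha, map_pow, hσ, ← pow_mul, ← pow_mul, mul_comm]
  have hv1 : IsPV P (cmp v σ) := cmp_pv hv σ
  have hv1θ : cmp v σ (10 - θ) < 1 := by
    rw [cmp_apply, map_sub, hσθ]
    have : σ (10 : ℂ) = 10 := by
      have := map_natCast σ 10
      exact_mod_cast this
    rw [this]
    exact hvξ
  have hfac : (yN 1 - η) * (yN 1 + η) = 10 - θ := by
    rw [← hηθ, ← yN_one_sq]
    ring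
  have hcases : cmp v σ (yN 1 - η) < 1 ∨ cmp v σ (yN 1 + η) < 1 := by
    by_contra hcon
    push Not at hcon
    rw [← hfac, map_mul] at hv1θ
    have : (1 : ℝ) ≤ cmp v σ (yN 1 - η) * cmp v σ (yN 1 + η) := one_le_mul_of_one_le_of_one_le hcon.1 hcon.2
    linarith
  rcases hcases with h | h
  · exact hStep N n hN hn hNn t P (cmp v σ) hP hv1 h
  · obtain ⟨τ, hτ1, hτ2⟩ := hGss ε hε0 h40
    have hτη : τ η = η := by
      obtain ⟨a, ha⟩ := zt_pow_one ε hε0 η (pow_orderOf_eq_one η)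
      rw [ha, map_pow, hτ1]
    refine hStep N n hN hn hNn t P (cmp (cmp v σ) τ) hP (cmp_pv hv1 τ) ?_
    rw [cmp_apply, map_sub, hτη, hτ2]
    have : -yN 1 - η = -(yN 1 + η) := by ring
    rw [this, map_neg_eq_map]
    exact h

end Pool.Agent.BBP
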