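import Pool.Agent.BBP.Stmts

/-!
# BBP module ROU: values of integers, algebraic integers and roots of unity
-/

open scoped BigOperators Polynomial Topology
open Metric Filter Finset

namespace Pool.Agent.BBP

namespace ROUX

variable {P : ℕ} {v : AbsoluteValue ℂ ℝ}

/-- The valuation attached to a non archimedean absolute value. -/
noncomputable def toVal (v : AbsoluteValue ℂ ℝ) (h : ∀ x y, v (x + y) ≤ max (v x) (v y)) :
    Valuation ℂ NNReal where
  toFun x := (v x).toNNReal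
  map_zero' := by simp
  map_one' := by simp
  map_mul' x y := by rw [map_mul, Real.toNNReal_mul (v.nonneg _)]
  map_add_le_max' x y := by
    have h1 := Real.toNNReal_le_toNNReal (h x y)
    rwa [Monotone.map_max (fun a b hab => Real.toNNReal_le_toNNReal hab)] at h1

lemma integral_le (h : ∀ x y, v (x + y) ≤ max (v x) (v y)) {z : ℂ} (hz : IsIntegral ℤ z) :
    v z ≤ 1 := by
  have h1 : IsIntegral (toVal v h).integer z := hz.tower_top
  have h2 := (Valuation.integer.integers (toVal v h)).mem_of_integral h1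
  rw [Valuation.mem_integer_iff] at h2
  have h3 : (v z).toNNReal ≤ 1 := h2
  rwa [Real.toNNReal_le_one] at h3

lemma nat_le (h : ∀ x y, v (x + y) ≤ max (v x) (v y)) (k : ℕ) : v (k : ℂ) ≤ 1 := by
  apply integral_le h
  have : IsIntegral ℤ (algebraMap ℤ ℂ (k : ℤ)) := isIntegral_algebraMap
  simpa using this

lemma int_le (h : ∀ x y, v (x + y) ≤ max (v x) (v y)) (k : ℤ) : v (k : ℂ) ≤ 1 := by
  apply integral_le h
  have : IsIntegral ℤ (algebraMap ℤ ℂ k) := isIntegral_algebraMap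
  simpa using this

lemma root_eq {z : ℂ} {n : ℕ} (hn : 0 < n) (hz : z ^ n = 1) : v z = 1 := by
  have h1 : v z ^ n = 1 := by rw [← map_pow, hz, map_one]
  exact (pow_eq_one_iff_of_nonneg (v.nonneg z) hn.ne').mp h1

lemma prime_to (hP : P.Prime) (hv : IsPV P v) {k : ℕ} (hk : ¬ P ∣ k) : v (k : ℂ) = 1 := by
  apply le_antisymm (nat_le hv.1 k)
  have hcop : IsCoprime (k : ℤ) (P : ℤ) := by
    rw [Nat.isCoprime_iff_coprime]
    exact ((Nat.Prime.coprime_iff_not_dvd hP).mpr hk).symm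
  obtain ⟨a, b, hab⟩ := hcop
  have h1 : (a : ℂ) * (k : ℂ) + (b : ℂ) * (P : ℂ) = 1 := by exact_mod_cast hab
  have h2 := hv.1 ((a : ℂ) * (k : ℂ)) ((b : ℂ) * (P : ℂ))
  rw [h1, map_one, map_mul, map_mul, hv.2] at h2
  have hP1 : (P : ℝ)⁻¹ < 1 := by
    have : (1 : ℝ) < P := by exact_mod_cast hP.one_lt
    exact inv_lt_one_of_one_lt₀ this
  have hP0 : (0 : ℝ) ≤ (P : ℝ)⁻¹ := by positivity
  rcases le_max_iff.mp h2 with h3 | h3
  · have := mul_le_mul_of_nonneg_right (int_le hv.1 a) (v.nonneg (k : ℂ))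
    linarith
  · have := mul_le_mul_of_nonneg_right (int_le hv.1 b) hP0
    linarith

lemma nat_eq (hP : P.Prime) (hv : IsPV P v) {k : ℕ} (hk : 0 < k) :
    v (k : ℂ) = ((P : ℝ)⁻¹) ^ (padicValNat P k) := by
  have := Fact.mk hP
  obtain ⟨m, hm1, hm2⟩ := Nat.exists_eq_pow_mul_and_not_dvd hk.ne' P hP.ne_one
  obtain ⟨k', hk', rfl⟩ : ∃ k', ¬ P ∣ k' ∧ k = P ^ m * k' := ⟨hm1, hm2.1, hm2.2⟩
  have hk0 : k' ≠ 0 := by
    rintro rfl
    exact hk' (dvd_zero _)
  have h1 : padicValNat P (P ^ m * k') = m := by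
    rw [padicValNat.mul (pow_ne_zero _ hP.ne_zero) hk0, padicValNat.prime_pow,
      padicValNat.eq_zero_of_not_dvd hk', add_zero]
  rw [h1]
  push_cast
  rw [map_mul, map_pow, hv.2, prime_to hP hv hk', mul_one]

lemma one_sub_le (h : ∀ x y, v (x + y) ≤ max (v x) (v y)) {z : ℂ} {n : ℕ} (hn : 0 < n)
    (hz : z ^ n = 1) : v (1 - z) ≤ 1 := by
  have h1 := h 1 (-z)
  rw [map_one, v.map_neg, root_eq hn hz, max_self] at h1
  simpa [sub_eq_add_neg] using h1

lemma one_sub_pow_le (h : ∀ x y, v (x + y) ≤ max (v x) (v y)) {z : ℂ} {n : ℕ} (hn : 0 < n)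
    (hz : z ^ n = 1) (m : ℕ) : v (1 - z ^ m) ≤ v (1 - z) := by
  have h1 : 1 - z ^ m = (1 - z) * ∑ i ∈ range m, z ^ i := by
    have := geom_sum_mul z m
    linear_combination this
  rw [h1, map_mul]
  have h2 : v (∑ i ∈ range m, z ^ i) ≤ 1 := by
    apply integral_le h
    apply IsIntegral.sum
    intro i _
    apply IsIntegral.pow
    exact IsIntegral.of_pow hn (by rw [hz]; exact isIntegral_one)
  calc v (1 - z) * v (∑ i ∈ range m, z ^ i) ≤ v (1 - z) * 1 :=
        mul_le_mul_of_nonneg_left h2 (v.nonneg _)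
    _ = v (1 - z) := mul_one _

lemma one_sub_pow_eq (h : ∀ x y, v (x + y) ≤ max (v x) (v y)) {z : ℂ} {n a : ℕ} (hn : 0 < n)
    (hz : z ^ n = 1) (ha : a.Coprime n) : v (1 - z ^ a) = v (1 - z) := by
  apply le_antisymm (one_sub_pow_le h hn hz a)
  obtain ⟨m, hm⟩ := exists_pow_eq_self_of_coprime
    (ha.coprime_dvd_right (orderOf_dvd_of_pow_eq_one hz))
  have h1 : (z ^ a) ^ n = 1 := by rw [← pow_mul, mul_comm, pow_mul, hz, one_pow]
  have h2 := one_sub_pow_le h hn h1 m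
  rwa [hm] at h2

lemma order_pow (hP : P.Prime) (hv : IsPV P v) {z : ℂ} {n : ℕ} (hn : 0 < n) (hz : z ^ n = 1)
    (hz1 : z ≠ 1) (hlt : v (1 - z) < 1) : ∃ j : ℕ, 0 < j ∧ orderOf z = P ^ j := by
  have hfin : IsOfFinOrder z := isOfFinOrder_iff_pow_eq_one.mpr ⟨n, hn, hz⟩
  have hr0 : 0 < orderOf z := hfin.orderOf_pos
  obtain ⟨j, r', hr', hr⟩ := Nat.exists_eq_pow_mul_and_not_dvd hr0.ne' P hP.ne_one
  have hr'0 : 0 < r' := Nat.pos_of_ne_zero (by rintro rfl; exact hr' (dvd_zero _))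
  have hord : orderOf (z ^ (P ^ j)) = r' := by
    rw [orderOf_pow_of_dvd (pow_ne_zero _ hP.ne_zero) (by rw [hr]; exact dvd_mul_right _ _), hr]
    exact Nat.mul_div_cancel_left _ (pow_pos hP.pos _)
  have hlt' : v (1 - z ^ (P ^ j)) < 1 := (one_sub_pow_le hv.1 hn hz _).trans_lt hlt
  obtain ⟨r, rfl⟩ : ∃ r, r' = r + 1 := ⟨r' - 1, by omega⟩
  have hprim : IsPrimitiveRoot (z ^ (P ^ j)) (r + 1) := by
    have := IsPrimitiveRoot.orderOf (z ^ (P ^ j))
    rwa [hord] at this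
  rcases Nat.eq_zero_or_pos r with rfl | hrpos
  · refine ⟨j, ?_, by rw [hr]; simp⟩
    rcases Nat.eq_zero_or_pos j with rfl | hj
    · exfalso
      apply hz1
      have : orderOf z = 1 := by rw [hr]; simp
      exact orderOf_eq_one_iff.mp this
    · exact hj
  · exfalso
    have h1 := congrArg v hprim.prod_one_sub_pow_eq_order
    have h2 : v ((r : ℂ) + 1) = 1 := by
      have := prime_to hP hv hr'
      push_cast at this
      exact this
    rw [h2, map_prod] at h1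
    have h3 : ∏ k ∈ range r, v (1 - (z ^ (P ^ j)) ^ (k + 1)) < 1 := by
      have hmem : 0 ∈ range r := mem_range.mpr hrpos
      rw [← mul_prod_erase _ _ hmem]
      have h4 : v (1 - (z ^ (P ^ j)) ^ (0 + 1)) < 1 := by simpa using hlt'
      have h5 : ∏ k ∈ (range r).erase 0, v (1 - (z ^ (P ^ j)) ^ (k + 1)) ≤ 1 := by
        apply prod_le_one
        · intro i _
          exact v.nonneg _
        · intro i _
          apply one_sub_le hv.1 hn
          have e1 : ((z ^ (P ^ j)) ^ (i + 1)) ^ n = (z ^ n) ^ (P ^ j * (i + 1)) := by ring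
          rw [e1, hz, one_pow]
      have h6 : 0 ≤ ∏ k ∈ (range r).erase 0, v (1 - (z ^ (P ^ j)) ^ (k + 1)) :=
        prod_nonneg (fun i _ => v.nonneg _)
      have h7 := v.nonneg (1 - (z ^ (P ^ j)) ^ (0 + 1))
      nlinarith
    linarith

lemma primitive_val (hP : P.Prime) (hv : IsPV P v) {z : ℂ} {j : ℕ} (hj : 0 < j)
    (hz : orderOf z = P ^ j) : v (1 - z) ^ (Nat.totient (P ^ j)) = (P : ℝ)⁻¹ := by
  have := Fact.mk hP
  have hprim : IsPrimitiveRoot z (P ^ j) := by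
    have := IsPrimitiveRoot.orderOf z
    rwa [hz] at this
  have hpos : 0 < P ^ j := pow_pos hP.pos _
  have h1 := Polynomial.cyclotomic_eq_prod_X_sub_primitiveRoots hprim
  have h2 := congrArg (Polynomial.eval 1) h1
  obtain ⟨i, rfl⟩ : ∃ i, j = i + 1 := ⟨j - 1, by omega⟩
  rw [Polynomial.eval_one_cyclotomic_prime_pow, Polynomial.eval_prod] at h2
  have h3 := congrArg v h2
  rw [hv.2, map_prod] at h3
  rw [h3]
  have h4 : ∀ μ ∈ primitiveRoots (P ^ (i + 1)) ℂ,
      v (Polynomial.eval 1 (Polynomial.X - Polynomial.C μ)) = v (1 - z) := by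
    intro μ hμ
    have hμ' : IsPrimitiveRoot μ (P ^ (i + 1)) := (mem_primitiveRoots hpos).mp hμ
    have : NeZero (P ^ (i + 1)) := ⟨hpos.ne'⟩
    obtain ⟨a, _, ha, rfl⟩ := hprim.isPrimitiveRoot_iff.mp hμ'
    rw [Polynomial.eval_sub, Polynomial.eval_X, Polynomial.eval_C]
    exact one_sub_pow_eq hv.1 hpos hprim.pow_eq_one ha
  rw [prod_congr rfl h4, prod_const, hprim.card_primitiveRoots]

end ROUX

open ROUX in
/-- ROU. -/
theorem rou_proof : Stmt_Rou := by
  intro P v hP hv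
  refine ⟨fun z n hn hz => root_eq hn hz, fun z hz => integral_le hv.1 hz,
    fun k hk => nat_eq hP hv hk, fun z n hn hz hz1 hlt => order_pow hP hv hn hz hz1 hlt,
    fun z j hj hz => primitive_val hP hv hj hz⟩

end Pool.Agent.BBP
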