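import Pool.Agent.BBP.Stmts
import Pool.Agent.FDR.SL.SCHW

/-!
# SCHWB: Schwarz's lemma for zeros of order `k` at `0, .., S - 1`
-/

open scoped BigOperators Polynomial Topology
open Metric Filter Asymptotics

namespace Pool.Agent.BBP

noncomputable section

theorem schwb_proof : Stmt_Schwb := by
  classical
  intro g S k j R B hj hR hg hB hz
  have hR0 : 0 < R := by linarith
  have hS0 : (0 : ℝ) ≤ S := Nat.cast_nonneg S
  have hRS : 0 < R + S := by linarith
  have h0 : (0 : ℂ) ∈ ball (0 : ℂ) (R + S + 1) := mem_ball_self (by linarith)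
  have hB0 : 0 ≤ B := (norm_nonneg _).trans (hB 0 h0)
  have hnormm : ∀ m : ℕ, m < S → ‖(m : ℂ)‖ ≤ S := by
    intro m hm
    rw [Complex.norm_natCast]
    exact_mod_cast hm.le
  have hball : ∀ m : ℕ, m < S → (m : ℂ) ∈ ball (0 : ℂ) (R + S + 1) := by
    intro m hm
    rw [mem_ball_zero_iff]
    have := hnormm m hm
    linarith
  -- division
  obtain ⟨h, hh, hgh⟩ : ∃ h : ℂ → ℂ, AnalyticOnNhd ℂ h (ball 0 (R + S + 1)) ∧
      ∀ t ∈ ball (0 : ℂ) (R + S + 1),
        g t = (∏ m ∈ Finset.range S, (t - (m : ℂ)) ^ k) * h t := by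
    have h1 := FDR.SL.SCHW.div_prod (k := k) ((Finset.range S).image (fun m : ℕ => (m : ℂ))) hg (by
      intro m hm
      obtain ⟨m', hm', rfl⟩ := Finset.mem_image.mp hm
      exact hball m' (Finset.mem_range.mp hm')) (by
      intro m hm
      obtain ⟨m', hm', rfl⟩ := Finset.mem_image.mp hm
      exact FDR.SL.SCHW.le_order (hg _ (hball m' (Finset.mem_range.mp hm')))
        (hz m' (Finset.mem_range.mp hm')))
    obtain ⟨h, hh, hgh⟩ := h1
    refine ⟨h, hh, ?_⟩
    intro t ht
    rw [hgh t ht, Finset.prod_image (fun a _ b _ hab => Nat.cast_injective hab)]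
  -- the maximum principle
  have hpow : 0 < R ^ (S * k) := pow_pos hR0 _
  have hsub : closedBall (0 : ℂ) (R + S) ⊆ ball 0 (R + S + 1) :=
    closedBall_subset_ball (by linarith)
  have hd : DiffContOnCl ℂ h (ball 0 (R + S)) := by
    apply DifferentiableOn.diffContOnCl
    rw [closure_ball (0 : ℂ) hRS.ne']
    exact hh.differentiableOn.mono hsub
  have hfr : ∀ t ∈ frontier (ball (0 : ℂ) (R + S)), ‖h t‖ ≤ B / R ^ (S * k) := by
    intro t ht
    rw [frontier_ball (0 : ℂ) hRS.ne', mem_sphere_zero_iff_norm] at ht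
    have htb : t ∈ ball (0 : ℂ) (R + S + 1) := by
      rw [mem_ball_zero_iff, ht]
      linarith
    rw [le_div_iff₀ hpow, mul_comm]
    refine le_trans ?_ (hB t htb)
    rw [hgh t htb, norm_mul]
    apply mul_le_mul_of_nonneg_right _ (norm_nonneg _)
    rw [norm_prod]
    calc R ^ (S * k) = ∏ m ∈ Finset.range S, R ^ k := by
          rw [Finset.prod_const, Finset.card_range, ← pow_mul, mul_comm]
      _ ≤ ∏ m ∈ Finset.range S, ‖(t - (m : ℂ)) ^ k‖ := by
          apply Finset.prod_le_prod
          · intro m _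
            positivity
          · intro m hm
            rw [norm_pow]
            apply pow_le_pow_left₀ hR0.le
            have h1 := norm_sub_norm_le t (m : ℂ)
            have h2 := hnormm m (Finset.mem_range.mp hm)
            rw [ht] at h1
            linarith
  have hjcl : (j : ℂ) ∈ closure (ball (0 : ℂ) (R + S)) := by
    apply subset_closure
    rw [mem_ball_zero_iff]
    have := hnormm j hj
    linarith
  have hmax : ‖h j‖ ≤ B / R ^ (S * k) :=
    Complex.norm_le_of_forall_mem_frontier_norm_le isBounded_ball hd hfr hjcl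
  -- the derivative
  set u : ℂ → ℂ := fun t => (∏ m ∈ (Finset.range S).erase j, ((j : ℂ) + t - (m : ℂ)) ^ k) *
    h ((j : ℂ) + t) with hu
  have huan : AnalyticAt ℂ u 0 := by
    apply AnalyticAt.mul
    · apply Finset.analyticAt_fun_prod
      intro m _
      fun_prop
    · have h1 : AnalyticAt ℂ h ((j : ℂ) + 0) := by rw [add_zero]; exact hh _ (hball j hj)
      exact AnalyticAt.comp (g := h) (f := fun t : ℂ => (j : ℂ) + t) h1 (by fun_prop)
  have hjS : j ∈ Finset.range S := Finset.mem_range.mpr hj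
  have hgu : (fun t : ℂ => g ((j : ℂ) + t)) =ᶠ[𝓝 0] fun t => t ^ k * u t := by
    have h2 : Tendsto (fun t : ℂ => (j : ℂ) + t) (𝓝 0) (𝓝 (j : ℂ)) := by
      have : Continuous (fun t : ℂ => (j : ℂ) + t) := by fun_prop
      simpa using this.tendsto 0
    filter_upwards [h2.eventually (isOpen_ball.mem_nhds (hball j hj))] with t ht
    rw [hgh _ ht, hu, ← Finset.mul_prod_erase (Finset.range S) _ hjS, add_sub_cancel_left,
      mul_assoc]
  have hder : iteratedDeriv k g j = k.factorial * u 0 := by
    have h1 := congrFun (iteratedDeriv_comp_const_add k g (j : ℂ)) 0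
    simp only [add_zero] at h1
    rw [← h1, hgu.iteratedDeriv_eq k, FDR.SL.SCHW.iteratedDeriv_pow_mul k huan]
  have hS1 : (1 : ℝ) ≤ S := by exact_mod_cast (show 1 ≤ S by omega)
  have hu0 : ‖u 0‖ ≤ ((S : ℝ) ^ S) ^ k * ‖h j‖ := by
    rw [hu]
    simp only [add_zero]
    rw [norm_mul]
    apply mul_le_mul_of_nonneg_right _ (norm_nonneg _)
    rw [norm_prod]
    calc ∏ m ∈ (Finset.range S).erase j, ‖((j : ℂ) - (m : ℂ)) ^ k‖
        ≤ ∏ m ∈ (Finset.range S).erase j, (S : ℝ) ^ k := by
          apply Finset.prod_le_prod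
          · intro m _
            positivity
          · intro m hm
            rw [norm_pow]
            apply pow_le_pow_left₀ (norm_nonneg _)
            have hm' : m < S := Finset.mem_range.mp (Finset.mem_of_mem_erase hm)
            have h3 : ((j : ℂ) - (m : ℂ)) = (((j : ℝ) - (m : ℝ) : ℝ) : ℂ) := by push_cast; ring
            rw [h3, Complex.norm_real, Real.norm_eq_abs, abs_le]
            have h4 : (j : ℝ) < S := by exact_mod_cast hj
            have h5 : (m : ℝ) < S := by exact_mod_cast hm'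
            have h6 : (0 : ℝ) ≤ j := Nat.cast_nonneg j
            have h7 : (0 : ℝ) ≤ m := Nat.cast_nonneg m
            constructor <;> linarith
      _ = ((S : ℝ) ^ (S - 1)) ^ k := by
          rw [Finset.prod_const, Finset.card_erase_of_mem hjS, Finset.card_range,
            ← pow_mul, ← pow_mul, mul_comm]
      _ ≤ ((S : ℝ) ^ S) ^ k := by
          apply pow_le_pow_left₀ (by positivity)
          exact pow_le_pow_right₀ hS1 (Nat.sub_le _ _)
  rw [hder, norm_mul, Complex.norm_natCast]
  calc (k.factorial : ℝ) * ‖u 0‖ ≤ k.factorial * (((S : ℝ) ^ S) ^ k * ‖h j‖) :=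
        mul_le_mul_of_nonneg_left hu0 (Nat.cast_nonneg _)
    _ ≤ k.factorial * (((S : ℝ) ^ S) ^ k * (B / R ^ (S * k))) := by
        apply mul_le_mul_of_nonneg_left _ (Nat.cast_nonneg _)
        exact mul_le_mul_of_nonneg_left hmax (by positivity)
    _ = k.factorial * ((S : ℝ) ^ S) ^ k * B * (R ^ (S * k))⁻¹ := by
        rw [div_eq_mul_inv]; ring

end

end Pool.Agent.BBP
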