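import Pool.Agent.BBP.Stmts

/-! Module SER. -/

set_option autoImplicit false

open scoped BigOperators Polynomial Topology
open Metric Filter Finset

namespace Pool.Agent.BBP

namespace SERX

theorem zt_pow (n : ℕ) (hn : 0 < n) : zt n ^ n = 1 := by
  unfold zt
  rw [← Complex.exp_nat_mul]
  have hn' : (n : ℂ) ≠ 0 := Nat.cast_ne_zero.mpr hn.ne'
  rw [mul_div_cancel₀ _ hn', Complex.exp_two_pi_mul_I]

theorem zt_ne (n : ℕ) : zt n ≠ 0 := Complex.exp_ne_zero _

theorem zt_prim (n : ℕ) (hn : 0 < n) : IsPrimitiveRoot (zt n) n := Complex.isPrimitiveRoot_exp n hn.ne'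

/-- orthogonality -/
theorem orth (n : ℕ) (hn : 0 < n) (v j : ℕ) :
    ∑ t ∈ range n, (zt n ^ (j * t))⁻¹ * (zt n ^ t) ^ v = if v ≡ j [MOD n] then (n : ℂ) else 0 := by
  have hz := zt_ne n
  have h1 : ∀ t ∈ range n, (zt n ^ (j * t))⁻¹ * (zt n ^ t) ^ v = ((zt n) ^ v * (zt n ^ j)⁻¹) ^ t := by
    intro t _
    rw [mul_pow, ← pow_mul, ← pow_mul, inv_pow, ← pow_mul, mul_comm t v, mul_comm]
  rw [sum_congr rfl h1]
  split_ifs with h
  · have h2 : (zt n) ^ v * (zt n ^ j)⁻¹ = 1 := by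
      have h3 : zt n ^ v = zt n ^ j := by
        rw [← Nat.mod_add_div v n, ← Nat.mod_add_div j n, pow_add, pow_add, pow_mul, pow_mul,
          zt_pow n hn, one_pow, one_pow, h]
      rw [h3, mul_inv_cancel₀ (pow_ne_zero _ hz)]
    simp [h2]
  · have h2 : (zt n) ^ v * (zt n ^ j)⁻¹ ≠ 1 := by
      intro h3
      apply h
      have h4 : zt n ^ v = zt n ^ j := by
        rw [mul_inv_eq_one₀ (pow_ne_zero _ hz)] at h3
        exact h3
      rw [Nat.modEq_iff_dvd]
      apply ((zt_prim n hn).zpow_eq_one_iff_dvd _).mp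
      rw [zpow_sub₀ hz, zpow_natCast, zpow_natCast, h4, div_self (pow_ne_zero _ hz)]
    have h3 : ((zt n) ^ v * (zt n ^ j)⁻¹) ^ n = 1 := by
      rw [mul_pow, ← pow_mul, inv_pow, ← pow_mul, mul_comm v n, mul_comm j n, pow_mul, pow_mul,
        zt_pow n hn, one_pow, one_pow, inv_one, mul_one]
    have h4 := geom_sum_mul ((zt n) ^ v * (zt n ^ j)⁻¹) n
    rw [h3, sub_self] at h4
    exact (mul_eq_zero.mp h4).resolve_right (sub_ne_zero.mpr h2)

end SERX

open SERX in
theorem ser_proof : Stmt_Ser := by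
  intro n k j hn hk hj hjn
  have hn' : (n : ℂ) ≠ 0 := Nat.cast_ne_zero.mpr hn.ne'
  let b : ℝ := (10 : ℝ) ^ (-(k : ℝ) / n)
  have hb0 : 0 < b := Real.rpow_pos_of_pos (by norm_num) _
  have hb1 : b < 1 := by
    apply Real.rpow_lt_one_of_one_lt_of_neg (by norm_num)
    have h1 : (0 : ℝ) < k := by exact_mod_cast hk
    have h2 : (0 : ℝ) < n := by exact_mod_cast hn
    have h3 : 0 < (k : ℝ) / n := div_pos h1 h2
    have h4 : -(k : ℝ) / n = -((k : ℝ) / n) := by ring
    rw [h4]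
    linarith
  have hbt : bt n k = (b : ℂ) := rfl
  have hbn : b ^ n = (10 : ℝ)⁻¹ ^ k := by
    have h2 : (n : ℝ) ≠ 0 := Nat.cast_ne_zero.mpr hn.ne'
    show ((10 : ℝ) ^ (-(k : ℝ) / n)) ^ n = _
    rw [← Real.rpow_natCast, ← Real.rpow_mul (by norm_num), div_mul_cancel₀ _ h2,
      Real.rpow_neg (by norm_num), Real.rpow_natCast, inv_pow]
  have hbn' : bt n k ^ n = (10 : ℂ)⁻¹ ^ k := by
    rw [hbt]
    have := congrArg (fun x : ℝ => (x : ℂ)) hbn
    push_cast at this
    exact this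
  have hbne : bt n k ≠ 0 := by
    rw [hbt]
    exact_mod_cast hb0.ne'
  have hnorm : ∀ t, ‖zt n ^ t * bt n k‖ < 1 := by
    intro t
    rw [norm_mul, norm_pow, (zt_prim n hn).norm'_eq_one hn.ne', one_pow, one_mul, hbt,
      Complex.norm_real, Real.norm_of_nonneg hb0.le]
    exact hb1
  have hsum : HasSum (fun v : ℕ => ∑ t ∈ range n, ((zt n ^ (j * t))⁻¹ / (n * bt n k ^ j)) *
      ((zt n ^ t * bt n k) ^ v / v))
      (∑ t ∈ range n, ((zt n ^ (j * t))⁻¹ / (n * bt n k ^ j)) *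
        (-Complex.log (1 - zt n ^ t * bt n k))) := by
    refine hasSum_sum fun t _ => ?_
    exact (Complex.hasSum_taylorSeries_neg_log (hnorm t)).mul_left _
  have hterm : ∀ v : ℕ, ∑ t ∈ range n, ((zt n ^ (j * t))⁻¹ / (n * bt n k ^ j)) *
      ((zt n ^ t * bt n k) ^ v / v) =
      (bt n k ^ v / v) * (1 / (n * bt n k ^ j)) * (if v ≡ j [MOD n] then (n : ℂ) else 0) := by
    intro v
    rw [← orth n hn v j, mul_sum]
    refine sum_congr rfl fun t _ => ?_
    rw [mul_pow]
    ring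
  have hinj : Function.Injective fun m : ℕ => n * m + j := by
    intro a c h
    have h' : n * a + j = n * c + j := h
    have : n * a = n * c := by omega
    exact Nat.eq_of_mul_eq_mul_left hn this
  have hout : ∀ v ∉ Set.range (fun m : ℕ => n * m + j),
      ∑ t ∈ range n, ((zt n ^ (j * t))⁻¹ / (n * bt n k ^ j)) *
      ((zt n ^ t * bt n k) ^ v / v) = 0 := by
    intro v hv
    rw [hterm]
    split_ifs with h
    · have hv0 : v = 0 := by
        by_contra hv0
        apply hv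
        have hle : j ≤ v := by
          by_contra hlt
          push Not at hlt
          rcases Nat.lt_or_ge j n with hjn' | hjn'
          · rw [Nat.ModEq, Nat.mod_eq_of_lt hjn', Nat.mod_eq_of_lt (by omega)] at h
            omega
          · have hjn2 : j = n := le_antisymm hjn hjn'
            rw [Nat.ModEq, hjn2, Nat.mod_self, Nat.mod_eq_of_lt (by omega)] at h
            omega
        obtain ⟨c, hc⟩ := (Nat.modEq_iff_dvd' hle).mp h.symm
        exact ⟨c, by show n * c + j = v; omega⟩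
      rw [hv0]
      simp
    · rw [mul_zero]
  have hmain := (hinj.hasSum_iff hout).mpr hsum
  have hfun : ((fun v : ℕ => ∑ t ∈ range n, ((zt n ^ (j * t))⁻¹ / (n * bt n k ^ j)) *
      ((zt n ^ t * bt n k) ^ v / v)) ∘ fun m : ℕ => n * m + j) =
      fun m : ℕ => 1 / (((n * m + j : ℕ) : ℂ) * 10 ^ (k * m)) := by
    funext m
    simp only [Function.comp]
    rw [hterm]
    have h1 : n * m + j ≡ j [MOD n] := by
      have : n * m + j ≡ 0 + j [MOD n] :=
        Nat.ModEq.add_right j ((Nat.modEq_zero_iff_dvd).2 (dvd_mul_right _ _))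
      rwa [zero_add] at this
    rw [if_pos h1, pow_add, pow_mul, hbn', ← pow_mul, inv_pow]
    have h2 : ((n * m + j : ℕ) : ℂ) ≠ 0 := Nat.cast_ne_zero.mpr (by omega)
    have h3 : (10 : ℂ) ^ (k * m) ≠ 0 := pow_ne_zero _ (by norm_num)
    have h4 : bt n k ^ j ≠ 0 := pow_ne_zero _ hbne
    field_simp
  rw [hfun] at hmain
  convert hmain using 1
  refine sum_congr rfl fun t _ => ?_
  ring

end Pool.Agent.BBP
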