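import Pool.Agent.BBP.Stmts

/-!
# BBP, module SERQ: one simple pole (from SER)
-/

open scoped BigOperators Polynomial Topology
open Metric Filter Finset

namespace Pool.Agent.BBP

namespace SERQX

theorem alg_zt (n : ℕ) (hn : 0 < n) : IsAlgebraic ℚ (zt n) := by
  have h : zt n ^ n = 1 := (Complex.isPrimitiveRoot_exp n hn.ne').pow_eq_one
  refine IsAlgebraic.of_pow hn ?_
  rw [h]
  exact isAlgebraic_one

theorem alg_bt (n k : ℕ) (hn : 0 < n) : IsAlgebraic ℚ (bt n k) := by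
  have hn' : (n : ℝ) ≠ 0 := by exact_mod_cast hn.ne'
  have h : ((10 : ℝ) ^ (-(k : ℝ) / n)) ^ n = ((10 : ℝ) ^ k)⁻¹ := by
    rw [← Real.rpow_natCast, ← Real.rpow_mul (by norm_num)]
    have : -(k : ℝ) / n * n = -(k : ℝ) := by field_simp
    rw [this, Real.rpow_neg (by norm_num), Real.rpow_natCast]
  have h2 : bt n k ^ n = (((10 : ℚ) ^ k)⁻¹ : ℚ) := by
    unfold bt
    rw [← Complex.ofReal_pow, h]
    push_cast
    ring
  refine IsAlgebraic.of_pow hn ?_
  rw [h2]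
  exact isAlgebraic_ratCast _ _

/-- The rational terms. -/
theorem term_eq (n : ℕ) (r : ℚ) (j h : ℤ) (hr : (n : ℚ) * (-r) = j + n * h)
    (m : ℕ) (hm : r ≠ m) :
    (m : ℂ) - (r : ℂ) ≠ 0 ∧ (n : ℂ) * ((m : ℂ) - (r : ℂ)) = (n : ℂ) * ((m : ℂ) + h) + j := by
  constructor
  · intro h0
    apply hm
    have : (r : ℂ) = ((m : ℚ) : ℂ) := by
      push_cast
      linear_combination -h0
    exact_mod_cast this
  · have h1 : (((n : ℚ) * (-r) : ℚ) : ℂ) = ((j + n * h : ℚ) : ℂ) := by rw [hr]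
    push_cast at h1
    linear_combination h1

theorem sum_lem (n : ℕ) (c : ℂ) (x y : ℕ → ℂ) :
    ∑ t ∈ range n, c * x t * y t = c * ∑ t ∈ range n, x t * y t := by
  rw [Finset.mul_sum]
  exact Finset.sum_congr rfl fun t _ => mul_assoc _ _ _

end SERQX

open SERQX in
theorem serq_proof (hSer : Stmt_Ser) : Stmt_Serq := by
  intro n k r hn hk hr hden
  have hnC : (n : ℂ) ≠ 0 := by exact_mod_cast hn.ne'
  -- the integer `a = n r`
  obtain ⟨u, hu⟩ := hden
  set a : ℤ := r.num * u with ha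
  have hna : (n : ℚ) * r = a := by
    have h1 : (r.den : ℚ) ≠ 0 := by exact_mod_cast r.den_nz
    have h2 : (r : ℚ) = r.num / r.den := (Rat.num_div_den r).symm
    rw [ha, hu]
    push_cast
    calc (r.den : ℚ) * u * r = (r.den : ℚ) * u * (r.num / r.den) := by rw [← h2]
      _ = r.num * u := by field_simp
  -- decomposition
  set J : ℤ := (-a - 1) % n + 1 with hJ
  set h : ℤ := (-a - 1) / n with hh
  have hnZ : (0 : ℤ) < n := by exact_mod_cast hn
  have hJ1 : 1 ≤ J := by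
    have := Int.emod_nonneg (-a - 1) hnZ.ne'
    omega
  have hJ2 : J ≤ n := by
    have := Int.emod_lt_of_pos (-a - 1) hnZ
    omega
  have hdec : -a = J + n * h := by
    have := Int.emod_add_mul_ediv (-a - 1) n
    rw [hJ, hh]
    linarith
  obtain ⟨j, hj⟩ : ∃ j : ℕ, J = j := ⟨J.toNat, by omega⟩
  have hj1 : 0 < j := by omega
  have hj2 : j ≤ n := by omega
  have hrat : (n : ℚ) * (-r) = ((j : ℤ) : ℚ) + n * (h : ℚ) := by
    have h1 : ((-a : ℤ) : ℚ) = ((J + n * h : ℤ) : ℚ) := by rw [hdec]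
    push_cast at h1
    rw [hj] at h1
    push_cast at h1 ⊢
    linear_combination h1 - hna
  have hS := hSer n k j hn hk hj1 hj2
  set L : ℂ := ∑ t ∈ range n, (-((zt n ^ (j * t))⁻¹ / (n * bt n k ^ j))) *
      Complex.log (1 - zt n ^ t * bt n k) with hL
  have hcoef : ∀ t, IsAlgebraic ℚ (-((zt n ^ (j * t))⁻¹ / ((n : ℂ) * bt n k ^ j))) := by
    intro t
    refine IsAlgebraic.neg ?_
    rw [div_eq_mul_inv]
    exact ((alg_zt n hn).pow _).inv.mul
      (((isAlgebraic_natCast n).mul ((alg_bt n k hn).pow _)).inv)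
  have h10 : (10 : ℂ) ≠ 0 := by norm_num
  rcases le_or_gt 0 h with hpos | hneg
  · obtain ⟨H, hH⟩ : ∃ H : ℕ, h = H := ⟨h.toNat, by omega⟩
    have h1 := (hasSum_nat_add_iff' H).2 hS
    have h2 := h1.mul_left ((n : ℂ) * 10 ^ (k * H))
    refine ⟨-((n : ℂ) * 10 ^ (k * H) *
        ∑ i ∈ range H, 1 / (((n * i + j : ℕ) : ℂ) * 10 ^ (k * i))),
      fun t => (n : ℂ) * 10 ^ (k * H) * (-((zt n ^ (j * t))⁻¹ / (n * bt n k ^ j))), ?_, ?_, ?_⟩
    · have : (-((n : ℂ) * 10 ^ (k * H) *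
        ∑ i ∈ range H, 1 / (((n * i + j : ℕ) : ℂ) * 10 ^ (k * i)))) =
          ((-((n : ℚ) * 10 ^ (k * H) *
        ∑ i ∈ range H, 1 / (((n * i + j : ℕ) : ℚ) * 10 ^ (k * i))) : ℚ) : ℂ) := by
        push_cast
        rfl
      rw [this]
      exact isAlgebraic_ratCast _ _
    · intro t
      refine IsAlgebraic.mul ?_ (hcoef t)
      have : ((n : ℂ) * 10 ^ (k * H)) = ((n * 10 ^ (k * H) : ℕ) : ℂ) := by push_cast; rfl
      rw [this]
      exact isAlgebraic_natCast _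
    · have hfun : (fun m : ℕ => 1 / (((m : ℂ) - (r : ℂ)) * 10 ^ (k * m))) =
          fun m : ℕ => (n : ℂ) * 10 ^ (k * H) *
            (1 / (((n * (m + H) + j : ℕ) : ℂ) * 10 ^ (k * (m + H)))) := by
        funext m
        obtain ⟨h3, h4⟩ := term_eq n r j h hrat m (hr m)
        have h5 : ((n * (m + H) + j : ℕ) : ℂ) = (n : ℂ) * ((m : ℂ) - (r : ℂ)) := by
          rw [h4, hH]
          push_cast
          rfl
        rw [h5, mul_add, pow_add]
        field_simp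
      have hsum : (-((n : ℂ) * 10 ^ (k * H) *
          ∑ i ∈ range H, 1 / (((n * i + j : ℕ) : ℂ) * 10 ^ (k * i)))) +
          ∑ t ∈ range n, ((n : ℂ) * 10 ^ (k * H) *
            (-((zt n ^ (j * t))⁻¹ / (n * bt n k ^ j)))) *
              Complex.log (1 - zt n ^ t * bt n k) =
          (n : ℂ) * 10 ^ (k * H) * (L -
            ∑ i ∈ range H, 1 / (((n * i + j : ℕ) : ℂ) * 10 ^ (k * i))) := by
        rw [sum_lem n _ (fun t => -((zt n ^ (j * t))⁻¹ / (n * bt n k ^ j)))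
          (fun t => Complex.log (1 - zt n ^ t * bt n k)), hL]
        ring
      rw [hfun, hsum]
      exact h2
  · obtain ⟨H, hH⟩ : ∃ H : ℕ, h = -(H : ℤ) := ⟨(-h).toNat, by omega⟩
    have h2 := hS.mul_left ((n : ℂ) * (10 ^ (k * H))⁻¹)
    have hfun : (fun m : ℕ => (n : ℂ) * (10 ^ (k * H))⁻¹ *
          (1 / (((n * m + j : ℕ) : ℂ) * 10 ^ (k * m)))) =
        fun m : ℕ => (fun m : ℕ => 1 / (((m : ℂ) - (r : ℂ)) * 10 ^ (k * m))) (m + H) := by
      funext m
      obtain ⟨h3, h4⟩ := term_eq n r j h hrat (m + H) (hr (m + H))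
      have h5 : ((n * m + j : ℕ) : ℂ) = (n : ℂ) * (((m + H : ℕ) : ℂ) - (r : ℂ)) := by
        rw [h4, hH]
        push_cast
        ring
      show (n : ℂ) * (10 ^ (k * H))⁻¹ * (1 / (((n * m + j : ℕ) : ℂ) * 10 ^ (k * m))) =
        1 / ((((m + H : ℕ) : ℂ) - (r : ℂ)) * 10 ^ (k * (m + H)))
      rw [h5, mul_add k m H, pow_add]
      field_simp
    rw [hfun] at h2
    have h6 := (hasSum_nat_add_iff (f := fun m : ℕ => 1 / (((m : ℂ) - (r : ℂ)) * 10 ^ (k * m)))
      H).1 h2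
    refine ⟨∑ i ∈ range H, 1 / (((i : ℂ) - (r : ℂ)) * 10 ^ (k * i)),
      fun t => (n : ℂ) * (10 ^ (k * H))⁻¹ * (-((zt n ^ (j * t))⁻¹ / (n * bt n k ^ j))),
      ?_, ?_, ?_⟩
    · have : (∑ i ∈ range H, 1 / (((i : ℂ) - (r : ℂ)) * 10 ^ (k * i))) =
          ((∑ i ∈ range H, 1 / (((i : ℚ) - r) * 10 ^ (k * i)) : ℚ) : ℂ) := by
        push_cast
        rfl
      rw [this]
      exact isAlgebraic_ratCast _ _
    · intro t
      refine IsAlgebraic.mul ?_ (hcoef t)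
      have : ((n : ℂ) * (10 ^ (k * H))⁻¹) = ((n * (10 ^ (k * H))⁻¹ : ℚ) : ℂ) := by
        push_cast; rfl
      rw [this]
      exact isAlgebraic_ratCast _ _
    · have hsum : (∑ i ∈ range H, 1 / (((i : ℂ) - (r : ℂ)) * 10 ^ (k * i))) +
          ∑ t ∈ range n, ((n : ℂ) * (10 ^ (k * H))⁻¹ *
            (-((zt n ^ (j * t))⁻¹ / (n * bt n k ^ j)))) *
              Complex.log (1 - zt n ^ t * bt n k) =
          (n : ℂ) * (10 ^ (k * H))⁻¹ * L +
            ∑ i ∈ range H, 1 / (((i : ℂ) - (r : ℂ)) * 10 ^ (k * i)) := by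
        rw [sum_lem n _ (fun t => -((zt n ^ (j * t))⁻¹ / (n * bt n k ^ j)))
          (fun t => Complex.log (1 - zt n ^ t * bt n k)), hL]
        ring
      rw [hsum]
      exact h6

end Pool.Agent.BBP
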