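import Pool.Agent.BBP.Stmts

/-!
# BBP: Kummer automorphisms fixing the roots of unity
-/

set_option autoImplicit false

open scoped BigOperators Polynomial Topology
open Metric Filter Finset

namespace Pool.Agent.BBP

namespace SHIFTX

open Polynomial

theorem irred_int (m : ℕ) (hm : 0 < m) : Irreducible (X ^ m - C 10 : ℤ[X]) := by
  have hdeg : (X ^ m - C 10 : ℤ[X]).natDegree = m := natDegree_X_pow_sub_C
  have hmonic : (X ^ m - C 10 : ℤ[X]).Monic := monic_X_pow_sub_C _ hm.ne'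
  have hprime : (Ideal.span {(2 : ℤ)}).IsPrime := by
    rw [Ideal.span_singleton_prime (by norm_num)]
    exact Int.prime_two
  refine IsEisensteinAt.irreducible (⟨?_, ?_, ?_⟩ :
    (X ^ m - C 10 : ℤ[X]).IsEisensteinAt (Ideal.span {(2 : ℤ)})) hprime
    hmonic.isPrimitive (by rw [hdeg]; exact hm)
  · rw [hmonic.leadingCoeff, Ideal.mem_span_singleton]
    norm_num
  · intro k hk
    rw [hdeg] at hk
    rw [coeff_sub, coeff_X_pow, if_neg hk.ne, zero_sub, coeff_C, Ideal.mem_span_singleton]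
    split_ifs
    · norm_num
    · simp
  · rw [coeff_sub, coeff_X_pow, if_neg hm.ne, zero_sub, coeff_C, if_pos rfl,
      Ideal.span_singleton_pow, Ideal.mem_span_singleton]
    norm_num

theorem irred_rat (m : ℕ) (hm : 0 < m) : Irreducible (X ^ m - C 10 : ℚ[X]) := by
  have h := irred_int m hm
  have hmonic : (X ^ m - C 10 : ℤ[X]).Monic := monic_X_pow_sub_C _ hm.ne'
  have h2 := (IsPrimitive.Int.irreducible_iff_irreducible_map_cast hmonic.isPrimitive).1 h
  rw [Polynomial.map_sub, Polynomial.map_pow, map_X, map_C] at h2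
  have e : (Int.castRingHom ℚ) 10 = 10 := by simp
  rwa [e] at h2

theorem yN_pow (N : ℕ) (hN : 0 < N) : yN N ^ (2 * N) = 10 := by
  unfold yN
  rw [← Complex.ofReal_pow, ← Real.rpow_natCast, ← Real.rpow_mul (by norm_num)]
  have : (1 : ℝ) / (2 * N) * ((2 * N : ℕ) : ℝ) = 1 := by
    have : (N : ℝ) ≠ 0 := by positivity
    push_cast
    field_simp
  rw [this, Real.rpow_one]
  norm_num

theorem yN_ne (N : ℕ) (hN : 0 < N) : yN N ≠ 0 := by
  intro h
  have := yN_pow N hN
  rw [h, zero_pow (by omega)] at this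
  norm_num at this

theorem conj_yN (N : ℕ) : (starRingEnd ℂ) (yN N) = yN N := by
  unfold yN
  exact Complex.conj_ofReal _

theorem zt_pow (n : ℕ) (hn : 0 < n) : zt n ^ n = 1 := by
  unfold zt
  rw [← Complex.exp_nat_mul]
  have : (n : ℂ) * (2 * Real.pi * Complex.I / n) = 2 * Real.pi * Complex.I := by
    have : (n : ℂ) ≠ 0 := by exact_mod_cast hn.ne'
    field_simp
  rw [this, Complex.exp_two_pi_mul_I]

theorem zt_two_mul (N : ℕ) (hN : 0 < N) : zt (2 * N) ^ 2 = zt N := by
  unfold zt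
  rw [← Complex.exp_nat_mul]
  congr 1
  have : (N : ℂ) ≠ 0 := by exact_mod_cast hN.ne'
  push_cast
  field_simp

/-- complex conjugation of a root of unity -/
theorem conj_root {u : ℂ} {m : ℕ} (hm : 0 < m) (hu : u ^ m = 1) :
    (starRingEnd ℂ) u = u⁻¹ := by
  have h1 : ‖u‖ = 1 := by
    have : ‖u‖ ^ m = 1 := by rw [← norm_pow, hu, norm_one]
    exact (pow_eq_one_iff_of_nonneg (norm_nonneg _) hm.ne').1 this
  rw [Complex.inv_def, Complex.normSq_eq_norm_sq, h1]
  simp

theorem minpoly_eq (N : ℕ) (hN : 0 < N) (x : ℂ) (hx : x ^ (2 * N) = 10) :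
    minpoly ℚ x = X ^ (2 * N) - C 10 := by
  symm
  apply minpoly.eq_of_irreducible_of_monic (irred_rat _ (by omega))
  · rw [map_sub, map_pow, aeval_X, aeval_C, hx]
    simp
  · exact monic_X_pow_sub_C _ (by omega)

end SHIFTX

open SHIFTX

theorem shift_proof (hConj : Stmt_Conj) : Stmt_Shift := by
  intro N n hN hn _ s
  have hy := yN_pow N hN
  have hy0 := yN_ne N hN
  have hz := zt_pow n hn
  have hz2 := zt_pow (2 * N) (by omega)
  have hz20 : zt (2 * N) ≠ 0 := by
    intro h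
    rw [h, zero_pow (by omega)] at hz2
    exact zero_ne_one hz2
  set w : ℂ := (zt (2 * N))⁻¹ ^ s with hw
  have hwpow : w ^ (2 * N) = 1 := by
    rw [hw, ← pow_mul, mul_comm s (2 * N), pow_mul, inv_pow, hz2, inv_one, one_pow]
  have hw0 : w ≠ 0 := pow_ne_zero _ (inv_ne_zero hz20)
  have hwy : (w * yN N) ^ (2 * N) = 10 := by rw [mul_pow, hwpow, hy, one_mul]
  have halg : IsAlgebraic ℚ (yN N) := by
    refine ⟨Polynomial.X ^ (2 * N) - Polynomial.C 10, ?_, ?_⟩
    · exact (Polynomial.monic_X_pow_sub_C _ (by omega)).ne_zero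
    · rw [map_sub, map_pow, Polynomial.aeval_X, Polynomial.aeval_C, hy]
      simp
  obtain ⟨σ, hσ⟩ := hConj (yN N) (w * yN N) halg
    (by rw [minpoly_eq N hN _ hy, minpoly_eq N hN _ hwy])
  let c : ℂ ≃ₐ[ℚ] ℂ := Complex.conjAe.restrictScalars ℚ
  have hc : ∀ x, c x = (starRingEnd ℂ) x := fun x => rfl
  refine ⟨((σ.symm.trans c).trans σ).trans c, ?_, ?_⟩
  · have hu : (σ.symm (zt n)) ^ n = 1 := by rw [← map_pow, hz, map_one]
    change c (σ (c (σ.symm (zt n)))) = zt n
    rw [hc (σ.symm (zt n)), conj_root hn hu, map_inv₀, AlgEquiv.apply_symm_apply, hc,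
      map_inv₀, conj_root hn hz, inv_inv]
  · -- the root of unity `σ⁻¹ y / y`
    set w' : ℂ := σ.symm (yN N) / yN N with hw'
    have h1 : σ.symm (yN N) = w' * yN N := by rw [hw']; field_simp
    have hw'pow : w' ^ (2 * N) = 1 := by
      have h10 : σ.symm (10 : ℂ) = 10 := map_ofNat σ.symm 10
      rw [hw', div_pow, ← map_pow, hy, h10]
      norm_num
    have hw'0 : w' ≠ 0 := by
      intro h
      rw [h, zero_pow (by omega)] at hw'pow
      exact zero_ne_one hw'pow
    have h2 : σ w' * (w * yN N) = yN N := by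
      rw [← hσ, ← map_mul, ← h1, AlgEquiv.apply_symm_apply]
    have h3 : (σ w')⁻¹ = w := by
      have h4 : (σ w' * w) * yN N = 1 * yN N := by rw [one_mul, mul_assoc]; exact h2
      have h5 : σ w' * w = 1 := mul_right_cancel₀ hy0 h4
      exact inv_eq_of_mul_eq_one_right h5
    change c (σ (c (σ.symm (yN N)))) = zt N ^ s * yN N
    rw [h1, hc (w' * yN N), map_mul, conj_yN, conj_root (by omega) hw'pow, map_mul, map_inv₀, h3,
      hσ, hc, map_mul, map_mul, conj_yN, conj_root (by omega) hwpow]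
    have h6 : w⁻¹ * w⁻¹ = zt N ^ s := by
      rw [hw, ← inv_pow, inv_inv, ← pow_add, ← two_mul, pow_mul, zt_two_mul N hN]
    rw [← mul_assoc, h6]

end Pool.Agent.BBP
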