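import Pool.Agent.BBP.Stmts

/-!
# BBP, module SIZE: PRMA and NRMA together
-/

open scoped BigOperators Polynomial Topology
open Metric Filter Finset

namespace Pool.Agent.BBP

noncomputable section

namespace SIZEX

theorem zt_pow_self (n : ℕ) (hn : 0 < n) : zt n ^ n = 1 := by
  unfold zt
  rw [← Complex.exp_nat_mul, mul_div_cancel₀ _ (by exact_mod_cast hn.ne'),
    Complex.exp_two_pi_mul_I]

theorem order_pos (n k : ℕ) (hn : 0 < n) : 0 < orderOf (zt n ^ k) := by
  rw [orderOf_pos_iff, isOfFinOrder_iff_pow_eq_one]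
  exact ⟨n, hn, by rw [← pow_mul, mul_comm, pow_mul, zt_pow_self n hn, one_pow]⟩

end SIZEX

theorem size_proof (hPrma : Stmt_Prma) (hNrma : Stmt_Nrma) (hPhi : Stmt_Phi) : Stmt_Size := by
  intro N n hN hn hNn t
  by_cases h20 : 20 ∣ orderOf (zt n ^ (2 * N * t))
  · exact hNrma N n hN hn hNn t h20
  · set e := orderOf (zt n ^ (2 * N * t)) with he
    have he0 : 0 < e := SIZEX.order_pos n _ hn
    have h1 := hPhi e he0
    unfold Ae at h1
    refine ⟨_, ?_, h1⟩
    intro P hP
    rw [mem_filter, Nat.mem_primeFactors] at hP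
    exact ⟨hP.1.1, hP.2, hPrma N n hN hn hNn t h20 P hP.1.1 hP.2⟩

end

end Pool.Agent.BBP
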