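import Pool.Agent.BBP.Stmts

/-!
# BBP: STEP, from the square root of `10` to the `2N`-th root
-/

open scoped BigOperators Polynomial Topology
open Metric Filter Finset

namespace Pool.Agent.BBP

noncomputable section

namespace STEPX

theorem zt_primitive {n : ℕ} (hn : 0 < n) : IsPrimitiveRoot (zt n) n :=
  Complex.isPrimitiveRoot_exp n hn.ne'

theorem yN_pow {N : ℕ} (hN : 0 < N) : yN N ^ N = yN 1 := by
  unfold yN
  rw [← Complex.ofReal_pow, ← Real.rpow_natCast, ← Real.rpow_mul (by norm_num)]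
  congr 2
  have : (N : ℝ) ≠ 0 := by exact_mod_cast hN.ne'
  push_cast
  field_simp

theorem v_root {v : AbsoluteValue ℂ ℝ} {ζ : ℂ} {N : ℕ} (hN : 0 < N) (h : ζ ^ N = 1) :
    v ζ = 1 := by
  have h1 : v ζ ^ N = 1 := by rw [← map_pow, h, map_one]
  exact (pow_eq_one_iff_of_nonneg (v.nonneg ζ) hN.ne').mp h1

/-- composition with an automorphism -/
def compAut (v : AbsoluteValue ℂ ℝ) (σ : ℂ ≃ₐ[ℚ] ℂ) : AbsoluteValue ℂ ℝ :=
  v.comp (f := (σ : ℂ →+* ℂ)) σ.injective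

theorem compAut_apply (v : AbsoluteValue ℂ ℝ) (σ : ℂ ≃ₐ[ℚ] ℂ) (x : ℂ) :
    compAut v σ x = v (σ x) := rfl

theorem isPV_compAut {P : ℕ} {v : AbsoluteValue ℂ ℝ} (hv : IsPV P v) (σ : ℂ ≃ₐ[ℚ] ℂ) :
    IsPV P (compAut v σ) := by
  refine ⟨fun x y => ?_, ?_⟩
  · simp only [compAut_apply, map_add]
    exact hv.1 _ _
  · rw [compAut_apply, map_natCast]
    exact hv.2

end STEPX

open STEPX in
theorem step_proof (hS : Stmt_Shift) : Stmt_Step := by
  intro N n hN hn hNn t P v _hP hv hlt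
  haveI : NeZero N := ⟨hN.ne'⟩
  have hpr := zt_primitive hN
  have h1 : yN 1 - zt n ^ (N * t) = yN N ^ N - (zt n ^ t) ^ N := by
    rw [yN_pow hN, ← pow_mul, mul_comm t N]
  rw [h1, hpr.pow_sub_pow_eq_prod_sub_mul _ _ hN, map_prod] at hlt
  obtain ⟨ζ, hζ, hζ1⟩ : ∃ ζ ∈ Polynomial.nthRootsFinset N (1 : ℂ),
      v (yN N - ζ * zt n ^ t) < 1 := by
    by_contra hcon
    push Not at hcon
    have h2 : (1 : ℝ) ≤ ∏ ζ ∈ Polynomial.nthRootsFinset N (1 : ℂ),
        v (yN N - ζ * zt n ^ t) := by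
      have h3 := Finset.prod_le_prod (s := Polynomial.nthRootsFinset N (1 : ℂ))
        (f := fun _ => (1 : ℝ)) (g := fun ζ => v (yN N - ζ * zt n ^ t))
        (fun _ _ => zero_le_one) hcon
      simpa using h3
    linarith
  have hζN : ζ ^ N = 1 := (Polynomial.mem_nthRootsFinset hN 1).mp hζ
  obtain ⟨i, hi, hiζ⟩ := hpr.eq_pow_of_pow_eq_one hζN
  obtain ⟨σ, hσ1, hσ2⟩ := hS N n hN hn hNn (N - i)
  have hinv : zt N ^ (N - i) * ζ = 1 := by
    rw [← hiζ, ← pow_add, Nat.sub_add_cancel hi.le, hpr.pow_eq_one]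
  refine ⟨compAut v σ, isPV_compAut hv σ, ?_⟩
  rw [compAut_apply, map_sub, map_pow, hσ1, hσ2]
  have h4 : zt N ^ (N - i) * yN N - zt n ^ t =
      zt N ^ (N - i) * (yN N - ζ * zt n ^ t) := by
    rw [mul_sub, ← mul_assoc, hinv, one_mul]
  have h5 : v (zt N ^ (N - i)) = 1 := by
    apply v_root hN
    rw [← pow_mul, mul_comm, pow_mul, hpr.pow_eq_one, one_pow]
  rw [h4, map_mul, h5, one_mul]
  exact hζ1

end

end Pool.Agent.BBP
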