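import Pool.Agent.BBP.Stmts

/-!
# BBP, module TBAD: every element of the support of a new relation divides a truly bad one
-/

open scoped BigOperators Polynomial Topology
open Metric Filter Finset

namespace Pool.Agent.BBP

namespace TBADX

theorem zt_pow_self (n : ℕ) (hn : 0 < n) : zt n ^ n = 1 := by
  have h0 : (n : ℂ) ≠ 0 := by exact_mod_cast hn.ne'
  unfold zt
  rw [← Complex.exp_nat_mul, mul_div_cancel₀ _ h0]
  exact Complex.exp_two_pi_mul_I

theorem ord_dvd (n k : ℕ) (hn : 0 < n) : orderOf (zt n ^ k) ∣ n :=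
  orderOf_dvd_of_pow_eq_one (by rw [← pow_mul, mul_comm, pow_mul, zt_pow_self n hn, one_pow])

theorem ord_pos (n k : ℕ) (hn : 0 < n) : 0 < orderOf (zt n ^ k) :=
  Nat.pos_of_dvd_of_pos (ord_dvd n k hn) hn

theorem ord_two (n N t : ℕ) : orderOf (zt n ^ (N * t)) ∣ 2 * orderOf (zt n ^ (2 * N * t)) := by
  apply orderOf_dvd_of_pow_eq_one
  have h := pow_orderOf_eq_one (zt n ^ (2 * N * t))
  have h2 : (zt n ^ (N * t)) ^ 2 = zt n ^ (2 * N * t) := by
    rw [← pow_mul]
    congr 1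
    ring
  rw [pow_mul, h2, h]

theorem not_dvd (P e f : ℕ) (hP : P.Prime) (he : 0 < e) (h : orderOf (10 : ZMod P) = e)
    (hf : f ∣ 2 * e) : ¬ P ∣ f := by
  have : Fact P.Prime := ⟨hP⟩
  intro hPf
  have h10 : (10 : ZMod P) ≠ 0 := by
    intro h0
    rw [h0, orderOf_zero] at h
    omega
  have hd : e ∣ P - 1 := by
    rw [← h]
    exact ZMod.orderOf_dvd_card_sub_one h10
  have hP2 : P ≠ 2 := by
    intro h2
    apply h10
    subst h2
    have h3 : (10 : ZMod 2) = ((10 : ℕ) : ZMod 2) := by norm_num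
    rw [h3, ZMod.natCast_eq_zero_iff]
    norm_num
  have h2 : P ∣ 2 * e := hPf.trans hf
  rcases (Nat.Prime.dvd_mul hP).mp h2 with h3 | h3
  · exact hP2 ((Nat.prime_dvd_prime_iff_eq hP Nat.prime_two).mp h3)
  · have h4 := Nat.le_of_dvd he h3
    have h5 := Nat.le_of_dvd (by have := hP.two_le; omega) hd
    have := hP.two_le
    omega

end TBADX

open TBADX in
theorem tbad_proof (hP : Stmt_Padt) (hS : Stmt_Size) : Stmt_Tbad := by
  intro N n hN hn hd m hR hNew t ht hmt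
  classical
  set T : Finset ℕ := (range n).filter (fun s => m s ≠ 0 ∧
    orderOf (zt n ^ (N * t)) ∣ orderOf (zt n ^ (N * s))) with hT
  have htT : t ∈ T := by
    rw [hT, Finset.mem_filter]
    exact ⟨Finset.mem_range.mpr ht, hmt, dvd_refl _⟩
  obtain ⟨ts, hts, hmax⟩ := Finset.exists_max_image T (fun s => orderOf (zt n ^ (N * s))) ⟨t, htT⟩
  have hts' := hts
  rw [hT, Finset.mem_filter, Finset.mem_range] at hts'
  obtain ⟨htsn, hmts, hdv⟩ := hts'
  set e := orderOf (zt n ^ (2 * N * ts)) with he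
  have epos : 0 < e := ord_pos n _ hn
  have hdvd2 : orderOf (zt n ^ (N * ts)) ∣ 2 * e := ord_two n N ts
  obtain ⟨S, hS1, hS2⟩ := hS N n hN hn hd ts
  have hPN : ∀ P ∈ S, P ^ padicValNat P (10 ^ e - 1) ∣ N := by
    intro P hPS
    obtain ⟨hPp, hPe, v, hv, hlt⟩ := hS1 P hPS
    by_contra hcon
    obtain ⟨t', ht', hmt', j, hj, hord⟩ := hP N n hN hn hd m hR hNew P v hPp hv ts htsn hmts hlt
      (not_dvd P e _ hPp epos hPe hdvd2) hcon
    have ht'T : t' ∈ T := by
      rw [hT, Finset.mem_filter]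
      exact ⟨Finset.mem_range.mpr ht', hmt', by rw [hord]; exact Dvd.dvd.mul_right hdv _⟩
    have h1 := hmax t' ht'T
    rw [hord] at h1
    have h2 : 2 ≤ P ^ j := le_trans hPp.two_le (Nat.le_self_pow hj.ne' P)
    have h3 : 0 < orderOf (zt n ^ (N * ts)) := ord_pos n _ hn
    nlinarith
  refine ⟨e, ∏ P ∈ S, P ^ padicValNat P (10 ^ e - 1), epos, hdv.trans hdvd2, hS2, ?_, ?_⟩
  · apply Finset.prod_dvd_of_isRelPrime
    · intro P hPS Q hQS hne
      exact Nat.coprime_iff_isRelPrime.mp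
        (Nat.Coprime.pow _ _ ((Nat.coprime_primes (hS1 P hPS).1 (hS1 Q hQS).1).mpr hne))
    · exact hPN
  · intro P hPp hPd
    obtain ⟨Q, hQS, hQ⟩ := (Prime.dvd_finsetProd_iff hPp.prime _).mp hPd
    have h1 : P ∣ Q := hPp.dvd_of_dvd_pow hQ
    have h2 : P = Q := (Nat.prime_dvd_prime_iff_eq hPp (hS1 Q hQS).1).mp h1
    rw [h2]
    exact (hS1 Q hQS).2.1

end Pool.Agent.BBP
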