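import Pool.Agent.BBP.Stmts

/-!
# BBP, module TOT: a lower bound for Euler's function
-/

namespace Pool.Agent.BBP

namespace TOTX

theorem two_pow (k : ℕ) : 2 ^ k ≤ 2 * (Nat.totient (2 ^ k)) ^ 2 := by
  rcases Nat.eq_zero_or_pos k with rfl | hk
  · simp
  · obtain ⟨j, rfl⟩ : ∃ j, k = j + 1 := ⟨k - 1, by omega⟩
    rw [Nat.totient_prime_pow_succ Nat.prime_two]
    have h : 1 ≤ 2 ^ j := Nat.one_le_two_pow
    calc 2 ^ (j + 1) = 2 * (2 ^ j * 1) := by ring
      _ ≤ 2 * (2 ^ j * 2 ^ j) := by gcongr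
      _ = 2 * (2 ^ j * (2 - 1)) ^ 2 := by norm_num; ring

theorem prime_pow (p k : ℕ) (hp : p.Prime) (h3 : 3 ≤ p) (hk : 0 < k) :
    p ^ k ≤ (Nat.totient (p ^ k)) ^ 2 := by
  obtain ⟨j, rfl⟩ : ∃ j, k = j + 1 := ⟨k - 1, by omega⟩
  rw [Nat.totient_prime_pow_succ hp]
  obtain ⟨q, rfl⟩ : ∃ q, p = q + 3 := ⟨p - 3, by omega⟩
  have h : 1 ≤ (q + 3) ^ j := Nat.one_le_pow _ _ (by omega)
  have h' : q + 3 - 1 = q + 2 := by omega
  rw [h']
  calc (q + 3) ^ (j + 1) = (q + 3) ^ j * 1 * (q + 3) := by ring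
    _ ≤ (q + 3) ^ j * (q + 3) ^ j * ((q + 2) ^ 2) := by
        gcongr
        nlinarith
    _ = ((q + 3) ^ j * (q + 2)) ^ 2 := by ring

theorem odd (e : ℕ) : Odd e → e ≤ (Nat.totient e) ^ 2 := by
  induction e using Nat.recOnPosPrimePosCoprime with
  | zero => intro h; simp at h
  | one => intro _; simp
  | prime_pow p n hp hn =>
    intro h
    have hp2 : p ≠ 2 := by
      rintro rfl
      have : Even (2 ^ n) := (Nat.even_pow.2 ⟨even_two, by omega⟩)
      exact (Nat.not_even_iff_odd.2 h) this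
    have := hp.two_le
    exact prime_pow p n hp (by omega) hn
  | coprime a b ha hb hab iha ihb =>
    intro h
    rw [Nat.totient_mul hab]
    have h1 := Nat.odd_mul.1 h
    calc a * b ≤ (Nat.totient a) ^ 2 * (Nat.totient b) ^ 2 := Nat.mul_le_mul (iha h1.1) (ihb h1.2)
      _ = _ := by ring

end TOTX

theorem tot_proof : Stmt_Tot := by
  intro e
  rcases Nat.eq_zero_or_pos e with rfl | he
  · simp
  · obtain ⟨k, m, hm, rfl⟩ := Nat.exists_eq_two_pow_mul_odd (n := e) (by omega)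
    have hc : Nat.Coprime (2 ^ k) m := Nat.Coprime.pow_left _ (Nat.coprime_two_left.2 hm)
    rw [Nat.totient_mul hc]
    calc 2 ^ k * m ≤ (2 * (Nat.totient (2 ^ k)) ^ 2) * (Nat.totient m) ^ 2 :=
          Nat.mul_le_mul (TOTX.two_pow k) (TOTX.odd m hm)
      _ = _ := by ring

end Pool.Agent.BBP
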