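import Pool.Agent.BBP.BAKER
import Pool.Agent.BBP.CONJ
import Pool.Agent.BBP.CYCA
import Pool.Agent.BBP.CYCP
import Pool.Agent.BBP.DNUM
import Pool.Agent.BBP.EAUX
import Pool.Agent.BBP.ENUM
import Pool.Agent.BBP.ENZ
import Pool.Agent.BBP.ESL
import Pool.Agent.BBP.ESLK
import Pool.Agent.BBP.EXPP
import Pool.Agent.BBP.EXT
import Pool.Agent.BBP.FOU
import Pool.Agent.BBP.GSS
import Pool.Agent.BBP.IND
import Pool.Agent.BBP.INDK
import Pool.Agent.BBP.INDN
import Pool.Agent.BBP.MODL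
import Pool.Agent.BBP.NORM
import Pool.Agent.BBP.NRMA
import Pool.Agent.BBP.PADT
import Pool.Agent.BBP.PAV
import Pool.Agent.BBP.PFR
import Pool.Agent.BBP.PHI
import Pool.Agent.BBP.POLS
import Pool.Agent.BBP.PRMA
import Pool.Agent.BBP.ROU
import Pool.Agent.BBP.SCHWB
import Pool.Agent.BBP.SER
import Pool.Agent.BBP.SERQ
import Pool.Agent.BBP.SHIFT
import Pool.Agent.BBP.SIZE
import Pool.Agent.BBP.STEP
import Pool.Agent.BBP.TBAD
import Pool.Agent.BBP.TOT
import Pool.Agent.BBP.TRD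
import Pool.Agent.FDR.SL.AIMINOR
import Pool.Agent.FDR.SL.BOUND
import Pool.Agent.FDR.SL.DAEV
import Pool.Agent.FDR.SL.DBASIS
import Pool.Agent.FDR.SL.DCAU
import Pool.Agent.FDR.SL.DLINE
import Pool.Agent.FDR.SL.DORDA
import Pool.Agent.FDR.SL.DORDB
import Pool.Agent.FDR.SL.DORDC
import Pool.Agent.FDR.SL.DPERM
import Pool.Agent.FDR.SL.LIOU
import Pool.Agent.FDR.SL.SIEG

/-!
# BBP: assembly
-/

namespace Pool.Agent.BBP

theorem thm_Baker : Stmt_Baker :=
  baker_proof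
    (esl_proof
      (eslk_proof FDR.SL.DPERM.thm_DPERM FDR.SL.DAEV.thm_DAEV FDR.SL.DLINE.thm_DLINE
        FDR.SL.DBASIS.thm_DBASIS FDR.SL.DORDA.thm_DORDA FDR.SL.DORDB.thm_DORDB
        FDR.SL.DORDC.thm_DORDC FDR.SL.DCAU.thm_DCAU schwb_proof
        (eaux_proof FDR.SL.BOUND.thm_BOUND FDR.SL.SIEG.thm_SIEG FDR.SL.LIOU.thm_LIOU)
        enum_proof (enz_proof expp_proof)))
    trd_proof FDR.SL.AIMINOR.thm_AIMINOR

theorem thm_Cyca : Stmt_Cyca := cyca_proof conj_proof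

theorem thm_Shift : Stmt_Shift := shift_proof conj_proof

theorem thm_Step : Stmt_Step := step_proof thm_Shift

theorem thm_Size : Stmt_Size :=
  size_proof (prma_proof pav_proof rou_proof thm_Cyca (gss_proof thm_Cyca) thm_Step)
    (nrma_proof pav_proof rou_proof conj_proof thm_Cyca thm_Step tot_proof cycp_proof)
    (phi_proof tot_proof cycp_proof)

theorem thm_Ind : Stmt_Ind :=
  ind_proof (norm_proof thm_Shift)
    (indn_proof (modl_proof (tbad_proof (padt_proof thm_Shift rou_proof) thm_Size)) thm_Cyca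
      thm_Shift fou_proof dnum_proof)

theorem thm_Span : Stmt_Span :=
  span_proof thm_Baker (indk_proof thm_Ind)
    (linc_proof (serq_proof ser_proof) pols_proof pfr_proof)

end Pool.Agent.BBP
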