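import Pool.Agent.BBP.Stmts

/-!
# BAKER: Baker's theorem (qualitative, inhomogeneous) from the Schneider-Lang theorem
-/

set_option autoImplicit false

open scoped BigOperators
open Finset

namespace Pool.Agent.BBP

open Pool.Agent.FDR

noncomputable section

namespace BAKERX

theorem mem_iff {z : ℂ} : z ∈ algebraicClosure ℚ ℂ ↔ IsAlgebraic ℚ z := mem_algebraicClosure_iff

theorem rat_mem (q : ℚ) : (q : ℂ) ∈ algebraicClosure ℚ ℂ :=
  mem_iff.2 (by simpa using isAlgebraic_algebraMap (A := ℂ) q)

theorem exp_rat_mul {z : ℂ} (hz : IsAlgebraic ℚ (Complex.exp z)) (q : ℚ) :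
    Complex.exp (q * z) ∈ algebraicClosure ℚ ℂ := by
  have h1 : Complex.exp (q * z) ^ q.den = Complex.exp z ^ q.num := by
    rw [← Complex.exp_nat_mul, ← Complex.exp_int_mul]
    congr 1
    have : (q.den : ℂ) * q = q.num := by exact_mod_cast Rat.den_mul_eq_num q
    rw [← mul_assoc, this]
  have h2 : Complex.exp (q * z) ^ q.den ∈ algebraicClosure ℚ ℂ := by
    rw [h1]
    exact zpow_mem (mem_iff.2 hz) _
  exact mem_iff.2 (IsAlgebraic.of_pow q.den_pos (mem_iff.1 h2))

theorem exp_sum_mem {ι : Type} (s : Finset ι) (l : ι → ℂ)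
    (hl : ∀ i, IsAlgebraic ℚ (Complex.exp (l i))) (q : ι → ℚ) :
    Complex.exp (∑ i ∈ s, (q i : ℂ) * l i) ∈ algebraicClosure ℚ ℂ := by
  rw [Complex.exp_sum]
  exact prod_mem fun i _ => exp_rat_mul (hl i) (q i)

end BAKERX

open BAKERX in
theorem baker_proof (hESL : Stmt_Esl) (hTRD : Stmt_Trd) (hMin : Stmt_AIMinor) : Stmt_Baker := by
  classical
  intro n l hl hli b₀ b hb₀ hb hrel
  -- it is enough to show that all `b i` vanish
  suffices hall : ∀ i, b i = 0 by
    refine ⟨?_, hall⟩
    simpa [hall] using hrel
  by_contra hcon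
  push Not at hcon
  obtain ⟨i₀, hi₀⟩ := hcon
  obtain ⟨d, E, X, σ₀, M, hE, hX, hEX, hXind, hM, hz⟩ := hTRD (Finset.univ.image b)
    (by
      intro x hx
      obtain ⟨i, -, rfl⟩ := Finset.mem_image.1 hx
      exact hb i)
  have hz' : ∀ i, ∃ z : Fin d → ℚ, b i = ∑ k, (z k : ℂ) * E σ₀ k := fun i =>
    hz (b i) (Finset.mem_image_of_mem _ (Finset.mem_univ i))
  choose z hzb using hz'
  set lam : Fin d → ℂ := fun k => ∑ i, (z i k : ℂ) * l i with hlam
  set Y : Fin d → ℂ := fun σ => ∑ k, E σ k * lam k with hY
  have hYσ₀ : Y σ₀ = -b₀ := by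
    have : Y σ₀ = ∑ i, b i * l i := by
      simp only [hY, hlam, Finset.mul_sum]
      rw [Finset.sum_comm]
      refine Finset.sum_congr rfl fun i _ => ?_
      rw [hzb i, Finset.sum_mul]
      exact Finset.sum_congr rfl fun k _ => by ring
    rw [this]
    linear_combination hrel
  -- duality
  have hdual : ∀ (c : Fin d → ℂ) (k : Fin d), ∑ σ, X k σ * ∑ j, E σ j * c j = c k := by
    intro c k
    simp only [Finset.mul_sum]
    rw [Finset.sum_comm]
    have : ∀ j, ∑ σ, X k σ * (E σ j * c j) = (if j = k then 1 else 0) * c j := by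
      intro j
      rw [← hEX j k, Finset.sum_mul]
      exact Finset.sum_congr rfl fun σ _ => by ring
    simp only [this]
    simp
  have hYne : ∃ σ, Y σ ≠ 0 := by
    by_contra hcon
    push Not at hcon
    have hlam0 : ∀ k, lam k = 0 := by
      intro k
      rw [← hdual lam k]
      refine Finset.sum_eq_zero fun σ _ => ?_
      have := hcon σ
      simp only [hY] at this
      rw [this, mul_zero]
    have hz0 : ∀ i k, z i k = 0 := by
      intro i k
      have h1 := hlam0 k
      rw [Fintype.linearIndependent_iff] at hli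
      refine hli (fun i => z i k) ?_ i
      simp only [hlam] at h1
      rw [← h1]
      refine Finset.sum_congr rfl fun i _ => ?_
      rw [Rat.smul_def]
    apply hi₀
    rw [hzb i₀]
    refine Finset.sum_eq_zero fun k _ => ?_
    rw [hz0]
    simp
  -- the support of `Y`
  set S : Finset (Fin d) := Finset.univ.filter fun σ => Y σ ≠ 0 with hS
  set m : ℕ := S.card with hm
  have hm0 : 0 < m := by
    obtain ⟨σ, hσ⟩ := hYne
    exact Finset.card_pos.2 ⟨σ, by simp [hS, hσ]⟩
  set e : Fin m → Fin d := fun t => S.orderEmbOfFin rfl t with he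
  have heinj : Function.Injective e := (S.orderEmbOfFin rfl).injective
  have hrange : Set.range e = (S : Set (Fin d)) := by
    simp only [he]
    exact Finset.range_orderEmbOfFin S rfl
  have hYe : ∀ t, Y (e t) ≠ 0 := by
    intro t
    have : e t ∈ (S : Set (Fin d)) := by rw [← hrange]; exact ⟨t, rfl⟩
    simpa [hS] using this
  have hnot : ∀ σ, σ ∉ Set.range e → Y σ = 0 := by
    intro σ hσ
    rw [hrange] at hσ
    by_contra h
    exact hσ (by simp [hS, h])
  have hmd : m ≤ d := by
    have := Finset.card_le_univ S
    simpa using this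
  -- the minor
  let B : (Fin m → ℂ) →ₗ[ℂ] (Fin d → ℂ) :=
    { toFun := fun w k => ∑ t, w t * E (e t) k
      map_add' := by
        intro w w'
        funext k
        simp only [Pi.add_apply, add_mul, Finset.sum_add_distrib]
      map_smul' := by
        intro c w
        funext k
        simp only [Pi.smul_apply, smul_eq_mul, RingHom.id_apply, Finset.mul_sum, mul_assoc] }
  have hEM : (Matrix.of E) * (Matrix.of X) = 1 := by
    have h1 : (Matrix.of X) * (Matrix.of E) = 1 := by
      ext k j
      rw [Matrix.mul_apply, Matrix.one_apply]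
      simp only [Matrix.of_apply]
      have h2 : ∑ σ, X k σ * E σ j = ∑ σ, E σ j * X k σ :=
        Finset.sum_congr rfl fun σ _ => mul_comm _ _
      rw [h2, hEX j k]
      by_cases hjk : j = k
      · simp [hjk]
      · simp [hjk, Ne.symm hjk]
    exact mul_eq_one_comm.1 h1
  have hBinj : Function.Injective B := by
    rw [← LinearMap.ker_eq_bot, LinearMap.ker_eq_bot']
    intro w hw
    funext t₀
    have h1 : ∀ k, ∑ t, w t * E (e t) k = 0 := fun k => congrFun hw k
    have h2 : ∀ t : Fin m, ∑ k, E (e t) k * X k (e t₀) = if t = t₀ then 1 else 0 := by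
      intro t
      have := congrFun (congrFun hEM (e t)) (e t₀)
      rw [Matrix.mul_apply, Matrix.one_apply] at this
      simp only [Matrix.of_apply, heinj.eq_iff] at this
      exact this
    have h3 : ∑ k, (∑ t, w t * E (e t) k) * X k (e t₀) = w t₀ := by
      simp only [Finset.sum_mul]
      rw [Finset.sum_comm]
      have : ∀ t, ∑ k, w t * E (e t) k * X k (e t₀) = w t * (if t = t₀ then 1 else 0) := by
        intro t
        rw [← h2 t, Finset.mul_sum]
        exact Finset.sum_congr rfl fun k _ => by ring
      simp only [this]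
      simp
    rw [← h3]
    simp [h1]
  obtain ⟨φ, -, hφ⟩ := hMin d m B hBinj
  -- the matrix `G`
  set E' : Matrix (Fin m) (Fin m) ℂ := Matrix.of fun t s => E (e t) (φ s) with hE'
  have hE'u : IsUnit E' := by
    rw [← Matrix.vecMul_injective_iff_isUnit]
    intro w w' h
    apply hφ
    funext s
    have := congrFun h s
    simpa [Matrix.vecMul, dotProduct, hE', B] using this
  set G : Matrix (Fin m) (Fin m) ℂ := Matrix.of fun t s => E (e t) (φ s) * Y (e t) with hG
  have hGu : IsUnit G := by
    have h1 : G = Matrix.diagonal (fun t => Y (e t)) * E' := by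
      ext t s
      rw [Matrix.diagonal_mul]
      simp only [hG, hE', Matrix.of_apply]
      ring
    rw [h1]
    refine IsUnit.mul ?_ hE'u
    rw [Matrix.isUnit_diagonal, Pi.isUnit_iff]
    exact fun t => isUnit_iff_ne_zero.2 (hYe t)
  have hGG : G * G⁻¹ = 1 := Matrix.mul_nonsing_inv _ ((Matrix.isUnit_iff_isUnit_det _).1 hGu)
  set v : Fin m → Fin m → ℂ := fun t s => G⁻¹ s t with hv
  have hvli : LinearIndependent ℂ v := by
    have h1 : IsUnit (Matrix.transpose G⁻¹) := by
      rw [Matrix.isUnit_transpose]
      exact (Matrix.isUnit_nonsing_inv_iff).2 hGu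
    have h2 := Matrix.linearIndependent_rows_iff_isUnit.2 h1
    exact h2
  have hGv : ∀ t t', ∑ s, G t' s * v t s = if t' = t then 1 else 0 := by
    intro t t'
    have := congrFun (congrFun hGG t') t
    rwa [Matrix.mul_apply, Matrix.one_apply] at this
  -- the linear forms
  set a : Fin d → Fin m → ℂ := fun k s => ∑ j, (M (φ s) j k : ℂ) * lam j with ha
  have hEa : ∀ σ s, ∑ k, E σ k * a k s = E σ (φ s) * Y σ := by
    intro σ s
    simp only [ha, hY, Finset.mul_sum]
    rw [Finset.sum_comm]
    refine Finset.sum_congr rfl fun j _ => ?_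
    rw [← mul_assoc, hM σ (φ s) j, Finset.sum_mul]
    exact Finset.sum_congr rfl fun k _ => by ring
  have haG : ∀ k s, a k s = ∑ t, X k (e t) * G t s := by
    intro k s
    rw [← hdual (fun k => a k s) k]
    simp only [hEa]
    symm
    refine Fintype.sum_of_injective e heinj _ _ ?_ ?_
    · intro σ hσ
      rw [hnot σ hσ, mul_zero, mul_zero]
    · intro t
      simp only [hG, Matrix.of_apply]
  have hav : ∀ k t, ∑ s, a k s * v t s = X k (e t) := by
    intro k t
    simp only [haG, Finset.sum_mul]
    rw [Finset.sum_comm]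
    have : ∀ t', ∑ s, X k (e t') * G t' s * v t s = X k (e t') * (if t' = t then 1 else 0) := by
      intro t'
      rw [← hGv t t', Finset.mul_sum]
      exact Finset.sum_congr rfl fun s _ => by ring
    simp only [this]
    simp
  have haexp : ∀ k s, IsAlgebraic ℚ (Complex.exp (a k s)) := by
    intro k s
    have h1 : a k s = ∑ i, ((∑ j, M (φ s) j k * z i j : ℚ) : ℂ) * l i := by
      simp only [ha, hlam, Finset.mul_sum]
      rw [Finset.sum_comm]
      refine Finset.sum_congr rfl fun i _ => ?_
      push_cast
      rw [Finset.sum_mul]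
      exact Finset.sum_congr rfl fun j _ => by ring
    rw [h1]
    exact mem_iff.1 (exp_sum_mem _ _ hl _)
  -- independence
  have hind : ∀ (r : ℕ) (ψ : Fin r → Fin d), Function.Injective ψ → ∀ c : Fin r → ℤ,
      (∀ s, ∑ i, (c i : ℂ) * a (ψ i) s = 0) → c = 0 := by
    intro r ψ hψ c hc
    set t : Fin m := ⟨0, hm0⟩
    have h1 : ∑ i, (c i : ℂ) * X (ψ i) (e t) = 0 := by
      have h2 : ∑ s, (∑ i, (c i : ℂ) * a (ψ i) s) * v t s = 0 := by simp [hc]
      rw [← h2]
      simp only [Finset.sum_mul]
      rw [Finset.sum_comm]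
      refine Finset.sum_congr rfl fun i _ => ?_
      rw [← hav (ψ i) t, Finset.mul_sum]
      exact Finset.sum_congr rfl fun s _ => by ring
    set rr : Fin d → ℚ := fun k => ∑ i, if ψ i = k then (c i : ℚ) else 0 with hrr
    have h3 : ∑ k, (rr k : ℂ) * X k (e t) = 0 := by
      rw [← h1]
      simp only [hrr]
      push_cast
      simp only [Finset.sum_mul]
      rw [Finset.sum_comm]
      refine Finset.sum_congr rfl fun i _ => ?_
      rw [Finset.sum_eq_single (ψ i)]
      · simp
      · intro k _ hk
        simp [Ne.symm hk]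
      · intro h
        exact absurd (Finset.mem_univ _) h
    have h4 := hXind (e t) rr h3
    funext i
    have h5 := congrFun h4 (ψ i)
    simp only [hrr, Pi.zero_apply, hψ.eq_iff] at h5
    simpa using h5
  by_cases hb0 : b₀ = 0
  · -- homogeneous case
    have hσ₀ : σ₀ ∉ S := by
      simp [hS, hYσ₀, hb0]
    have hlt : m < d := by
      have h1 : S ⊂ Finset.univ := by
        rw [Finset.ssubset_univ_iff]
        intro h
        exact hσ₀ (by rw [h]; exact Finset.mem_univ _)
      have := Finset.card_lt_card h1
      simpa using this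
    refine hESL m hm0 false (fun i => a (Fin.castLE hlt i)) v hvli ⟨?_, ?_⟩ ?_ ?_
    · intro c _ hc
      exact hind (m + 1) (Fin.castLE hlt) (Fin.castLE_injective hlt) c hc
    · intro h
      exact absurd h (by decide)
    · intro i t
      rw [hav]
      exact hX _ _
    · intro i s
      simp only [fE, stdv, Bool.false_eq_true, false_and, if_false]
      rw [Finset.sum_eq_single s]
      · simpa using haexp _ s
      · intro s' _ hs'
        simp [hs']
      · intro h
        exact absurd (Finset.mem_univ _) h
  · -- inhomogeneous case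
    have hσ₀ : σ₀ ∈ Set.range e := by
      rw [hrange]
      simp [hS, hYσ₀, hb0]
    obtain ⟨t₀, ht₀⟩ := hσ₀
    refine hESL m hm0 true (Fin.cons (fun s => G t₀ s) (fun i => a (Fin.castLE hmd i))) v hvli
      ⟨?_, ?_⟩ ?_ ?_
    · intro c hc0 hc
      have h0 := hc0 rfl
      have h1 : (fun i : Fin m => c i.succ) = 0 := by
        refine hind m (Fin.castLE hmd) (Fin.castLE_injective hmd) _ ?_
        intro s
        have := hc s
        rw [Fin.sum_univ_succ] at this
        simpa [h0] using this
      funext i
      refine Fin.cases ?_ (fun i => ?_) i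
      · exact h0
      · exact congrFun h1 i
    · intro _
      by_contra hno
      push Not at hno
      have := hGv t₀ t₀
      simp only [Fin.cons_zero] at hno
      simp [hno] at this
    · intro i t
      refine Fin.cases ?_ (fun i => ?_) i
      · simp only [Fin.cons_zero]
        rw [hGv]
        split_ifs
        · exact isAlgebraic_one
        · exact isAlgebraic_zero
      · simp only [Fin.cons_succ]
        rw [hav]
        exact hX _ _
    · intro i s
      refine Fin.cases ?_ (fun i => ?_) i
      · simp only [fE, stdv, true_and, if_true, Fin.cons_zero]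
        rw [Finset.sum_eq_single s]
        · simp only [hG, Matrix.of_apply, ht₀, Pi.single_eq_same, mul_one]
          rw [hYσ₀]
          exact (hE _ _).mul hb₀.neg
        · intro s' _ hs'
          simp [hs']
        · intro h
          exact absurd (Finset.mem_univ _) h
      · have hne : ¬ (true = true ∧ (Fin.succ i : Fin (m + 1)) = 0) := by
          simp [Fin.succ_ne_zero]
        simp only [fE, stdv, if_neg hne, Fin.cons_succ]
        rw [Finset.sum_eq_single s]
        · simpa using haexp _ s
        · intro s' _ hs'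
          simp [hs']
        · intro h
          exact absurd (Finset.mem_univ _) h

end

end Pool.Agent.BBP
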