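import Pool.Agent.FDR.SL.Defs

/-!
# BBP: no BBP-type formula with simple poles for pi in base 10 ^ k. Definitions.

Part A: Baker's theorem (qualitative form, inhomogeneous), from a Schneider-Lang theorem on
cartesian products (exponential functions of several variables).
Part B: multiplicative independence of the numbers `1 - ζ ^ t * 10 ^ (-k / n)`, `ζ = e ^ (2 π i / n)`,
`t = 0, .., n - 1`, for all `n, k ≥ 1`.
-/

open scoped BigOperators Polynomial Topology
open Metric Filter

namespace Pool.Agent.BBP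

noncomputable section

/-! ## Part A -/

/-- The functions: `exp` of the linear forms with coefficients `A i`; if `lin = true` the function of
index `0` is the linear form itself. -/
def fE {d : ℕ} (lin : Bool) (A : Fin (d + 1) → Fin d → ℂ) (w : Fin d → ℂ) (i : Fin (d + 1)) : ℂ :=
  if lin = true ∧ i = 0 then ∑ s, A i s * w s else Complex.exp (∑ s, A i s * w s)

/-- The functions `fE lin A` are algebraically independent: the forms in the exponentials are
linearly independent over `ℤ`, the linear function is not zero. -/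
def Indep {d : ℕ} (lin : Bool) (A : Fin (d + 1) → Fin d → ℂ) : Prop :=
  (∀ c : Fin (d + 1) → ℤ, (lin = true → c 0 = 0) → (∀ s, ∑ i, (c i : ℂ) * A i s = 0) → c = 0) ∧
  (lin = true → ∃ s, A 0 s ≠ 0)

/-! ## Part B -/

/-- `e ^ (2 π i / n)` -/
def zt (n : ℕ) : ℂ := Complex.exp (2 * Real.pi * Complex.I / n)

/-- `10 ^ (1 / (2 N))` -/
def yN (N : ℕ) : ℂ := (((10 : ℝ) ^ ((1 : ℝ) / (2 * N)) : ℝ) : ℂ)

/-- `10 ^ (- k / n)` -/
def bt (n k : ℕ) : ℂ := (((10 : ℝ) ^ (-(k : ℝ) / n) : ℝ) : ℂ)

/-- A multiplicative relation between the numbers `1 - ζ_n ^ t * 10 ^ (- 1 / (2 N))`, `t < n`. -/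
def Rel (N n : ℕ) (m : ℕ → ℤ) : Prop :=
  ∏ t ∈ Finset.range n, (1 - zt n ^ t / yN N) ^ (m t) = 1

/-- The relation is new at level `N`: its norms to the levels `N / q` vanish. -/
def New (N n : ℕ) (m : ℕ → ℤ) : Prop :=
  ∀ q : ℕ, q.Prime → q ∣ N → ∀ t < n / q, ∑ i ∈ Finset.range q, m (t + i * (n / q)) = 0

/-- The Fourier transform. -/
def Mh (n : ℕ) (m : ℕ → ℤ) (K : ℤ) : ℂ :=
  ∑ t ∈ Finset.range n, (m t : ℂ) * zt n ^ ((t : ℤ) * K)

/-- `v` is a non archimedean absolute value of `ℂ` extending the `P`-adic one. -/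
def IsPV (P : ℕ) (v : AbsoluteValue ℂ ℝ) : Prop :=
  (∀ x y, v (x + y) ≤ max (v x) (v y)) ∧ v (P : ℂ) = (P : ℝ)⁻¹

end

end Pool.Agent.BBP
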