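import Pool.Agent.BBP.Stmts

/-!
# BBP: the theorem (module FINAL)
-/

open scoped BigOperators Polynomial Topology
open Metric Filter Finset

namespace Pool.Agent.BBP

open Pool.Agent.FDR

noncomputable section

namespace FINALX

theorem alg_zt (n : ℕ) (hn : 0 < n) : IsAlgebraic ℚ (zt n) := by
  have h : zt n ^ n = 1 := by
    rw [zt, ← Complex.exp_nat_mul]
    have hn' : (n : ℂ) ≠ 0 := by exact_mod_cast hn.ne'
    have : (n : ℂ) * (2 * Real.pi * Complex.I / n) = 2 * Real.pi * Complex.I :=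
      mul_div_cancel₀ _ hn'
    rw [this, Complex.exp_two_pi_mul_I]
  refine IsAlgebraic.of_pow hn ?_
  rw [h]
  exact isAlgebraic_one

theorem alg_bt (n k : ℕ) (hn : 0 < n) : IsAlgebraic ℚ (bt n k) := by
  have h : bt n k ^ n = ((10 : ℂ) ^ k)⁻¹ := by
    have hr : ((10 : ℝ) ^ (-(k : ℝ) / n)) ^ n = ((10 : ℝ) ^ k)⁻¹ := by
      rw [← Real.rpow_natCast, ← Real.rpow_mul (by norm_num)]
      have : -(k : ℝ) / n * n = -(k : ℝ) := by field_simp
      rw [this, Real.rpow_neg (by norm_num), Real.rpow_natCast]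
    rw [bt, ← Complex.ofReal_pow, hr]
    push_cast
    rfl
  refine IsAlgebraic.of_pow hn ?_
  rw [h]
  have h10 : IsAlgebraic ℚ ((10 : ℂ) ^ k) := by
    have h1 : IsAlgebraic ℚ (10 : ℂ) := by
      have := isAlgebraic_algebraMap (R := ℚ) (A := ℂ) (10 : ℚ)
      simpa using this
    exact h1.pow k
  exact h10.inv

theorem alg_I : IsAlgebraic ℚ Complex.I := by
  refine IsAlgebraic.of_pow (n := 2) (by norm_num) ?_
  rw [Complex.I_sq]
  exact isAlgebraic_one.neg

theorem alg_exp_log (z : ℂ) (hz : IsAlgebraic ℚ z) : IsAlgebraic ℚ (Complex.exp (Complex.log z)) := by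
  by_cases h : z = 0
  · rw [h, Complex.log_zero, Complex.exp_zero]
    exact isAlgebraic_one
  · rw [Complex.exp_log h]
    exact hz

end FINALX

open FINALX in
theorem final_proof (hB : Stmt_Baker) (hI : Stmt_Indk) (hL : Stmt_Lin) : Stmt_Final := by
  intro k p q a b hk hp hq hq0 hnd hroots ha hb ha0 heq
  obtain ⟨n, hn, μ, c, hμ, hc, hsum⟩ := hL k p q hk hp hq hq0 hnd hroots
  have h1 := hsum.tsum_eq
  rw [heq] at h1
  set f : Option (Fin n) → ℂ := fun o : Option (Fin n) =>
    Option.elim o ((Real.pi : ℂ) * Complex.I)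
      (fun t => Complex.log (1 - zt n ^ (t : ℕ) * bt n k)) with hf
  have hli : LinearIndependent ℚ f := hI n k hn hk
  let l : Fin (n + 1) → ℂ := f ∘ finSuccEquiv n
  have hl : LinearIndependent ℚ l := hli.comp _ (finSuccEquiv n).injective
  have hl0 : l 0 = (Real.pi : ℂ) * Complex.I := by
    show f (finSuccEquiv n 0) = _
    rw [finSuccEquiv_zero]
    rfl
  have hls : ∀ t : Fin n, l t.succ = Complex.log (1 - zt n ^ (t : ℕ) * bt n k) := by
    intro t
    show f (finSuccEquiv n t.succ) = _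
    rw [finSuccEquiv_succ]
    rfl
  let β : Fin (n + 1) → ℂ := Fin.cons (Complex.I * a) (fun t : Fin n => c t)
  have hβ0 : β 0 = Complex.I * a := rfl
  have hβs : ∀ t : Fin n, β t.succ = c t := fun t => rfl
  have halg : ∀ i, IsAlgebraic ℚ (Complex.exp (l i)) := by
    intro i
    refine Fin.cases ?_ (fun t => ?_) i
    · rw [hl0, Complex.exp_pi_mul_I]
      exact isAlgebraic_one.neg
    · rw [hls]
      apply alg_exp_log
      exact isAlgebraic_one.sub (((alg_zt n hn).pow _).mul (alg_bt n k hn))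
  have hβalg : ∀ i, IsAlgebraic ℚ (β i) := by
    intro i
    refine Fin.cases ?_ (fun t => ?_) i
    · rw [hβ0]
      exact alg_I.mul ha
    · rw [hβs]
      exact hc _
  have hsum0 : (μ - b) + ∑ i, β i * l i = 0 := by
    rw [Fin.sum_univ_succ, hβ0, hl0]
    have h2 : ∑ t : Fin n, β t.succ * l t.succ =
        ∑ t ∈ range n, c t * Complex.log (1 - zt n ^ t * bt n k) := by
      rw [← Fin.sum_univ_eq_sum_range (fun t => c t * Complex.log (1 - zt n ^ t * bt n k)) n]
      refine Finset.sum_congr rfl fun t _ => ?_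
      rw [hβs, hls]
    rw [h2]
    have h3 : Complex.I * a * ((Real.pi : ℂ) * Complex.I) = -(a * Real.pi) := by
      linear_combination (a * (Real.pi : ℂ)) * Complex.I_sq
    rw [h3]
    linear_combination -h1
  have h4 := (hB (n + 1) l halg hl (μ - b) β (hμ.sub hb) hβalg hsum0).2 0
  rw [hβ0] at h4
  rcases mul_eq_zero.1 h4 with h | h
  · exact Complex.I_ne_zero h
  · exact ha0 h

end

end Pool.Agent.BBP
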