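import Pool.Agent.BBP.Stmts

/-!
# BBP, module LIN: the sum is an algebraic combination of logarithms
-/

open scoped BigOperators Polynomial Topology
open Metric Filter Finset

namespace Pool.Agent.BBP

open Pool.Agent.FDR

noncomputable section

namespace LINX

theorem isAlg_sum {ι : Type*} (s : Finset ι) (f : ι → ℂ) (hf : ∀ i ∈ s, IsAlgebraic ℚ (f i)) :
    IsAlgebraic ℚ (∑ i ∈ s, f i) := by
  classical
  induction s using Finset.induction_on with
  | empty => simpa using isAlgebraic_zero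
  | insert a s ha ih =>
    rw [Finset.sum_insert ha]
    exact (hf a (Finset.mem_insert_self _ _)).add
      (ih (fun i hi => hf i (Finset.mem_insert_of_mem hi)))

end LINX

open LINX in
theorem lin_proof (hS : Stmt_Serq) (hP : Stmt_Pols) (hF : Stmt_Pfr) : Stmt_Lin := by
  classical
  intro k p q hk hp hq hq0 hnd hroots
  obtain ⟨P, S, c, hPa, hca, hSm, hpf⟩ := hF p q hp hq hq0 hnd hroots
  obtain ⟨μ₀, hμ₀, hsum₀⟩ := hP k P hk hPa
  set n : ℕ := ∏ r ∈ S, r.den with hn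
  have hnpos : 0 < n := Finset.prod_pos (fun r _ => r.den_pos)
  have hdvd : ∀ r ∈ S, r.den ∣ n := fun r hr => Finset.dvd_prod_of_mem _ hr
  have hex : ∀ r : ℚ, ∃ (μ : ℂ) (d : ℕ → ℂ), r ∈ S → (IsAlgebraic ℚ μ ∧
      (∀ t, IsAlgebraic ℚ (d t)) ∧
      HasSum (fun m : ℕ => 1 / (((m : ℂ) - (r : ℂ)) * 10 ^ (k * m)))
        (μ + ∑ t ∈ range n, d t * Complex.log (1 - zt n ^ t * bt n k))) := by
    intro r
    by_cases hr : r ∈ S
    · obtain ⟨μ, d, h1, h2, h3⟩ := hS n k r hnpos hk (hSm r hr) (hdvd r hr)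
      exact ⟨μ, d, fun _ => ⟨h1, h2, h3⟩⟩
    · exact ⟨0, 0, fun h => absurd h hr⟩
  choose μ d hμd using hex
  refine ⟨n, hnpos, μ₀ + ∑ r ∈ S, c r * μ r, fun t => ∑ r ∈ S, c r * d r t, ?_, ?_, ?_⟩
  · exact hμ₀.add (isAlg_sum S _ (fun r hr => (hca r).mul (hμd r hr).1))
  · intro t
    exact isAlg_sum S _ (fun r hr => (hca r).mul ((hμd r hr).2.1 t))
  · have h1 : HasSum (fun m : ℕ => P.eval (m : ℂ) / 10 ^ (k * m) +
        ∑ r ∈ S, c r * (1 / (((m : ℂ) - (r : ℂ)) * 10 ^ (k * m))))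
        (μ₀ + ∑ r ∈ S, c r * (μ r + ∑ t ∈ range n, d r t *
          Complex.log (1 - zt n ^ t * bt n k))) :=
      hsum₀.add (hasSum_sum (fun r hr => ((hμd r hr).2.2).mul_left (c r)))
    have h2 : (μ₀ + ∑ r ∈ S, c r * (μ r + ∑ t ∈ range n, d r t *
          Complex.log (1 - zt n ^ t * bt n k))) =
        μ₀ + ∑ r ∈ S, c r * μ r + ∑ t ∈ range n, (∑ r ∈ S, c r * d r t) *
          Complex.log (1 - zt n ^ t * bt n k) := by
      simp only [mul_add, Finset.sum_add_distrib, Finset.mul_sum, Finset.sum_mul]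
      rw [Finset.sum_comm (s := S) (t := range n), add_assoc]
      simp only [mul_assoc]
    rw [h2] at h1
    have h3 : (fun m : ℕ => p.eval (m : ℂ) / (q.eval (m : ℂ) * 10 ^ (k * m))) =
        fun m : ℕ => P.eval (m : ℂ) / 10 ^ (k * m) +
          ∑ r ∈ S, c r * (1 / (((m : ℂ) - (r : ℂ)) * 10 ^ (k * m))) := by
      funext m
      rw [← div_div, hpf m, add_div, Finset.sum_div]
      congr 1
      refine Finset.sum_congr rfl (fun r _ => ?_)
      rw [div_div, mul_one_div]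
    rw [h3]
    exact h1

end

end Pool.Agent.BBP
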