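import Pool.Agent.BBP.Stmts

/-!
# BBP / MODL: the support of a new relation consists of roots of unity of small order
-/

open scoped BigOperators Polynomial Topology
open Metric Filter Finset

namespace Pool.Agent.BBP

theorem modl_proof (hT : Stmt_Tbad) : Stmt_Modl := by
  classical
  intro N n hN hn hd m hR hNew hne
  have hT' := hT N n hN hn hd m hR hNew
  choose! e A he ho h5 hA hP using hT'
  set T : Finset ℕ := (range n).filter fun t => m t ≠ 0 with hTdef
  have hTm : ∀ t, t ∈ T ↔ t < n ∧ m t ≠ 0 := by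
    intro t
    rw [hTdef, mem_filter, mem_range]
  set Es : Finset ℕ := T.image e with hEs
  have hrep : ∀ x ∈ Es, ∃ t ∈ T, e t = x := by
    intro x hx
    rw [hEs, mem_image] at hx
    exact hx
  choose! tt htT hte using hrep
  have hcop : Set.Pairwise (Es : Set ℕ) (Function.onFun Nat.Coprime fun x => A (tt x)) := by
    intro x hx y hy hxy
    change Nat.Coprime (A (tt x)) (A (tt y))
    rw [Nat.coprime_iff_gcd_eq_one]
    by_contra h
    obtain ⟨P, hPp, hPd⟩ := Nat.exists_prime_and_dvd h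
    have h1 := hP (tt x) ((hTm _).1 (htT x hx)).1 ((hTm _).1 (htT x hx)).2 P hPp
      (hPd.trans (Nat.gcd_dvd_left _ _))
    have h2 := hP (tt y) ((hTm _).1 (htT y hy)).1 ((hTm _).1 (htT y hy)).2 P hPp
      (hPd.trans (Nat.gcd_dvd_right _ _))
    rw [hte x hx] at h1
    rw [hte y hy] at h2
    exact hxy (h1.symm.trans h2)
  have hdvd : ∏ x ∈ Es, A (tt x) ∣ N := by
    have h1 : ∏ x ∈ Es, (A (tt x) : ℤ) ∣ (N : ℤ) := by
      apply Finset.prod_dvd_of_coprime
      · intro x hx y hy hxy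
        exact Nat.isCoprime_iff_coprime.2 (hcop hx hy hxy)
      · intro x hx
        exact Int.natCast_dvd_natCast.2
          (hA _ ((hTm _).1 (htT x hx)).1 ((hTm _).1 (htT x hx)).2)
    rw [← Nat.cast_prod] at h1
    exact Int.natCast_dvd_natCast.1 h1
  have hpos : ∀ x ∈ Es, 0 < x := by
    intro x hx
    have := he _ ((hTm _).1 (htT x hx)).1 ((hTm _).1 (htT x hx)).2
    rwa [hte x hx] at this
  have hprodpos : 0 < ∏ x ∈ Es, x := Finset.prod_pos hpos
  refine ⟨2 * ∏ x ∈ Es, x, by omega, ?_, ?_⟩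
  · have h1 : ∏ x ∈ Es, (5 * x) ≤ ∏ x ∈ Es, A (tt x) := by
      apply Finset.prod_le_prod'
      intro x hx
      have := h5 _ ((hTm _).1 (htT x hx)).1 ((hTm _).1 (htT x hx)).2
      rwa [hte x hx] at this
    have h2 : ∏ x ∈ Es, A (tt x) ≤ N := Nat.le_of_dvd hN hdvd
    rw [Finset.prod_mul_distrib, Finset.prod_const] at h1
    have hcard : 1 ≤ Es.card := by
      obtain ⟨t, ht, hmt⟩ := hne
      rw [Nat.one_le_iff_ne_zero, Finset.card_ne_zero]
      exact ⟨e t, by rw [hEs]; exact mem_image_of_mem e ((hTm t).2 ⟨ht, hmt⟩)⟩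
    have h3 : 5 ≤ 5 ^ Es.card := by
      calc 5 = 5 ^ 1 := by norm_num
        _ ≤ 5 ^ Es.card := Nat.pow_le_pow_right (by norm_num) hcard
    have h4 : 5 * ∏ x ∈ Es, x ≤ 5 ^ Es.card * ∏ x ∈ Es, x := Nat.mul_le_mul_right _ h3
    omega
  · intro t ht hmt
    have h1 := ho t ht hmt
    have h2 : e t ∣ ∏ x ∈ Es, x :=
      Finset.dvd_prod_of_mem (fun x => x)
        (by rw [hEs]; exact mem_image_of_mem e ((hTm t).2 ⟨ht, hmt⟩))
    have h3 : orderOf (zt n ^ (N * t)) ∣ 2 * ∏ x ∈ Es, x :=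
      h1.trans (Nat.mul_dvd_mul_left 2 h2)
    rw [pow_mul]
    exact orderOf_dvd_iff_pow_eq_one.1 h3

end Pool.Agent.BBP
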