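import Pool.Agent.BBP.Defs

/-!
# BBP: the module statements

The text with the proofs: /team-store/MP_57632f_BBP.md
-/

open scoped BigOperators Polynomial Topology
open Metric Filter Finset

namespace Pool.Agent.BBP

open Pool.Agent.FDR

noncomputable section

/-! ## Part A: Baker's theorem -/

/-- SCHWB: Schwarz's lemma for zeros of order `k` at `0, .., S - 1`. -/
def Stmt_Schwb : Prop := ∀ (g : ℂ → ℂ) (S k j : ℕ) (R B : ℝ), j < S → 1 ≤ R →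
  AnalyticOnNhd ℂ g (ball 0 (R + S + 1)) → (∀ t ∈ ball (0 : ℂ) (R + S + 1), ‖g t‖ ≤ B) →
  (∀ m : ℕ, m < S → (fun t : ℂ => g (m + t)) =O[𝓝 0] (fun t => ‖t‖ ^ k)) →
  ‖iteratedDeriv k g j‖ ≤ k.factorial * ((S : ℝ) ^ S) ^ k * B * (R ^ (S * k))⁻¹

/-- EAUX: the auxiliary polynomial for several points, with sharp constants. -/
def Stmt_Eaux : Prop := ∀ (d n : ℕ), 0 < d → ∀ (K : IntermediateField ℚ ℂ),
  FiniteDimensional ℚ K → ∀ (P : Fin d → Fin n → MvPolynomial (Fin n) K)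
    (Q : Fin (d + 1) → MvPolynomial (Fin n) K) (ι : Type) [Fintype ι] [Nonempty ι]
    (a : ι → Fin n → K),
  (∀ x, ∀ l l' : List (Fin d), l.Perm l' → ∀ R : MvPolynomial (Fin n) K,
    MvPolynomial.eval (a x) (dops P l R) = MvPolynomial.eval (a x) (dops P l' R)) →
  ∃ C : ℝ, 1 ≤ C ∧ ∀ U : ℕ, 2 ≤ U →
    ∃ p : (Fin (d + 1) → Fin (2 * Fintype.card ι * U ^ d)) → K, p ≠ 0 ∧
    (∀ e, ‖(p e : ℂ)‖ ≤ Real.exp (((U ^ (d + 1) : ℕ) : ℝ) * Real.log ((U ^ (d + 1) : ℕ) : ℝ) +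
      C * ((U ^ (d + 1) : ℕ) : ℝ))) ∧
    (∀ x, ∀ l : List (Fin d), l.length < U ^ (d + 1) →
      ∑ e, p e * MvPolynomial.eval (a x) (dops P l (∏ i, Q i ^ (e i : ℕ))) = 0) ∧
    ∀ x, ∀ l : List (Fin d), U ^ (d + 1) ≤ l.length →
      ∑ e, p e * MvPolynomial.eval (a x) (dops P l (∏ i, Q i ^ (e i : ℕ))) ≠ 0 →
      Real.exp (-(Module.finrank ℚ K * (2 * l.length * Real.log l.length + C * l.length))) ≤
        ‖((∑ e, p e * MvPolynomial.eval (a x) (dops P l (∏ i, Q i ^ (e i : ℕ))) : K) : ℂ)‖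

/-- ENUM: the numerical contradiction. -/
def Stmt_Enum : Prop := ∀ (d D S : ℕ), 0 < d → S = d * (d + 1) * (2 * D + 4) →
  ∀ C : ℝ, 1 ≤ C → ∃ U : ℕ, 2 ≤ U ∧ ∀ M k : ℕ, U ^ (d + 1) ≤ M → M ≤ d * k → k ≤ M → ∀ R : ℝ,
    R = (M : ℝ) ^ ((1 : ℝ) / (d + 1)) →
    C ^ M * ((M : ℝ) ^ M * ((S : ℝ) ^ S) ^ M * ((M : ℝ) ^ M *
      ((2 * S ^ d * U ^ d : ℕ) : ℝ) ^ (d + 1) *
      Real.exp (((U ^ (d + 1) : ℕ) : ℝ) * Real.log ((U ^ (d + 1) : ℕ) : ℝ) +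
        C * ((U ^ (d + 1) : ℕ) : ℝ)) *
      Real.exp (C * ((2 * S ^ d * U ^ d : ℕ) : ℝ) * (R + S + 2))) * (R ^ (S * k))⁻¹) <
    Real.exp (-(D * (2 * M * Real.log M + C * M)))

/-- EXPP: exponentials with different exponents are linearly independent over the polynomials. -/
def Stmt_Expp : Prop := ∀ (ι : Type) [Fintype ι] (lam : ι → ℂ), Function.Injective lam →
  ∀ P : ι → ℂ[X], (∀ t : ℂ, ∑ i, (P i).eval t * Complex.exp (lam i * t) = 0) → ∀ i, P i = 0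

/-- ENZ: the functions `fE lin A` are algebraically independent. -/
def Stmt_Enz : Prop := ∀ (d L : ℕ) (lin : Bool) (A : Fin (d + 1) → Fin d → ℂ), Indep lin A →
  ∀ p : (Fin (d + 1) → Fin L) → ℂ,
    (∀ w : Fin d → ℂ, ∑ e, p e * ∏ i, fE lin A w i ^ (e i : ℕ) = 0) → p = 0

/-- ESLK: Schneider-Lang theorem for exponential functions on a cartesian product, number field
version. -/
def Stmt_Eslk : Prop := ∀ (d : ℕ), 0 < d → ∀ (K : IntermediateField ℚ ℂ),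
  FiniteDimensional ℚ K → ∀ (lin : Bool) (A : Fin (d + 1) → Fin d → ℂ) (v : Fin d → Fin d → ℂ),
  LinearIndependent ℂ v → Indep lin A → (∀ i j, ∑ s, A i s * v j s ∈ K) →
  (∀ i s, fE lin A (stdv s) i ∈ K) → False

/-- ESL: Schneider-Lang theorem for exponential functions on a cartesian product. -/
def Stmt_Esl : Prop := ∀ (d : ℕ), 0 < d → ∀ (lin : Bool) (A : Fin (d + 1) → Fin d → ℂ)
  (v : Fin d → Fin d → ℂ), LinearIndependent ℂ v → Indep lin A →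
  (∀ i j, IsAlgebraic ℚ (∑ s, A i s * v j s)) →
  (∀ i s, IsAlgebraic ℚ (fE lin A (stdv s) i)) → False

/-- TRD: a basis of a number field, its conjugates and the dual basis. -/
def Stmt_Trd : Prop := ∀ S : Finset ℂ, (∀ b ∈ S, IsAlgebraic ℚ b) →
  ∃ (d : ℕ) (E X : Fin d → Fin d → ℂ) (σ₀ : Fin d) (M : Fin d → Fin d → Fin d → ℚ),
    (∀ σ k, IsAlgebraic ℚ (E σ k)) ∧ (∀ k σ, IsAlgebraic ℚ (X k σ)) ∧
    (∀ j k, ∑ σ, E σ j * X k σ = if j = k then 1 else 0) ∧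
    (∀ σ, ∀ r : Fin d → ℚ, ∑ k, (r k : ℂ) * X k σ = 0 → r = 0) ∧
    (∀ σ k j, E σ k * E σ j = ∑ l, (M k j l : ℂ) * E σ l) ∧
    ∀ b ∈ S, ∃ z : Fin d → ℚ, b = ∑ k, (z k : ℂ) * E σ₀ k

/-- BAKER: Baker's theorem (qualitative, inhomogeneous). -/
def Stmt_Baker : Prop := ∀ (n : ℕ) (l : Fin n → ℂ), (∀ i, IsAlgebraic ℚ (Complex.exp (l i))) →
  LinearIndependent ℚ l → ∀ (b₀ : ℂ) (b : Fin n → ℂ), IsAlgebraic ℚ b₀ →
  (∀ i, IsAlgebraic ℚ (b i)) → b₀ + ∑ i, b i * l i = 0 → b₀ = 0 ∧ ∀ i, b i = 0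

/-! ## Part B: automorphisms -/

/-- CONJ: conjugate algebraic numbers are conjugate under the automorphisms of `ℂ`. -/
def Stmt_Conj : Prop := ∀ x y : ℂ, IsAlgebraic ℚ x → minpoly ℚ x = minpoly ℚ y →
  ∃ σ : ℂ ≃ₐ[ℚ] ℂ, σ x = y

/-- CYCA: automorphisms acting on roots of unity. -/
def Stmt_Cyca : Prop := ∀ n a : ℕ, 0 < n → a.Coprime n → ∃ σ : ℂ ≃ₐ[ℚ] ℂ, σ (zt n) = zt n ^ a

/-- SHIFT: Kummer automorphisms fixing the roots of unity. -/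
def Stmt_Shift : Prop := ∀ N n : ℕ, 0 < N → 0 < n → 2 * N ∣ n → ∀ s : ℕ,
  ∃ σ : ℂ ≃ₐ[ℚ] ℂ, σ (zt n) = zt n ∧ σ (yN N) = zt N ^ s * yN N

/-- GSS: Gauss sums: the square root of `10` is not in the field of the `ε`-th roots of unity unless
`40` divides `ε`. -/
def Stmt_Gss : Prop := ∀ ε : ℕ, 0 < ε → ¬ 40 ∣ ε →
  ∃ τ : ℂ ≃ₐ[ℚ] ℂ, τ (zt ε) = zt ε ∧ τ (yN 1) = -yN 1

/-! ## Part B: archimedean estimates -/

/-- FOU: the Fourier coefficients of a relation satisfied by all shifts. -/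
def Stmt_Fou : Prop := ∀ N n : ℕ, 0 < N → 0 < n → N ∣ n → ∀ (m : ℕ → ℤ) (a : ℕ) (ω : ℂ) (β : ℝ),
  ‖ω‖ = 1 → 0 < β → β < 1 →
  (∀ s : ℕ, ∏ t ∈ range n, ‖1 - zt n ^ (a * t) * (ω * zt N ^ s) * β‖ ^ (m t) = 1) →
  ∀ B : ℝ, (∀ K : ℤ, ‖Mh n m K‖ ≤ B) → ∀ c : ℕ, 0 < c → c < N →
  ‖Mh n m (a * c)‖ * (β ^ c / c) ≤ B * ∑' j : ℕ, (β ^ (c + N * (j + 1)) / (c + N * (j + 1) : ℕ) +
    β ^ (N * (j + 1) - c) / (N * (j + 1) - c : ℕ))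

/-- DNUM: the numerical inequality. -/
def Stmt_Dnum : Prop := ∀ (N c : ℕ) (β : ℝ), 0 < c → 5 * c ≤ 2 * N →
  β = (10 : ℝ) ^ (-(1 : ℝ) / (2 * N)) →
  ∑' j : ℕ, (β ^ (c + N * (j + 1)) / (c + N * (j + 1) : ℕ) +
    β ^ (N * (j + 1) - c) / (N * (j + 1) - c : ℕ)) < β ^ c / c

/-! ## Part B: absolute values and primes -/

/-- PAV: extension of the `P`-adic absolute value to `ℂ`. -/
def Stmt_Pav : Prop := ∀ P : ℕ, P.Prime → ∃ v : AbsoluteValue ℂ ℝ, IsPV P v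

/-- ROU: values of integers, algebraic integers and roots of unity. -/
def Stmt_Rou : Prop := ∀ (P : ℕ) (v : AbsoluteValue ℂ ℝ), P.Prime → IsPV P v →
  (∀ (z : ℂ) (n : ℕ), 0 < n → z ^ n = 1 → v z = 1) ∧
  (∀ z : ℂ, IsIntegral ℤ z → v z ≤ 1) ∧
  (∀ k : ℕ, 0 < k → v (k : ℂ) = ((P : ℝ)⁻¹) ^ (padicValNat P k)) ∧
  (∀ (z : ℂ) (n : ℕ), 0 < n → z ^ n = 1 → z ≠ 1 → v (1 - z) < 1 →
    ∃ j : ℕ, 0 < j ∧ orderOf z = P ^ j) ∧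
  (∀ (z : ℂ) (j : ℕ), 0 < j → orderOf z = P ^ j →
    v (1 - z) ^ (Nat.totient (P ^ j)) = (P : ℝ)⁻¹)

/-- The product of the prime powers of `10 ^ e - 1` for the primes for which `10` has order
exactly `e`. -/
def Ae (e : ℕ) : ℕ :=
  ∏ P ∈ (10 ^ e - 1).primeFactors with orderOf (10 : ZMod P) = e, P ^ padicValNat P (10 ^ e - 1)

/-- TOT: a lower bound for Euler's function. -/
def Stmt_Tot : Prop := ∀ e : ℕ, e ≤ 2 * (Nat.totient e) ^ 2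

/-- CYCP: primitive and non primitive primes in cyclotomic values. -/
def Stmt_Cycp : Prop := ∀ e : ℕ, 0 < e →
  (∃ P₀ : ℕ, (P₀ = 1 ∨ (P₀.Prime ∧ P₀ ∣ e ∧ ¬ P₀ ∣ 10)) ∧
    (Polynomial.cyclotomic e ℤ).eval 10 = ((Ae e * P₀ : ℕ) : ℤ)) ∧
  ∀ P : ℕ, P.Prime → orderOf (10 : ZMod P) = e →
    padicValNat P ((Polynomial.cyclotomic e ℤ).eval 10).natAbs = padicValNat P (10 ^ e - 1)

/-- PHI: the primitive part is large. -/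
def Stmt_Phi : Prop := ∀ e : ℕ, 0 < e → 5 * e ≤ Ae e

/-- STEP: from the square root of `10` to the `2N`-th root. -/
def Stmt_Step : Prop := ∀ N n : ℕ, 0 < N → 0 < n → 2 * N ∣ n → ∀ (t P : ℕ)
  (v : AbsoluteValue ℂ ℝ), P.Prime → IsPV P v → v (yN 1 - zt n ^ (N * t)) < 1 →
  ∃ v' : AbsoluteValue ℂ ℝ, IsPV P v' ∧ v' (yN N - zt n ^ t) < 1

/-- PRMA: if `20` does not divide `e`, all primes for which `10` has order `e` are reached. -/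
def Stmt_Prma : Prop := ∀ N n : ℕ, 0 < N → 0 < n → 2 * N ∣ n → ∀ t : ℕ,
  ¬ 20 ∣ orderOf (zt n ^ (2 * N * t)) → ∀ P : ℕ, P.Prime →
  orderOf (10 : ZMod P) = orderOf (zt n ^ (2 * N * t)) →
  ∃ v : AbsoluteValue ℂ ℝ, IsPV P v ∧ v (yN N - zt n ^ t) < 1

/-- NRMA: the case `20 ∣ e` (Aurifeuillian factors). -/
def Stmt_Nrma : Prop := ∀ N n : ℕ, 0 < N → 0 < n → 2 * N ∣ n → ∀ t : ℕ,
  20 ∣ orderOf (zt n ^ (2 * N * t)) →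
  ∃ S : Finset ℕ, (∀ P ∈ S, P.Prime ∧ orderOf (10 : ZMod P) = orderOf (zt n ^ (2 * N * t)) ∧
    ∃ v : AbsoluteValue ℂ ℝ, IsPV P v ∧ v (yN N - zt n ^ t) < 1) ∧
  5 * orderOf (zt n ^ (2 * N * t)) ≤
    ∏ P ∈ S, P ^ padicValNat P (10 ^ orderOf (zt n ^ (2 * N * t)) - 1)

/-- SIZE: PRMA and NRMA together. -/
def Stmt_Size : Prop := ∀ N n : ℕ, 0 < N → 0 < n → 2 * N ∣ n → ∀ t : ℕ,
  ∃ S : Finset ℕ, (∀ P ∈ S, P.Prime ∧ orderOf (10 : ZMod P) = orderOf (zt n ^ (2 * N * t)) ∧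
    ∃ v : AbsoluteValue ℂ ℝ, IsPV P v ∧ v (yN N - zt n ^ t) < 1) ∧
  5 * orderOf (zt n ^ (2 * N * t)) ≤
    ∏ P ∈ S, P ^ padicValNat P (10 ^ orderOf (zt n ^ (2 * N * t)) - 1)

/-- PADT: the support of a new relation. -/
def Stmt_Padt : Prop := ∀ N n : ℕ, 0 < N → 0 < n → 2 * N ∣ n → ∀ m : ℕ → ℤ, Rel N n m →
  New N n m → ∀ (P : ℕ) (v : AbsoluteValue ℂ ℝ), P.Prime → IsPV P v → ∀ t < n, m t ≠ 0 →
  v (yN N - zt n ^ t) < 1 → ¬ P ∣ orderOf (zt n ^ (N * t)) →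
  ¬ P ^ padicValNat P (10 ^ orderOf (zt n ^ (2 * N * t)) - 1) ∣ N →
  ∃ t' < n, m t' ≠ 0 ∧ ∃ j : ℕ, 0 < j ∧
    orderOf (zt n ^ (N * t')) = orderOf (zt n ^ (N * t)) * P ^ j

/-! ## Part B: relations -/

/-- NORM: the norm of a relation. -/
def Stmt_Norm : Prop := ∀ N n : ℕ, 0 < N → 0 < n → 2 * N ∣ n → ∀ m : ℕ → ℤ, Rel N n m →
  ∀ q : ℕ, q.Prime → q ∣ N →
    Rel (N / q) (n / q) (fun t => ∑ i ∈ range q, m (t + i * (n / q)))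

/-- TBAD: every element of the support of a new relation divides a truly bad one. -/
def Stmt_Tbad : Prop := ∀ N n : ℕ, 0 < N → 0 < n → 2 * N ∣ n → ∀ m : ℕ → ℤ, Rel N n m →
  New N n m → ∀ t < n, m t ≠ 0 → ∃ e A : ℕ, 0 < e ∧ orderOf (zt n ^ (N * t)) ∣ 2 * e ∧
    5 * e ≤ A ∧ A ∣ N ∧ ∀ P : ℕ, P.Prime → P ∣ A → orderOf (10 : ZMod P) = e

/-- MODL: the support of a new relation consists of roots of unity of small order. -/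
def Stmt_Modl : Prop := ∀ N n : ℕ, 0 < N → 0 < n → 2 * N ∣ n → ∀ m : ℕ → ℤ, Rel N n m →
  New N n m → (∃ t < n, m t ≠ 0) →
  ∃ G : ℕ, 0 < G ∧ 5 * G ≤ 2 * N ∧ ∀ t < n, m t ≠ 0 → zt n ^ (N * t * G) = 1

/-- INDN: a new relation is trivial. -/
def Stmt_Indn : Prop := ∀ N n : ℕ, 0 < N → 0 < n → 2 * N ∣ n → ∀ m : ℕ → ℤ, Rel N n m →
  New N n m → ∀ t < n, m t = 0

/-- IND: all relations are trivial. -/
def Stmt_Ind : Prop := ∀ N n : ℕ, 0 < N → 0 < n → 2 * N ∣ n → ∀ m : ℕ → ℤ, Rel N n m →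
  ∀ t < n, m t = 0

/-- INDK: `π i` and the logarithms are linearly independent. -/
def Stmt_Indk : Prop := ∀ n k : ℕ, 0 < n → 0 < k →
  LinearIndependent ℚ (fun o : Option (Fin n) =>
    Option.elim o ((Real.pi : ℂ) * Complex.I)
      (fun t => Complex.log (1 - zt n ^ (t : ℕ) * bt n k)))

/-! ## Part B: the series -/

/-- SER: the basic series. -/
def Stmt_Ser : Prop := ∀ n k j : ℕ, 0 < n → 0 < k → 0 < j → j ≤ n →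
  HasSum (fun m : ℕ => 1 / (((n * m + j : ℕ) : ℂ) * 10 ^ (k * m)))
    (∑ t ∈ range n, (-((zt n ^ (j * t))⁻¹ / (n * bt n k ^ j))) *
      Complex.log (1 - zt n ^ t * bt n k))

/-- SERQ: one simple pole. -/
def Stmt_Serq : Prop := ∀ (n k : ℕ) (r : ℚ), 0 < n → 0 < k → (∀ m : ℕ, r ≠ m) → r.den ∣ n →
  ∃ (μ : ℂ) (c : ℕ → ℂ), IsAlgebraic ℚ μ ∧ (∀ t, IsAlgebraic ℚ (c t)) ∧
    HasSum (fun m : ℕ => 1 / (((m : ℂ) - (r : ℂ)) * 10 ^ (k * m)))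
      (μ + ∑ t ∈ range n, c t * Complex.log (1 - zt n ^ t * bt n k))

/-- POLS: polynomial coefficients. -/
def Stmt_Pols : Prop := ∀ (k : ℕ) (P : ℂ[X]), 0 < k → (∀ i, IsAlgebraic ℚ (P.coeff i)) →
  ∃ μ : ℂ, IsAlgebraic ℚ μ ∧ HasSum (fun m : ℕ => P.eval (m : ℂ) / 10 ^ (k * m)) μ

/-- PFR: partial fractions. -/
def Stmt_Pfr : Prop := ∀ (p q : ℂ[X]), (∀ i, IsAlgebraic ℚ (p.coeff i)) →
  (∀ i, IsAlgebraic ℚ (q.coeff i)) → q ≠ 0 → q.roots.Nodup →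
  (∀ z ∈ q.roots, ∃ r : ℚ, z = r ∧ ∀ m : ℕ, r ≠ m) →
  ∃ (P : ℂ[X]) (S : Finset ℚ) (c : ℚ → ℂ), (∀ i, IsAlgebraic ℚ (P.coeff i)) ∧
    (∀ r, IsAlgebraic ℚ (c r)) ∧ (∀ r ∈ S, ∀ m : ℕ, r ≠ m) ∧
    ∀ m : ℕ, p.eval (m : ℂ) / q.eval (m : ℂ) =
      P.eval (m : ℂ) + ∑ r ∈ S, c r / ((m : ℂ) - (r : ℂ))

/-- LIN: the sum is an algebraic combination of logarithms. -/
def Stmt_Lin : Prop := ∀ (k : ℕ) (p q : ℂ[X]), 0 < k → (∀ i, IsAlgebraic ℚ (p.coeff i)) →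
  (∀ i, IsAlgebraic ℚ (q.coeff i)) → q ≠ 0 → q.roots.Nodup →
  (∀ z ∈ q.roots, ∃ r : ℚ, z = r ∧ ∀ m : ℕ, r ≠ m) →
  ∃ n : ℕ, 0 < n ∧ ∃ (μ : ℂ) (c : ℕ → ℂ), IsAlgebraic ℚ μ ∧ (∀ t, IsAlgebraic ℚ (c t)) ∧
    HasSum (fun m : ℕ => p.eval (m : ℂ) / (q.eval (m : ℂ) * 10 ^ (k * m)))
      (μ + ∑ t ∈ range n, c t * Complex.log (1 - zt n ^ t * bt n k))

/-- FINAL: the theorem. -/
def Stmt_Final : Prop := ∀ (k : ℕ) (p q : ℂ[X]) (a b : ℂ), 0 < k →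
  (∀ i, IsAlgebraic ℚ (p.coeff i)) → (∀ i, IsAlgebraic ℚ (q.coeff i)) → q ≠ 0 →
  q.roots.Nodup → (∀ z ∈ q.roots, ∃ r : ℚ, z = r ∧ ∀ m : ℕ, r ≠ m) →
  IsAlgebraic ℚ a → IsAlgebraic ℚ b → a ≠ 0 →
  ∑' m : ℕ, p.eval (m : ℂ) / (q.eval (m : ℂ) * 10 ^ (k * m)) ≠ a * Real.pi + b

end

end Pool.Agent.BBP
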