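import Pool.Agent.BBP.Stmts

/-!
BBP/TRD (helper92): a basis of a number field, its conjugates and the dual basis.
-/

open scoped BigOperators
open Finset Module

namespace Pool.Agent.BBP

theorem trd_proof : Stmt_Trd := by
  intro S hS
  let F : IntermediateField ℚ ℂ := IntermediateField.adjoin ℚ (S : Set ℂ)
  have hfd : FiniteDimensional ℚ F :=
    IntermediateField.finiteDimensional_adjoin fun x hx => (hS x hx).isIntegral
  let d := finrank ℚ F
  let ξ : Basis (Fin d) ℚ F := finBasis ℚ F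
  have hcard : Fintype.card (F →ₐ[ℚ] ℂ) = d := AlgHom.card ℚ F ℂ
  let e : (F →ₐ[ℚ] ℂ) ≃ Fin d := Fintype.equivFinOfCardEq hcard
  let ξ' : Basis (Fin d) ℚ F := (Algebra.traceForm ℚ F).dualBasis
    (traceForm_nondegenerate ℚ F) ξ
  have halg : ∀ (σ : F →ₐ[ℚ] ℂ) (x : F), IsAlgebraic ℚ (σ x) := by
    intro σ x
    have h1 : IsAlgebraic ℚ x := Algebra.IsAlgebraic.isAlgebraic x
    exact h1.algHom σ
  have hsm : ∀ (σ : F →ₐ[ℚ] ℂ) (q : ℚ) (x : F), σ (q • x) = (q : ℂ) * σ x := by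
    intro σ q x
    rw [Algebra.smul_def, map_mul, AlgHom.commutes]
    rfl
  obtain ⟨v, hv⟩ : ∃ v : F →ₐ[ℚ] ℂ, ∀ x : F, v x = (x : ℂ) := ⟨F.val, fun x => rfl⟩
  refine ⟨d, fun σ k => e.symm σ (ξ k), fun k σ => e.symm σ (ξ' k), e v,
    fun k j l => ξ.repr (ξ k * ξ j) l, fun σ k => halg _ _, fun k σ => halg _ _, ?_, ?_, ?_, ?_⟩
  · intro j k
    have h1 : Algebra.traceForm ℚ F (ξ' k) (ξ j) = if j = k then 1 else 0 :=
      LinearMap.BilinForm.apply_dualBasis_left _ _ _ _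
    rw [Algebra.traceForm_apply] at h1
    have h2 := trace_eq_sum_embeddings (K := ℚ) (L := F) ℂ (x := ξ' k * ξ j)
    rw [h1] at h2
    have h3 : ∑ σ : Fin d, e.symm σ (ξ j) * e.symm σ (ξ' k) =
        ∑ σ : F →ₐ[ℚ] ℂ, σ (ξ' k * ξ j) := by
      rw [← Equiv.sum_comp e.symm]
      refine Finset.sum_congr rfl fun σ _ => ?_
      rw [map_mul, mul_comm]
    rw [h3, ← h2]
    split_ifs <;> simp
  · intro σ r hr
    have h1 : e.symm σ (∑ k, r k • ξ' k) = 0 := by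
      rw [map_sum, ← hr]
      refine Finset.sum_congr rfl fun k _ => ?_
      rw [hsm]
    have h2 : ∑ k, r k • ξ' k = 0 := (map_eq_zero (e.symm σ)).1 h1
    have h3 := Fintype.linearIndependent_iff.1 ξ'.linearIndependent r h2
    exact funext h3
  · intro σ k j
    have h1 : ξ k * ξ j = ∑ l, ξ.repr (ξ k * ξ j) l • ξ l := (ξ.sum_repr _).symm
    show e.symm σ (ξ k) * e.symm σ (ξ j) = ∑ l, ((ξ.repr (ξ k * ξ j) l : ℚ) : ℂ) * e.symm σ (ξ l)
    rw [← map_mul]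
    conv_lhs => rw [h1]
    rw [map_sum]
    refine Finset.sum_congr rfl fun l _ => ?_
    rw [hsm]
  · intro b hb
    have hbF : b ∈ F := IntermediateField.subset_adjoin ℚ _ hb
    refine ⟨fun k => ξ.repr ⟨b, hbF⟩ k, ?_⟩
    have h1 : (⟨b, hbF⟩ : F) = ∑ l, ξ.repr ⟨b, hbF⟩ l • ξ l := (ξ.sum_repr _).symm
    have h2 := congrArg v h1
    rw [map_sum] at h2
    simp only [hsm] at h2
    rw [hv] at h2
    simp only [Equiv.symm_apply_apply]
    exact h2

end Pool.Agent.BBP
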